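import Mathlib

/-!
# The gamma coefficients of the Eulerian polynomials: inequalities

`g m f` is the gamma coefficient `γ_{m+1,f}` of the Eulerian polynomial of degree `m`.
-/

namespace Pool.Agent.V11172.Boel

/-- the gamma coefficients `γ_{m+1,f}` of the Eulerian polynomials -/
def g : ℕ → ℕ → ℕ
  | 0, 0 => 1
  | 0, _ + 1 => 0
  | m + 1, 0 => g m 0
  | m + 1, f + 1 => (f + 2) * g m (f + 1) + 2 * (m - 2 * f) * g m f

lemma g_zero (m : ℕ) : g m 0 = 1 := by
  induction m with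
  | zero => rfl
  | succ m ih => rw [g, ih]

lemma g_eq_zero : ∀ m f : ℕ, m < 2 * f → g m f = 0
  | 0, 0, h => by omega
  | 0, f + 1, _ => rfl
  | m + 1, 0, h => by omega
  | m + 1, f + 1, h => by
    rw [g, g_eq_zero m (f + 1) (by omega), mul_zero, zero_add]
    rcases Nat.lt_or_ge m (2 * f) with h1 | h1
    · rw [g_eq_zero m f h1, mul_zero]
    · rw [show m - 2 * f = 0 by omega, mul_zero, zero_mul]

lemma g_pos : ∀ m f : ℕ, 2 * f ≤ m → 0 < g m f
  | 0, 0, _ => by decide
  | 0, f + 1, h => by omega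
  | m + 1, 0, _ => by rw [g_zero]; decide
  | m + 1, f + 1, h => by
    rw [g]
    have h1 := g_pos m f (by omega)
    have h2 : 0 < m - 2 * f := by omega
    positivity

/-- the real version of the recurrence, with an honest subtraction -/
lemma g_rec (m f : ℕ) : (g (m + 1) (f + 1) : ℝ) =
    (f + 2) * g m (f + 1) + 2 * ((m : ℝ) - 2 * f) * g m f := by
  rcases Nat.lt_or_ge m (2 * f) with h | h
  · rw [g, g_eq_zero m f h]
    push_cast
    ring
  · rw [g]
    push_cast [Nat.cast_sub h]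
    ring

lemma g_rec0 (m : ℕ) : (g (m + 1) 0 : ℝ) = g m 0 := by rw [g]

lemma g_pos' {m f : ℕ} (h : 2 * f ≤ m) : (0 : ℝ) < g m f := by exact_mod_cast g_pos m f h

lemma g_nonneg (m f : ℕ) : (0 : ℝ) ≤ g m f := by positivity

lemma g_zero' {m f : ℕ} (h : m < 2 * f) : (g m f : ℝ) = 0 := by
  rw [g_eq_zero m f h]; simp

/-! ### Log-concavity in the row index -/

/-- the total positivity statement (with the factor `(s+1)/s`) -/
def TP (f : ℕ) : Prop := ∀ m : ℕ, 2 * f ≤ m →
  ((m : ℝ) + 1 - 2 * f) * g (m + 1) f * g m (f + 1) ≤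
    ((m : ℝ) - 2 * f) * g m f * g (m + 1) (f + 1)

def LC (f : ℕ) : Prop := ∀ m : ℕ, (g m f : ℝ) * g (m + 2) f ≤ (g (m + 1) f : ℝ) ^ 2

lemma LC_zero : LC 0 := by
  intro m
  rw [g_zero, g_zero, g_zero]
  norm_num

lemma TP_of_LC {f : ℕ} (h : LC f) : TP f := by
  -- `c m = (m - 2 f) g m f`
  have hc : ∀ m : ℕ, 2 * f ≤ m → (((m : ℝ) - 2 * f) * g m f) * (((m : ℝ) + 2 - 2 * f) *
      g (m + 2) f) ≤ (((m : ℝ) + 1 - 2 * f) * g (m + 1) f) ^ 2 := by
    intro m hm
    have h1 := h m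
    have h2 : (0 : ℝ) ≤ (m : ℝ) - 2 * f := by
      have : ((2 * f : ℕ) : ℝ) ≤ m := by exact_mod_cast hm
      push_cast at this
      linarith
    have h3 := g_nonneg m f
    have h4 := g_nonneg (m + 2) f
    have h5 : ((m : ℝ) - 2 * f) * ((m : ℝ) + 2 - 2 * f) ≤ ((m : ℝ) + 1 - 2 * f) ^ 2 := by
      nlinarith
    calc (((m : ℝ) - 2 * f) * g m f) * (((m : ℝ) + 2 - 2 * f) * g (m + 2) f)
        = (((m : ℝ) - 2 * f) * ((m : ℝ) + 2 - 2 * f)) * (g m f * g (m + 2) f) := by ring
      _ ≤ (((m : ℝ) + 1 - 2 * f) ^ 2) * (g m f * g (m + 2) f) := by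
          apply mul_le_mul_of_nonneg_right h5 (by positivity)
      _ ≤ (((m : ℝ) + 1 - 2 * f) ^ 2) * (g (m + 1) f : ℝ) ^ 2 := by
          apply mul_le_mul_of_nonneg_left h1 (by positivity)
      _ = _ := by ring
  intro m hm
  obtain ⟨k, rfl⟩ := Nat.exists_eq_add_of_le hm
  clear hm
  induction k with
  | zero =>
    rw [Nat.add_zero, g_zero' (m := 2 * f) (f := f + 1) (by omega)]
    push_cast
    simp
  | succ k ih =>
    -- write `m = 2 f + k`
    set m := 2 * f + k with hm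
    have hm' : 2 * f + (k + 1) = m + 1 := by omega
    rw [hm']
    have hmf : 2 * f ≤ m := by omega
    have hs : (0 : ℝ) ≤ (m : ℝ) - 2 * f := by
      have : ((2 * f : ℕ) : ℝ) ≤ m := by exact_mod_cast hmf
      push_cast at this
      linarith
    have r1 := g_rec m f
    have r2 := g_rec (m + 1) f
    have hc1 := hc m hmf
    have p0 := g_pos' (m := m + 1) (f := f) (by omega)
    push_cast at r2 ⊢
    -- x = g m (f+1), y = g (m+1) (f+1), z = g (m+2) (f+1)
    have hx := g_nonneg m (f + 1)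
    have hy := g_nonneg (m + 1) (f + 1)
    have hcm1 : (0 : ℝ) < ((m : ℝ) + 1 - 2 * f) * g (m + 1) f := by
      apply mul_pos (by linarith) p0
    -- key: x c_{m+1} ≤ y c_m  (this is `ih`)
    set x : ℝ := ((g m (f + 1) : ℕ) : ℝ)
    set y : ℝ := ((g (m + 1) (f + 1) : ℕ) : ℝ)
    set z : ℝ := ((g (m + 1 + 1) (f + 1) : ℕ) : ℝ)
    set a : ℝ := ((m : ℝ) - 2 * f) * g m f with ha
    set b : ℝ := ((m : ℝ) + 1 - 2 * f) * g (m + 1) f with hb
    have hr1 : y = (f + 2) * x + 2 * a := by rw [r1, ha]; ring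
    have hr2 : z = (f + 2) * y + 2 * b := by rw [r2, hb]; ring
    set d : ℝ := ((m : ℝ) + 2 - 2 * f) * g (m + 2) f with hd
    have hgoal : ((m : ℝ) + 1 + 1 - 2 * f) * g (m + 1 + 1) f * y = d * y := by rw [hd]; ring
    rw [hgoal, hr2]
    have ih' : b * x ≤ a * y := by
      have := ih
      push_cast at this
      linarith
    have ha0 : 0 ≤ a := by rw [ha]; exact mul_nonneg hs (g_nonneg _ _)
    have hd0 : 0 ≤ d := by rw [hd]; exact mul_nonneg (by linarith) (g_nonneg _ _)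
    have hc2 : a * d ≤ b ^ 2 := hc1
    -- goal: d * y ≤ b * ((f+2) * y + 2 * b)
    have hf : (0 : ℝ) ≤ (f : ℝ) + 2 := by positivity
    -- multiply by b > 0: d y b = d b ((f+2) x + 2 a)
    have h1 : d * y * b ≤ b * ((f + 2) * y + 2 * b) * b := by
      have e1 : d * y * b = (f + 2) * (d * (b * x)) + 2 * (a * d) * b := by rw [hr1]; ring
      rw [e1]
      have e2 : d * (b * x) ≤ b ^ 2 * y := by
        calc d * (b * x) ≤ d * (a * y) := mul_le_mul_of_nonneg_left ih' hd0
          _ = (a * d) * y := by ring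
          _ ≤ b ^ 2 * y := mul_le_mul_of_nonneg_right hc2 hy
      have e3 : 2 * (a * d) * b ≤ 2 * b ^ 2 * b := by
        have := mul_le_mul_of_nonneg_right hc2 hcm1.le
        linarith
      nlinarith [mul_le_mul_of_nonneg_left e2 hf]
    exact le_of_mul_le_mul_right h1 hcm1

lemma LC_succ {f : ℕ} (h : TP f) : LC (f + 1) := by
  intro m
  rcases Nat.lt_or_ge m (2 * f) with h1 | h1
  · rw [g_zero' (m := m) (f := f + 1) (by omega), zero_mul]
    positivity
  · have h2 := h m h1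
    have r1 := g_rec m f
    have r2 := g_rec (m + 1) f
    push_cast at r2
    have e : (g (m + 1 + 1) (f + 1) : ℝ) = g (m + 2) (f + 1) := rfl
    rw [← e, r2]
    nlinarith [r1, r2, h2]

lemma LC_all (f : ℕ) : LC f := by
  induction f with
  | zero => exact LC_zero
  | succ f ih => exact LC_succ (TP_of_LC ih)

lemma TP_all (f : ℕ) : TP f := TP_of_LC (LC_all f)

end Pool.Agent.V11172.Boel
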