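import Mathlib
import Pool.Agent.V11172.BoelGamma

/-!
# The gamma coefficients: the row inequalities
-/

namespace Pool.Agent.V11172.Boel

/-- pure algebra: the inductive step for `H1` -/
lemma step_H1 (F s a b x y : ℝ) (hF : 1 ≤ F) (hs : 0 ≤ s) (ha : 0 < a) (hx : 0 < x)
    (H1 : (s + 1) * (s + 2) * a ≤ (F + 1) ^ 2 * b)
    (K : ((F + 1) ^ 2 * b + 2 * (s + 2) * a) * x ≤ F * (F + 1) * (y * a)) :
    (s + 2) * (s + 3) * x ≤ (F + 1) ^ 2 * y := by
  have h1 : (s + 2) * (s + 3) * a * x ≤ F * (F + 1) * (y * a) := by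
    refine le_trans ?_ K
    apply mul_le_mul_of_nonneg_right _ hx.le
    nlinarith
  have h2 : (s + 2) * (s + 3) * x ≤ F * (F + 1) * y := by
    have : ((s + 2) * (s + 3) * x) * a ≤ (F * (F + 1) * y) * a := by nlinarith
    exact le_of_mul_le_mul_right this ha
  have hy : 0 ≤ y := by
    have h3 : 0 ≤ F * (F + 1) * y := le_trans (by positivity) h2
    by_contra hneg
    push Not at hneg
    have : F * (F + 1) * y < 0 := mul_neg_of_pos_of_neg (by positivity) hneg
    linarith
  nlinarith [mul_nonneg (by linarith : (0 : ℝ) ≤ F + 1) hy]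

/-- pure algebra: the inductive step for `H2` -/
lemma step_H2 (F s a b x y z : ℝ) (hF : 1 ≤ F) (hs : 0 ≤ s) (ha : 0 < a) (hb : 0 ≤ b)
    (hx : 0 < x) (hy : 0 < y)
    (H1 : (s + 1) * (s + 2) * a ≤ (F + 1) ^ 2 * b)
    (K : ((F + 1) ^ 2 * b + 2 * (s + 2) * a) * x ≤ F * (F + 1) * (y * a))
    (K' : (F + 2) * (s + 2) * (z * a) ≤ s * (F + 1) * (b * y)) :
    (s + 3) * (F + 2) ^ 2 * (z * x) + 2 * (s + 1) * (s + 3) * (y * x) ≤
      (s + 1) * (F + 1) ^ 2 * y ^ 2 := by
  -- the polynomial inequality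
  have hpoly : F * (s + 3) * ((F + 1) * (F + 2) * s * b + 2 * (s + 1) * (s + 2) * a) ≤
      (s + 1) * (s + 2) * (F + 1) * ((F + 1) ^ 2 * b + 2 * (s + 2) * a) := by
    have e : (s + 1) * (s + 2) * (F + 1) * ((F + 1) ^ 2 * b + 2 * (s + 2) * a) -
        F * (s + 3) * ((F + 1) * (F + 2) * s * b + 2 * (s + 1) * (s + 2) * a) =
        b * (F + 1) * (s ^ 2 + 3 * s) + 2 * (F + 1) * ((F + 1) ^ 2 * b) +
          2 * ((s + 1) * (s + 2) * a) * (s + 2) - 2 * ((s + 1) * (s + 2) * a) * F := by ring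
    have e1 : 0 ≤ b * (F + 1) * (s ^ 2 + 3 * s) := by positivity
    have e2 : 0 ≤ 2 * ((s + 1) * (s + 2) * a) * (s + 2) := by positivity
    have e3 : 2 * ((s + 1) * (s + 2) * a) * F ≤ 2 * ((F + 1) ^ 2 * b) * F := by nlinarith
    have e4 : 0 ≤ (F + 1) ^ 2 * b := by positivity
    nlinarith
  -- first bound
  have h1 : (s + 2) * a * ((s + 3) * (F + 2) ^ 2 * (z * x) + 2 * (s + 1) * (s + 3) * (y * x)) ≤
      (s + 3) * (x * y) * ((F + 1) * (F + 2) * s * b + 2 * (s + 1) * (s + 2) * a) := by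
    have e : (s + 2) * a * ((s + 3) * (F + 2) ^ 2 * (z * x) +
        2 * (s + 1) * (s + 3) * (y * x)) =
        (s + 3) * (F + 2) * x * ((F + 2) * (s + 2) * (z * a)) +
          2 * (s + 1) * (s + 2) * (s + 3) * (y * x * a) := by ring
    rw [e]
    have := mul_le_mul_of_nonneg_left K' (by positivity : 0 ≤ (s + 3) * (F + 2) * x)
    nlinarith
  -- second bound
  have h2 : F * (F + 1) * ((s + 3) * (x * y) *
      ((F + 1) * (F + 2) * s * b + 2 * (s + 1) * (s + 2) * a)) ≤
      F * (F + 1) * ((s + 2) * a * ((s + 1) * (F + 1) ^ 2 * y ^ 2)) := by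
    calc F * (F + 1) * ((s + 3) * (x * y) *
        ((F + 1) * (F + 2) * s * b + 2 * (s + 1) * (s + 2) * a))
        = (F + 1) * x * y * (F * (s + 3) *
          ((F + 1) * (F + 2) * s * b + 2 * (s + 1) * (s + 2) * a)) := by ring
      _ ≤ (F + 1) * x * y * ((s + 1) * (s + 2) * (F + 1) *
          ((F + 1) ^ 2 * b + 2 * (s + 2) * a)) :=
          mul_le_mul_of_nonneg_left hpoly (by positivity)
      _ = (s + 1) * (s + 2) * (F + 1) ^ 2 * y *
          (((F + 1) ^ 2 * b + 2 * (s + 2) * a) * x) := by ring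
      _ ≤ (s + 1) * (s + 2) * (F + 1) ^ 2 * y * (F * (F + 1) * (y * a)) :=
          mul_le_mul_of_nonneg_left K (by positivity)
      _ = _ := by ring
  have h3 := le_of_mul_le_mul_left h2 (by positivity)
  exact le_of_mul_le_mul_left (h1.trans h3) (by positivity)

def H1 (m f : ℕ) : Prop :=
  ((m : ℝ) - 2 * f - 1) * ((m : ℝ) - 2 * f) * g m f ≤ ((f : ℝ) + 2) ^ 2 * g m (f + 1)

def H2 (m f : ℕ) : Prop :=
  ((m : ℝ) - 2 * f) * ((f : ℝ) + 3) ^ 2 * (g m (f + 2) * g m f) +
    2 * ((m : ℝ) - 2 * f - 2) * ((m : ℝ) - 2 * f) * (g m (f + 1) * g m f) ≤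
    ((m : ℝ) - 2 * f - 2) * ((f : ℝ) + 2) ^ 2 * (g m (f + 1) : ℝ) ^ 2

def K1 (m f : ℕ) : Prop :=
  (((f : ℝ) + 2) ^ 2 * g m (f + 1) + 2 * ((m : ℝ) - 2 * f) * g m f) * g (m + 1) f ≤
    ((f : ℝ) + 1) * ((f : ℝ) + 2) * (g (m + 1) (f + 1) * g m f)

def K2 (m f : ℕ) : Prop :=
  ((f : ℝ) + 3) * ((m : ℝ) - 2 * f) * (g (m + 1) (f + 2) * g m f) ≤
    ((m : ℝ) - 2 * f - 2) * ((f : ℝ) + 2) * (g m (f + 1) * g (m + 1) (f + 1))

lemma K1_of (m f : ℕ) (h : ∀ f', f = f' + 1 → H2 m f') : K1 m f := by
  unfold K1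
  cases f with
  | zero =>
    have r := g_rec m 0
    rw [g_zero] at r ⊢
    rw [g_zero]
    push_cast at r ⊢
    rw [r]
    have : (0 : ℝ) ≤ m := by positivity
    nlinarith
  | succ f =>
    have h2 := h f rfl
    unfold H2 at h2
    have r1 := g_rec m (f + 1)
    have r2 := g_rec m f
    have e : (g (m + 1) (f + 1 + 1) : ℝ) = g (m + 1) (f + 2) := rfl
    have e' : (g m (f + 1 + 1) : ℝ) = g m (f + 2) := rfl
    rw [e, e'] at *
    rw [r1, r2]
    push_cast
    nlinarith [h2]

lemma K2_of (m f : ℕ) (h : H2 m f) : K2 m f := by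
  unfold K2
  unfold H2 at h
  have r1 := g_rec m (f + 1)
  have r2 := g_rec m f
  have e : (g (m + 1) (f + 1 + 1) : ℝ) = g (m + 1) (f + 2) := rfl
  have e' : (g m (f + 1 + 1) : ℝ) = g m (f + 2) := rfl
  rw [e, e'] at *
  rw [r1, r2]
  push_cast
  nlinarith [h]

lemma H12 : ∀ m : ℕ, (∀ f, 2 * f + 1 ≤ m → H1 m f) ∧ (∀ f, 2 * f + 2 ≤ m → H2 m f) := by
  intro m
  induction m with
  | zero => exact ⟨fun f hf => by omega, fun f hf => by omega⟩
  | succ m ih =>
    obtain ⟨ih1, ih2⟩ := ih
    have hK1 : ∀ f, 2 * f ≤ m → K1 m f := by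
      intro f hf
      apply K1_of
      rintro f' rfl
      exact ih2 f' (by omega)
    constructor
    · intro f hf
      rcases Nat.lt_or_ge m (2 * f + 1) with h0 | h0
      · -- `m = 2 f`
        have hm : m = 2 * f := by omega
        subst hm
        unfold H1
        push_cast
        have : (2 * (f : ℝ) + 1 - 2 * f - 1) = 0 := by ring
        rw [this]
        simp only [zero_mul]
        positivity
      rcases Nat.lt_or_ge m (2 * f + 2) with h1 | h1
      · -- `m = 2 f + 1`
        have hm : m = 2 * f + 1 := by omega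
        subst hm
        unfold H1
        have r1 := g_rec (2 * f + 1) f
        rw [g_zero' (m := 2 * f + 1) (f := f + 1) (by omega)] at r1
        push_cast at r1 ⊢
        rw [r1]
        have hgf := g_pos' (m := 2 * f + 1) (f := f) (by omega)
        have hb : (g (2 * f + 1 + 1) f : ℝ) ≤ ((f : ℝ) + 1) * ((f : ℝ) + 2) * g (2 * f + 1) f := by
          cases f with
          | zero => simp [g_zero]
          | succ f =>
            have r2 := g_rec (2 * (f + 1) + 1) f
            have h3 := ih1 f (by omega)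
            unfold H1 at h3
            push_cast at r2 h3 ⊢
            nlinarith
        nlinarith
      · have hs : (0 : ℝ) ≤ (m : ℝ) - 2 * f - 2 := by
          have : ((2 * f + 2 : ℕ) : ℝ) ≤ m := by exact_mod_cast h1
          push_cast at this
          linarith
        have key := step_H1 ((f : ℝ) + 1) ((m : ℝ) - 2 * f - 2) (g m f) (g m (f + 1))
          (g (m + 1) f) (g (m + 1) (f + 1)) (by linarith [(Nat.cast_nonneg f : (0 : ℝ) ≤ f)]) hs
          (g_pos' (by omega)) (g_pos' (by omega))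
          (by
            have := ih1 f (by omega)
            unfold H1 at this
            nlinarith)
          (by
            have := hK1 f (by omega)
            unfold K1 at this
            nlinarith)
        unfold H1
        push_cast
        nlinarith
    · intro f hf
      rcases Nat.lt_or_ge m (2 * f + 2) with h1 | h1
      · -- `m = 2 f + 1`
        have hm : m = 2 * f + 1 := by omega
        subst hm
        unfold H2
        rw [g_zero' (m := 2 * f + 1 + 1) (f := f + 2) (by omega)]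
        push_cast
        have : (2 * (f : ℝ) + 1 + 1 - 2 * f - 2) = 0 := by ring
        rw [this]
        simp
      · have hs : (0 : ℝ) ≤ (m : ℝ) - 2 * f - 2 := by
          have : ((2 * f + 2 : ℕ) : ℝ) ≤ m := by exact_mod_cast h1
          push_cast at this
          linarith
        have key := step_H2 ((f : ℝ) + 1) ((m : ℝ) - 2 * f - 2) (g m f) (g m (f + 1))
          (g (m + 1) f) (g (m + 1) (f + 1)) (g (m + 1) (f + 2))
          (by linarith [(Nat.cast_nonneg f : (0 : ℝ) ≤ f)]) hs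
          (g_pos' (by omega)) (g_nonneg _ _) (g_pos' (by omega)) (g_pos' (by omega))
          (by
            have := ih1 f (by omega)
            unfold H1 at this
            nlinarith)
          (by
            have := hK1 f (by omega)
            unfold K1 at this
            nlinarith)
          (by
            have := K2_of m f (ih2 f h1)
            unfold K2 at this
            nlinarith)
        unfold H2
        push_cast
        nlinarith

lemma H1_all {m f : ℕ} (h : 2 * f + 1 ≤ m) : H1 m f := (H12 m).1 f h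
lemma H2_all {m f : ℕ} (h : 2 * f + 2 ≤ m) : H2 m f := (H12 m).2 f h
lemma K2_all {m f : ℕ} (h : 2 * f + 2 ≤ m) : K2 m f := K2_of m f (H2_all h)

end Pool.Agent.V11172.Boel
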