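import Mathlib
import Pool.Agent.V11172.BoelGamma2

/-!
# The gamma coefficients: the inequality `T0`
-/

namespace Pool.Agent.V11172.Boel

/-- `b_f = 2 (s + 2) γ_{f-1} / γ_f` -/
noncomputable def B (m : ℕ) : ℕ → ℝ
  | 0 => 0
  | f + 1 => 2 * ((m : ℝ) - 2 * f) * g m f / g m (f + 1)

lemma cast_sub_nonneg {m f : ℕ} (h : 2 * f ≤ m) : (0 : ℝ) ≤ (m : ℝ) - 2 * f := by
  have : ((2 * f : ℕ) : ℝ) ≤ m := by exact_mod_cast h
  push_cast at this
  linarith

lemma B_nonneg {m f : ℕ} (h : 2 * f ≤ m) : 0 ≤ B m f := by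
  cases f with
  | zero => exact le_refl _
  | succ f =>
    unfold B
    have := cast_sub_nonneg (m := m) (f := f) (by omega)
    have := g_nonneg m f
    have := g_nonneg m (f + 1)
    positivity

lemma g_step {m f : ℕ} (h : 2 * f ≤ m) : (g (m + 1) f : ℝ) = ((f : ℝ) + 1 + B m f) * g m f := by
  cases f with
  | zero => rw [g_zero, g_zero]; simp [B]
  | succ f =>
    have hp := g_pos' h
    rw [g_rec]
    unfold B
    push_cast
    field_simp
    ring

lemma B_step {m f : ℕ} (h : 2 * (f + 1) ≤ m) :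
    ((m : ℝ) - 2 * f) * B (m + 1) (f + 1) * ((f : ℝ) + 2 + B m (f + 1)) =
      ((m : ℝ) + 1 - 2 * f) * B m (f + 1) * ((f : ℝ) + 1 + B m f) := by
  have h0 := g_step (m := m) (f := f) (by omega)
  have h1 := g_step (m := m) (f := f + 1) h
  have p1 := g_pos' h
  have p2 := g_pos' (m := m + 1) (f := f + 1) (by omega)
  have p0 := g_pos' (m := m) (f := f) (by omega)
  have e1 : B (m + 1) (f + 1) * g (m + 1) (f + 1) = 2 * ((m : ℝ) + 1 - 2 * f) * g (m + 1) f := by
    unfold B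
    push_cast
    field_simp
  have e2 : B m (f + 1) * g m (f + 1) = 2 * ((m : ℝ) - 2 * f) * g m f := by
    unfold B
    field_simp
  rw [h1, h0] at e1
  push_cast at e1
  have hgoal : (((m : ℝ) - 2 * f) * B (m + 1) (f + 1) * ((f : ℝ) + 2 + B m (f + 1))) *
      g m (f + 1) = (((m : ℝ) + 1 - 2 * f) * B m (f + 1) * ((f : ℝ) + 1 + B m f)) *
      g m (f + 1) := by
    linear_combination ((m : ℝ) - 2 * f) * e1 -
      ((m : ℝ) + 1 - 2 * f) * ((f : ℝ) + 1 + B m f) * e2
  exact mul_right_cancel₀ p1.ne' hgoal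

/-- `(s + 1) b_F ≤ 2 (F + 1)^2` -/
lemma H1B {m f : ℕ} (h : 2 * (f + 1) ≤ m) :
    ((m : ℝ) - 2 * f - 1) * B m (f + 1) ≤ 2 * ((f : ℝ) + 2) ^ 2 := by
  have h1 := H1_all (m := m) (f := f) (by omega)
  unfold H1 at h1
  have p1 := g_pos' h
  have e2 : B m (f + 1) * g m (f + 1) = 2 * ((m : ℝ) - 2 * f) * g m f := by
    unfold B
    field_simp
  have : (((m : ℝ) - 2 * f - 1) * B m (f + 1)) * g m (f + 1) ≤
      (2 * ((f : ℝ) + 2) ^ 2) * g m (f + 1) := by
    nlinarith
  exact le_of_mul_le_mul_right this p1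

/-- `(F + 1) b_{F-1} ≤ F b_F` -/
lemma B3 {m f : ℕ} (h : 2 * (f + 1) ≤ m) :
    ((f : ℝ) + 2) * B m f ≤ ((f : ℝ) + 1) * B m (f + 1) := by
  cases f with
  | zero =>
    have := B_nonneg h
    simp only [B] at this ⊢
    simp only [mul_zero]
    push_cast at this ⊢
    nlinarith
  | succ f =>
    have h2 := H2_all (m := m) (f := f) (by omega)
    unfold H2 at h2
    have p2 := g_pos' h
    have p1 := g_pos' (m := m) (f := f + 1) (by omega)
    have p0 := g_pos' (m := m) (f := f) (by omega)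
    have e1 : B m (f + 1) * g m (f + 1) = 2 * ((m : ℝ) - 2 * f) * g m f := by
      unfold B
      field_simp
    have e2 : B m (f + 1 + 1) * g m (f + 1 + 1) =
        2 * ((m : ℝ) - 2 * (f + 1)) * g m (f + 1) := by
      unfold B
      push_cast
      field_simp
    have e : (g m (f + 1 + 1) : ℝ) = g m (f + 2) := rfl
    rw [e] at e2
    have hs := cast_sub_nonneg (m := m) (f := f) (by omega)
    have hs2 := cast_sub_nonneg (m := m) (f := f + 1) (by omega)
    push_cast at hs2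
    have hB2 := B_nonneg h
    have hB1 := B_nonneg (m := m) (f := f + 1) (by omega)
    -- `(f + 3)^2 B_{f+1} ≤ (f + 2)^2 B_{f+2}`
    have h3 : ((f : ℝ) + 3) ^ 2 * B m (f + 1) ≤ ((f : ℝ) + 2) ^ 2 * B m (f + 1 + 1) := by
      have h4 : (((f : ℝ) + 3) ^ 2 * B m (f + 1)) * ((g m (f + 1) : ℝ) * g m (f + 2)) ≤
          (((f : ℝ) + 2) ^ 2 * B m (f + 1 + 1)) * ((g m (f + 1) : ℝ) * g m (f + 2)) := by
        have e3 : (((f : ℝ) + 3) ^ 2 * B m (f + 1)) * ((g m (f + 1) : ℝ) * g m (f + 2)) =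
            2 * (((m : ℝ) - 2 * f) * ((f : ℝ) + 3) ^ 2 * (g m (f + 2) * g m f)) := by
          linear_combination (((f : ℝ) + 3) ^ 2 * g m (f + 2)) * e1
        have e4 : (((f : ℝ) + 2) ^ 2 * B m (f + 1 + 1)) * ((g m (f + 1) : ℝ) * g m (f + 2)) =
            2 * (((m : ℝ) - 2 * f - 2) * ((f : ℝ) + 2) ^ 2 * (g m (f + 1) : ℝ) ^ 2) := by
          linear_combination (((f : ℝ) + 2) ^ 2 * g m (f + 1)) * e2
        rw [e3, e4]
        have h5 : 0 ≤ 2 * ((m : ℝ) - 2 * f - 2) * ((m : ℝ) - 2 * f) *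
            ((g m (f + 1) : ℝ) * g m f) := by
          have : 0 ≤ (m : ℝ) - 2 * f - 2 := by linarith
          positivity
        linarith
      exact le_of_mul_le_mul_right h4 (by positivity)
    push_cast
    have hf : (0 : ℝ) ≤ f := by positivity
    have h6 : ((f : ℝ) + 3) * (((f : ℝ) + 3) * B m (f + 1)) ≤
        ((f : ℝ) + 3) * (((f : ℝ) + 2) * B m (f + 1 + 1)) := by
      nlinarith [mul_nonneg (by linarith : (0 : ℝ) ≤ (f : ℝ) + 2) hB2]
    have h7 := le_of_mul_le_mul_left h6 (by positivity)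
    linarith

/-- pure algebra -/
lemma alg_D (F s b c d : ℝ) (hF : 1 ≤ F) (hs : 0 ≤ s) (hb : 0 ≤ b) (hc : 0 ≤ c) (_hd : 0 ≤ d)
    (h1 : (s + 1) * b - (s + 3) * c ≤ 4 * F + 2)
    (h2 : (s + 3) * c - (s + 5) * d ≤ 4 * F - 2)
    (h3 : (F + 1) * c ≤ F * b) :
    (s + 3) * (b * (F + c) / (F + 1 + b)) - (s + 5) * (c * (F - 1 + d) / (F + c)) ≤
      4 * F + 2 := by
  have p1 : 0 < F + 1 + b := by linarith
  have p2 : 0 < F + c := by linarith
  obtain ⟨β, hβ⟩ : ∃ β, β = b / (F + 1 + b) := ⟨_, rfl⟩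
  obtain ⟨γ, hγ⟩ : ∃ γ, γ = c / (F + c) := ⟨_, rfl⟩
  have e1 : β * (F + 1 + b) = b := by rw [hβ]; field_simp
  have e2 : γ * (F + c) = c := by rw [hγ]; field_simp
  have e3 : b * (F + c) / (F + 1 + b) = β * (F + c) := by rw [hβ]; ring
  have e4 : c * (F - 1 + d) / (F + c) = γ * (F - 1 + d) := by rw [hγ]; ring
  rw [e3, e4]
  have hγβ : γ ≤ β := by
    rw [hβ, hγ, div_le_div_iff₀ p2 p1]
    nlinarith
  have hβ0 : 0 ≤ β := by rw [hβ]; positivity
  have hγ0 : 0 ≤ γ := by rw [hγ]; positivity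
  have hβ1 : β ≤ 1 := by rw [hβ, div_le_one p1]; linarith
  have key : (s + 3) * (β * (F + c)) - (s + 5) * (γ * (F - 1 + d)) =
      (1 - β) * ((s + 1) * b - (s + 3) * c) - β * (s + 1 - 2 * F) +
        γ * (s + 5 - 2 * F + ((s + 3) * c - (s + 5) * d)) := by
    linear_combination (s + 1) * e1 - (s + 3) * e2
  rw [key]
  have k1 : (1 - β) * ((s + 1) * b - (s + 3) * c) ≤ (1 - β) * (4 * F + 2) :=
    mul_le_mul_of_nonneg_left h1 (by linarith)
  have k2 : γ * (s + 5 - 2 * F + ((s + 3) * c - (s + 5) * d)) ≤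
      γ * (s + 5 - 2 * F + (4 * F - 2)) := mul_le_mul_of_nonneg_left (by linarith) hγ0
  have k3 : γ * (s + 3 + 2 * F) ≤ β * (s + 3 + 2 * F) :=
    mul_le_mul_of_nonneg_right hγβ (by linarith)
  nlinarith

/-- pure algebra -/
lemma alg_T (F s b c : ℝ) (hb : 0 ≤ b)
    (h1 : (s + 1) * b - (s + 3) * c ≤ 4 * F + 2)
    (h2 : (s + 1) * b ≤ 2 * (F + 1) ^ 2) :
    b * ((s + 1) * (F + 1 + b) - (s + 3) * (F + c)) ≤ 2 * (F + 1) * (F + 1 + b) := by
  nlinarith [mul_le_mul_of_nonneg_left h1 hb]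

/-- the bound for `A_F - A_{F-1}` -/
def DD (m f : ℕ) : Prop :=
  ((m : ℝ) - 2 * f - 1) * B m (f + 1) - ((m : ℝ) - 2 * f + 1) * B m f ≤ 4 * ((f : ℝ) + 1) + 2

lemma T0_of {m f : ℕ} (h : 2 * (f + 1) ≤ m) (hD : DD m f) :
    ((m : ℝ) - 2 * f - 1) * B m (f + 1) - ((m : ℝ) - 2 * f) * B (m + 1) (f + 1) ≤
      2 * ((f : ℝ) + 2) := by
  have h1 := alg_T ((f : ℝ) + 1) ((m : ℝ) - 2 * f - 2) (B m (f + 1)) (B m f) (B_nonneg h)
    (by unfold DD at hD; linarith) (by have := H1B h; nlinarith)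
  have h2 := B_step h
  have p : 0 < (f : ℝ) + 2 + B m (f + 1) := by
    have := B_nonneg h
    positivity
  have h3 : (((m : ℝ) - 2 * f - 1) * B m (f + 1) - ((m : ℝ) - 2 * f) * B (m + 1) (f + 1)) *
      ((f : ℝ) + 2 + B m (f + 1)) ≤ (2 * ((f : ℝ) + 2)) * ((f : ℝ) + 2 + B m (f + 1)) := by
    nlinarith
  exact le_of_mul_le_mul_right h3 p

lemma DD_all : ∀ m f : ℕ, 2 * (f + 1) ≤ m → DD m f := by
  intro m
  induction m with
  | zero => intro f hf; omega
  | succ m ih =>
    intro f hf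
    rcases Nat.lt_or_ge m (2 * f + 2) with h1 | h1
    · have hm : m = 2 * f + 1 := by omega
      subst hm
      have hb : B (2 * f + 1 + 1) (f + 1) = 2 * ((f : ℝ) + 1 + B (2 * f + 1) f) := by
        have e1 := g_step (m := 2 * f + 1) (f := f) (by omega)
        have e2 := g_rec (2 * f + 1) f
        rw [g_zero' (m := 2 * f + 1) (f := f + 1) (by omega)] at e2
        have p := g_pos' (m := 2 * f + 1) (f := f) (by omega)
        have e3 : B (2 * f + 1 + 1) (f + 1) = 2 * (((2 * f + 1 + 1 : ℕ) : ℝ) - 2 * f) *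
            g (2 * f + 1 + 1) f / g (2 * f + 1 + 1) (f + 1) := rfl
        rw [e3, e2, e1]
        push_cast
        field_simp
        ring
      unfold DD
      rw [hb]
      push_cast
      cases f with
      | zero =>
        simp only [B]
        norm_num
      | succ f =>
        have h2 := T0_of (m := 2 * (f + 1) + 1) (f := f) (by omega) (ih f (by omega))
        push_cast at h2 ⊢
        have e4 : B (2 * (f + 1) + 1 + 1) (f + 1) = B (2 * (f + 1) + 2) (f + 1) := rfl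
        linarith
    · have hm : 2 * (f + 1) ≤ m := by omega
      have hs := cast_sub_nonneg (m := m) (f := f + 1) hm
      push_cast at hs
      have hb0 := B_nonneg hm
      have hc0 := B_nonneg (m := m) (f := f) (by omega)
      have p1 : 0 < (f : ℝ) + 1 + 1 + B m (f + 1) := by positivity
      have hb' : ((m : ℝ) - 2 * f) * B (m + 1) (f + 1) = ((m : ℝ) - 2 * f - 2 + 3) *
          (B m (f + 1) * ((f : ℝ) + 1 + B m f) / ((f : ℝ) + 1 + 1 + B m (f + 1))) := by
        have h2 := B_step hm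
        field_simp
        linarith
      unfold DD
      push_cast
      have e5 : ((m : ℝ) + 1 - 2 * f - 1) * B (m + 1) (f + 1) =
          ((m : ℝ) - 2 * f) * B (m + 1) (f + 1) := by ring
      rw [e5, hb']
      cases f with
      | zero =>
        have h3 := alg_D 1 ((m : ℝ) - 2) (B m 1) 0 0 (le_refl _) (by push_cast at hs; linarith)
          hb0 (le_refl _) (le_refl _)
          (by
            have := ih 0 hm
            unfold DD at this
            simp only [B] at this ⊢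
            push_cast at this ⊢
            linarith)
          (by norm_num) (by simp; exact hb0)
        simp only [B] at h3 ⊢
        push_cast at h3 ⊢
        norm_num at h3 ⊢
        linarith
      | succ f =>
        have hm2 : 2 * (f + 1) ≤ m := by omega
        have hd0 := B_nonneg (m := m) (f := f) (by omega)
        have p2 : 0 < (f : ℝ) + 1 + 1 + B m (f + 1) := by positivity
        have hc' : ((m : ℝ) - 2 * f) * B (m + 1) (f + 1) = ((m : ℝ) - 2 * f + 1) *
            (B m (f + 1) * ((f : ℝ) + 1 + B m f) / ((f : ℝ) + 1 + 1 + B m (f + 1))) := by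
          have h2 := B_step hm2
          field_simp
          linarith
        have h3 := alg_D ((f : ℝ) + 2) ((m : ℝ) - 2 * (f + 1) - 2) (B m (f + 1 + 1))
          (B m (f + 1)) (B m f) (by linarith [(Nat.cast_nonneg f : (0 : ℝ) ≤ f)])
          (by push_cast at hs; linarith) hb0 hc0 hd0
          (by
            have := ih (f + 1) hm
            unfold DD at this
            push_cast at this
            linarith)
          (by
            have := ih f hm2
            unfold DD at this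
            linarith)
          (by
            have := B3 hm
            push_cast at this
            linarith)
        push_cast
        have e6 : ((m : ℝ) + 1 - 2 * (f + 1) + 1) * B (m + 1) (f + 1) =
          ((m : ℝ) - 2 * f) * B (m + 1) (f + 1) := by ring
        rw [e6, hc']
        have e7 : ((f : ℝ) + 2 - 1 + B m f) = (f : ℝ) + 1 + B m f := by ring
        have e8 : ((f : ℝ) + 2 + B m (f + 1)) = (f : ℝ) + 1 + 1 + B m (f + 1) := by ring
        have e9 : ((f : ℝ) + 2 + 1 + B m (f + 1 + 1)) =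
          (f : ℝ) + 1 + 1 + 1 + B m (f + 1 + 1) := by ring
        rw [e7, e8, e9] at h3
        have e10 : ((m : ℝ) - 2 * (f + 1) - 2 + 5) = (m : ℝ) - 2 * f + 1 := by ring
        rw [e10] at h3
        linarith

/-- `T0`: `(s+1)(s+2) γ'_F γ_{F-1} ≤ (F+1) γ'_F γ_F + (s+2)(s+3) γ'_{F-1} γ_F` -/
lemma T0_all {m f : ℕ} (h : 2 * (f + 1) ≤ m) :
    ((m : ℝ) - 2 * f - 1) * ((m : ℝ) - 2 * f) * (g (m + 1) (f + 1) * g m f) ≤
      ((f : ℝ) + 2) * (g (m + 1) (f + 1) * g m (f + 1)) +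
        ((m : ℝ) - 2 * f) * ((m : ℝ) - 2 * f + 1) * (g (m + 1) f * g m (f + 1)) := by
  have hD := DD_all m f h
  unfold DD at hD
  have h1 := alg_T ((f : ℝ) + 1) ((m : ℝ) - 2 * f - 2) (B m (f + 1)) (B m f) (B_nonneg h)
    (by linarith) (by have := H1B h; nlinarith)
  have p1 := g_pos' h
  have p0 := g_pos' (m := m) (f := f) (by omega)
  have e0 := g_step (m := m) (f := f) (by omega)
  have e1 := g_step (m := m) (f := f + 1) h
  have e2 : B m (f + 1) * g m (f + 1) = 2 * ((m : ℝ) - 2 * f) * g m f := by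
    unfold B
    field_simp
  rw [e0, e1]
  push_cast
  have h2 := mul_le_mul_of_nonneg_right h1 (by positivity : (0 : ℝ) ≤ (g m (f + 1) : ℝ) ^ 2)
  have h3 : B m (f + 1) * (((m : ℝ) - 2 * f - 2 + 1) * ((f : ℝ) + 1 + 1 + B m (f + 1)) -
      ((m : ℝ) - 2 * f - 2 + 3) * ((f : ℝ) + 1 + B m f)) * (g m (f + 1) : ℝ) ^ 2 =
      2 * ((m : ℝ) - 2 * f) * g m f * g m (f + 1) *
      (((m : ℝ) - 2 * f - 2 + 1) * ((f : ℝ) + 1 + 1 + B m (f + 1)) -
      ((m : ℝ) - 2 * f - 2 + 3) * ((f : ℝ) + 1 + B m f)) := by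
    linear_combination (g m (f + 1) * (((m : ℝ) - 2 * f - 2 + 1) * ((f : ℝ) + 1 + 1 +
      B m (f + 1)) - ((m : ℝ) - 2 * f - 2 + 3) * ((f : ℝ) + 1 + B m f))) * e2
  rw [h3] at h2
  linarith

end Pool.Agent.V11172.Boel
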