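import Mathlib
import Pool.Agent.V11172.BoelGamma3

/-!
# Column log-concavity of the gamma-expanded triangle
-/

namespace Pool.Agent.V11172.Boel

open Finset

/-- the summand: trees (permutations) with `p` left edges, `q` right edges and `f` full nodes
(ascents, descents, peaks), each weighted by `κ^f` -/
noncomputable def w (κ : ℝ) (p q f : ℕ) : ℝ :=
  if f ≤ p ∧ f ≤ q then κ ^ f * g (p + q) f * ((p + q - 2 * f).choose (q - f) : ℝ) else 0

lemma w_eq (κ : ℝ) (l r f : ℕ) :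
    w κ (l + f) (r + f) f = κ ^ f * g (l + r + 2 * f) f * ((l + r).choose r : ℝ) := by
  unfold w
  rw [if_pos ⟨by omega, by omega⟩]
  have e1 : l + f + (r + f) = l + r + 2 * f := by ring
  rw [e1, show l + r + 2 * f - 2 * f = l + r by omega, show r + f - f = r by omega]

lemma w_zero_left (κ : ℝ) {p q f : ℕ} (h : p < f) : w κ p q f = 0 := by
  unfold w
  rw [if_neg]
  omega

lemma w_zero_right (κ : ℝ) {p q f : ℕ} (h : q < f) : w κ p q f = 0 := by
  unfold w
  rw [if_neg]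
  omega

lemma w_pos {κ : ℝ} (hκ : 0 < κ) {p q f : ℕ} (hp : f ≤ p) (hq : f ≤ q) : 0 < w κ p q f := by
  obtain ⟨l, rfl⟩ := Nat.exists_eq_add_of_le' hp
  obtain ⟨r, rfl⟩ := Nat.exists_eq_add_of_le' hq
  rw [w_eq]
  have h1 := g_pos' (m := l + r + 2 * f) (f := f) (by omega)
  have h2 : 0 < (l + r).choose r := Nat.choose_pos (by omega)
  positivity

lemma w_nonneg {κ : ℝ} (hκ : 0 < κ) (p q f : ℕ) : 0 ≤ w κ p q f := by
  unfold w
  split_ifs
  · positivity
  · exact le_refl _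

/-! ### Binomial identities -/

lemma ch1 (l r : ℕ) : ((l : ℝ) + 1) * ((l + r + 1).choose r : ℝ) =
    ((l : ℝ) + r + 1) * ((l + r).choose r : ℝ) := by
  have h := Nat.choose_mul_succ_eq (l + r) r
  have e : l + r + 1 - r = l + 1 := by omega
  rw [e] at h
  have h' : ((l + r).choose r : ℝ) * ((l : ℝ) + r + 1) =
      ((l + r + 1).choose r : ℝ) * ((l : ℝ) + 1) := by exact_mod_cast h
  linarith

lemma ch2 (l r : ℕ) : ((r : ℝ) + 1) * ((l + r + 2).choose (r + 1) : ℝ) =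
    ((l : ℝ) + r + 2) * ((l + r + 1).choose r : ℝ) := by
  have h := Nat.add_one_mul_choose_eq (l + r + 1) r
  have h' : ((l : ℝ) + r + 1 + 1) * ((l + r + 1).choose r : ℝ) =
      ((l + r + 1 + 1).choose (r + 1) : ℝ) * ((r : ℝ) + 1) := by exact_mod_cast h
  have e : l + r + 1 + 1 = l + r + 2 := rfl
  rw [e] at h'
  linarith

lemma ch3 (l r : ℕ) : ((l : ℝ) + 2) * ((l + r + 3).choose (r + 1) : ℝ) =
    ((l : ℝ) + r + 3) * ((l + r + 2).choose (r + 1) : ℝ) := by
  have h := ch1 (l + 1) (r + 1)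
  have e1 : l + 1 + (r + 1) + 1 = l + r + 3 := by ring
  have e2 : l + 1 + (r + 1) = l + r + 2 := by ring
  rw [e1, e2] at h
  push_cast at h
  linarith

lemma chm (l r : ℕ) : ((l : ℝ) + r + 1) * ((l + r).choose r : ℝ) =
    ((r : ℝ) + 1) * ((l + (r + 1)).choose (r + 1) : ℝ) := by
  have h := Nat.add_one_mul_choose_eq (l + r) r
  have h' : ((l : ℝ) + r + 1) * ((l + r).choose r : ℝ) =
      ((l + r + 1).choose (r + 1) : ℝ) * ((r : ℝ) + 1) := by exact_mod_cast h
  have e : l + (r + 1) = l + r + 1 := rfl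
  rw [e]
  linarith

/-! ### The two monotone likelihood ratio statements -/

lemma lr_f {κ : ℝ} (hκ : 0 < κ) {p q f : ℕ} (hp : f + 1 ≤ p) (hq : f + 1 ≤ q) :
    w κ p q (f + 1) * w κ (p + 1) q f ≤ w κ p q f * w κ (p + 1) q (f + 1) := by
  obtain ⟨l, rfl⟩ := Nat.exists_eq_add_of_le' hp
  obtain ⟨r, rfl⟩ := Nat.exists_eq_add_of_le' hq
  have e1 := w_eq κ l r (f + 1)
  have e2 := w_eq κ (l + 1) (r + 1) f
  have e3 := w_eq κ (l + 2) (r + 1) f
  have e4 := w_eq κ (l + 1) r (f + 1)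
  have a1 : l + 1 + f = l + (f + 1) := by ring
  have a2 : r + 1 + f = r + (f + 1) := by ring
  have a3 : l + 2 + f = l + (f + 1) + 1 := by ring
  have a4 : l + 1 + (f + 1) = l + (f + 1) + 1 := by ring
  have a5 : l + 1 + (r + 1) + 2 * f = l + r + 2 * (f + 1) := by ring
  have a6 : l + 2 + (r + 1) + 2 * f = l + r + 2 * (f + 1) + 1 := by ring
  have a7 : l + 1 + r + 2 * (f + 1) = l + r + 2 * (f + 1) + 1 := by ring
  have a8 : l + 1 + (r + 1) = l + r + 2 := by ring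
  have a9 : l + 2 + (r + 1) = l + r + 3 := by ring
  have a10 : l + 1 + r = l + r + 1 := by ring
  rw [a1, a2, a5, a8] at e2
  rw [a3, a2, a6, a9] at e3
  rw [a4, a7, a10] at e4
  rw [e1, e2, e3, e4]
  set m := l + r + 2 * (f + 1) with hm
  have hTP := TP_all f m (by omega)
  have hm' : (m : ℝ) = l + r + 2 * (f + 1) := by rw [hm]; push_cast; ring
  rw [hm'] at hTP
  have h1 := ch1 l r
  have h2 := ch2 l r
  have h3 := ch3 l r
  have p0 : (0 : ℝ) < ((l + r).choose r : ℝ) := by exact_mod_cast Nat.choose_pos (by omega)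
  have p1 : (0 : ℝ) < ((l + r + 1).choose r : ℝ) := by exact_mod_cast Nat.choose_pos (by omega)
  have p2 : (0 : ℝ) < ((l + r + 2).choose (r + 1) : ℝ) := by
    exact_mod_cast Nat.choose_pos (by omega)
  have p3 : (0 : ℝ) < ((l + r + 3).choose (r + 1) : ℝ) := by
    exact_mod_cast Nat.choose_pos (by omega)
  set C0 : ℝ := ((l + r).choose r : ℝ)
  set C1 : ℝ := ((l + r + 1).choose r : ℝ)
  set C2 : ℝ := ((l + r + 2).choose (r + 1) : ℝ)
  set C3 : ℝ := ((l + r + 3).choose (r + 1) : ℝ)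
  have hX : 0 ≤ (g (m + 1) f : ℝ) * g m (f + 1) := by positivity
  have hY : 0 ≤ (g m f : ℝ) * g (m + 1) (f + 1) := by positivity
  set X : ℝ := (g (m + 1) f : ℝ) * g m (f + 1) with hXd
  set Y : ℝ := (g m f : ℝ) * g (m + 1) (f + 1) with hYd
  have hTP' : ((l : ℝ) + r + 3) * X ≤ ((l : ℝ) + r + 2) * Y := by
    have : ((l : ℝ) + r + 2 * (f + 1) + 1 - 2 * f) * g (m + 1) f * g m (f + 1) =
        ((l : ℝ) + r + 3) * X := by rw [hXd]; ring
    rw [this] at hTP
    have : ((l : ℝ) + r + 2 * (f + 1) - 2 * f) * g m f * g (m + 1) (f + 1) =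
        ((l : ℝ) + r + 2) * Y := by rw [hYd]; ring
    rwa [this] at hTP
  -- the inequality for the binomial parts
  have hl : (0 : ℝ) ≤ l := by positivity
  have hr : (0 : ℝ) ≤ r := by positivity
  have key : C0 * C3 * X ≤ C2 * C1 * Y := by
    -- multiply by (l+2)
    have k1 : ((l : ℝ) + 2) * (C0 * C3 * X) = C0 * C2 * (((l : ℝ) + r + 3) * X) := by
      linear_combination C0 * X * h3
    have k2 : C0 * C2 * (((l : ℝ) + r + 3) * X) ≤ C0 * C2 * (((l : ℝ) + r + 2) * Y) :=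
      mul_le_mul_of_nonneg_left hTP' (by positivity)
    have k3 : ((l : ℝ) + r + 1) * (C0 * C2 * (((l : ℝ) + r + 2) * Y)) ≤
        ((l : ℝ) + r + 1) * (((l : ℝ) + 2) * (C2 * C1 * Y)) := by
      have : ((l : ℝ) + r + 1) * (C0 * C2 * (((l : ℝ) + r + 2) * Y)) =
          (((l : ℝ) + r + 2) * ((l : ℝ) + 1)) * (C1 * C2 * Y) := by
        linear_combination (-(C2 * ((l : ℝ) + r + 2) * Y)) * h1
      rw [this]
      have h5 : ((l : ℝ) + r + 2) * ((l : ℝ) + 1) ≤ ((l : ℝ) + r + 1) * ((l : ℝ) + 2) := by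
        nlinarith
      have h6 : 0 ≤ C1 * C2 * Y := by positivity
      nlinarith [mul_le_mul_of_nonneg_right h5 h6]
    have k4 := le_of_mul_le_mul_left k3 (by positivity)
    have k5 : ((l : ℝ) + 2) * (C0 * C3 * X) ≤ ((l : ℝ) + 2) * (C2 * C1 * Y) := by
      rw [k1]; exact k2.trans k4
    exact le_of_mul_le_mul_left k5 (by positivity)
  have hk : (0 : ℝ) ≤ κ ^ (f + 1) * κ ^ f := by positivity
  have := mul_le_mul_of_nonneg_left key hk
  calc κ ^ (f + 1) * (g m (f + 1) : ℝ) * C0 * (κ ^ f * (g (m + 1) f : ℝ) * C3)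
      = κ ^ (f + 1) * κ ^ f * (C0 * C3 * X) := by rw [hXd]; ring
    _ ≤ κ ^ (f + 1) * κ ^ f * (C2 * C1 * Y) := this
    _ = _ := by rw [hYd]; ring

/-- pure algebra for the thinning inequality -/
lemma alg_thin (κ l r f A b x y z C0 C1 C2 C3 Cm : ℝ) (hκ : 1 ≤ κ) (hl : 0 ≤ l) (hr : 0 ≤ r)
    (hf : 0 ≤ f) (hb : 0 ≤ b) (hy : 0 ≤ y)
    (hC0 : 0 < C0) (hC1 : 0 < C1)
    (h1 : (l + 1) * C1 = (l + r + 1) * C0) (h2 : (r + 1) * C2 = (l + r + 2) * C1)
    (h3 : (l + 2) * C3 = (l + r + 3) * C2)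
    (hm : (f + 3) * (l + r + 2) * (z * A) * Cm ≤ r * (f + 2) * (b * y) * C0)
    (hT : (l + r + 1) * (l + r + 2) * (y * A) ≤
      (f + 2) * (y * b) + (l + r + 2) * (l + r + 3) * (x * b)) :
    ((f + 3) * κ * z * Cm + (l + 1) * y * C1) * (A * C2) ≤
      ((f + 2) * κ * y * C1 + (l + 2) * x * C3) * (b * C0) := by
  have hκ0 : 0 ≤ κ := by linarith
  have e1 : (r + 1) * (((f + 3) * κ * z * Cm + (l + 1) * y * C1) * (A * C2)) =
      C1 * (κ * ((f + 3) * (l + r + 2) * (z * A) * Cm) +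
        C0 * ((l + r + 1) * (l + r + 2) * (y * A))) := by
    linear_combination ((f + 3) * κ * z * Cm + (l + 1) * y * C1) * A * h2 +
      (y * A * (l + r + 2) * C1) * h1
  have e2 : (r + 1) * (((f + 2) * κ * y * C1 + (l + 2) * x * C3) * (b * C0)) =
      C1 * (κ * ((r + 1) * (f + 2) * (b * y) * C0) +
        C0 * ((l + r + 2) * (l + r + 3) * (x * b))) := by
    linear_combination (r + 1) * x * b * C0 * h3 + (l + r + 3) * x * b * C0 * h2
  have e3 : κ * ((f + 3) * (l + r + 2) * (z * A) * Cm) ≤ κ * (r * (f + 2) * (b * y) * C0) :=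
    mul_le_mul_of_nonneg_left hm hκ0
  have e4 := mul_le_mul_of_nonneg_left hT hC0.le
  have e5 : 0 ≤ (f + 2) * (b * y) * C0 := by positivity
  have e6 : (f + 2) * (b * y) * C0 ≤ κ * ((f + 2) * (b * y) * C0) := by nlinarith
  have e7 : κ * ((f + 3) * (l + r + 2) * (z * A) * Cm) +
        C0 * ((l + r + 1) * (l + r + 2) * (y * A)) ≤
      κ * ((r + 1) * (f + 2) * (b * y) * C0) +
        C0 * ((l + r + 2) * (l + r + 3) * (x * b)) := by nlinarith
  have e8 := mul_le_mul_of_nonneg_left e7 hC1.le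
  rw [← e1, ← e2] at e8
  exact le_of_mul_le_mul_left e8 (by positivity)

/-- the thinned weights -/
noncomputable def vc (κ : ℝ) (p q f : ℕ) : ℝ :=
  ((f : ℝ) + 2) * w κ (p + 1) q (f + 1) + ((p : ℝ) + 1 - f) * w κ (p + 1) q f

lemma lr_thin {κ : ℝ} (hκ : 1 ≤ κ) {p q f : ℕ} (hp : f + 1 ≤ p) (hq : f + 1 ≤ q) :
    vc κ p q (f + 1) * w κ p q f ≤ vc κ p q f * w κ p q (f + 1) := by
  have hκ0 : 0 < κ := by linarith
  obtain ⟨l, rfl⟩ := Nat.exists_eq_add_of_le' hp
  obtain ⟨r, rfl⟩ := Nat.exists_eq_add_of_le' hq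
  have e1 := w_eq κ l r (f + 1)
  have e2 := w_eq κ (l + 1) (r + 1) f
  have e3 := w_eq κ (l + 2) (r + 1) f
  have e4 := w_eq κ (l + 1) r (f + 1)
  have a1 : l + 1 + f = l + (f + 1) := by ring
  have a2 : r + 1 + f = r + (f + 1) := by ring
  have a3 : l + 2 + f = l + (f + 1) + 1 := by ring
  have a4 : l + 1 + (f + 1) = l + (f + 1) + 1 := by ring
  have a5 : l + 1 + (r + 1) + 2 * f = l + r + 2 * (f + 1) := by ring
  have a6 : l + 2 + (r + 1) + 2 * f = l + r + 2 * (f + 1) + 1 := by ring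
  have a7 : l + 1 + r + 2 * (f + 1) = l + r + 2 * (f + 1) + 1 := by ring
  have a8 : l + 1 + (r + 1) = l + r + 2 := by ring
  have a9 : l + 2 + (r + 1) = l + r + 3 := by ring
  have a10 : l + 1 + r = l + r + 1 := by ring
  rw [a1, a2, a5, a8] at e2
  rw [a3, a2, a6, a9] at e3
  rw [a4, a7, a10] at e4
  unfold vc
  rw [e1, e2, e3, e4]
  -- the last weight
  obtain ⟨Cm, hCm, hCm2⟩ : ∃ Cm : ℝ, w κ (l + (f + 1) + 1) (r + (f + 1)) (f + 1 + 1) =
      κ ^ (f + 2) * g (l + r + 2 * (f + 1) + 1) (f + 2) * Cm ∧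
      ((l : ℝ) + r) * Cm = r * ((l + r).choose r : ℝ) ∧ (r = 0 → Cm = 0) := by
    cases r with
    | zero =>
      refine ⟨0, ?_, by simp, fun _ => rfl⟩
      rw [w_zero_right κ (by omega)]
      ring
    | succ r =>
      refine ⟨((l + r).choose r : ℝ), ?_, ?_, fun h => by omega⟩
      · have := w_eq κ l r (f + 2)
        have b1 : l + (f + 2) = l + (f + 1) + 1 := by ring
        have b2 : r + (f + 2) = r + 1 + (f + 1) := by ring
        have b3 : l + r + 2 * (f + 2) = l + (r + 1) + 2 * (f + 1) + 1 := by ring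
        rw [b1, b2, b3] at this
        exact this
      · have := chm l r
        push_cast
        linarith
  obtain ⟨hCm2, hCm0⟩ := hCm2
  rw [hCm]
  set m := l + r + 2 * (f + 1) with hm
  have hm' : (m : ℝ) = l + r + 2 * (f + 1) := by rw [hm]; push_cast; ring
  have hK := K2_all (m := m) (f := f) (by omega)
  have hT := T0_all (m := m) (f := f) (by omega)
  unfold K2 at hK
  rw [hm'] at hK hT
  have p0 : (0 : ℝ) < ((l + r).choose r : ℝ) := by exact_mod_cast Nat.choose_pos (by omega)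
  have p1 : (0 : ℝ) < ((l + r + 1).choose r : ℝ) := by exact_mod_cast Nat.choose_pos (by omega)
  have hl : (0 : ℝ) ≤ l := by positivity
  have hr : (0 : ℝ) ≤ r := by positivity
  have hf : (0 : ℝ) ≤ f := by positivity
  have hmm : ((f : ℝ) + 3) * ((l : ℝ) + r + 2) * ((g (m + 1) (f + 2) : ℝ) * g m f) * Cm ≤
      r * ((f : ℝ) + 2) * ((g m (f + 1) : ℝ) * g (m + 1) (f + 1)) *
        ((l + r).choose r : ℝ) := by
    rcases Nat.eq_zero_or_pos r with h0 | h0
    · rw [hCm0 h0, h0]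
      simp
    · have hS : (0 : ℝ) < (l : ℝ) + r := by
        have : (0 : ℝ) < r := by exact_mod_cast h0
        linarith
      have hCmn : 0 ≤ Cm := by
        by_contra hneg
        push Not at hneg
        have h8 : ((l : ℝ) + r) * Cm < 0 := mul_neg_of_pos_of_neg hS hneg
        have h9 : 0 ≤ (r : ℝ) * ((l + r).choose r : ℝ) := by positivity
        linarith
      have k1 : ((f : ℝ) + 3) * ((l : ℝ) + r + 2) * ((g (m + 1) (f + 2) : ℝ) * g m f) ≤
          ((l : ℝ) + r) * ((f : ℝ) + 2) * ((g m (f + 1) : ℝ) * g (m + 1) (f + 1)) := by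
        have : ((f : ℝ) + 3) * ((l : ℝ) + r + 2 * (f + 1) - 2 * f) *
            (g (m + 1) (f + 2) * g m f) =
            ((f : ℝ) + 3) * ((l : ℝ) + r + 2) * ((g (m + 1) (f + 2) : ℝ) * g m f) := by ring
        rw [this] at hK
        have : ((l : ℝ) + r + 2 * (f + 1) - 2 * f - 2) * ((f : ℝ) + 2) *
            (g m (f + 1) * g (m + 1) (f + 1)) =
            ((l : ℝ) + r) * ((f : ℝ) + 2) * ((g m (f + 1) : ℝ) * g (m + 1) (f + 1)) := by ring
        rwa [this] at hK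
      have k2 := mul_le_mul_of_nonneg_right k1 hCmn
      refine k2.trans (le_of_eq ?_)
      linear_combination (((f : ℝ) + 2) * ((g m (f + 1) : ℝ) * g (m + 1) (f + 1))) * hCm2
  have key := alg_thin κ l r f (g m f) (g m (f + 1)) (g (m + 1) f) (g (m + 1) (f + 1))
    (g (m + 1) (f + 2)) _ _ _ _ Cm hκ hl hr hf (g_nonneg _ _) (g_nonneg _ _) p0 p1
    (ch1 l r) (ch2 l r) (ch3 l r) hmm (by
      have : ((l : ℝ) + r + 2 * (f + 1) - 2 * f - 1) * ((l : ℝ) + r + 2 * (f + 1) - 2 * f) *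
          (g (m + 1) (f + 1) * g m f) = ((l : ℝ) + r + 1) * ((l : ℝ) + r + 2) *
          ((g (m + 1) (f + 1) : ℝ) * g m f) := by ring
      rw [this] at hT
      refine hT.trans (le_of_eq ?_)
      ring)
  have hk : (0 : ℝ) ≤ κ ^ f * κ ^ f * κ := by positivity
  have key2 := mul_le_mul_of_nonneg_left key hk
  push_cast
  refine (le_of_eq ?_).trans (key2.trans (le_of_eq ?_))
  · ring
  · ring

end Pool.Agent.V11172.Boel
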