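import Mathlib
import Pool.Agent.V11172.BoelSum

/-!
# Column log-concavity of the gamma-expanded triangle: the induction
-/

namespace Pool.Agent.V11172.Boel

open Finset

lemma lr_mean (N : ℕ) (a b h : ℕ → ℝ) (hab : ∀ i j, i < j → j < N → a j * b i ≤ a i * b j)
    (hh : ∀ i j, i ≤ j → h i ≤ h j) :
    (∑ i ∈ range N, h i * a i) * (∑ i ∈ range N, b i) ≤
      (∑ i ∈ range N, a i) * (∑ i ∈ range N, h i * b i) := by
  have h1 : 0 ≤ ∑ i ∈ range N, ∑ j ∈ range N, (h j - h i) * (a i * b j - a j * b i) := by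
    apply Finset.sum_nonneg
    intro i hi
    apply Finset.sum_nonneg
    intro j hj
    rw [mem_range] at hi hj
    rcases lt_trichotomy i j with h2 | h2 | h2
    · apply mul_nonneg
      · linarith [hh i j h2.le]
      · linarith [hab i j h2 hj]
    · subst h2; simp
    · apply mul_nonneg_of_nonpos_of_nonpos
      · linarith [hh j i h2.le]
      · linarith [hab j i h2 hi]
  have h2 : ∑ i ∈ range N, ∑ j ∈ range N, (h j - h i) * (a i * b j - a j * b i) =
      2 * ((∑ i ∈ range N, a i) * (∑ i ∈ range N, h i * b i) -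
        (∑ i ∈ range N, h i * a i) * (∑ i ∈ range N, b i)) := by
    have e1 : ∀ i j, (h j - h i) * (a i * b j - a j * b i) =
        a i * (h j * b j) - b i * (h j * a j) - (h i * a i) * b j + (h i * b i) * a j := by
      intro i j; ring
    simp only [e1, Finset.sum_add_distrib, Finset.sum_sub_distrib, ← Finset.mul_sum,
      ← Finset.sum_mul]
    ring
  rw [h2] at h1
  linarith

lemma tp_global (a b : ℕ → ℝ) (M N : ℕ) (ha : ∀ i ≤ M, 0 < a i)
    (ha0 : ∀ i, M < i → i < N → a i = 0) (hb : ∀ i, 0 ≤ b i)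
    (adj : ∀ i, i + 1 ≤ M → a (i + 1) * b i ≤ a i * b (i + 1)) :
    ∀ i j, i < j → j < N → a j * b i ≤ a i * b j := by
  intro i j hij hj
  rcases Nat.lt_or_ge M j with h | h
  · rw [ha0 j h hj, zero_mul]
    apply mul_nonneg _ (hb j)
    rcases Nat.lt_or_ge M i with h' | h'
    · rw [ha0 i h' (by omega)]
    · exact (ha i h').le
  · clear hj
    induction j with
    | zero => omega
    | succ j ih =>
      rcases Nat.lt_or_ge i j with h1 | h1
      · have h2 := ih h1 (by omega)
        have h3 := adj j h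
        have pj := ha j (by omega)
        have pi := ha i (by omega)
        have pj1 := ha (j + 1) h
        have h4 : a j * (a (j + 1) * b i) ≤ a j * (a i * b (j + 1)) := by
          calc a j * (a (j + 1) * b i) = a (j + 1) * (a j * b i) := by ring
            _ ≤ a (j + 1) * (a i * b j) := mul_le_mul_of_nonneg_left h2 pj1.le
            _ = a i * (a (j + 1) * b j) := by ring
            _ ≤ a i * (a j * b (j + 1)) := mul_le_mul_of_nonneg_left h3 pi.le
            _ = _ := by ring
        exact le_of_mul_le_mul_left h4 pj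
      · have : i = j := by omega
        subst this
        exact adj i h

/-- the weighted number of trees with `p` left and `q` right edges -/
noncomputable def W (κ : ℝ) (p q : ℕ) : ℝ := ∑ f ∈ range (q + 1), w κ p q f

/-- the weighted number of leaves -/
noncomputable def aa (κ : ℝ) (p q : ℕ) : ℝ := ∑ f ∈ range (q + 1), ((f : ℝ) + 1) * w κ p q f

/-- the weighted number of left-only nodes -/
noncomputable def La (κ : ℝ) (p q : ℕ) : ℝ := ((p : ℝ) + 1) * W κ p q - aa κ p q

/-- the weighted number of right-only nodes -/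
noncomputable def Ra (κ : ℝ) (p q : ℕ) : ℝ := ((q : ℝ) + 1) * W κ p q - aa κ p q

lemma W_pos {κ : ℝ} (hκ : 0 < κ) (p q : ℕ) : 0 < W κ p q := by
  unfold W
  apply Finset.sum_pos' (fun i _ => w_nonneg hκ p q i)
  exact ⟨0, by simp, w_pos hκ (by omega) (by omega)⟩

lemma vc_pos {κ : ℝ} (hκ : 0 < κ) {p q f : ℕ} (hp : f ≤ p) (hq : f ≤ q) : 0 < vc κ p q f := by
  unfold vc
  have h1 := w_pos hκ (p := p + 1) (q := q) (f := f) (by omega) hq
  have h2 := w_nonneg hκ (p + 1) q (f + 1)
  have h3 : (0 : ℝ) < (p : ℝ) + 1 - f := by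
    have : (f : ℝ) ≤ p := by exact_mod_cast hp
    linarith
  positivity

lemma vc_zero (κ : ℝ) {p q f : ℕ} (hp : p < f) : vc κ p q f = 0 := by
  unfold vc
  rw [w_zero_left κ (by omega : p + 1 < f + 1)]
  rcases Nat.lt_or_ge (p + 1) f with h | h
  · rw [w_zero_left κ h]; ring
  · have : f = p + 1 := by omega
    subst this
    push_cast
    ring

/-- (ii) the average number of full nodes does not decrease with `p` -/
lemma mono_full {κ : ℝ} (hκ : 0 < κ) (p q : ℕ) :
    aa κ p q * W κ (p + 1) q ≤ W κ p q * aa κ (p + 1) q := by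
  unfold aa W
  apply lr_mean (q + 1) (fun f => w κ p q f) (fun f => w κ (p + 1) q f) (fun f => (f : ℝ) + 1)
  · apply tp_global _ _ (min p q)
    · intro i hi
      exact w_pos hκ (by omega) (by omega)
    · intro i hi hi2
      rcases Nat.lt_or_ge p i with h | h
      · exact w_zero_left κ h
      · exact w_zero_right κ (by omega)
    · intro i
      exact w_nonneg hκ _ _ _
    · intro i hi
      exact lr_f hκ (by omega) (by omega)
  · intro i j hij
    have : (i : ℝ) ≤ j := by exact_mod_cast hij
    linarith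

/-- (i) the average number of leaves divided by `p + 1` does not increase with `p` -/
lemma mono_leaves {κ : ℝ} (hκ : 1 ≤ κ) (p q : ℕ) :
    ((p : ℝ) + 1) * aa κ (p + 1) q * W κ p q ≤ ((p : ℝ) + 2) * W κ (p + 1) q * aa κ p q := by
  have hκ0 : 0 < κ := by linarith
  have h1 := lr_mean (q + 1) (fun f => vc κ p q f) (fun f => w κ p q f)
    (fun f => (f : ℝ) + 1)
    (by
      apply tp_global _ _ (min p q)
      · intro i hi
        exact vc_pos hκ0 (by omega) (by omega)
      · intro i hi hi2
        exact vc_zero κ (by omega)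
      · intro i
        exact w_nonneg hκ0 _ _ _
      · intro i hi
        exact lr_thin hκ (by omega) (by omega))
    (by
      intro i j hij
      have : (i : ℝ) ≤ j := by exact_mod_cast hij
      linarith)
  -- the shifted sums
  have hshift : ∀ c : ℕ → ℝ, ∑ f ∈ range (q + 1), c (f + 1) * w κ (p + 1) q (f + 1) =
      (∑ f ∈ range (q + 1), c f * w κ (p + 1) q f) - c 0 * w κ (p + 1) q 0 := by
    intro c
    have e1 := Finset.sum_range_succ' (fun f => c f * w κ (p + 1) q f) (q + 1)
    have e2 := Finset.sum_range_succ (fun f => c f * w κ (p + 1) q f) (q + 1)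
    rw [w_zero_right κ (by omega : q < q + 1), mul_zero, add_zero] at e2
    linarith
  have s1 : ∑ f ∈ range (q + 1), ((f : ℝ) + 1) * vc κ p q f = ((p : ℝ) + 1) * aa κ (p + 1) q := by
    have e1 : ∀ f : ℕ, ((f : ℝ) + 1) * vc κ p q f =
        (((f + 1 : ℕ) : ℝ) * (((f + 1 : ℕ) : ℝ) + 1)) * w κ (p + 1) q (f + 1) +
          ((f : ℝ) + 1) * ((p : ℝ) + 1 - f) * w κ (p + 1) q f := by
      intro f
      unfold vc
      push_cast
      ring
    rw [Finset.sum_congr rfl (fun f _ => e1 f), Finset.sum_add_distrib,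
      hshift (fun f => (f : ℝ) * ((f : ℝ) + 1))]
    unfold aa
    rw [Finset.mul_sum]
    simp only [Nat.cast_zero, zero_mul, sub_zero]
    rw [← Finset.sum_add_distrib]
    apply Finset.sum_congr rfl
    intro f _
    ring
  have s2 : ∑ f ∈ range (q + 1), vc κ p q f ≤ ((p : ℝ) + 2) * W κ (p + 1) q := by
    have e1 : ∀ f : ℕ, vc κ p q f =
        ((((f + 1 : ℕ) : ℝ) + 1)) * w κ (p + 1) q (f + 1) +
          ((p : ℝ) + 1 - f) * w κ (p + 1) q f := by
      intro f
      unfold vc
      push_cast
      ring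
    rw [Finset.sum_congr rfl (fun f _ => e1 f), Finset.sum_add_distrib,
      hshift (fun f => ((f : ℝ) + 1))]
    have e2 : (∑ f ∈ range (q + 1), ((f : ℝ) + 1) * w κ (p + 1) q f) +
        ∑ f ∈ range (q + 1), ((p : ℝ) + 1 - f) * w κ (p + 1) q f =
        ((p : ℝ) + 2) * W κ (p + 1) q := by
      unfold W
      rw [Finset.mul_sum, ← Finset.sum_add_distrib]
      apply Finset.sum_congr rfl
      intro f _
      ring
    have e3 := w_nonneg hκ0 (p + 1) q 0
    simp only [Nat.cast_zero, zero_add, one_mul]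
    linarith
  have h2 : (∑ f ∈ range (q + 1), ((f : ℝ) + 1) * vc κ p q f) * W κ p q ≤
      (∑ f ∈ range (q + 1), vc κ p q f) * aa κ p q := h1
  rw [s1] at h2
  have h3 : 0 ≤ aa κ p q := by
    unfold aa
    apply Finset.sum_nonneg
    intro f _
    have := w_nonneg hκ0 p q f
    positivity
  exact h2.trans (mul_le_mul_of_nonneg_right s2 h3)

lemma La_eq (κ : ℝ) (p q : ℕ) : La κ p q = ∑ f ∈ range (q + 1), ((p : ℝ) - f) * w κ p q f := by
  unfold La aa W
  rw [Finset.mul_sum, ← Finset.sum_sub_distrib]
  apply Finset.sum_congr rfl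
  intro f _
  ring

lemma Ra_eq (κ : ℝ) (p q : ℕ) : Ra κ p q = ∑ f ∈ range (q + 1), ((q : ℝ) - f) * w κ p q f := by
  unfold Ra aa W
  rw [Finset.mul_sum, ← Finset.sum_sub_distrib]
  apply Finset.sum_congr rfl
  intro f _
  ring

lemma swap_term (κ : ℝ) (p q f : ℕ) :
    ((p : ℝ) + 1 - f) * w κ (p + 1) q f = ((q : ℝ) + 1 - f) * w κ p (q + 1) f := by
  rcases Nat.lt_or_ge p f with h | h
  · rw [w_zero_left κ (p := p) h, mul_zero]
    rcases Nat.lt_or_ge (p + 1) f with h' | h'
    · rw [w_zero_left κ h', mul_zero]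
    · have : f = p + 1 := by omega
      subst this
      push_cast
      ring
  rcases Nat.lt_or_ge q f with h1 | h1
  · rw [w_zero_right κ (q := q) h1, mul_zero]
    rcases Nat.lt_or_ge (q + 1) f with h' | h'
    · rw [w_zero_right κ h', mul_zero]
    · have : f = q + 1 := by omega
      subst this
      push_cast
      ring
  obtain ⟨l, rfl⟩ := Nat.exists_eq_add_of_le' h
  obtain ⟨r, rfl⟩ := Nat.exists_eq_add_of_le' h1
  have e1 := w_eq κ (l + 1) r f
  have e2 := w_eq κ l (r + 1) f
  rw [show l + 1 + f = l + f + 1 by ring, show l + 1 + r = l + r + 1 by ring] at e1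
  rw [show r + 1 + f = r + f + 1 by ring, show l + (r + 1) = l + r + 1 by ring] at e2
  rw [e1, e2]
  have h2 := ch1 l r
  have h3 := chm l r
  rw [show l + (r + 1) = l + r + 1 by ring] at h3
  push_cast
  linear_combination κ ^ f * (g (l + r + 1 + 2 * f) f : ℝ) * (h2 + h3)

lemma swap_sum (κ : ℝ) (p q : ℕ) : La κ (p + 1) q = Ra κ p (q + 1) := by
  rw [La_eq, Ra_eq, Finset.sum_range_succ (fun f : ℕ => (((q + 1 : ℕ) : ℝ) - f) *
    w κ p (q + 1) f)]
  have e : (((q + 1 : ℕ) : ℝ) - ((q + 1 : ℕ) : ℝ)) = 0 := by ring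
  rw [e, zero_mul, add_zero]
  apply Finset.sum_congr rfl
  intro f _
  have := swap_term κ p q f
  push_cast
  linarith

lemma rec_term0 (κ : ℝ) (p q : ℕ) :
    w κ (p + 1) (q + 1) 0 = w κ p (q + 1) 0 + w κ (p + 1) q 0 := by
  unfold w
  simp only [Nat.zero_le, and_self, if_true, pow_zero, one_mul, g_zero, Nat.cast_one, mul_zero,
    Nat.sub_zero]
  have : (p + 1 + (q + 1)).choose (q + 1) = (p + (q + 1)).choose (q + 1) +
      (p + 1 + q).choose q := by
    have e1 : p + 1 + (q + 1) = (p + 1 + q) + 1 := by ring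
    rw [e1, Nat.choose_succ_succ, add_comm]
    congr 2
    ring
  exact_mod_cast this

lemma rec_term (κ : ℝ) (p q f : ℕ) :
    w κ (p + 1) (q + 1) (f + 1) = ((f : ℝ) + 2) * (w κ p (q + 1) (f + 1) +
      w κ (p + 1) q (f + 1)) + 2 * κ * (((p : ℝ) + 1 - f) * w κ (p + 1) q f) := by
  rcases Nat.lt_or_ge p f with h | h
  · rw [w_zero_left κ (by omega : p + 1 < f + 1), w_zero_left κ (by omega : p < f + 1),
      w_zero_left κ (by omega : p + 1 < f + 1)]
    rcases Nat.lt_or_ge (p + 1) f with h' | h'
    · rw [w_zero_left κ h']; ring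
    · have : f = p + 1 := by omega
      subst this
      push_cast
      ring
  rcases Nat.lt_or_ge q f with h1 | h1
  · rw [w_zero_right κ (by omega : q + 1 < f + 1), w_zero_right κ (by omega : q + 1 < f + 1),
      w_zero_right κ (by omega : q < f + 1), w_zero_right κ h1]
    ring
  obtain ⟨l, rfl⟩ := Nat.exists_eq_add_of_le' h
  obtain ⟨r, rfl⟩ := Nat.exists_eq_add_of_le' h1
  have e1 := w_eq κ l r (f + 1)
  rw [show l + (f + 1) = l + f + 1 by ring, show r + (f + 1) = r + f + 1 by ring,
    show l + r + 2 * (f + 1) = l + r + 2 * f + 1 + 1 by ring] at e1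
  have e2 := w_eq κ (l + 1) r f
  rw [show l + 1 + f = l + f + 1 by ring, show l + 1 + r + 2 * f = l + r + 2 * f + 1 by ring,
    show l + 1 + r = l + r + 1 by ring] at e2
  have e3 := g_rec (l + r + 2 * f + 1) f
  have c1 := ch1 l r
  -- the sum of the two first weights
  have hsum : w κ (l + f) (r + f + 1) (f + 1) + w κ (l + f + 1) (r + f) (f + 1) =
      κ ^ (f + 1) * g (l + r + 2 * f + 1) (f + 1) * ((l + r).choose r : ℝ) := by
    cases l with
    | zero =>
      rw [w_zero_left κ (by omega : 0 + f < f + 1)]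
      cases r with
      | zero =>
        rw [w_zero_right κ (by omega : 0 + f < f + 1),
          g_zero' (m := 0 + 0 + 2 * f + 1) (f := f + 1) (by omega)]
        ring
      | succ r =>
        have e4 := w_eq κ 0 r (f + 1)
        rw [show 0 + (f + 1) = 0 + f + 1 by ring, show r + (f + 1) = r + 1 + f by ring,
          show 0 + r + 2 * (f + 1) = 0 + (r + 1) + 2 * f + 1 by ring] at e4
        rw [e4, zero_add]
        simp
    | succ l =>
      have e5 := w_eq κ l r (f + 1)
      rw [show l + (f + 1) = l + 1 + f by ring, show r + (f + 1) = r + f + 1 by ring,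
        show l + r + 2 * (f + 1) = l + 1 + r + 2 * f + 1 by ring] at e5
      rw [e5]
      cases r with
      | zero =>
        rw [w_zero_right κ (by omega : 0 + f < f + 1)]
        simp
      | succ r =>
        have e4 := w_eq κ (l + 1) r (f + 1)
        rw [show l + 1 + (f + 1) = l + 1 + f + 1 by ring, show r + (f + 1) = r + 1 + f by ring,
          show l + 1 + r + 2 * (f + 1) = l + 1 + (r + 1) + 2 * f + 1 by ring] at e4
        rw [e4]
        have : (l + 1 + (r + 1)).choose (r + 1) = (l + (r + 1)).choose (r + 1) +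
            (l + 1 + r).choose r := by
          have e6 : l + 1 + (r + 1) = (l + 1 + r) + 1 := by ring
          rw [e6, Nat.choose_succ_succ, add_comm]
          congr 2
          ring
        rw [this]
        push_cast
        ring
  rw [hsum, e1, e2, e3]
  push_cast
  linear_combination (-(2 * κ * κ ^ f * (g (l + r + 2 * f + 1) f : ℝ))) * c1

/-- the recurrence -/
lemma W_rec (κ : ℝ) (p q : ℕ) :
    W κ (p + 1) (q + 1) = ((q : ℝ) + 2) * W κ p (q + 1) + ((p : ℝ) + 2) * W κ (p + 1) q +
      2 * (κ - 1) * La κ (p + 1) q := by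
  have h1 : W κ (p + 1) (q + 1) = aa κ p (q + 1) + aa κ (p + 1) q + 2 * κ * La κ (p + 1) q := by
    rw [La_eq]
    unfold W aa
    rw [Finset.sum_range_succ' (fun f => w κ (p + 1) (q + 1) f) (q + 1),
      Finset.sum_congr rfl (fun f _ => rec_term κ p q f), rec_term0,
      Finset.sum_add_distrib, ← Finset.mul_sum]
    have e1 : ∑ f ∈ range (q + 1), ((f : ℝ) + 2) * (w κ p (q + 1) (f + 1) +
        w κ (p + 1) q (f + 1)) =
        (∑ f ∈ range (q + 1 + 1), ((f : ℝ) + 1) * w κ p (q + 1) f - w κ p (q + 1) 0) +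
        (∑ f ∈ range (q + 1), ((f : ℝ) + 1) * w κ (p + 1) q f - w κ (p + 1) q 0) := by
      have e2 := Finset.sum_range_succ' (fun f : ℕ => ((f : ℝ) + 1) * w κ p (q + 1) f) (q + 1)
      have e3 := Finset.sum_range_succ' (fun f : ℕ => ((f : ℝ) + 1) * w κ (p + 1) q f) (q + 1)
      have e4 := Finset.sum_range_succ (fun f : ℕ => ((f : ℝ) + 1) * w κ (p + 1) q f) (q + 1)
      rw [w_zero_right κ (by omega : q < q + 1), mul_zero, add_zero] at e4
      rw [e2, ← e4, e3]
      push_cast
      simp only [zero_add, one_mul, add_sub_cancel_right]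
      rw [← Finset.sum_add_distrib]
      apply Finset.sum_congr rfl
      intro f _
      ring
    rw [e1]
    push_cast
    have e5 : ∑ f ∈ range (q + 1), ((p : ℝ) + 1 - f) * w κ (p + 1) q f =
        ∑ f ∈ range (q + 1), ((p : ℝ) + 1 - f) * w κ (p + 1) q f := rfl
    ring
  have h2 := swap_sum κ p q
  unfold La Ra at h2
  rw [h1]
  unfold La
  push_cast at h2 ⊢
  linarith

lemma W_zero_left (κ : ℝ) (q : ℕ) : W κ 0 q = 1 := by
  unfold W
  rw [Finset.sum_range_succ', Finset.sum_eq_zero]
  · unfold w
    simp [g_zero]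
  · intro f _
    exact w_zero_left κ (by omega)

lemma W_zero_right (κ : ℝ) (p : ℕ) : W κ p 0 = 1 := by
  unfold W
  simp [w, g_zero]

lemma aa_zero_left (κ : ℝ) (q : ℕ) : aa κ 0 q = 1 := by
  unfold aa
  rw [Finset.sum_range_succ', Finset.sum_eq_zero]
  · unfold w
    simp [g_zero]
  · intro f _
    rw [w_zero_left κ (by omega), mul_zero]

/-- **Log-concavity of the columns.** -/
theorem W_logconcave {κ : ℝ} (hκ : 1 ≤ κ) (q : ℕ) :
    ∀ p, W κ p q * W κ (p + 2) q ≤ W κ (p + 1) q ^ 2 := by
  have hκ0 : 0 < κ := by linarith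
  induction q with
  | zero => intro p; simp [W_zero_right]
  | succ q ih =>
    have ha : ∀ p, 0 < W κ p q := fun p => W_pos hκ0 p q
    have ha' : ∀ p, 0 < W κ p (q + 1) := fun p => W_pos hκ0 p (q + 1)
    obtain ⟨s, hs⟩ : ∃ s : ℕ → ℝ, s = fun p : ℕ => ((p : ℝ) + 1) * W κ p q := ⟨_, rfl⟩
    have hs' : ∀ p, s p = ((p : ℝ) + 1) * W κ p q := fun p => by rw [hs]
    have hsp : ∀ p, 0 < s p := fun p => by rw [hs']; exact mul_pos (by positivity) (ha p)
    obtain ⟨c, hc⟩ : ∃ c : ℕ → ℝ, c = fun p : ℕ => s p + 2 * (κ - 1) * La κ p q := ⟨_, rfl⟩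
    have hc' : ∀ p, c p = s p + 2 * (κ - 1) * La κ p q := fun p => by rw [hc]
    have hrec : ∀ p, W κ (p + 1) (q + 1) = ((q : ℝ) + 2) * W κ p (q + 1) + c (p + 1) := by
      intro p
      rw [W_rec, hc', hs']
      push_cast
      ring
    -- `s` is log-concave
    have hslc : ∀ p, s p * s (p + 2) ≤ s (p + 1) ^ 2 := by
      intro p
      rw [hs', hs', hs']
      have h1 := ih p
      have h2 := (ha p).le
      have h3 := (ha (p + 2)).le
      push_cast
      calc ((p : ℝ) + 1) * W κ p q * (((p : ℝ) + 2 + 1) * W κ (p + 2) q)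
          = (((p : ℝ) + 1) * ((p : ℝ) + 3)) * (W κ p q * W κ (p + 2) q) := by ring
        _ ≤ (((p : ℝ) + 2) ^ 2) * (W κ p q * W κ (p + 2) q) := by
            apply mul_le_mul_of_nonneg_right _ (mul_nonneg h2 h3)
            nlinarith
        _ ≤ (((p : ℝ) + 2) ^ 2) * (W κ (p + 1) q ^ 2) :=
            mul_le_mul_of_nonneg_left h1 (by positivity)
        _ = _ := by ring
    -- `c / s` does not decrease
    have hcs : ∀ p, c p * s (p + 1) ≤ c (p + 1) * s p := by
      intro p
      rw [hc', hc']
      have h1 := mono_leaves hκ p q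
      have h2 : La κ p q * s (p + 1) ≤ La κ (p + 1) q * s p := by
        rw [hs', hs']
        unfold La
        push_cast
        nlinarith
      have h3 : 0 ≤ 2 * (κ - 1) := by linarith
      nlinarith [mul_le_mul_of_nonneg_left h2 h3]
    have hc0 : c 0 = s 0 := by
      rw [hc']
      unfold La
      rw [W_zero_left, aa_zero_left]
      push_cast
      ring
    have hs0 : s 0 = 1 := by
      rw [hs', W_zero_left]
      norm_num
    -- (iii)
    have hJ : ∀ p, W κ p (q + 1) * s (p + 2) ≤ W κ (p + 1) (q + 1) * s (p + 1) := by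
      intro p
      induction p with
      | zero =>
        have h1 := hcs 0
        rw [hc0, hs0] at h1
        have h2 := hslc 0
        rw [hs0] at h2
        have h3 := hrec 0
        rw [W_zero_left] at h3 ⊢
        rw [h3]
        have h4 := hsp 1
        have h5 : (0 : ℝ) ≤ (q : ℝ) + 2 := by positivity
        simp only [zero_add] at *
        nlinarith
      | succ p ihp =>
        have p1 := hsp (p + 1)
        have p2 := hsp (p + 2)
        have l1 := hslc (p + 1)
        have e1 : p + 1 + 1 = p + 2 := rfl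
        have e2 : p + 1 + 2 = p + 3 := rfl
        rw [e1, e2] at l1
        rw [e1, e2]
        -- first
        have f1 : W κ p (q + 1) * s (p + 3) ≤ W κ (p + 1) (q + 1) * s (p + 2) := by
          have h1 : s (p + 1) * (W κ p (q + 1) * s (p + 3)) ≤
              s (p + 1) * (W κ (p + 1) (q + 1) * s (p + 2)) := by
            calc s (p + 1) * (W κ p (q + 1) * s (p + 3))
                = W κ p (q + 1) * (s (p + 1) * s (p + 3)) := by ring
              _ ≤ W κ p (q + 1) * (s (p + 2) ^ 2) :=
                  mul_le_mul_of_nonneg_left l1 (ha' p).le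
              _ = (W κ p (q + 1) * s (p + 2)) * s (p + 2) := by ring
              _ ≤ (W κ (p + 1) (q + 1) * s (p + 1)) * s (p + 2) :=
                  mul_le_mul_of_nonneg_right ihp p2.le
              _ = _ := by ring
          exact le_of_mul_le_mul_left h1 p1
        -- second
        have hcpos : 0 ≤ c (p + 1) := by
          have : ∀ n, 0 ≤ c n := by
            intro n
            induction n with
            | zero => rw [hc0]; exact (hsp 0).le
            | succ n ihn =>
              have h1 := hcs n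
              have h2 : 0 ≤ c (n + 1) * s n := le_trans (mul_nonneg ihn (hsp (n + 1)).le) h1
              by_contra hneg
              push Not at hneg
              have := mul_neg_of_neg_of_pos hneg (hsp n)
              linarith
          exact this _
        have f2 : c (p + 1) * s (p + 3) ≤ c (p + 2) * s (p + 2) := by
          have h0 := hcs (p + 1)
          rw [e1] at h0
          have h1 : s (p + 1) * (c (p + 1) * s (p + 3)) ≤ s (p + 1) * (c (p + 2) * s (p + 2)) := by
            calc s (p + 1) * (c (p + 1) * s (p + 3)) = c (p + 1) * (s (p + 1) * s (p + 3)) := by ring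
              _ ≤ c (p + 1) * (s (p + 2) ^ 2) := mul_le_mul_of_nonneg_left l1 hcpos
              _ = (c (p + 1) * s (p + 2)) * s (p + 2) := by ring
              _ ≤ (c (p + 2) * s (p + 1)) * s (p + 2) := mul_le_mul_of_nonneg_right h0 p2.le
              _ = _ := by ring
          exact le_of_mul_le_mul_left h1 p1
        have r1 := hrec p
        have r2 := hrec (p + 1)
        rw [e1] at r2
        have hq : (0 : ℝ) ≤ (q : ℝ) + 2 := by positivity
        have g1 := mul_le_mul_of_nonneg_left f1 hq
        calc W κ (p + 1) (q + 1) * s (p + 3)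
            = ((q : ℝ) + 2) * (W κ p (q + 1) * s (p + 3)) + c (p + 1) * s (p + 3) := by
              rw [r1]; ring
          _ ≤ ((q : ℝ) + 2) * (W κ (p + 1) (q + 1) * s (p + 2)) + c (p + 2) * s (p + 2) := by
              linarith
          _ = W κ (p + 2) (q + 1) * s (p + 2) := by rw [r2]; ring
    -- log-concavity
    intro p
    have r1 := hrec p
    have r2 := hrec (p + 1)
    have e1 : p + 1 + 1 = p + 2 := rfl
    rw [e1] at r2
    have j1 := hJ p
    have m1 := mono_full hκ0 p (q + 1)
    have sw1 := swap_sum κ p q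
    have sw2 := swap_sum κ (p + 1) q
    rw [e1] at sw2
    have hR : W κ p (q + 1) * Ra κ (p + 1) (q + 1) ≤ W κ (p + 1) (q + 1) * Ra κ p (q + 1) := by
      unfold Ra
      nlinarith
    have h3 : 0 ≤ 2 * (κ - 1) := by linarith
    have h4 := mul_le_mul_of_nonneg_left hR h3
    have k1 : W κ (p + 1) (q + 1) ^ 2 = W κ (p + 1) (q + 1) * (((q : ℝ) + 2) * W κ p (q + 1) +
        (s (p + 1) + 2 * (κ - 1) * Ra κ p (q + 1))) := by
      rw [pow_two]
      congr 1
      rw [r1, hc', sw1]
    have k2 : W κ p (q + 1) * W κ (p + 2) (q + 1) = W κ p (q + 1) *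
        (((q : ℝ) + 2) * W κ (p + 1) (q + 1) +
        (s (p + 2) + 2 * (κ - 1) * Ra κ (p + 1) (q + 1))) := by
      congr 1
      rw [r2, hc', sw2]
    rw [k1, k2]
    nlinarith

end Pool.Agent.V11172.Boel
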