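import Mathlib
import Pool.Agent.V11172.BoelLC

/-!
# Descents and peaks of permutations: the link with the triangle
-/

namespace Pool.Agent.V11172.Boel

open Finset

/-- descents of a list -/
def ldes : List ℕ → ℕ
  | [] => 0
  | [_] => 0
  | y :: z :: l => (if z < y then 1 else 0) + ldes (z :: l)

/-- peaks of a list; `up` tells whether the first entry is preceded by a smaller one -/
def lpk : Bool → List ℕ → ℕ
  | _, [] => 0
  | _, [_] => 0
  | up, y :: z :: l => (if up = true ∧ z < y then 1 else 0) + lpk (decide (y < z)) (z :: l)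

lemma lpk_true (z : ℕ) (l : List ℕ) :
    lpk true (z :: l) = lpk false (z :: l) ∨ lpk true (z :: l) = lpk false (z :: l) + 1 := by
  cases l with
  | nil => left; rfl
  | cons a l =>
    simp only [lpk]
    split_ifs <;> simp_all [add_comm]

lemma lpk_le : ∀ (l : List ℕ) (up : Bool), lpk up l ≤ ldes l
  | [], up => by simp [lpk]
  | [a], up => by simp [lpk]
  | y :: z :: l, up => by
    have h := lpk_le (z :: l) (decide (y < z))
    simp only [lpk, ldes]
    split_ifs <;> omega

/-- inserting a large element, after the first entry -/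
lemma insert_tail (t : ℕ) : ∀ (ys : List ℕ) (y : ℕ) (up : Bool) (G : ℕ → ℕ → ℝ),
    y < t → (∀ x ∈ ys, x < t) → (y :: ys).Nodup →
    (((List.permutations'Aux t ys).map fun l => G (ldes (y :: l)) (lpk up (y :: l))).sum) =
      (1 + (lpk up (y :: ys) : ℝ)) * G (ldes (y :: ys)) (lpk up (y :: ys)) +
      (lpk false (y :: ys) : ℝ) * G (ldes (y :: ys) + 1) (lpk up (y :: ys)) +
      ((ys.length : ℝ) - ldes (y :: ys) - lpk false (y :: ys)) *
        G (ldes (y :: ys) + 1) (lpk up (y :: ys) + 1) +
      ((ldes (y :: ys) : ℝ) - lpk up (y :: ys)) * G (ldes (y :: ys)) (lpk up (y :: ys) + 1)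
  | [], y, up, G, hy, _, _ => by
    have h : ¬ t < y := by omega
    simp [List.permutations'Aux, ldes, lpk, h]
  | z :: zs, y, up, G, hy, hys, hnd => by
    have hz : z < t := hys z (by simp)
    have hzs : ∀ x ∈ zs, x < t := fun x hx => hys x (by simp [hx])
    have hnd' : (z :: zs).Nodup := (List.nodup_cons.1 hnd).2
    have hyz : y ≠ z := by
      intro h
      subst h
      exact (List.nodup_cons.1 hnd).1 (by simp)
    have h1 : ¬ t < y := by omega
    have h2 : ¬ t < z := by omega
    have ih := insert_tail t zs z (decide (y < z))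
      (fun d k => G ((if z < y then 1 else 0) + d) ((if up = true ∧ z < y then 1 else 0) + k))
      hz hzs hnd'
    rw [List.permutations'Aux, List.map_cons, List.sum_cons, List.map_map]
    have e1 : ((List.permutations'Aux t zs).map
        ((fun l => G (ldes (y :: l)) (lpk up (y :: l))) ∘ List.cons z)) =
        (List.permutations'Aux t zs).map fun l =>
          (fun d k => G ((if z < y then 1 else 0) + d) ((if up = true ∧ z < y then 1 else 0) + k))
            (ldes (z :: l)) (lpk (decide (y < z)) (z :: l)) := by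
      apply List.map_congr_left
      intro l _
      simp only [Function.comp, ldes, lpk]
    rw [e1, ih]
    have e2 : ldes (y :: t :: z :: zs) = 1 + ldes (z :: zs) := by
      simp [ldes, h1, hz]
    have e3 : lpk up (y :: t :: z :: zs) = 1 + lpk false (z :: zs) := by
      have : decide (t < z) = false := by simpa using h2
      simp [lpk, h1, hz, hy, this]
    have e4 : ldes (y :: z :: zs) = (if z < y then 1 else 0) + ldes (z :: zs) := rfl
    have e5 : ∀ b, lpk b (y :: z :: zs) =
      (if b = true ∧ z < y then 1 else 0) + lpk (decide (y < z)) (z :: zs) := fun b => rfl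
    rw [e2, e3, e4, e5 up, e5 false]
    simp only [List.length_cons]
    rcases lt_or_gt_of_ne hyz with h | h
    · have h3 : ¬ z < y := by omega
      have h4 : decide (y < z) = true := by simpa using h
      simp only [h3, h4, and_false, if_false, zero_add]
      rcases lpk_true z zs with h5 | h5
      · rw [h5]
        push_cast
        rw [add_comm 1 (ldes (z :: zs)), add_comm 1 (lpk false (z :: zs))]
        ring
      · rw [h5]
        push_cast
        rw [add_comm 1 (ldes (z :: zs)), add_comm 1 (lpk false (z :: zs))]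
        ring
    · have h4 : decide (y < z) = false := by simp; omega
      simp only [h, h4, and_true, if_true]
      cases up with
      | false =>
        simp only [Bool.false_eq_true, if_false, zero_add]
        rw [show 1 + ldes (z :: zs) + 1 = 1 + (ldes (z :: zs) + 1) by ring,
          add_comm (lpk false (z :: zs)) 1]
        push_cast
        ring
      | true =>
        simp only [if_true, Bool.false_eq_true, if_false, zero_add]
        rw [show 1 + ldes (z :: zs) + 1 = 1 + (ldes (z :: zs) + 1) by ring,
          show 1 + lpk false (z :: zs) + 1 = 1 + (lpk false (z :: zs) + 1) by ring]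
        push_cast
        ring

/-- inserting a large element -/
lemma insert_all (t : ℕ) (G : ℕ → ℕ → ℝ) (l : List ℕ) (hl : l ≠ []) (hlt : ∀ x ∈ l, x < t)
    (hnd : l.Nodup) :
    (((List.permutations'Aux t l).map fun l => G (ldes l) (lpk false l)).sum) =
      (1 + (lpk false l : ℝ)) * G (ldes l) (lpk false l) +
      (1 + (lpk false l : ℝ)) * G (ldes l + 1) (lpk false l) +
      ((l.length : ℝ) - 1 - ldes l - lpk false l) * G (ldes l + 1) (lpk false l + 1) +
      ((ldes l : ℝ) - lpk false l) * G (ldes l) (lpk false l + 1) := by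
  cases l with
  | nil => exact absurd rfl hl
  | cons y ys =>
    have hy : y < t := hlt y (by simp)
    have hys : ∀ x ∈ ys, x < t := fun x hx => hlt x (by simp [hx])
    have h1 := insert_tail t ys y false G hy hys hnd
    rw [List.permutations'Aux, List.map_cons, List.sum_cons, List.map_map]
    have e1 : ((fun l => G (ldes l) (lpk false l)) ∘ List.cons y) =
      fun l => G (ldes (y :: l)) (lpk false (y :: l)) := rfl
    rw [e1, h1]
    have e2 : ldes (t :: y :: ys) = ldes (y :: ys) + 1 := by
      simp [ldes, hy, add_comm]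
    have e3 : lpk false (t :: y :: ys) = lpk false (y :: ys) := by
      have : decide (t < y) = false := by simp; omega
      simp only [lpk, this]
      simp
    rw [e2, e3]
    simp only [List.length_cons]
    push_cast
    ring

/-- all arrangements of `0, …, n-1` -/
def Sl (n : ℕ) : List (List ℕ) := (List.range n).reverse.permutations'

lemma Sl_succ (n : ℕ) : Sl (n + 1) = (Sl n).flatMap (List.permutations'Aux n) := by
  unfold Sl
  rw [List.range_succ, List.reverse_append]
  rfl

lemma mem_Sl {n : ℕ} {l : List ℕ} : l ∈ Sl n ↔ l.Perm (List.range n).reverse := by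
  unfold Sl
  exact List.mem_permutations'

lemma sum_Sl_succ (m : ℕ) (G : ℕ → ℕ → ℝ) :
    (((Sl (m + 2)).map fun l => G (ldes l) (lpk false l)).sum) =
    (((Sl (m + 1)).map fun l => (1 + (lpk false l : ℝ)) * G (ldes l) (lpk false l) +
      (1 + (lpk false l : ℝ)) * G (ldes l + 1) (lpk false l) +
      ((m : ℝ) - ldes l - lpk false l) * G (ldes l + 1) (lpk false l + 1) +
      ((ldes l : ℝ) - lpk false l) * G (ldes l) (lpk false l + 1)).sum) := by
  rw [Sl_succ (m + 1), List.map_flatMap]
  rw [List.flatMap, List.sum_flatten, List.map_map]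
  congr 1
  apply List.map_congr_left
  intro l hl
  rw [mem_Sl] at hl
  have hlen : l.length = m + 1 := by rw [hl.length_eq]; simp
  have hne : l ≠ [] := by
    intro h
    rw [h] at hlen
    simp at hlen
  have hlt : ∀ x ∈ l, x < m + 1 := by
    intro x hx
    have := (hl.mem_iff).1 hx
    simpa using this
  have hnd : l.Nodup := by
    rw [hl.nodup_iff, List.nodup_reverse]
    exact List.nodup_range
  have := insert_all (m + 1) G l hne hlt hnd
  simp only [Function.comp]
  rw [this, hlen]
  push_cast
  ring

/-- the number of arrangements with `q` descents and `f` peaks -/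
noncomputable def N (m q f : ℕ) : ℝ :=
  ((Sl (m + 1)).map fun l => if ldes l = q ∧ lpk false l = f then (1 : ℝ) else 0).sum

/-- the closed form -/
noncomputable def U (m q f : ℕ) : ℝ := if q ≤ m then w 1 (m - q) q f else 0

lemma N_zero (q f : ℕ) : N 0 q f = if q = 0 ∧ f = 0 then 1 else 0 := by
  unfold N
  have : Sl (0 + 1) = [[0]] := by decide
  rw [this]
  simp [ldes, lpk, eq_comm]

lemma sum_lin (L : List (List ℕ)) (a b c d : List ℕ → ℝ) (x y z t : ℝ) :
    ((L.map fun l => x * a l + y * b l + z * c l + t * d l).sum) =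
      x * (L.map a).sum + y * (L.map b).sum + z * (L.map c).sum + t * (L.map d).sum := by
  induction L with
  | nil => simp
  | cons l L ih =>
    simp only [List.map_cons, List.sum_cons]
    rw [ih]
    ring

lemma ite_mul_congr {P : Prop} [Decidable P] {x y : ℝ} (h : P → x = y) :
    x * (if P then (1 : ℝ) else 0) = y * (if P then (1 : ℝ) else 0) := by
  split_ifs with h1
  · rw [h h1]
  · simp

lemma sum_lin' (L : List (List ℕ)) (x y z t : ℝ) (A B C D : List ℕ → Prop)
    [DecidablePred A] [DecidablePred B] [DecidablePred C] [DecidablePred D]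
    (a b c d : List ℕ → ℝ) (ha : ∀ l, A l → a l = x) (hb : ∀ l, B l → b l = y)
    (hc : ∀ l, C l → c l = z) (hd : ∀ l, D l → d l = t) :
    ((L.map fun l => a l * (if A l then (1 : ℝ) else 0) + b l * (if B l then (1 : ℝ) else 0) +
      c l * (if C l then (1 : ℝ) else 0) + d l * (if D l then (1 : ℝ) else 0)).sum) =
      x * (L.map fun l => if A l then (1 : ℝ) else 0).sum +
      y * (L.map fun l => if B l then (1 : ℝ) else 0).sum +
      z * (L.map fun l => if C l then (1 : ℝ) else 0).sum +
      t * (L.map fun l => if D l then (1 : ℝ) else 0).sum := by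
  rw [← sum_lin]
  congr 1
  apply List.map_congr_left
  intro l _
  rw [ite_mul_congr (ha l), ite_mul_congr (hb l), ite_mul_congr (hc l), ite_mul_congr (hd l)]

lemma N_rec (m q f : ℕ) : N (m + 1) (q + 1) (f + 1) =
    ((f : ℝ) + 2) * N m (q + 1) (f + 1) + ((f : ℝ) + 2) * N m q (f + 1) +
      ((m : ℝ) - q - f) * N m q f + ((q : ℝ) + 1 - f) * N m (q + 1) f := by
  have h := sum_Sl_succ m (fun d k => if d = q + 1 ∧ k = f + 1 then (1 : ℝ) else 0)
  have h' : N (m + 1) (q + 1) (f + 1) = _ := h
  rw [h']
  simp only [Nat.add_right_cancel_iff]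
  unfold N
  apply sum_lin' _ _ _ _ _ (fun l => ldes l = q + 1 ∧ lpk false l = f + 1)
    (fun l => ldes l = q ∧ lpk false l = f + 1) (fun l => ldes l = q ∧ lpk false l = f)
    (fun l => ldes l = q + 1 ∧ lpk false l = f)
  all_goals
    intro l hl
    obtain ⟨h1, h2⟩ := hl
    rw [h2]
    try rw [h1]
    try push_cast
    try ring

lemma N_rec_zero_left (m f : ℕ) : N (m + 1) 0 (f + 1) =
    ((f : ℝ) + 2) * N m 0 (f + 1) - (f : ℝ) * N m 0 f := by
  have h := sum_Sl_succ m (fun d k => if d = 0 ∧ k = f + 1 then (1 : ℝ) else 0)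
  have h' : N (m + 1) 0 (f + 1) = _ := h
  rw [h']
  simp only [Nat.add_right_cancel_iff, Nat.succ_ne_zero, false_and, and_false]
  have h2 := sum_lin' (Sl (m + 1)) ((f : ℝ) + 2) 0 0 (-(f : ℝ))
    (fun l => ldes l = 0 ∧ lpk false l = f + 1) (fun _ => False) (fun _ => False)
    (fun l => ldes l = 0 ∧ lpk false l = f)
    (fun l => 1 + (lpk false l : ℝ)) (fun l => 1 + (lpk false l : ℝ))
    (fun l => (m : ℝ) - ldes l - lpk false l) (fun l => (ldes l : ℝ) - lpk false l)
    (by intro l hl; rw [hl.2]; push_cast; ring) (by intro l hl; exact hl.elim)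
    (by intro l hl; exact hl.elim) (by intro l hl; rw [hl.1, hl.2]; push_cast; ring)
  rw [h2]
  unfold N
  ring

lemma N_rec_zero_right (m q : ℕ) : N (m + 1) (q + 1) 0 = N m (q + 1) 0 + N m q 0 := by
  have h := sum_Sl_succ m (fun d k => if d = q + 1 ∧ k = 0 then (1 : ℝ) else 0)
  have h' : N (m + 1) (q + 1) 0 = _ := h
  rw [h']
  simp only [Nat.add_right_cancel_iff, Nat.succ_ne_zero, and_false]
  have h2 := sum_lin' (Sl (m + 1)) 1 1 0 0
    (fun l => ldes l = q + 1 ∧ lpk false l = 0) (fun l => ldes l = q ∧ lpk false l = 0)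
    (fun _ => False) (fun _ => False)
    (fun l => 1 + (lpk false l : ℝ)) (fun l => 1 + (lpk false l : ℝ))
    (fun l => (m : ℝ) - ldes l - lpk false l) (fun l => (ldes l : ℝ) - lpk false l)
    (by intro l hl; rw [hl.2]; push_cast; ring) (by intro l hl; rw [hl.2]; push_cast; ring)
    (by intro l hl; exact hl.elim) (by intro l hl; exact hl.elim)
  rw [h2]
  unfold N
  ring

lemma N_rec_zero_zero (m : ℕ) : N (m + 1) 0 0 = N m 0 0 := by
  have h := sum_Sl_succ m (fun d k => if d = 0 ∧ k = 0 then (1 : ℝ) else 0)
  have h' : N (m + 1) 0 0 = _ := h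
  rw [h']
  simp only [Nat.add_right_cancel_iff, Nat.succ_ne_zero, false_and, and_false]
  have h2 := sum_lin' (Sl (m + 1)) 1 0 0 0
    (fun l => ldes l = 0 ∧ lpk false l = 0) (fun _ => False)
    (fun _ => False) (fun _ => False)
    (fun l => 1 + (lpk false l : ℝ)) (fun l => 1 + (lpk false l : ℝ))
    (fun l => (m : ℝ) - ldes l - lpk false l) (fun l => (ldes l : ℝ) - lpk false l)
    (by intro l hl; rw [hl.2]; push_cast; ring) (by intro l hl; exact hl.elim)
    (by intro l hl; exact hl.elim) (by intro l hl; exact hl.elim)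
  rw [h2]
  unfold N
  ring

lemma U_rec (m q f : ℕ) : U (m + 1) (q + 1) (f + 1) =
    ((f : ℝ) + 2) * U m (q + 1) (f + 1) + ((f : ℝ) + 2) * U m q (f + 1) +
      ((m : ℝ) - q - f) * U m q f + ((q : ℝ) + 1 - f) * U m (q + 1) f := by
  unfold U
  rcases Nat.lt_trichotomy q m with h | h | h
  · rw [if_pos (by omega), if_pos (by omega), if_pos (by omega), if_pos (by omega),
      if_pos (by omega)]
    obtain ⟨p, rfl⟩ : ∃ p, m = p + q + 1 := ⟨m - q - 1, by omega⟩
    rw [show p + q + 1 + 1 - (q + 1) = p + 1 by omega, show p + q + 1 - (q + 1) = p by omega,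
      show p + q + 1 - q = p + 1 by omega]
    have h1 := rec_term 1 p q f
    have h2 := swap_term 1 p q f
    push_cast
    linarith
  · subst h
    rw [if_pos (by omega), if_neg (by omega), if_pos (by omega), if_pos (by omega),
      if_neg (by omega)]
    rw [show q + 1 - (q + 1) = 0 by omega, show q - q = 0 by omega,
      w_zero_left 1 (by omega : 0 < f + 1), w_zero_left 1 (by omega : 0 < f + 1)]
    rcases Nat.eq_zero_or_pos f with h' | h'
    · subst h'; push_cast; ring
    · rw [w_zero_left 1 h']; ring
  · rw [if_neg (by omega), if_neg (by omega), if_neg (by omega), if_neg (by omega),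
      if_neg (by omega)]
    ring

lemma U_rec_zero_left (m f : ℕ) : U (m + 1) 0 (f + 1) =
    ((f : ℝ) + 2) * U m 0 (f + 1) - (f : ℝ) * U m 0 f := by
  unfold U
  rw [if_pos (by omega), if_pos (by omega), if_pos (by omega)]
  rw [w_zero_right 1 (by omega : 0 < f + 1), w_zero_right 1 (by omega : 0 < f + 1)]
  rcases Nat.eq_zero_or_pos f with h' | h'
  · subst h'; push_cast; ring
  · rw [w_zero_right 1 h']; ring

lemma U_rec_zero_right (m q : ℕ) : U (m + 1) (q + 1) 0 = U m (q + 1) 0 + U m q 0 := by
  unfold U
  rcases Nat.lt_trichotomy q m with h | h | h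
  · rw [if_pos (by omega), if_pos (by omega), if_pos (by omega)]
    obtain ⟨p, rfl⟩ : ∃ p, m = p + q + 1 := ⟨m - q - 1, by omega⟩
    rw [show p + q + 1 + 1 - (q + 1) = p + 1 by omega, show p + q + 1 - (q + 1) = p by omega,
      show p + q + 1 - q = p + 1 by omega]
    exact rec_term0 1 p q
  · subst h
    rw [if_pos (by omega), if_neg (by omega), if_pos (by omega)]
    rw [show q + 1 - (q + 1) = 0 by omega, show q - q = 0 by omega]
    unfold w
    simp [g_zero]
  · rw [if_neg (by omega), if_neg (by omega), if_neg (by omega)]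
    ring

lemma U_rec_zero_zero (m : ℕ) : U (m + 1) 0 0 = U m 0 0 := by
  unfold U w
  simp [g_zero]

lemma N_eq_U (m : ℕ) : ∀ q f, N m q f = U m q f := by
  induction m with
  | zero =>
    intro q f
    rw [N_zero]
    unfold U w
    cases q with
    | zero => cases f <;> simp [g_zero]
    | succ q => simp
  | succ m ih =>
    intro q f
    cases q with
    | zero =>
      cases f with
      | zero => rw [N_rec_zero_zero, U_rec_zero_zero, ih]
      | succ f => rw [N_rec_zero_left, U_rec_zero_left, ih, ih]
    | succ q =>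
      cases f with
      | zero => rw [N_rec_zero_right, U_rec_zero_right, ih, ih]
      | succ f => rw [N_rec, U_rec, ih, ih, ih, ih]

lemma w_kappa (κ : ℝ) (p q f : ℕ) : w κ p q f = κ ^ f * w 1 p q f := by
  unfold w
  split_ifs
  · rw [one_pow]; ring
  · ring

lemma sum_list_comm (L : List (List ℕ)) (s : Finset ℕ) (F : List ℕ → ℕ → ℝ) :
    (L.map fun l => ∑ f ∈ s, F l f).sum = ∑ f ∈ s, (L.map fun l => F l f).sum := by
  induction L with
  | nil => simp
  | cons l L ih => simp only [List.map_cons, List.sum_cons, ih, Finset.sum_add_distrib]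

/-- the weighted number of arrangements of `m + 1` letters with `q` descents -/
lemma sum_Sl_eq (κ : ℝ) (m q : ℕ) (hq : q ≤ m) :
    (((Sl (m + 1)).map fun l => if ldes l = q then κ ^ (lpk false l) else 0).sum) =
      W κ (m - q) q := by
  have h1 : ∀ l : List ℕ, (if ldes l = q then κ ^ (lpk false l) else 0) =
      ∑ f ∈ range (q + 1), κ ^ f * (if ldes l = q ∧ lpk false l = f then (1 : ℝ) else 0) := by
    intro l
    have hle := lpk_le l false
    by_cases h : ldes l = q
    · rw [if_pos h, Finset.sum_eq_single (lpk false l)]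
      · simp [h]
      · intro f _ hf
        rw [if_neg (by rintro ⟨_, h2⟩; exact hf h2.symm), mul_zero]
      · intro hf
        rw [mem_range] at hf
        omega
    · rw [if_neg h, Finset.sum_eq_zero]
      intro f _
      rw [if_neg (by tauto), mul_zero]
  rw [List.map_congr_left (fun l _ => h1 l), sum_list_comm]
  unfold W
  apply Finset.sum_congr rfl
  intro f _
  rw [List.sum_map_mul_left]
  have h2 := N_eq_U m q f
  unfold N U at h2
  rw [if_pos hq] at h2
  rw [h2, w_kappa κ]

end Pool.Agent.V11172.Boel
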