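import Mathlib

/-! Generic search lemma for sequences built by adding one entry at the left or right end. -/

namespace Pool.Agent.V11172.SeqGen

variable (P : List ℕ → Prop) (ext : List ℕ → List (List ℕ))

/-- hypotheses on a class of sequences built by extensions -/
structure Good : Prop where
  step : ∀ d, P d → 2 < d.length → ∃ d', P d' ∧ d ∈ ext d'
  base : ∀ d, P d → d.length ≤ 2 → (∀ x ∈ d, x ≤ 1) ∧ 1 ≤ d.length
  base2 : ∀ d, P d → d.length = 2 → d = [1, 1]
  shape : ∀ d e, e ∈ ext d → ∃ x, x ≤ d.sum ∧ (e = x :: d ∨ e = d ++ [x])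

variable {P ext}

lemma Good.length_step (h : Good P ext) {d e : List ℕ} (he : e ∈ ext d) :
    e.length = d.length + 1 := by
  obtain ⟨x, -, rfl | rfl⟩ := h.shape d e he <;> simp

lemma Good.sum_step (h : Good P ext) {d e : List ℕ} (he : e ∈ ext d) :
    e.sum ≤ 2 * d.sum := by
  obtain ⟨x, hx, rfl | rfl⟩ := h.shape d e he <;> simp <;> omega

lemma Good.mem_step (h : Good P ext) {d e : List ℕ} (he : e ∈ ext d) {y : ℕ} (hy : y ∈ e) :
    y ≤ d.sum ∨ y ∈ d := by
  obtain ⟨x, hx, rfl | rfl⟩ := h.shape d e he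
  · rcases List.mem_cons.mp hy with rfl | hy
    · exact Or.inl hx
    · exact Or.inr hy
  · rcases List.mem_append.mp hy with hy | hy
    · exact Or.inr hy
    · rw [List.mem_singleton] at hy
      subst hy; exact Or.inl hx

lemma Good.bounds (h : Good P ext) : ∀ (n : ℕ) (d : List ℕ), P d → d.length = n + 2 →
    d.sum ≤ 2 ^ (n + 1) ∧ ∀ x ∈ d, x ≤ 2 ^ n := by
  intro n
  induction n with
  | zero =>
    intro d hd hl
    have := h.base2 d hd (by omega)
    subst this
    simp
  | succ n ih =>
    intro d hd hl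
    obtain ⟨d', hd', he⟩ := h.step d hd (by omega)
    have h1 := h.length_step he
    obtain ⟨h2, h3⟩ := ih d' hd' (by omega)
    have h4 := h.sum_step he
    refine ⟨by rw [pow_succ]; omega, ?_⟩
    intro x hx
    rcases h.mem_step he hx with h5 | h5
    · exact h5.trans h2
    · have := h3 x h5
      have h6 : 2 ^ n ≤ 2 ^ (n + 1) := Nat.pow_le_pow_right (by norm_num) (by omega)
      omega

lemma Good.small (h : Good P ext) (n : ℕ) (d : List ℕ) (hd : P d) (hl : d.length ≤ n + 2) :
    ∀ x ∈ d, x ≤ 2 ^ n := by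
  rcases Nat.lt_or_ge d.length 2 with h2 | h2
  · intro x hx
    have := (h.base d hd (by omega)).1 x hx
    have := Nat.one_le_two_pow (n := n)
    omega
  · obtain ⟨m, hm⟩ : ∃ m, d.length = m + 2 := ⟨d.length - 2, by omega⟩
    intro x hx
    have h3 := (h.bounds m d hd hm).2 x hx
    have : 2 ^ m ≤ 2 ^ n := Nat.pow_le_pow_right (by norm_num) (by omega)
    omega

/-- the pruned levels -/
def L (ext : List ℕ → List (List ℕ)) (thr : ℕ → ℕ) : ℕ → List (List ℕ)
  | 0 => [[1, 1]]
  | n + 1 => ((L ext thr n).flatMap ext).filter (fun e => thr (n + 1) ≤ e.sum)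

lemma Good.mem_L (h : Good P ext) (thr : ℕ → ℕ) (hthr : ∀ n, 2 * thr n < thr (n + 1) + 2) :
    ∀ (n : ℕ) (d : List ℕ), P d → d.length = n + 2 → thr n ≤ d.sum → d ∈ L ext thr n := by
  intro n
  induction n with
  | zero =>
    intro d hd hl _
    rw [h.base2 d hd (by omega)]
    simp [L]
  | succ n ih =>
    intro d hd hl ht
    obtain ⟨d', hd', he⟩ := h.step d hd (by omega)
    have h1 := h.length_step he
    have h4 := h.sum_step he
    have h5 := hthr n
    have h2 := ih d' hd' (by omega) (by omega)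
    rw [L, List.mem_filter]
    refine ⟨List.mem_flatMap.mpr ⟨d', h2, he⟩, by simpa using ht⟩

/-- If the finite check succeeds, no sequence with at most nine terms contains both `a` and `b`. -/
lemma Good.no_nine (h : Good P ext) (thr : ℕ → ℕ) (hthr : ∀ n, 2 * thr n < thr (n + 1) + 2)
    {a b : ℕ} (hab : a ≠ b) (ha : 32 < a) (hb : 32 < b) (hta : thr 5 ≤ a) (htb : thr 5 ≤ b)
    (hcheck : ∀ d ∈ L ext thr 5, ∀ e ∈ ext d, (a ∈ e ∨ b ∈ e) → ∀ f ∈ ext e, ¬ (a ∈ f ∧ b ∈ f))
    {d : List ℕ} (hd : P d) (hl : d.length ≤ 9) : ¬ (a ∈ d ∧ b ∈ d) := by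
  rintro ⟨had, hbd⟩
  have hl7 : ¬ d.length ≤ 7 := fun h7 => by
    have := h.small 5 d hd h7 a had
    omega
  -- last step
  obtain ⟨e, he, hde⟩ := h.step d hd (by omega)
  have h1 := h.length_step hde
  obtain ⟨g, hg, heg⟩ := h.step e he (by omega)
  have h2 := h.length_step heg
  have hg7 : g.length ≤ 7 := by omega
  have hgs := h.small 5 g hg hg7
  have hag : a ∉ g := fun h' => by have := hgs a h'; omega
  have hbg : b ∉ g := fun h' => by have := hgs b h'; omega
  -- e contains one of them
  have hor : a ∈ e ∨ b ∈ e := by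
    obtain ⟨x, -, hx⟩ := h.shape e d hde
    by_contra hcon
    push Not at hcon
    have hax : a = x := by
      rcases hx with rfl | rfl
      · exact (List.mem_cons.mp had).resolve_right hcon.1
      · exact List.mem_singleton.mp ((List.mem_append.mp had).resolve_left hcon.1)
    have hbx : b = x := by
      rcases hx with rfl | rfl
      · exact (List.mem_cons.mp hbd).resolve_right hcon.2
      · exact List.mem_singleton.mp ((List.mem_append.mp hbd).resolve_left hcon.2)
    exact hab (hax.trans hbx.symm)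
  have hsum : thr 5 ≤ g.sum := by
    rcases hor with h' | h'
    · have := (h.mem_step heg h').resolve_right hag; omega
    · have := (h.mem_step heg h').resolve_right hbg; omega
  have hg7' : g.length = 5 + 2 := by
    by_contra hne
    have h3 := h.small 4 g hg (by omega)
    rcases Nat.lt_or_ge g.length 2 with h4 | h4
    · omega
    · obtain ⟨m, hm⟩ : ∃ m, g.length = m + 2 := ⟨g.length - 2, by omega⟩
      have h5 := (h.bounds m g hg hm).1
      have : 2 ^ (m+1) ≤ 2 ^ 5 := Nat.pow_le_pow_right (by norm_num) (by omega)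
      rcases hor with h' | h'
      · have := (h.mem_step heg h').resolve_right hag; omega
      · have := (h.mem_step heg h').resolve_right hbg; omega
  exact hcheck g (h.mem_L thr hthr 5 g hg hg7' hsum) e heg hor d hde ⟨had, hbd⟩

end Pool.Agent.V11172.SeqGen
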