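import Mathlib

/-!
# A criterion for not being 2-regular
-/

namespace Pool.Agent.V11172.Reg

open Finset

/-- a sequence of integers is 2-regular if the `ℤ`-module spanned by the subsequences
`n ↦ a (2 ^ k * n + r)`, `r < 2 ^ k`, is finitely generated -/
def TwoRegular (a : ℕ → ℤ) : Prop :=
  (Submodule.span ℤ {s : ℕ → ℤ | ∃ k r, r < 2 ^ k ∧ s = fun n => a (2 ^ k * n + r)}).FG

lemma not_twoRegular (m : ℕ) (a : ℕ → ℤ)
    (hoff : ∀ x y, x % 2 = 1 → y % 2 = 1 → x ≠ y → ∃ C N0 : ℕ, ∀ N, N0 ≤ N →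
      |a (2 ^ m * (2 ^ N * x + y))| ≤ C)
    (hdiag : ∀ x, x % 2 = 1 → ∀ C : ℕ, ∃ N0 : ℕ, ∀ N, N0 ≤ N →
      (C : ℤ) ≤ a (2 ^ m * (2 ^ N * x + x))) : ¬ TwoRegular a := by
  intro hFG
  unfold TwoRegular at hFG
  obtain ⟨S, hS⟩ : ∃ S, S = Submodule.span ℤ
    {s : ℕ → ℤ | ∃ k r, r < 2 ^ k ∧ s = fun n => a (2 ^ k * n + r)} := ⟨_, rfl⟩
  rw [← hS] at hFG
  have : Module.Finite ℤ S := Module.Finite.iff_fg.2 hFG
  obtain ⟨D, hD⟩ : ∃ D, D = Module.finrank ℤ S := ⟨_, rfl⟩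
  -- the bounds
  have h1 : ∀ i j : Fin (D + 1), ∃ C N0 : ℕ, i ≠ j → ∀ N, N0 ≤ N →
      |a (2 ^ m * (2 ^ N * (2 * (i : ℕ) + 1) + (2 * (j : ℕ) + 1)))| ≤ C := by
    intro i j
    by_cases hij : i = j
    · exact ⟨0, 0, fun h => absurd hij h⟩
    · have hij' : (i : ℕ) ≠ j := fun h => hij (Fin.ext h)
      obtain ⟨C, N0, hC⟩ := hoff (2 * i + 1) (2 * j + 1) (by omega) (by omega) (by omega)
      exact ⟨C, N0, fun _ => hC⟩
  choose C N0 hC using h1
  obtain ⟨Ct, hCt⟩ : ∃ Ct, Ct = ∑ i, ∑ j, C i j := ⟨_, rfl⟩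
  have h2 : ∀ i : Fin (D + 1), ∃ N0 : ℕ, ∀ N, N0 ≤ N →
      ((Ct + 1 : ℕ) : ℤ) ≤ a (2 ^ m * (2 ^ N * (2 * (i : ℕ) + 1) + (2 * (i : ℕ) + 1))) :=
    fun i => hdiag _ (by omega) _
  choose M hM using h2
  obtain ⟨N, hN⟩ : ∃ N, N = (∑ i, ∑ j, N0 i j) + (∑ i, M i) + (2 * D + 3) := ⟨_, rfl⟩
  have hN1 : ∀ i j, N0 i j ≤ N := by
    intro i j
    have a1 : N0 i j ≤ ∑ j, N0 i j := Finset.single_le_sum (f := fun j => N0 i j)
      (fun _ _ => Nat.zero_le _) (mem_univ j)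
    have a2 : ∑ j, N0 i j ≤ ∑ i, ∑ j, N0 i j := Finset.single_le_sum
      (f := fun i => ∑ j, N0 i j) (fun _ _ => Nat.zero_le _) (mem_univ i)
    omega
  have hN2 : ∀ i, M i ≤ N := by
    intro i
    have a1 : M i ≤ ∑ i, M i := Finset.single_le_sum (f := fun i => M i)
      (fun _ _ => Nat.zero_le _) (mem_univ i)
    omega
  -- the elements of the kernel
  obtain ⟨s, hs⟩ : ∃ s : Fin (D + 1) → ℕ → ℤ, s = fun (j : Fin (D + 1)) (n : ℕ) =>
    a (2 ^ (N + m) * n + 2 ^ m * (2 * (j : ℕ) + 1)) := ⟨_, rfl⟩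
  have hsS : ∀ j, s j ∈ S := by
    intro j
    rw [hS]
    apply Submodule.subset_span
    refine ⟨N + m, 2 ^ m * (2 * (j : ℕ) + 1), ?_, by rw [hs]⟩
    have h3 : 2 * (j : ℕ) + 1 < 2 ^ N := by
      have : N < 2 ^ N := Nat.lt_two_pow_self
      have := j.2
      omega
    rw [pow_add, mul_comm (2 ^ N)]
    exact Nat.mul_lt_mul_of_pos_left h3 (by positivity)
  have hse : ∀ i j : Fin (D + 1), s j (2 * (i : ℕ) + 1) =
      a (2 ^ m * (2 ^ N * (2 * (i : ℕ) + 1) + (2 * (j : ℕ) + 1))) := by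
    intro i j
    have e : 2 ^ (N + m) * (2 * (i : ℕ) + 1) + 2 ^ m * (2 * (j : ℕ) + 1) =
        2 ^ m * (2 ^ N * (2 * (i : ℕ) + 1) + (2 * (j : ℕ) + 1)) := by ring
    rw [hs, ← e]
  have hli : LinearIndependent ℤ s := by
    rw [Fintype.linearIndependent_iff]
    intro c hc
    by_contra hne
    push Not at hne
    obtain ⟨i0, hi0⟩ := hne
    obtain ⟨i, _, hi⟩ := Finset.exists_max_image univ (fun i => |c i|) ⟨i0, mem_univ _⟩
    have hci : 0 < |c i| := lt_of_lt_of_le (abs_pos.2 hi0) (hi i0 (mem_univ _))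
    have hev : ∑ j, c j * s j (2 * (i : ℕ) + 1) = 0 := by
      have := congrFun hc (2 * (i : ℕ) + 1)
      simpa using this
    rw [← Finset.add_sum_erase univ _ (mem_univ i)] at hev
    have hb : |∑ j ∈ univ.erase i, c j * s j (2 * (i : ℕ) + 1)| ≤ |c i| * Ct := by
      calc |∑ j ∈ univ.erase i, c j * s j (2 * (i : ℕ) + 1)|
          ≤ ∑ j ∈ univ.erase i, |c j * s j (2 * (i : ℕ) + 1)| := Finset.abs_sum_le_sum_abs _ _
        _ ≤ ∑ j ∈ univ.erase i, |c i| * (C i j : ℤ) := by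
            apply Finset.sum_le_sum
            intro j hj
            rw [abs_mul, hse]
            apply mul_le_mul (hi j (mem_univ _)) _ (abs_nonneg _) (abs_nonneg _)
            exact hC i j (Finset.ne_of_mem_erase hj).symm N (hN1 i j)
        _ = |c i| * ((∑ j ∈ univ.erase i, C i j : ℕ) : ℤ) := by
            rw [← Finset.mul_sum]; push_cast; rfl
        _ ≤ |c i| * Ct := by
            apply mul_le_mul_of_nonneg_left _ (abs_nonneg _)
            have a1 : ∑ j ∈ univ.erase i, C i j ≤ ∑ j, C i j :=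
              Finset.sum_le_sum_of_subset (Finset.erase_subset _ _)
            have a2 : ∑ j, C i j ≤ ∑ i, ∑ j, C i j := Finset.single_le_sum
              (f := fun i => ∑ j, C i j) (fun _ _ => Nat.zero_le _) (mem_univ i)
            have a3 : ∑ j ∈ univ.erase i, C i j ≤ Ct := by omega
            exact_mod_cast a3
    have hd := hM i N (hN2 i)
    rw [← hse] at hd
    have hd2 : |c i| * ((Ct + 1 : ℕ) : ℤ) ≤ |c i * s i (2 * (i : ℕ) + 1)| := by
      rw [abs_mul]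
      apply mul_le_mul_of_nonneg_left _ (abs_nonneg _)
      exact hd.trans (le_abs_self _)
    have heq : c i * s i (2 * (i : ℕ) + 1) = -∑ j ∈ univ.erase i, c j * s j (2 * (i : ℕ) + 1) := by
      linarith
    rw [heq, abs_neg] at hd2
    push_cast at hd2
    nlinarith
  have hli2 : LinearIndependent ℤ (fun j => (⟨s j, hsS j⟩ : S)) :=
    LinearIndependent.of_comp S.subtype hli
  have := hli2.fintype_card_le_finrank
  rw [Fintype.card_fin] at this
  omega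

end Pool.Agent.V11172.Reg
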