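import Mathlib

/-!
# Pattern counts mod 2 along arithmetic progressions

The parity of the number of occurrences of a binary pattern `v` (of length `m + 1` and value `V`)
satisfies `f n = f (n / 2) + [n mod 2 ^ (m + 1) = V]`.  We prove that such a function cannot be
constant for long along progressions of difference `2 ^ m * (2 ^ N * x + y)` (`x ≠ y` odd), with a
bound that does not depend on `N`, nor on the first term.
-/

namespace Pool.Agent.V11172.Reg

open Finset

/-- the parity of the count of a pattern of length `m + 1` and value `V` -/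
structure PC (m V : ℕ) (f : ℕ → ZMod 2) : Prop where
  zero : f 0 = 0
  step : ∀ n, 1 ≤ n → f n = f (n / 2) + if n % 2 ^ (m + 1) = V then 1 else 0

/-- the contribution of the `J` last windows -/
def F (m V J n : ℕ) : ZMod 2 := ∑ j ∈ range J, if (n / 2 ^ j) % 2 ^ (m + 1) = V then 1 else 0

lemma add_self (a : ZMod 2) : a + a = 0 := CharTwo.add_self_eq_zero a

lemma zmod_cases (a : ZMod 2) : a = 0 ∨ a = 1 := by
  revert a; decide

lemma f_eq {m V : ℕ} {f : ℕ → ZMod 2} (h : PC m V f) : ∀ J n, 1 ≤ n / 2 ^ J →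
    f n = f (n / 2 ^ J) + F m V J n
  | 0, n, _ => by simp [F]
  | J + 1, n, hn => by
    have e1 : n / 2 ^ (J + 1) = n / 2 ^ J / 2 := by
      rw [pow_succ, Nat.div_div_eq_div_mul]
    rw [e1] at hn
    have h1 : 1 ≤ n / 2 ^ J := by omega
    rw [f_eq h J n h1, h.step _ h1, e1, F, F, Finset.sum_range_succ]
    ring

lemma F_congr {m V J n n' : ℕ} (hn : n % 2 ^ (J + m) = n' % 2 ^ (J + m)) :
    F m V J n = F m V J n' := by
  unfold F
  apply Finset.sum_congr rfl
  intro j hj
  rw [mem_range] at hj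
  have e : ∀ k : ℕ, (k / 2 ^ j) % 2 ^ (m + 1) = (k % 2 ^ (J + m)) % (2 ^ j * 2 ^ (m + 1)) / 2 ^ j := by
    intro k
    rw [Nat.mod_mod_of_dvd _ (by
      rw [← pow_add]
      exact pow_dvd_pow 2 (by omega)), Nat.mod_mul_right_div_self]
  rw [e n, e n', hn]

/-- the increment along a shift by `2 ^ m * z` -/
def Phi (f : ℕ → ZMod 2) (m z U : ℕ) : ZMod 2 := f U + f (U + 2 ^ m * z)

lemma shift {m V : ℕ} {f : ℕ → ZMod 2} (h : PC m V f) (b z a : ℕ) (ha : 1 ≤ a / 2 ^ b) :
    f a + f (a + 2 ^ b * (2 ^ m * z)) = Phi f m z (a / 2 ^ b) := by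
  have e1 : (a + 2 ^ b * (2 ^ m * z)) / 2 ^ b = a / 2 ^ b + 2 ^ m * z := by
    rw [Nat.add_mul_div_left _ _ (by positivity)]
  have e2 : F m V b (a + 2 ^ b * (2 ^ m * z)) = F m V b a := by
    apply F_congr
    rw [show 2 ^ b * (2 ^ m * z) = 2 ^ (b + m) * z by ring, Nat.add_mul_mod_self_left]
  rw [f_eq h b a ha, f_eq h b (a + 2 ^ b * (2 ^ m * z)) (by rw [e1]; omega), e1, e2, Phi]
  have := add_self (F m V b a)
  linear_combination this

/-- `Phi` changes at the residue class `r` -/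
lemma jump {m V : ℕ} {f : ℕ → ZMod 2} (h : PC m V f) (hV : V < 2 ^ (m + 1)) (x : ℕ)
    (hx : x % 2 = 1) : ∃ r < 2 ^ (m + 2), ∀ U, 5 ≤ U → U % 2 ^ (m + 2) = r →
      Phi f m x U + Phi f m x (U + 1) = 1 := by
  rcases Nat.eq_zero_or_pos m with hm | hm
  · subst hm
    -- patterns of length one
    have key : ∀ w, 1 ≤ w → w % 2 = 0 → f w + f (w + 1) = 1 := by
      intro w hw hw2
      rw [h.step w hw, h.step (w + 1) (by omega)]
      have e1 : (w + 1) / 2 = w / 2 := by omega
      rw [e1]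
      have hV' : V = 0 ∨ V = 1 := by
        norm_num at hV; omega
      have e2 : w % 2 ^ (0 + 1) = 0 := by simpa using hw2
      have e3 : (w + 1) % 2 ^ (0 + 1) = 1 := by
        norm_num; omega
      rw [e2, e3]
      have := add_self (f (w / 2))
      rcases hV' with rfl | rfl
      · simp only [if_true, one_ne_zero, if_false]
        linear_combination this
      · simp only [if_true, zero_ne_one, if_false]
        linear_combination this
    have key2 : ∀ W, 5 ≤ W → W % 4 = 1 → f W + f (W + 1) = 0 := by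
      intro W hW hW2
      rw [h.step W (by omega), h.step (W + 1) (by omega)]
      have e1 : (W + 1) / 2 = W / 2 + 1 := by omega
      rw [e1]
      have hV' : V = 0 ∨ V = 1 := by
        norm_num at hV; omega
      have e2 : W % 2 ^ (0 + 1) = 1 := by norm_num; omega
      have e3 : (W + 1) % 2 ^ (0 + 1) = 0 := by
        norm_num; omega
      rw [e2, e3]
      have h1 := key (W / 2) (by omega) (by omega)
      have h2 := add_self (1 : ZMod 2)
      rcases hV' with rfl | rfl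
      · simp only [if_true, one_ne_zero, if_false]
        linear_combination h1 + h2
      · simp only [if_true, zero_ne_one, if_false]
        linear_combination h1 + h2
    refine ⟨(1 + 3 * x) % 4, by norm_num; omega, ?_⟩
    intro U hU hU2
    have hU3 : U % 4 = (1 + 3 * x) % 4 := by simpa using hU2
    unfold Phi
    have h1 := key U (by omega) (by omega)
    have h2 := key2 (U + x) (by omega) (by omega)
    rw [show U + 1 + 2 ^ 0 * x = U + x + 1 by ring, show U + 2 ^ 0 * x = U + x by ring]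
    linear_combination h1 + h2
  · obtain ⟨k, rfl⟩ : ∃ k, m = k + 1 := ⟨m - 1, by omega⟩
    refine ⟨2 * (V / 2), ?_, ?_⟩
    · have : 2 ^ (k + 1 + 2) = 2 * 2 ^ (k + 1 + 1) := by ring
      omega
    intro U hU hU2
    have p1 : 2 ^ (k + 1 + 2) = 2 ^ (k + 1 + 1) * 2 := by ring
    have p2 : 2 ^ (k + 1 + 1) = 4 * 2 ^ k := by ring
    have p3 : 2 ^ (k + 1) = 2 * 2 ^ k := by ring
    have hpos : 1 ≤ 2 ^ k := Nat.one_le_two_pow
    have hU3 : U % 2 ^ (k + 1 + 1) = 2 * (V / 2) := by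
      have : U % 2 ^ (k + 1 + 2) % 2 ^ (k + 1 + 1) = U % 2 ^ (k + 1 + 1) :=
        Nat.mod_mod_of_dvd _ (by rw [p1]; exact Dvd.intro _ rfl)
      rw [← this, hU2]
      apply Nat.mod_eq_of_lt
      omega
    have hV2 : 2 * (V / 2) < 2 ^ (k + 1 + 1) := by omega
    have hUe : U % 2 = 0 := by
      have : U % 2 ^ (k + 1 + 1) % 2 = U % 2 := Nat.mod_mod_of_dvd _ (by
        rw [pow_succ]; exact Dvd.intro_left _ rfl)
      omega
    obtain ⟨x', hx'⟩ : ∃ x', x = 2 * x' + 1 := ⟨x / 2, by omega⟩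
    -- the residues
    have hU4 : (U + 1) % 2 ^ (k + 1 + 1) = 2 * (V / 2) + 1 := by
      rw [Nat.add_mod, hU3, Nat.mod_eq_of_lt (show 1 < 2 ^ (k + 1 + 1) by omega)]
      apply Nat.mod_eq_of_lt
      omega
    have hW3 : (U + 2 ^ (k + 1) * x) % 2 ^ (k + 1 + 1) =
        (2 * (V / 2) + 2 * 2 ^ k) % (4 * 2 ^ k) := by
      rw [hx', show U + 2 ^ (k + 1) * (2 * x' + 1) = U + 2 ^ (k + 1) + 2 ^ (k + 1 + 1) * x' by ring,
        Nat.add_mul_mod_self_left, Nat.add_mod, hU3, p2, p3]
      rw [Nat.add_mod (2 * (V / 2)) (2 * 2 ^ k), Nat.mod_eq_of_lt (by omega : 2 * (V / 2) < 4 * 2 ^ k)]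
    have hVk : V / 2 < 2 * 2 ^ k := by omega
    have hW4 : (2 * (V / 2) + 2 * 2 ^ k) % (4 * 2 ^ k) = 2 * (V / 2) + 2 * 2 ^ k ∨
        (2 * (V / 2) + 2 * 2 ^ k) % (4 * 2 ^ k) + 2 * 2 ^ k = 2 * (V / 2) := by
      rcases Nat.lt_or_ge (2 * (V / 2) + 2 * 2 ^ k) (4 * 2 ^ k) with h1 | h1
      · left; exact Nat.mod_eq_of_lt h1
      · right
        rw [Nat.mod_eq_sub_mod h1, Nat.mod_eq_of_lt (by omega)]
        omega
    have hW5 : (U + 2 ^ (k + 1) * x) % 2 ^ (k + 1 + 1) ≠ V ∧
        (U + 2 ^ (k + 1) * x) % 2 ^ (k + 1 + 1) + 1 ≠ V := by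
      rw [hW3]
      constructor <;> omega
    have hWe : (U + 2 ^ (k + 1) * x) % 2 = 0 := by
      rw [p3, show U + 2 * 2 ^ k * x = U + 2 * (2 ^ k * x) by ring]
      omega
    have hW6 : (U + 2 ^ (k + 1) * x + 1) % 2 ^ (k + 1 + 1) =
        (U + 2 ^ (k + 1) * x) % 2 ^ (k + 1 + 1) + 1 := by
      have hlt : (U + 2 ^ (k + 1) * x) % 2 ^ (k + 1 + 1) < 2 ^ (k + 1 + 1) :=
        Nat.mod_lt _ (by positivity)
      have hev : (U + 2 ^ (k + 1) * x) % 2 ^ (k + 1 + 1) % 2 = 0 := by
        rw [Nat.mod_mod_of_dvd _ (by rw [pow_succ]; exact Dvd.intro_left _ rfl)]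
        exact hWe
      rw [Nat.add_mod, Nat.mod_eq_of_lt (show 1 < 2 ^ (k + 1 + 1) by omega)]
      apply Nat.mod_eq_of_lt
      omega
    unfold Phi
    rw [show U + 1 + 2 ^ (k + 1) * x = U + 2 ^ (k + 1) * x + 1 by ring]
    rw [h.step U (by omega), h.step (U + 1) (by omega), h.step (U + 2 ^ (k + 1) * x) (by omega),
      h.step (U + 2 ^ (k + 1) * x + 1) (by omega), hU3, hU4, hW6, if_neg hW5.1, if_neg hW5.2,
      show (U + 1) / 2 = U / 2 by omega,
      show (U + 2 ^ (k + 1) * x + 1) / 2 = (U + 2 ^ (k + 1) * x) / 2 by omega]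
    have s1 := add_self (f (U / 2))
    have s2 := add_self (f ((U + 2 ^ (k + 1) * x) / 2))
    rcases Nat.mod_two_eq_zero_or_one V with hv | hv
    · rw [if_pos (by omega), if_neg (by omega)]
      linear_combination s1 + s2
    · rw [if_neg (by omega), if_pos (by omega)]
      linear_combination s1 + s2

end Pool.Agent.V11172.Reg
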