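import Mathlib
import Pool.Agent.V11172.RegCore

/-!
# Pattern counts mod 2: bounds for the length of constant stretches
-/

namespace Pool.Agent.V11172.Reg

open Finset

lemma hit (a D T : ℕ) (hD : 1 ≤ D) (h : a < T) :
    ∃ l, a + l * D < T ∧ T ≤ a + (l + 1) * D ∧ l + 1 ≤ T - a := by
  refine ⟨(T - a - 1) / D, ?_, ?_, ?_⟩
  · have := Nat.div_mul_le_self (T - a - 1) D
    omega
  · have := Nat.lt_div_mul_add (a := T - a - 1) (b := D) hD
    rw [add_mul]
    omega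
  · have := Nat.div_le_self (T - a - 1) D
    omega

lemma div_eq {a T q b : ℕ} (hT : T = q * 2 ^ b) (h1 : T ≤ a) (h2 : a < T + 2 ^ b) :
    a / 2 ^ b = q := by
  have hp : 0 < 2 ^ b := by positivity
  subst hT
  apply Nat.div_eq_of_lt_le
  · exact h1
  · rw [Nat.succ_mul]; exact h2

/-- along any progression the pattern count changes parity within a bounded number of steps -/
lemma fin_one {m V : ℕ} {f : ℕ → ZMod 2} (h : PC m V f) (hV : V < 2 ^ (m + 1)) (d : ℕ)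
    (hd : 1 ≤ d) : ∃ C, ∀ n, ∃ l, 1 ≤ l ∧ l ≤ C ∧ f (n + l * d) ≠ f n := by
  obtain ⟨s, x, hx, rfl⟩ : ∃ s x, x % 2 = 1 ∧ d = 2 ^ s * x := by
    obtain ⟨s, x, hx, e⟩ := Nat.exists_eq_two_pow_mul_odd (show d ≠ 0 by omega)
    exact ⟨s, x, Nat.odd_iff.1 hx, e⟩
  obtain ⟨r, hr, hj⟩ := jump h hV x hx
  obtain ⟨B, hB1, hB2⟩ : ∃ B, 2 ^ s * x ≤ 2 ^ B ∧ s ≤ B :=
    ⟨2 ^ s * x, Nat.lt_two_pow_self.le, by
      have h1 : s < 2 ^ s := Nat.lt_two_pow_self
      have h2 : 2 ^ s * 1 ≤ 2 ^ s * x := Nat.mul_le_mul_left _ (by omega)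
      omega⟩
  obtain ⟨b, hb⟩ : ∃ b, b + s = B + m := ⟨B + m - s, by omega⟩
  have hbd : 2 ^ b * (2 ^ s * x) = 2 ^ B * (2 ^ m * x) := by
    rw [← mul_assoc, ← pow_add, hb, pow_add, mul_assoc]
  have hBpos : 0 < 2 ^ B := by positivity
  refine ⟨(8 * 2 ^ (m + 2) + 2) * 2 ^ B + 2 ^ b, ?_⟩
  intro n
  by_contra hcon
  push Not at hcon
  have hcon' : ∀ l, l ≤ (8 * 2 ^ (m + 2) + 2) * 2 ^ B + 2 ^ b → f (n + l * (2 ^ s * x)) = f n := by
    intro l hl
    rcases Nat.eq_zero_or_pos l with h0 | h0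
    · subst h0; simp
    · exact hcon l h0 hl
  obtain ⟨t, ht⟩ : ∃ t, t = 2 ^ (m + 2) := ⟨_, rfl⟩
  have ht4 : 4 ≤ t := by
    rw [ht, pow_add]
    have : 1 ≤ 2 ^ m := Nat.one_le_two_pow
    omega
  rw [← ht] at hcon' hj hr
  obtain ⟨u, hu⟩ : ∃ u, u = n / 2 ^ B := ⟨_, rfl⟩
  obtain ⟨U, hU⟩ : ∃ U, U = t * (u / t + 6) + r := ⟨_, rfl⟩
  have hut : t * (u / t) ≤ u := Nat.mul_div_le u t
  have hut2 : u < t * (u / t) + t := by
    have := Nat.lt_mul_div_succ u (show 0 < t by omega)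
    rw [mul_add, mul_one] at this
    exact this
  have hU1 : U = t * (u / t) + t * 6 + r := by rw [hU, mul_add]
  have hU5 : 5 ≤ U := by omega
  have hUr : U % t = r := by
    rw [hU, Nat.mul_add_mod]
    exact Nat.mod_eq_of_lt hr
  have hn1 : n < (u + 1) * 2 ^ B := by
    rw [hu, add_mul, one_mul]
    exact Nat.lt_div_mul_add hBpos
  have hn2 : u * 2 ^ B ≤ n := by
    rw [hu]; exact Nat.div_mul_le_self n _
  -- hitting a window
  have key : ∀ W, u + 1 ≤ W → W ≤ U + 1 → Phi f m x W = 0 := by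
    intro W hW1 hW2
    have hT : n < W * 2 ^ B := lt_of_lt_of_le hn1 (Nat.mul_le_mul_right _ hW1)
    obtain ⟨l, hl1, hl2, hl3⟩ := hit n (2 ^ s * x) (W * 2 ^ B)
      (Nat.mul_pos (by positivity) (by omega)) hT
    have hq : (n + (l + 1) * (2 ^ s * x)) / 2 ^ B = W := by
      apply div_eq rfl hl2
      rw [add_mul, one_mul]
      omega
    have hs := shift h B x (n + (l + 1) * (2 ^ s * x)) (by rw [hq]; omega)
    rw [hq, ← hbd, show n + (l + 1) * (2 ^ s * x) + 2 ^ b * (2 ^ s * x) =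
      n + (l + 1 + 2 ^ b) * (2 ^ s * x) by ring] at hs
    have hWb : W * 2 ^ B ≤ (u + 7 * t + 1) * 2 ^ B := Nat.mul_le_mul_right _ (by omega)
    have hb0 : 0 < 2 ^ b := by positivity
    have hl4 : l + 1 ≤ (8 * t + 2) * 2 ^ B := by
      calc l + 1 ≤ W * 2 ^ B - n := hl3
        _ ≤ (u + 7 * t + 1) * 2 ^ B - u * 2 ^ B := by omega
        _ = (7 * t + 1) * 2 ^ B := by rw [← Nat.sub_mul]; congr 1; omega
        _ ≤ (8 * t + 2) * 2 ^ B := Nat.mul_le_mul_right _ (by omega)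
    rw [hcon' (l + 1) (by omega), hcon' (l + 1 + 2 ^ b) (by omega), add_self] at hs
    exact hs.symm
  have h1 := key U (by omega) (by omega)
  have h2 := key (U + 1) (by omega) (by omega)
  have h3 := hj U hU5 hUr
  rw [h1, h2] at h3
  exact absurd h3 (by decide)

/-- two progressions with different odd parts of the difference cannot have the same pattern
parities for long -/
lemma core {m V : ℕ} {f : ℕ → ZMod 2} (h : PC m V f) (hV : V < 2 ^ (m + 1)) (x y : ℕ)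
    (hx : x % 2 = 1) (hy : y % 2 = 1) (hxy : y < x) :
    ∃ L, ∀ H K : ℕ, ∀ c : ZMod 2, ∃ l ≤ L,
      f (H + l * (2 ^ m * x)) + f (K + l * (2 ^ m * y)) ≠ c := by
  obtain ⟨r, hr, hj⟩ := jump h hV x hx
  obtain ⟨X, hX⟩ : ∃ X, X = 2 ^ m * x := ⟨_, rfl⟩
  obtain ⟨Y, hY⟩ : ∃ Y, Y = 2 ^ m * y := ⟨_, rfl⟩
  obtain ⟨b, hb⟩ : ∃ b, 2 * (x * Y) ≤ 2 ^ b := ⟨_, Nat.lt_two_pow_self.le⟩
  have hm1 : 1 ≤ 2 ^ m := Nat.one_le_two_pow
  have hX1 : 1 ≤ X := by rw [hX]; exact Nat.mul_pos hm1 (by omega)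
  have hY1 : 1 ≤ Y := by rw [hY]; exact Nat.mul_pos hm1 (by omega)
  have hxY : x * Y = y * X := by rw [hX, hY]; ring
  have hXb : X ≤ 2 ^ b := by
    have : 1 * X ≤ y * X := Nat.mul_le_mul_right _ (by omega)
    omega
  have hYb : Y ≤ 2 ^ b := by
    have : 1 * Y ≤ x * Y := Nat.mul_le_mul_right _ (by omega)
    omega
  obtain ⟨t, ht⟩ : ∃ t, t = 2 ^ (m + 2) := ⟨_, rfl⟩
  have ht4 : 4 ≤ t := by
    rw [ht, pow_add]
    omega
  rw [← ht] at hj hr
  have hbpos : 0 < 2 ^ b := by positivity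
  refine ⟨(t * (X + 12) + 2) * 2 ^ b + 2 ^ b, ?_⟩
  intro H K c
  by_contra hcon
  push Not at hcon
  rw [← hX, ← hY] at hcon
  obtain ⟨u, hu⟩ : ∃ u, u = H / 2 ^ b := ⟨_, rfl⟩
  have hH1 : H < (u + 1) * 2 ^ b := by
    rw [hu, add_mul, one_mul]
    exact Nat.lt_div_mul_add hbpos
  have hH2 : u * 2 ^ b ≤ H := by
    rw [hu]; exact Nat.div_mul_le_self H _
  obtain ⟨U, hU⟩ : ∃ U, U = t * (u / t + X + 7) + r := ⟨_, rfl⟩
  have hut : t * (u / t) ≤ u := Nat.mul_div_le u t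
  have hut2 : u < t * (u / t) + t := by
    have := Nat.lt_mul_div_succ u (show 0 < t by omega)
    rw [mul_add, mul_one] at this
    exact this
  have hU1 : U = t * (u / t) + t * X + t * 7 + r := by rw [hU, mul_add, mul_add]
  have htX : X ≤ t * X := by
    have := Nat.mul_le_mul_right X (show 1 ≤ t by omega)
    omega
  have hUr : U % t = r := by
    rw [hU, Nat.mul_add_mod]
    exact Nat.mod_eq_of_lt hr
  -- the behaviour at a jump
  have key : ∀ W, W % t = r → u + X + 5 ≤ W → W ≤ U + t →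
      ∃ a k : ℕ, (W + 1) * 2 ^ b ≤ H + a * X ∧ H + a * X < (W + 1) * 2 ^ b + X ∧
        k * 2 ^ b ≤ K + a * Y ∧ K + a * Y < k * 2 ^ b + Y := by
    intro W hW1 hW2 hW3
    have hT : H < (W + 1) * 2 ^ b := lt_of_lt_of_le hH1 (Nat.mul_le_mul_right _ (by omega))
    obtain ⟨l, hl1, hl2, hl3⟩ := hit H X ((W + 1) * 2 ^ b) hX1 hT
    have hl4 : l + 1 ≤ (t * (X + 12) + 2) * 2 ^ b := by
      have hWb : (W + 1) * 2 ^ b ≤ (u + t * X + 9 * t + 1) * 2 ^ b :=
        Nat.mul_le_mul_right _ (by omega)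
      calc l + 1 ≤ (W + 1) * 2 ^ b - H := hl3
        _ ≤ (u + t * X + 9 * t + 1) * 2 ^ b - u * 2 ^ b := by omega
        _ = (t * X + 9 * t + 1) * 2 ^ b := by rw [← Nat.sub_mul]; congr 1; omega
        _ ≤ (t * (X + 12) + 2) * 2 ^ b := Nat.mul_le_mul_right _ (by rw [mul_add]; omega)
    have e1 : (W + 1) * 2 ^ b = W * 2 ^ b + 2 ^ b := by ring
    have e2 : (l + 1) * X = l * X + X := by ring
    have hq1 : (H + l * X) / 2 ^ b = W := by
      apply div_eq rfl
      · omega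
      · omega
    have hq2 : (H + (l + 1) * X) / 2 ^ b = W + 1 := by
      apply div_eq rfl hl2
      rw [add_mul, one_mul]
      omega
    -- `l` is large
    have hl5 : 2 ^ b ≤ l := by
      by_contra hlt
      have h1 : l * X ≤ 2 ^ b * X := Nat.mul_le_mul_right _ (by omega)
      have h2 : (u + X + 5) * 2 ^ b ≤ W * 2 ^ b := Nat.mul_le_mul_right _ hW2
      have h3 : (u + X + 5) * 2 ^ b = (u + 1) * 2 ^ b + 2 ^ b * X + 4 * 2 ^ b := by ring
      have h4 : (l + 1) * X = l * X + X := by ring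
      omega
    have hb2 : 2 ^ b ≤ l * Y := by
      have := Nat.mul_le_mul hl5 hY1
      omega
    have hs1 := shift h b x (H + l * X) (by rw [hq1]; omega)
    have hs2 := shift h b x (H + (l + 1) * X) (by rw [hq2]; omega)
    have hs3 := shift h b y (K + l * Y) (by
      apply Nat.div_pos (by omega) hbpos)
    have hs4 := shift h b y (K + (l + 1) * Y) (by
      apply Nat.div_pos _ hbpos
      have : (l + 1) * Y = l * Y + Y := by ring
      omega)
    rw [hq1, ← hX, show H + l * X + 2 ^ b * X = H + (l + 2 ^ b) * X by ring] at hs1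
    rw [hq2, ← hX, show H + (l + 1) * X + 2 ^ b * X = H + (l + 1 + 2 ^ b) * X by ring] at hs2
    rw [← hY, show K + l * Y + 2 ^ b * Y = K + (l + 2 ^ b) * Y by ring] at hs3
    rw [← hY, show K + (l + 1) * Y + 2 ^ b * Y = K + (l + 1 + 2 ^ b) * Y by ring] at hs4
    have c1 := hcon l (by omega)
    have c2 := hcon (l + 2 ^ b) (by omega)
    have c3 := hcon (l + 1) (by omega)
    have c4 := hcon (l + 1 + 2 ^ b) (by omega)
    have hjW := hj W (by omega) hW1
    have hne : (K + l * Y) / 2 ^ b ≠ (K + (l + 1) * Y) / 2 ^ b := by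
      intro heq
      rw [← heq] at hs4
      have hcc := add_self c
      have hpp := add_self (Phi f m y ((K + l * Y) / 2 ^ b))
      have : (0 : ZMod 2) = 1 := by
        linear_combination hjW + hs1 + hs2 + hs3 + hs4 - c1 - c2 - c3 - c4 - 2 * hcc + hpp
      exact absurd this (by decide)
    have hmono : (K + l * Y) / 2 ^ b ≤ (K + (l + 1) * Y) / 2 ^ b := by
      apply Nat.div_le_div_right
      have : (l + 1) * Y = l * Y + Y := by ring
      omega
    have hlt : (K + l * Y) / 2 ^ b < (K + (l + 1) * Y) / 2 ^ b := lt_of_le_of_ne hmono hne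
    refine ⟨l + 1, (K + (l + 1) * Y) / 2 ^ b, hl2, ?_, Nat.div_mul_le_self _ _, ?_⟩
    · rw [add_mul, one_mul]
      omega
    · have h1 : K + l * Y < (K + (l + 1) * Y) / 2 ^ b * 2 ^ b := by
        have h2 := Nat.lt_div_mul_add (a := K + l * Y) hbpos
        have h3 : ((K + l * Y) / 2 ^ b + 1) * 2 ^ b ≤ (K + (l + 1) * Y) / 2 ^ b * 2 ^ b :=
          Nat.mul_le_mul_right _ hlt
        rw [add_mul, one_mul] at h3
        omega
      have : (l + 1) * Y = l * Y + Y := by ring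
      omega
  obtain ⟨a1, k1, p1, p2, p3, p4⟩ := key U hUr (by omega) (by omega)
  obtain ⟨a2, k2, q1, q2, q3, q4⟩ := key (U + t) (by rw [Nat.add_mod_right]; exact hUr)
    (by omega) le_rfl
  -- the arithmetic contradiction
  have hmain : (y : ℤ) * t = x * ((k2 : ℤ) - k1) := by
    zify at p1 p2 p3 p4 q1 q2 q3 q4 hb hxY
    have hP : (0 : ℤ) < 2 ^ b := by positivity
    have hx0 : (0 : ℤ) < x := by exact_mod_cast (by omega : 0 < x)
    have hy0 : (0 : ℤ) < y := by exact_mod_cast (by omega : 0 < y)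
    obtain ⟨E, hE⟩ : ∃ E : ℤ, E = (y : ℤ) * t - x * ((k2 : ℤ) - k1) := ⟨_, rfl⟩
    obtain ⟨P, hPd⟩ : ∃ P : ℤ, P = 2 ^ b := ⟨_, rfl⟩
    rw [← hPd] at p1 p2 p3 p4 q1 q2 q3 q4 hb hP
    have hid : P * E = (x : ℤ) * ((K + a2 * Y - k2 * P) - (K + a1 * Y - k1 * P)) -
        y * ((H + a2 * X - (U + t + 1) * P) - (H + a1 * X - (U + 1) * P)) := by
      rw [hE]
      linear_combination (-(a2 : ℤ) + a1) * hxY
    have b1 : (x : ℤ) * ((K + a2 * Y - k2 * P) - (K + a1 * Y - k1 * P)) < x * Y :=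
      mul_lt_mul_of_pos_left (by linarith) hx0
    have b2 : -((x : ℤ) * Y) < x * ((K + a2 * Y - k2 * P) - (K + a1 * Y - k1 * P)) := by
      have := mul_lt_mul_of_pos_left (show -(Y : ℤ) < (K + a2 * Y - k2 * P) - (K + a1 * Y - k1 * P)
        by linarith) hx0
      linarith
    have b3 : (y : ℤ) * ((H + a2 * X - (U + t + 1) * P) - (H + a1 * X - (U + 1) * P)) < y * X :=
      mul_lt_mul_of_pos_left (by linarith) hy0
    have b4 : -((y : ℤ) * X) < y * ((H + a2 * X - (U + t + 1) * P) - (H + a1 * X - (U + 1) * P)) := by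
      have := mul_lt_mul_of_pos_left (show -(X : ℤ) <
        (H + a2 * X - (U + t + 1) * P) - (H + a1 * X - (U + 1) * P) by linarith) hy0
      linarith
    have b5 : P * E < P * 1 := by rw [hid]; linarith
    have b6 : P * (-1) < P * E := by rw [hid]; linarith
    have b7 : E < 1 := lt_of_mul_lt_mul_left b5 hP.le
    have b8 : -1 < E := lt_of_mul_lt_mul_left b6 hP.le
    have : E = 0 := by omega
    rw [hE] at this
    linarith
  have hdvd : (x : ℤ) ∣ ((y * t : ℕ) : ℤ) := by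
    push_cast
    rw [hmain]
    exact Dvd.intro _ rfl
  have hdvd2 : x ∣ y * t := by exact_mod_cast hdvd
  have hcop : Nat.Coprime x t := by
    rw [ht]
    apply Nat.Coprime.pow_right
    exact Nat.coprime_two_right.2 (Nat.odd_iff.2 hx)
  have := Nat.le_of_dvd (by omega) (hcop.dvd_of_dvd_mul_right hdvd2)
  omega

end Pool.Agent.V11172.Reg
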