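import Mathlib
import Pool.Agent.V11172.RegBound

/-!
# Differences `2 ^ m * (2 ^ N * x + y)`
-/

namespace Pool.Agent.V11172.Reg

open Finset

lemma core' {m V : ℕ} {f : ℕ → ZMod 2} (h : PC m V f) (hV : V < 2 ^ (m + 1)) (x y : ℕ)
    (hx : x % 2 = 1) (hy : y % 2 = 1) (hxy : x ≠ y) :
    ∃ L, ∀ H K : ℕ, ∀ c : ZMod 2, ∃ l ≤ L,
      f (H + l * (2 ^ m * x)) + f (K + l * (2 ^ m * y)) ≠ c := by
  rcases lt_or_gt_of_ne hxy with h1 | h1
  · obtain ⟨L, hL⟩ := core h hV y x hy hx h1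
    refine ⟨L, fun H K c => ?_⟩
    obtain ⟨l, hl, hl2⟩ := hL K H c
    exact ⟨l, hl, by rwa [add_comm] at hl2⟩
  · exact core h hV x y hx hy h1

/-- off the diagonal: a bound independent of `N` and of the first term -/
lemma off {m V : ℕ} {f : ℕ → ZMod 2} (h : PC m V f) (hV : V < 2 ^ (m + 1)) (x y : ℕ)
    (hx : x % 2 = 1) (hy : y % 2 = 1) (hxy : x ≠ y) :
    ∃ C N0, ∀ N, N0 ≤ N → ∀ n, ∃ l, 1 ≤ l ∧ l ≤ C ∧
      f (n + l * (2 ^ m * (2 ^ N * x + y))) ≠ f n := by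
  obtain ⟨L, hL⟩ := core' h hV x y hx hy hxy
  obtain ⟨X, hX⟩ : ∃ X, X = 2 ^ m * x := ⟨_, rfl⟩
  obtain ⟨Y, hY⟩ : ∃ Y, Y = 2 ^ m * y := ⟨_, rfl⟩
  have hm1 : 1 ≤ 2 ^ m := Nat.one_le_two_pow
  have hX1 : 1 ≤ X := by rw [hX]; exact Nat.mul_pos hm1 (by omega)
  rw [← hX, ← hY] at hL
  refine ⟨2 * L + 2, (2 * L + 3) * Y, ?_⟩
  intro N hN n
  have hNp : (2 * L + 3) * Y < 2 ^ N :=
    lt_of_le_of_lt hN Nat.lt_two_pow_self
  have hpos : 0 < 2 ^ N := by positivity
  by_contra hcon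
  push Not at hcon
  have hd : ∀ l, l * (2 ^ m * (2 ^ N * x + y)) = l * Y + 2 ^ N * (l * X) := by
    intro l; rw [hX, hY]; ring
  -- a stretch without carry
  obtain ⟨l0, q, hl0, hl0C, hq⟩ : ∃ l0 q, 1 ≤ l0 ∧ l0 + L ≤ 2 * L + 2 ∧
      ∀ s ≤ L, (n + (l0 + s) * Y) / 2 ^ N = q := by
    have hmono : ∀ a b, a ≤ b → (n + a * Y) / 2 ^ N ≤ (n + b * Y) / 2 ^ N := by
      intro a b hab
      apply Nat.div_le_div_right
      have := Nat.mul_le_mul_right Y hab
      omega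
    have htop : (n + (2 * L + 2) * Y) / 2 ^ N ≤ (n + 1 * Y) / 2 ^ N + 1 := by
      have h1 : n + (2 * L + 2) * Y ≤ n + 1 * Y + 2 ^ N := by
        have : (2 * L + 3) * Y = (2 * L + 2) * Y + Y := by ring
        omega
      calc (n + (2 * L + 2) * Y) / 2 ^ N ≤ (n + 1 * Y + 2 ^ N) / 2 ^ N :=
            Nat.div_le_div_right h1
        _ = (n + 1 * Y) / 2 ^ N + 1 := Nat.add_div_right _ hpos
    rcases Nat.lt_or_ge ((n + 1 * Y) / 2 ^ N) ((n + (L + 1) * Y) / 2 ^ N) with h1 | h1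
    · refine ⟨L + 1, (n + (L + 1) * Y) / 2 ^ N, by omega, by omega, ?_⟩
      intro s hs
      have a1 := hmono (L + 1) (L + 1 + s) (by omega)
      have a2 := hmono (L + 1 + s) (2 * L + 2) (by omega)
      omega
    · refine ⟨1, (n + 1 * Y) / 2 ^ N, le_rfl, by omega, ?_⟩
      intro s hs
      have a1 := hmono 1 (1 + s) (by omega)
      have a2 := hmono (1 + s) (L + 1) (by omega)
      omega
  obtain ⟨s, hs, hne⟩ := hL (q + l0 * X) (n + 2 ^ (N + m) + l0 * Y) (f n + f (q + 2 ^ m))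
  apply hne
  have hls : 1 ≤ (l0 + s) * X := Nat.mul_pos (by omega) hX1
  have e1 : (n + (l0 + s) * (2 ^ m * (2 ^ N * x + y))) / 2 ^ N = q + (l0 + s) * X := by
    rw [hd, ← add_assoc, Nat.add_mul_div_left _ _ hpos, hq s hs]
  have e2 : (n + 2 ^ (N + m) + (l0 + s) * Y) / 2 ^ N = q + 2 ^ m := by
    rw [show n + 2 ^ (N + m) + (l0 + s) * Y = n + (l0 + s) * Y + 2 ^ N * 2 ^ m by ring,
      Nat.add_mul_div_left _ _ hpos, hq s hs]
  have f1 := f_eq h N (n + (l0 + s) * (2 ^ m * (2 ^ N * x + y))) (by rw [e1]; omega)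
  have f2 := f_eq h N (n + 2 ^ (N + m) + (l0 + s) * Y) (by rw [e2]; omega)
  have f3 : F m V N (n + (l0 + s) * (2 ^ m * (2 ^ N * x + y))) =
      F m V N (n + 2 ^ (N + m) + (l0 + s) * Y) := by
    apply F_congr
    rw [hd, hX, show n + ((l0 + s) * Y + 2 ^ N * ((l0 + s) * (2 ^ m * x))) =
      n + (l0 + s) * Y + 2 ^ (N + m) * ((l0 + s) * x) by ring, Nat.add_mul_mod_self_left,
      show n + 2 ^ (N + m) + (l0 + s) * Y = n + (l0 + s) * Y + 2 ^ (N + m) by ring,
      Nat.add_mod_right]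
  have f4 := hcon (l0 + s) (by omega) (by omega)
  rw [e1, f3] at f1
  rw [e2] at f2
  rw [show q + l0 * X + s * X = q + (l0 + s) * X by ring,
    show n + 2 ^ (N + m) + l0 * Y + s * Y = n + 2 ^ (N + m) + (l0 + s) * Y by ring]
  have a1 := add_self (F m V N (n + 2 ^ (N + m) + (l0 + s) * Y))
  have a2 := add_self (f (q + (l0 + s) * X))
  have a3 := add_self (f n)
  rw [f4] at f1
  linear_combination f1 + f2 + a1 + a2 - a3

/-! ### On the diagonal -/

/-- concatenation, patterns with a nonzero value -/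
lemma concat {m V : ℕ} {f : ℕ → ZMod 2} (h : PC m V f) (hV0 : V ≠ 0) (a : ℕ) :
    ∀ j b, b < 2 ^ j → f (a * 2 ^ (j + m) + b) = f (a * 2 ^ m) + f b := by
  intro j
  induction j with
  | zero =>
    intro b hb
    have : b = 0 := by simpa using hb
    subst this
    simp [h.zero]
  | succ j ih =>
    intro b hb
    rcases Nat.eq_zero_or_pos (a * 2 ^ (j + 1 + m) + b) with h0 | h0
    · have ha : a * 2 ^ (j + 1 + m) = 0 := by omega
      have hb0 : b = 0 := by omega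
      have ha0 : a = 0 := by
        rcases Nat.mul_eq_zero.1 ha with h1 | h1
        · exact h1
        · exact absurd h1 (by positivity)
      subst hb0 ha0
      simp [h.zero]
    · have e1 : (a * 2 ^ (j + 1 + m) + b) / 2 = a * 2 ^ (j + m) + b / 2 := by
        rw [show a * 2 ^ (j + 1 + m) + b = b + 2 * (a * 2 ^ (j + m)) by ring,
          Nat.add_mul_div_left _ _ (by norm_num)]
        ring
      have e2 : (a * 2 ^ (j + 1 + m) + b) % 2 ^ (m + 1) = b % 2 ^ (m + 1) := by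
        rw [show a * 2 ^ (j + 1 + m) + b = b + 2 ^ (m + 1) * (a * 2 ^ j) by ring,
          Nat.add_mul_mod_self_left]
      have hb2 : b / 2 < 2 ^ j := by
        rw [pow_succ] at hb; omega
      rw [h.step _ h0, e1, e2, ih _ hb2]
      rcases Nat.eq_zero_or_pos b with hb0 | hb0
      · subst hb0
        rw [if_neg (by simpa using hV0.symm)]
        simp [h.zero]
      · rw [h.step b hb0]
        ring

/-- on the diagonal, patterns with a nonzero value -/
lemma diag {m V : ℕ} {f : ℕ → ZMod 2} (h : PC m V f) (hV0 : V ≠ 0) (x N l : ℕ)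
    (hl : l * x * 2 ^ m < 2 ^ N) : f (0 + l * (2 ^ m * (2 ^ N * x + x))) = f 0 := by
  have e : 0 + l * (2 ^ m * (2 ^ N * x + x)) = l * x * 2 ^ (N + m) + l * x * 2 ^ m := by ring
  rw [e, concat h hV0 _ _ _ hl, add_self, h.zero]

/-- concatenation for the pattern `0 ^ (m + 1)` -/
lemma concat0 {m : ℕ} {f : ℕ → ZMod 2} (h : PC m 0 f) (a : ℕ) (ha : 1 ≤ a) :
    ∀ j b, b < 2 ^ j → f (a * 2 ^ (j + m) + b) =
      f (a * 2 ^ m) + f b + ((j : ℕ) : ZMod 2) + ((Nat.size b : ℕ) : ZMod 2) := by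
  intro j
  induction j with
  | zero =>
    intro b hb
    have : b = 0 := by simpa using hb
    subst this
    simp [h.zero]
  | succ j ih =>
    intro b hb
    have h0 : 1 ≤ a * 2 ^ (j + 1 + m) + b := by
      have : 0 < a * 2 ^ (j + 1 + m) := Nat.mul_pos ha (by positivity)
      omega
    have e1 : (a * 2 ^ (j + 1 + m) + b) / 2 = a * 2 ^ (j + m) + b / 2 := by
      rw [show a * 2 ^ (j + 1 + m) + b = b + 2 * (a * 2 ^ (j + m)) by ring,
        Nat.add_mul_div_left _ _ (by norm_num)]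
      ring
    have e2 : (a * 2 ^ (j + 1 + m) + b) % 2 ^ (m + 1) = b % 2 ^ (m + 1) := by
      rw [show a * 2 ^ (j + 1 + m) + b = b + 2 ^ (m + 1) * (a * 2 ^ j) by ring,
        Nat.add_mul_mod_self_left]
    have hb2 : b / 2 < 2 ^ j := by
      rw [pow_succ] at hb; omega
    rw [h.step _ h0, e1, e2, ih _ hb2]
    rcases Nat.eq_zero_or_pos b with hb0 | hb0
    · subst hb0
      rw [if_pos (by simp)]
      simp [h.zero]
      ring
    · have hsize : Nat.size b = Nat.size (b / 2) + 1 := by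
        have hb1 : b = Nat.bit (b.bodd) b.div2 := (Nat.bit_bodd_div2 b).symm
        have h3 : Nat.size (Nat.bit b.bodd b.div2) = Nat.size b.div2 + 1 :=
          Nat.size_bit (by rw [← hb1]; omega)
        rw [← hb1, Nat.div2_val] at h3
        exact h3
      rw [h.step b hb0, hsize]
      push_cast
      have := add_self (1 : ZMod 2)
      linear_combination -this

/-- on the diagonal, the pattern `0 ^ (m + 1)` -/
lemma diag0 {m : ℕ} {f : ℕ → ZMod 2} (h : PC m 0 f) (x N l : ℕ)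
    (hl : l * x * 2 ^ m < 2 ^ N) :
    f (2 ^ (2 * N + 2 * m) + l * (2 ^ m * (2 ^ N * x + x))) = f (2 ^ (2 * N + 2 * m)) := by
  have key : ∀ k, k * 2 ^ m < 2 ^ N → f (2 ^ (2 * N + 2 * m) + (k * 2 ^ (N + m) + k * 2 ^ m)) =
      f (1 * 2 ^ m) + (m : ZMod 2) := by
    intro k hk
    have e : 2 ^ (2 * N + 2 * m) + (k * 2 ^ (N + m) + k * 2 ^ m) =
        (2 ^ (N + m) + k) * 2 ^ (N + m) + k * 2 ^ m := by ring
    have e2 : (2 ^ (N + m) + k) * 2 ^ m = 1 * 2 ^ (N + m + m) + k * 2 ^ m := by ring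
    have hk2 : k * 2 ^ m < 2 ^ (N + m) := lt_of_lt_of_le hk (Nat.pow_le_pow_right (by norm_num)
      (by omega))
    rw [e, concat0 h _ (by have := Nat.one_le_two_pow (n := N + m); omega) N (k * 2 ^ m) hk, e2,
      concat0 h 1 le_rfl (N + m) (k * 2 ^ m) hk2]
    have a1 := add_self (f (k * 2 ^ m))
    have a2 := add_self (N : ZMod 2)
    have a3 := add_self ((Nat.size (k * 2 ^ m) : ℕ) : ZMod 2)
    push_cast
    linear_combination a1 + a2 + a3
  have e : l * (2 ^ m * (2 ^ N * x + x)) = l * x * 2 ^ (N + m) + l * x * 2 ^ m := by ring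
  have k1 := key (l * x) hl
  have k0 := key 0 (by simp)
  rw [e, k1, ← k0]
  simp

end Pool.Agent.V11172.Reg
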