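import Mathlib
import Pool.Agent.V11172.RegOff
import Pool.Agent.V11172.RegLin

/-!
# 2-regularity of the progression lengths, in terms of the parity function
-/

namespace Pool.Agent.V11172.Reg

open Finset

/-- the number of terms of the monochromatic progression from `n` with difference `d` -/
noncomputable def Af (f : ℕ → ZMod 2) (n d : ℕ) : ℕ := sInf {l : ℕ | 1 ≤ l ∧ f (n + l * d) ≠ f n}

lemma Af_nonempty {m V : ℕ} {f : ℕ → ZMod 2} (h : PC m V f) (hV : V < 2 ^ (m + 1)) (n d : ℕ)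
    (hd : 1 ≤ d) : {l : ℕ | 1 ≤ l ∧ f (n + l * d) ≠ f n}.Nonempty := by
  obtain ⟨C, hC⟩ := fin_one h hV d hd
  obtain ⟨l, h1, _, h3⟩ := hC n
  exact ⟨l, h1, h3⟩

lemma Af_bdd {m V : ℕ} {f : ℕ → ZMod 2} (h : PC m V f) (hV : V < 2 ^ (m + 1)) (d : ℕ)
    (hd : 1 ≤ d) : BddAbove (Set.range fun n => Af f n d) := by
  obtain ⟨C, hC⟩ := fin_one h hV d hd
  refine ⟨C, ?_⟩
  rintro _ ⟨n, rfl⟩
  obtain ⟨l, h1, h2, h3⟩ := hC n
  exact (Nat.sInf_le (show l ∈ {l : ℕ | 1 ≤ l ∧ f (n + l * d) ≠ f n} from ⟨h1, h3⟩)).trans h2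

lemma Af_ge {m V : ℕ} {f : ℕ → ZMod 2} (h : PC m V f) (hV : V < 2 ^ (m + 1)) (n d C : ℕ)
    (hd : 1 ≤ d) (hC : ∀ l, l < C → f (n + l * d) = f n) : C ≤ Af f n d := by
  have hmem := Nat.sInf_mem (Af_nonempty h hV n d hd)
  by_contra hlt
  push Not at hlt
  exact hmem.2 (hC _ hlt)

lemma not_reg_sup {m V : ℕ} {f : ℕ → ZMod 2} (h : PC m V f) (hV : V < 2 ^ (m + 1)) :
    ¬ TwoRegular (fun d => if d = 0 then 0 else ((sSup (Set.range fun n => Af f n d) : ℕ) : ℤ)) := by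
  apply not_twoRegular m
  · intro x y hx hy hxy
    obtain ⟨C, N0, hC⟩ := off h hV x y hx hy hxy
    refine ⟨C, N0, fun N hN => ?_⟩
    have hd : 2 ^ m * (2 ^ N * x + y) ≠ 0 := by
      have : 0 < 2 ^ m := by positivity
      apply Nat.mul_ne_zero this.ne'
      omega
    simp only [if_neg hd]
    rw [abs_of_nonneg (by positivity)]
    have : sSup (Set.range fun n => Af f n (2 ^ m * (2 ^ N * x + y))) ≤ C := by
      apply csSup_le (Set.range_nonempty _)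
      rintro _ ⟨n, rfl⟩
      obtain ⟨l, h1, h2, h3⟩ := hC N hN n
      exact (Nat.sInf_le (show l ∈ {l : ℕ | 1 ≤ l ∧ f (n + l * (2 ^ m * (2 ^ N * x + y))) ≠ f n}
        from ⟨h1, h3⟩)).trans h2
    exact_mod_cast this
  · intro x hx C
    refine ⟨C * x * 2 ^ m, fun N hN => ?_⟩
    have hd : 2 ^ m * (2 ^ N * x + x) ≠ 0 := by
      have : 0 < 2 ^ m := by positivity
      apply Nat.mul_ne_zero this.ne'
      omega
    simp only [if_neg hd]
    have hN2 : C * x * 2 ^ m < 2 ^ N := lt_of_le_of_lt hN Nat.lt_two_pow_self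
    have hl : ∀ l, l < C → l * x * 2 ^ m < 2 ^ N := by
      intro l hl
      refine lt_of_le_of_lt ?_ hN2
      exact Nat.mul_le_mul_right _ (Nat.mul_le_mul_right _ hl.le)
    have : C ≤ sSup (Set.range fun n => Af f n (2 ^ m * (2 ^ N * x + x))) := by
      by_cases hV0 : V = 0
      · subst hV0
        have h1 := Af_ge h hV (2 ^ (2 * N + 2 * m)) (2 ^ m * (2 ^ N * x + x)) C
          (Nat.pos_of_ne_zero hd) (fun l hlC => diag0 h x N l (hl l hlC))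
        exact h1.trans (le_csSup (Af_bdd h hV _ (Nat.pos_of_ne_zero hd)) ⟨_, rfl⟩)
      · have h1 := Af_ge h hV 0 (2 ^ m * (2 ^ N * x + x)) C
          (Nat.pos_of_ne_zero hd) (fun l hlC => diag h hV0 x N l (hl l hlC))
        exact h1.trans (le_csSup (Af_bdd h hV _ (Nat.pos_of_ne_zero hd)) ⟨_, rfl⟩)
    exact_mod_cast this

lemma not_reg_zero {m V : ℕ} {f : ℕ → ZMod 2} (h : PC m V f) (hV : V < 2 ^ (m + 1))
    (hV0 : V ≠ 0) :
    ¬ TwoRegular (fun d => if d = 0 then 0 else ((Af f 0 d : ℕ) : ℤ)) := by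
  apply not_twoRegular m
  · intro x y hx hy hxy
    obtain ⟨C, N0, hC⟩ := off h hV x y hx hy hxy
    refine ⟨C, N0, fun N hN => ?_⟩
    have hd : 2 ^ m * (2 ^ N * x + y) ≠ 0 := by
      have : 0 < 2 ^ m := by positivity
      apply Nat.mul_ne_zero this.ne'
      omega
    simp only [if_neg hd]
    rw [abs_of_nonneg (by positivity)]
    obtain ⟨l, h1, h2, h3⟩ := hC N hN 0
    have : Af f 0 (2 ^ m * (2 ^ N * x + y)) ≤ C :=
      (Nat.sInf_le (show l ∈ {l : ℕ | 1 ≤ l ∧ f (0 + l * (2 ^ m * (2 ^ N * x + y))) ≠ f 0}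
        from ⟨h1, h3⟩)).trans h2
    exact_mod_cast this
  · intro x hx C
    refine ⟨C * x * 2 ^ m, fun N hN => ?_⟩
    have hd : 2 ^ m * (2 ^ N * x + x) ≠ 0 := by
      have : 0 < 2 ^ m := by positivity
      apply Nat.mul_ne_zero this.ne'
      omega
    simp only [if_neg hd]
    have hN2 : C * x * 2 ^ m < 2 ^ N := lt_of_le_of_lt hN Nat.lt_two_pow_self
    have hl : ∀ l, l < C → l * x * 2 ^ m < 2 ^ N := by
      intro l hl
      refine lt_of_le_of_lt ?_ hN2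
      exact Nat.mul_le_mul_right _ (Nat.mul_le_mul_right _ hl.le)
    have h1 := Af_ge h hV 0 (2 ^ m * (2 ^ N * x + x)) C
      (Nat.pos_of_ne_zero hd) (fun l hlC => diag h hV0 x N l (hl l hlC))
    exact_mod_cast h1

/-! ### The patterns `0 ^ (m + 1)`, progressions from `0` -/

lemma sInf_trunc (S : Set ℕ) (M : ℕ) (h : ∃ x ∈ S, x ≤ M) :
    sInf S = sInf {x | x ∈ S ∧ x ≤ M} := by
  obtain ⟨x, hx, hxM⟩ := h
  have h1 : sInf S ≤ M := (Nat.sInf_le hx).trans hxM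
  have h2 : sInf S ∈ {x | x ∈ S ∧ x ≤ M} := ⟨Nat.sInf_mem ⟨x, hx⟩, h1⟩
  apply le_antisymm
  · have h3 := Nat.sInf_mem (⟨_, h2⟩ : {x | x ∈ S ∧ x ≤ M}.Nonempty)
    exact Nat.sInf_le h3.1
  · exact Nat.sInf_le h2

lemma zero_hit {m : ℕ} {f : ℕ → ZMod 2} (h : PC m 0 f) (d : ℕ) (hd : 1 ≤ d) :
    ∃ l, 1 ≤ l ∧ l ≤ 2 ^ (m + 1) ∧ f (0 + l * d) ≠ f 0 := by
  by_contra hcon
  push Not at hcon
  have hm : 1 ≤ 2 ^ m := Nat.one_le_two_pow
  have h1 := hcon (2 ^ m) hm (Nat.pow_le_pow_right (by norm_num) (by omega))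
  have h2 := hcon (2 ^ (m + 1)) Nat.one_le_two_pow le_rfl
  have h3 := h.step (0 + 2 ^ (m + 1) * d) (by
    have : 0 < 2 ^ (m + 1) * d := Nat.mul_pos (by positivity) hd
    omega)
  rw [show (0 + 2 ^ (m + 1) * d) / 2 = 0 + 2 ^ m * d by
    rw [show 0 + 2 ^ (m + 1) * d = 2 * (2 ^ m * d) by ring, Nat.mul_div_cancel_left _ (by norm_num)]
    ring, h1, h2, if_pos (by simp)] at h3
  have h4 : (1 : ZMod 2) = 0 := by linear_combination -h3
  exact absurd h4 (by decide)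

/-- the finitely many candidates for the elements of the 2-kernel -/
noncomputable def G (m : ℕ) (f : ℕ → ZMod 2) (p : (Fin (2 ^ (m + 1) + 1) → Fin (2 ^ (m + 1) + 1)) ×
    (Fin (2 ^ (m + 1) + 1) → Fin (2 ^ m) → ZMod 2) × Fin (2 ^ (m + 1) + 1)) (n : ℕ) : ℤ :=
  if n = 0 then ((p.2.2 : ℕ) : ℤ) else
    ((sInf {l : ℕ | (1 ≤ l ∧ ∃ hl : l < 2 ^ (m + 1) + 1,
      f (l * n + p.1 ⟨l, hl⟩) + p.2.1 ⟨l, hl⟩ ⟨(l * n + p.1 ⟨l, hl⟩) % 2 ^ m,
        Nat.mod_lt _ (by positivity)⟩ ≠ 0)} : ℕ) : ℤ)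

lemma reg_zero {m : ℕ} {f : ℕ → ZMod 2} (h : PC m 0 f) :
    TwoRegular (fun d => if d = 0 then 0 else ((Af f 0 d : ℕ) : ℤ)) := by
  unfold TwoRegular
  apply Submodule.fg_span
  apply Set.Finite.subset (Set.finite_range (G m f))
  rintro s ⟨k, r, hr, rfl⟩
  have hle : ∀ d, 1 ≤ d → Af f 0 d ≤ 2 ^ (m + 1) := by
    intro d hd
    obtain ⟨l, h1, h2, h3⟩ := zero_hit h d hd
    exact (Nat.sInf_le (show l ∈ {l : ℕ | 1 ≤ l ∧ f (0 + l * d) ≠ f 0} from ⟨h1, h3⟩)).trans h2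
  have hq : ∀ l : Fin (2 ^ (m + 1) + 1), (l : ℕ) * r / 2 ^ k < 2 ^ (m + 1) + 1 := by
    intro l
    have h1 : (l : ℕ) * r / 2 ^ k ≤ l := by
      calc (l : ℕ) * r / 2 ^ k ≤ (l : ℕ) * 2 ^ k / 2 ^ k :=
            Nat.div_le_div_right (Nat.mul_le_mul_left _ hr.le)
        _ = l := Nat.mul_div_cancel _ (by positivity)
    have := l.2
    omega
  have hz : (if r = 0 then 0 else Af f 0 r) < 2 ^ (m + 1) + 1 := by
    split_ifs with h0
    · positivity
    · have := hle r (by omega)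
      omega
  refine ⟨(fun l => ⟨_, hq l⟩, fun l ρ => F m 0 k (2 ^ k * ρ + (l : ℕ) * r % 2 ^ k), ⟨_, hz⟩), ?_⟩
  funext n
  unfold G
  rcases Nat.eq_zero_or_pos n with hn | hn
  · subst hn
    simp only [if_true, mul_zero, zero_add]
    split_ifs <;> rfl
  · rw [if_neg (by omega)]
    have hd : 1 ≤ 2 ^ k * n + r := by
      have : 0 < 2 ^ k * n := Nat.mul_pos (by positivity) hn
      omega
    change _ = if 2 ^ k * n + r = 0 then 0 else ((Af f 0 (2 ^ k * n + r) : ℕ) : ℤ)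
    rw [if_neg (show ¬ 2 ^ k * n + r = 0 by omega)]
    congr 1
    unfold Af
    rw [sInf_trunc {l : ℕ | 1 ≤ l ∧ f (0 + l * (2 ^ k * n + r)) ≠ f 0} (2 ^ (m + 1))
      (by
        obtain ⟨l, h1, h2, h3⟩ := zero_hit h _ hd
        exact ⟨l, ⟨h1, h3⟩, h2⟩)]
    congr 1
    ext l
    simp only [Set.mem_ofPred_eq]
    have key : 1 ≤ l → f (0 + l * (2 ^ k * n + r)) = f (l * n + l * r / 2 ^ k) +
        F m 0 k (2 ^ k * ((l * n + l * r / 2 ^ k) % 2 ^ m) + l * r % 2 ^ k) := by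
      intro hl
      have e1 : 0 + l * (2 ^ k * n + r) = l * r % 2 ^ k + 2 ^ k * (l * n + l * r / 2 ^ k) := by
        have := Nat.mod_add_div (l * r) (2 ^ k)
        calc 0 + l * (2 ^ k * n + r) = 2 ^ k * (l * n) + l * r := by ring
          _ = 2 ^ k * (l * n) + (l * r % 2 ^ k + 2 ^ k * (l * r / 2 ^ k)) := by rw [this]
          _ = _ := by ring
      have e2 : (0 + l * (2 ^ k * n + r)) / 2 ^ k = l * n + l * r / 2 ^ k := by
        rw [e1, Nat.add_mul_div_left _ _ (by positivity),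
          Nat.div_eq_of_lt (Nat.mod_lt _ (by positivity)), zero_add]
      have hln : 0 < l * n := Nat.mul_pos hl hn
      rw [f_eq h k _ (by rw [e2]; exact Nat.le_add_right_of_le hln), e2]
      congr 1
      apply F_congr
      rw [e1]
      have e3 := Nat.mod_add_div (l * n + l * r / 2 ^ k) (2 ^ m)
      calc (l * r % 2 ^ k + 2 ^ k * (l * n + l * r / 2 ^ k)) % 2 ^ (k + m)
          = (l * r % 2 ^ k + 2 ^ k * ((l * n + l * r / 2 ^ k) % 2 ^ m + 2 ^ m *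
            ((l * n + l * r / 2 ^ k) / 2 ^ m))) % 2 ^ (k + m) := by rw [e3]
        _ = (2 ^ k * ((l * n + l * r / 2 ^ k) % 2 ^ m) + l * r % 2 ^ k + 2 ^ (k + m) *
            ((l * n + l * r / 2 ^ k) / 2 ^ m)) % 2 ^ (k + m) := by
            congr 1; ring
        _ = _ := Nat.add_mul_mod_self_left _ _ _
    constructor
    · rintro ⟨h1, hl, h2⟩
      refine ⟨⟨h1, ?_⟩, by omega⟩
      rw [key h1, h.zero]
      exact h2
    · rintro ⟨⟨h1, h2⟩, hl⟩
      refine ⟨h1, by omega, ?_⟩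
      rw [key h1, h.zero] at h2
      exact h2

end Pool.Agent.V11172.Reg
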