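import Mathlib

/-!
# A search over digital lines, used for the Thue–Morse progressions
-/

namespace Pool.Agent.V11172.Tm

/-- the first 64 letters of the Thue–Morse word, as the bits of a number -/
def P64 : ℕ := 0x6996966996696996

/-- letters of the Thue–Morse word, `n < 64` -/
def tb (n : ℕ) : ℕ := (P64 >>> n) % 2

/-- the first 256 letters of the Thue–Morse word, as the bits of a number -/
def P256 : ℕ :=
  0x6996966996696996966969966996966996696996699696696996966996696996

/-- letters of the Thue–Morse word, `n < 256` -/
def tc (n : ℕ) : ℕ := (P256 >>> n) % 2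

/-- the parity `t(u + o) + t(u + d + o)` in terms of the residues mod 64 and three bits -/
def ph (w w' x y z o : ℕ) : Bool :=
  (x + (if w + o < 64 then tb (w + o) else tb (w + o - 64) + y) +
    (if w' + o < 64 then tb (w' + o) else tb (w' + o - 64) + z)) % 2 == 1

/-- tightening the bounds for the slope -/
def upd (P : ℕ) : List ℕ → ℕ → ℕ → ℕ → ℕ → ℕ → ℕ × ℕ × ℕ × ℕ
  | [], _, p, q, r, s => (p, q, r, s)
  | h :: t, m, p, q, r, s =>
    bif Nat.blt (p * m) ((P - h - 1) * q) then
      (bif Nat.blt ((P - h + 1) * s) (r * m) then upd P t (m + 1) (P - h - 1) m (P - h + 1) m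
      else upd P t (m + 1) (P - h - 1) m r s)
    else
      (bif Nat.blt ((P - h + 1) * s) (r * m) then upd P t (m + 1) p q (P - h + 1) m
      else upd P t (m + 1) p q r s)

/-- the search; `true` means that all branches die -/
def dfs (φ : ℕ → Bool) : ℕ → List ℕ → ℕ → ℕ → ℕ → ℕ → Bool
  | 0, _, _, _, _, _ => false
  | _ + 1, [], _, _, _, _ => false
  | k + 1, h :: t, p, q, r, s =>
    (φ (h + 1) || (match upd (h + 1) (h :: t) 1 p q r s with
      | (p', q', r', s') => !(Nat.blt (p' * s') (r' * q')) ||
        dfs φ k ((h + 1) :: h :: t) p' q' r' s')) &&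
    (φ (h + 2) || (match upd (h + 2) (h :: t) 1 p q r s with
      | (p', q', r', s') => !(Nat.blt (p' * s') (r' * q')) ||
        dfs φ k ((h + 2) :: h :: t) p' q' r' s'))

/-- the complete check -/
def check (fuel p q r s : ℕ) : Bool :=
  (List.range 64).all fun w => (List.range 64).all fun w' =>
    (w + w') % 2 == 0 || (List.range 8).all fun k =>
      ph w w' (k % 2) (k / 2 % 2) (k / 4) 0 ||
        dfs (ph w w' (k % 2) (k / 2 % 2) (k / 4)) fuel [0] p q r s

/-- the check for one difference `d` -/
def checkd (d fuel p q r s : ℕ) : Bool :=
  (List.range 64).all fun w => (List.range 8).all fun k =>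
      ph w ((w + d) % 64) (k % 2) (k / 2 % 2) (k / 4) 0 ||
        dfs (ph w ((w + d) % 64) (k % 2) (k / 2 % 2) (k / 4)) fuel [0] p q r s

/-- the check of one pattern -/
def checkp (L : List ℕ) : Bool :=
  (List.range 64).all fun w => (List.range 64).all fun w' =>
    (w + w') % 2 == 0 || (List.range 8).all fun k =>
      L.any (ph w w' (k % 2) (k / 2 % 2) (k / 4))

/-- direct check of all progressions with difference `d` and `L` terms, `(L - 1) * d < 256` -/
def direct (d L : ℕ) : Bool :=
  (List.range 256).all fun r => (List.range 2).all fun y => (List.range L).any fun l =>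
    (if r + l * d < 256 then tc (r + l * d) else tc (r + l * d - 256) + y) % 2 != tc r

set_option maxRecDepth 100000

theorem check0 : check 19 1 1 9 5 = true := by decide +kernel
theorem check1 : check 6 1 1 6 5 = true := by decide +kernel
theorem checkpat : checkp [0, 2, 4, 6, 7, 9, 11, 13] = true := by decide +kernel
theorem direct5 : direct 5 10 = true := by decide +kernel
theorem direct11 : direct 11 16 = true := by decide +kernel
theorem direct13 : direct 13 18 = true := by decide +kernel
theorem check21 : checkd 21 9 20999 16000 21001 16000 = true := by decide +kernel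
theorem check23 : checkd 23 11 22999 16000 23001 16000 = true := by decide +kernel
theorem check25 : checkd 25 13 24999 16000 25001 16000 = true := by decide +kernel
theorem check27 : checkd 27 15 26999 16000 27001 16000 = true := by decide +kernel
theorem check39 : checkd 39 11 38999 32000 39001 32000 = true := by decide +kernel
theorem check41 : checkd 41 13 40999 32000 41001 32000 = true := by decide +kernel
theorem check43 : checkd 43 15 42999 32000 43001 32000 = true := by decide +kernel
theorem check45 : checkd 45 17 44999 32000 45001 32000 = true := by decide +kernel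
theorem check77 : checkd 77 17 76999 64000 77001 64000 = true := by decide +kernel

end Pool.Agent.V11172.Tm
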