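import Mathlib
import Pool.Agent.V11172.TmDfs

/-!
# Monochromatic progressions in the Thue–Morse word: the general argument
-/

namespace Pool.Agent.V11172.Tm

/-- the Thue–Morse word with values in `ZMod 2` -/
def t (n : ℕ) : ZMod 2 := ((Nat.digits 2 n).sum : ℕ)

lemma t_zero : t 0 = 0 := by simp [t]

lemma t_even (n : ℕ) : t (2 * n) = t n := by
  rcases Nat.eq_zero_or_pos n with h | h
  · subst h; simp
  · unfold t
    rw [Nat.digits_def' (by norm_num : 1 < 2) (by omega : 0 < 2 * n), List.sum_cons,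
      show 2 * n % 2 = 0 by omega, show 2 * n / 2 = n by omega, zero_add]

lemma t_odd (n : ℕ) : t (2 * n + 1) = t n + 1 := by
  unfold t
  rw [Nat.digits_def' (by norm_num : 1 < 2) (by omega : 0 < 2 * n + 1), List.sum_cons,
    show (2 * n + 1) % 2 = 1 by omega, show (2 * n + 1) / 2 = n by omega]
  push_cast
  ring

lemma aa (a : ZMod 2) : a + a = 0 := CharTwo.add_self_eq_zero a

lemma zc (a : ZMod 2) : a = 0 ∨ a = 1 := by revert a; decide

/-- the block rule -/
lemma t_block : ∀ (k U w : ℕ), w < 2 ^ k → t (2 ^ k * U + w) = t U + t w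
  | 0, U, w, h => by
    have : w = 0 := by simpa using h
    subst this
    simp [t_zero]
  | k + 1, U, w, h => by
    have h2 : w / 2 < 2 ^ k := by rw [pow_succ] at h; omega
    have ih := t_block k U (w / 2) h2
    rcases Nat.even_or_odd' w with ⟨v, hv | hv⟩
    · subst hv
      rw [show 2 * v / 2 = v by omega] at ih
      rw [show 2 ^ (k + 1) * U + 2 * v = 2 * (2 ^ k * U + v) by ring, t_even, t_even, ih]
    · subst hv
      rw [show (2 * v + 1) / 2 = v by omega] at ih
      rw [show 2 ^ (k + 1) * U + (2 * v + 1) = 2 * (2 ^ k * U + v) + 1 by ring, t_odd, t_odd, ih]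
      ring

/-- parity by a bounded recursion -/
def par : ℕ → ℕ → ℕ
  | 0, _ => 0
  | k + 1, n => n % 2 + par k (n / 2)

lemma t_par : ∀ k n, n < 2 ^ k → t n = (par k n : ℕ)
  | 0, n, h => by
    have : n = 0 := by simpa using h
    subst this
    simp [t_zero, par]
  | k + 1, n, h => by
    have h2 : n / 2 < 2 ^ k := by rw [pow_succ] at h; omega
    have ih := t_par k (n / 2) h2
    rcases Nat.even_or_odd' n with ⟨v, hv | hv⟩
    · subst hv
      rw [show 2 * v / 2 = v by omega] at ih
      rw [t_even, ih, par, show 2 * v % 2 = 0 by omega, show 2 * v / 2 = v by omega]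
      simp
    · subst hv
      rw [show (2 * v + 1) / 2 = v by omega] at ih
      rw [t_odd, ih, par, show (2 * v + 1) % 2 = 1 by omega, show (2 * v + 1) / 2 = v by omega]
      push_cast
      ring

set_option maxRecDepth 100000 in
lemma tb_par : ∀ n < 64, tb n = par 6 n % 2 := by decide +kernel

set_option maxRecDepth 100000 in
lemma tc_par : ∀ n < 256, tc n = par 8 n % 2 := by decide +kernel

lemma tb_eq (n : ℕ) (h : n < 64) : ((tb n : ℕ) : ZMod 2) = t n := by
  rw [tb_par n h, t_par 6 n (by simpa using h), ZMod.natCast_mod]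

lemma tc_eq (n : ℕ) (h : n < 256) : ((tc n : ℕ) : ZMod 2) = t n := by
  rw [tc_par n h, t_par 8 n (by simpa using h), ZMod.natCast_mod]

/-- the shifted sum -/
def phi (d u : ℕ) : ZMod 2 := t u + t (u + d)

lemma shift {n d L b V : ℕ} {c : ZMod 2} (h : ∀ l < L, t (n + l * d) = c) (hV : V + 2 ^ b ≤ L) :
    ∀ l < V, phi d ((n + l * d) / 2 ^ b) = 0 := by
  intro l hl
  have hpos : 0 < 2 ^ b := by positivity
  have h1 := h l (by omega)
  have h2 := h (l + 2 ^ b) (by omega)
  have hlt : (n + l * d) % 2 ^ b < 2 ^ b := Nat.mod_lt _ (by positivity)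
  have e1 : n + l * d = 2 ^ b * ((n + l * d) / 2 ^ b) + (n + l * d) % 2 ^ b :=
    (Nat.div_add_mod _ _).symm
  have e2 : n + (l + 2 ^ b) * d =
      2 ^ b * ((n + l * d) / 2 ^ b + d) + (n + l * d) % 2 ^ b := by
    calc n + (l + 2 ^ b) * d = n + l * d + 2 ^ b * d := by ring
      _ = (2 ^ b * ((n + l * d) / 2 ^ b) + (n + l * d) % 2 ^ b) + 2 ^ b * d := by rw [← e1]
      _ = _ := by ring
  rw [e1, t_block _ _ _ hlt] at h1
  rw [e2, t_block _ _ _ hlt] at h2
  unfold phi
  have := aa (t ((n + l * d) % 2 ^ b))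
  have := aa c
  linear_combination h1 + h2 - aa (t ((n + l * d) % 2 ^ b)) + aa c

/-! ### The link with `ph` -/

lemma t_win (u o : ℕ) (ho : u % 64 + o < 128) : t (u + o) =
    t (u / 64) + ((if u % 64 + o < 64 then tb (u % 64 + o)
      else tb (u % 64 + o - 64) + (t (u / 64) + t (u / 64 + 1)).val : ℕ) : ZMod 2) := by
  have e := Nat.div_add_mod u 64
  split_ifs with h
  · rw [tb_eq _ h, show u + o = 2 ^ 6 * (u / 64) + (u % 64 + o) by omega,
      t_block 6 _ _ (by omega)]
  · push_cast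
    rw [tb_eq _ (by omega), ZMod.natCast_val, ZMod.cast_id',
      show u + o = 2 ^ 6 * (u / 64 + 1) + (u % 64 + o - 64) by omega,
      t_block 6 _ _ (by omega)]
    have := aa (t (u / 64))
    simp only [id]
    linear_combination -this

lemma ph_eq (u d o : ℕ) (ho : o ≤ 64) :
    ph (u % 64) ((u + d) % 64) (t (u / 64) + t ((u + d) / 64)).val
      (t (u / 64) + t (u / 64 + 1)).val (t ((u + d) / 64) + t ((u + d) / 64 + 1)).val o = true ↔
    phi d (u + o) = 1 := by
  have h1 := t_win u o (by omega)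
  have h2 := t_win (u + d) o (by omega)
  unfold ph phi
  rw [beq_iff_eq]
  obtain ⟨A, hA⟩ : ∃ A, A = (if u % 64 + o < 64 then tb (u % 64 + o)
      else tb (u % 64 + o - 64) + (t (u / 64) + t (u / 64 + 1)).val) := ⟨_, rfl⟩
  obtain ⟨B, hB⟩ : ∃ B, B = (if (u + d) % 64 + o < 64 then tb ((u + d) % 64 + o)
      else tb ((u + d) % 64 + o - 64) + (t ((u + d) / 64) + t ((u + d) / 64 + 1)).val) := ⟨_, rfl⟩
  rw [← hA] at h1 ⊢
  rw [← hB] at h2 ⊢
  have h3 : (((t (u / 64) + t ((u + d) / 64)).val + A + B : ℕ) : ZMod 2) =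
      t (u + o) + t (u + o + d) := by
    push_cast
    rw [ZMod.natCast_val, ZMod.cast_id', show u + o + d = u + d + o by ring, h1, h2]
    simp only [id]
    ring
  rw [← h3]
  constructor
  · intro h
    have : (((t (u / 64) + t ((u + d) / 64)).val + A + B : ℕ) : ZMod 2) = ((1 : ℕ) : ZMod 2) := by
      rw [ZMod.natCast_eq_natCast_iff']
      exact h
    simpa using this
  · intro h
    have : (((t (u / 64) + t ((u + d) / 64)).val + A + B : ℕ) : ZMod 2) = ((1 : ℕ) : ZMod 2) := by
      rw [h]; simp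
    rw [ZMod.natCast_eq_natCast_iff'] at this
    exact this

/-! ### Soundness of the search -/

/-- bounds for the slope `d / B` -/
def Inv (B d : ℕ) (p q r s : ℕ) : Prop := 0 < q ∧ 0 < s ∧ p * B < q * d ∧ d * s < r * B

/-- the new offset is compatible with the old ones -/
def Good (B d P : ℕ) : List ℕ → ℕ → Prop
  | [], _ => True
  | h :: t, m => ((P - h - 1) * B < m * d ∧ m * d < (P - h + 1) * B) ∧ Good B d P t (m + 1)

lemma upd_sound {B d P : ℕ} : ∀ (H : List ℕ) (m p q r s : ℕ), 1 ≤ m → Good B d P H m →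
    Inv B d p q r s → Inv B d (upd P H m p q r s).1 (upd P H m p q r s).2.1
      (upd P H m p q r s).2.2.1 (upd P H m p q r s).2.2.2
  | [], m, p, q, r, s, _, _, hI => hI
  | h :: t, m, p, q, r, s, hm, hG, hI => by
    obtain ⟨⟨g1, g2⟩, g3⟩ := hG
    obtain ⟨i1, i2, i3, i4⟩ := hI
    rw [upd]
    cases Nat.blt (p * m) ((P - h - 1) * q) <;>
    cases Nat.blt ((P - h + 1) * s) (r * m)
    · exact upd_sound t (m + 1) p q r s (by omega) g3 ⟨i1, i2, i3, i4⟩
    · exact upd_sound t (m + 1) p q _ m (by omega) g3 ⟨i1, hm, i3, by rw [mul_comm d]; exact g2⟩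
    · exact upd_sound t (m + 1) _ m r s (by omega) g3 ⟨hm, i2, g1, i4⟩
    · exact upd_sound t (m + 1) _ m _ m (by omega) g3 ⟨hm, hm, g1, by rw [mul_comm d]; exact g2⟩

/-- the offsets of a progression -/
def off (B d r0 l : ℕ) : ℕ := (r0 + l * d) / B

/-- the list of offsets up to `l`, most recent first -/
def hist (B d r0 : ℕ) : ℕ → List ℕ
  | 0 => [off B d r0 0]
  | l + 1 => off B d r0 (l + 1) :: hist B d r0 l

lemma off_bounds {B d r0 : ℕ} (hB : 0 < B) (l m : ℕ) :
    (off B d r0 (l + m) - off B d r0 l - 1) * B < m * d ∨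
      ((off B d r0 (l + m) - off B d r0 l - 1) = 0) := by
  by_cases h : off B d r0 (l + m) - off B d r0 l - 1 = 0
  · exact Or.inr h
  · left
    unfold off at h ⊢
    have h1 := Nat.div_mul_le_self (r0 + (l + m) * d) B
    have h2 := Nat.lt_div_mul_add (a := r0 + l * d) hB
    obtain ⟨a, ha⟩ : ∃ a, a = (r0 + (l + m) * d) / B := ⟨_, rfl⟩
    obtain ⟨c, hc⟩ : ∃ c, c = (r0 + l * d) / B := ⟨_, rfl⟩
    rw [← ha] at h h1 ⊢
    rw [← hc] at h h2 ⊢
    obtain ⟨x, hx⟩ : ∃ x, a = c + 1 + x := ⟨a - c - 1, by omega⟩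
    subst hx
    rw [show c + 1 + x - c - 1 = x by omega]
    have e1 : (c + 1 + x) * B = c * B + B + x * B := by ring
    have e2 : (l + m) * d = l * d + m * d := by ring
    omega

lemma off_bounds2 {B d r0 : ℕ} (hB : 0 < B) (l m : ℕ) :
    m * d < (off B d r0 (l + m) - off B d r0 l + 1) * B := by
  unfold off
  have h1 := Nat.div_mul_le_self (r0 + l * d) B
  have h2 := Nat.lt_div_mul_add (a := r0 + (l + m) * d) hB
  have h3 : (r0 + l * d) / B ≤ (r0 + (l + m) * d) / B := by
    apply Nat.div_le_div_right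
    have : (l + m) * d = l * d + m * d := by ring
    omega
  obtain ⟨a, ha⟩ : ∃ a, a = (r0 + (l + m) * d) / B := ⟨_, rfl⟩
  obtain ⟨c, hc⟩ : ∃ c, c = (r0 + l * d) / B := ⟨_, rfl⟩
  rw [← ha] at h2 h3 ⊢
  rw [← hc] at h1 h3 ⊢
  obtain ⟨x, hx⟩ : ∃ x, a = c + x := ⟨a - c, by omega⟩
  subst hx
  rw [show c + x - c + 1 = x + 1 by omega]
  have e1 : (c + x) * B = c * B + x * B := by ring
  have e2 : (l + m) * d = l * d + m * d := by ring
  have e3 : (x + 1) * B = x * B + B := by ring
  omega

lemma good_hist {B d r0 : ℕ} (hB : 0 < B) (hd : 0 < d) : ∀ (l m : ℕ), 1 ≤ m →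
    Good B d (off B d r0 (l + m)) (hist B d r0 l) m
  | 0, m, hm => by
    refine ⟨⟨?_, off_bounds2 hB 0 m⟩, trivial⟩
    rcases off_bounds (d := d) (r0 := r0) hB 0 m with h | h
    · exact h
    · rw [h, zero_mul]
      exact Nat.mul_pos hm hd
  | l + 1, m, hm => by
    refine ⟨⟨?_, off_bounds2 hB (l + 1) m⟩, ?_⟩
    · rcases off_bounds (d := d) (r0 := r0) hB (l + 1) m with h | h
      · exact h
      · rw [h, zero_mul]
        exact Nat.mul_pos hm hd
    · have := good_hist (r0 := r0) hB hd l (m + 1) (by omega)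
      rw [show l + (m + 1) = l + 1 + m by ring] at this
      exact this

lemma hist_ne (B d r0 l : ℕ) : ∃ T, hist B d r0 l = off B d r0 l :: T := by
  cases l with
  | zero => exact ⟨[], rfl⟩
  | succ l => exact ⟨_, rfl⟩

lemma dfs_sound {B d r0 : ℕ} (hB : 0 < B) (hd1 : B < d) (hd2 : d < 2 * B) (φ : ℕ → Bool) :
    ∀ (k l p q r s : ℕ), Inv B d p q r s → (∀ i ≤ l + k, φ (off B d r0 i) = false) →
      dfs φ k (hist B d r0 l) p q r s = false
  | 0, l, p, q, r, s, _, _ => by
    obtain ⟨T, hT⟩ := hist_ne B d r0 l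
    rw [hT, dfs]
  | k + 1, l, p, q, r, s, hI, hφ => by
    have hg := good_hist (r0 := r0) hB (by omega : 0 < d) l 1 le_rfl
    have ih := fun p q r s hI => dfs_sound hB hd1 hd2 φ k (l + 1) p q r s hI
      (fun i hi => hφ i (by omega))
    have hnext := hφ (l + 1) (by omega)
    obtain ⟨T, hT⟩ := hist_ne B d r0 l
    have hh : hist B d r0 (l + 1) = off B d r0 (l + 1) :: hist B d r0 l := rfl
    rw [hh] at ih
    rw [hT] at hg ih ⊢
    have hstep : off B d r0 (l + 1) = off B d r0 l + 1 ∨ off B d r0 (l + 1) = off B d r0 l + 2 := by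
      unfold off
      have e1 : r0 + (l + 1) * d = r0 + l * d + d := by ring
      rw [e1]
      have a1 := Nat.div_mul_le_self (r0 + l * d) B
      have a2 := Nat.lt_div_mul_add (a := r0 + l * d) hB
      have a3 := Nat.div_mul_le_self (r0 + l * d + d) B
      have a4 := Nat.lt_div_mul_add (a := r0 + l * d + d) hB
      obtain ⟨a, ha⟩ : ∃ a, a = (r0 + l * d) / B := ⟨_, rfl⟩
      obtain ⟨c, hc⟩ : ∃ c, c = (r0 + l * d + d) / B := ⟨_, rfl⟩
      rw [← ha] at a1 a2 ⊢
      rw [← hc] at a3 a4 ⊢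
      have b1 : a + 1 ≤ c := by
        by_contra hlt
        have : c * B ≤ a * B := Nat.mul_le_mul_right _ (by omega)
        omega
      have b2 : c ≤ a + 2 := by
        by_contra hlt
        have : (a + 3) * B ≤ c * B := Nat.mul_le_mul_right _ (by omega)
        have e3 : (a + 3) * B = a * B + 3 * B := by ring
        omega
      omega
    have hupd := upd_sound (off B d r0 l :: T) 1 p q r s le_rfl hg hI
    have hI' := hupd
    obtain ⟨i1, i2, i3, i4⟩ := hupd
    obtain ⟨Q, hQ⟩ : ∃ Q, Q = upd (off B d r0 (l + 1)) (off B d r0 l :: T) 1 p q r s := ⟨_, rfl⟩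
    rw [← hQ] at i1 i2 i3 i4 hI'
    obtain ⟨p', q', r', s'⟩ := Q
    simp only at i1 i2 i3 i4 hI'
    have hlt : p' * s' < r' * q' := by
      have h1 : (p' * s') * (B * d) < (r' * q') * (B * d) := by
        calc (p' * s') * (B * d) = (p' * B) * (d * s') := by ring
          _ < (q' * d) * (r' * B) := by
            apply Nat.mul_lt_mul'' i3 i4
          _ = (r' * q') * (B * d) := by ring
      exact lt_of_mul_lt_mul_right h1 (Nat.zero_le _)
    have hblt : Nat.blt (p' * s') (r' * q') = true := by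
      rw [Nat.blt_eq]
      exact hlt
    have ih2 := ih p' q' r' s' hI'
    rw [dfs]
    rcases hstep with h | h
    · rw [h] at hQ hnext ih2
      rw [← hQ, hnext]
      simp only [hblt, ih2, Bool.not_true, Bool.or_self, Bool.false_and]
    · rw [h] at hQ hnext ih2
      rw [← hQ, hnext]
      simp only [hblt, ih2, Bool.not_true, Bool.or_self, Bool.and_false]

/-- from the search to `phi` -/
lemma run_bound {B d u r0 fuel p q r s : ℕ} (hB : 0 < B) (hd1 : B < d) (hd2 : d < 2 * B)
    (hr0 : r0 < B) (hI : Inv B d p q r s) (hfuel : fuel ≤ 31)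
    (hd : dfs (ph (u % 64) ((u + d) % 64) (t (u / 64) + t ((u + d) / 64)).val
      (t (u / 64) + t (u / 64 + 1)).val (t ((u + d) / 64) + t ((u + d) / 64 + 1)).val)
      fuel [0] p q r s = true) :
    ∃ l ≤ fuel, phi d (u + off B d r0 l) ≠ 0 := by
  by_contra hcon
  push Not at hcon
  have h0 : hist B d r0 0 = [0] := by
    unfold hist off
    rw [zero_mul, add_zero, Nat.div_eq_of_lt hr0]
  have hoff : ∀ l, off B d r0 l ≤ 2 * l := by
    intro l
    unfold off
    apply Nat.le_of_lt_succ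
    rw [Nat.div_lt_iff_lt_mul hB]
    have : l * d ≤ l * (2 * B) := Nat.mul_le_mul_left _ hd2.le
    have e : (2 * l).succ * B = l * (2 * B) + B := by rw [Nat.succ_eq_add_one]; ring
    omega
  have := dfs_sound (r0 := r0) hB hd1 hd2 (ph (u % 64) ((u + d) % 64)
    (t (u / 64) + t ((u + d) / 64)).val
    (t (u / 64) + t (u / 64 + 1)).val (t ((u + d) / 64) + t ((u + d) / 64 + 1)).val) fuel 0 p q r s
    hI (by
      intro i hi
      have h1 := hcon i (by omega)
      have h2 := ph_eq u d (off B d r0 i) (by have := hoff i; omega)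
      cases h3 : ph (u % 64) ((u + d) % 64) (t (u / 64) + t ((u + d) / 64)).val
        (t (u / 64) + t (u / 64 + 1)).val (t ((u + d) / 64) + t ((u + d) / 64 + 1)).val
        (off B d r0 i) with
      | false => rfl
      | true =>
        rw [h2.1 h3] at h1
        exact absurd h1 (by decide))
  rw [h0, hd] at this
  exact absurd this (by decide)

end Pool.Agent.V11172.Tm
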