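import Mathlib
import Pool.Agent.V11172.RsDfs
import Pool.Agent.V11172.TmCore

/-!
# The Rudin–Shapiro word: block rule, complement rule, shifts
-/

namespace Pool.Agent.V11172.Rs

/-- number of occurrences of `11` in the binary expansion -/
def e11 (n : ℕ) : ℕ := ((Finset.range n).filter fun i => n.testBit i ∧ n.testBit (i + 1)).card

/-- the Rudin–Shapiro word with values in `ZMod 2` -/
def r (n : ℕ) : ZMod 2 := (e11 n : ℕ)

lemma aa (a : ZMod 2) : a + a = 0 := CharTwo.add_self_eq_zero a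

lemma zc (a : ZMod 2) : a = 0 ∨ a = 1 := by revert a; decide

lemma nn (a : ℕ) : ((2 * a : ℕ) : ZMod 2) = 0 := by
  push_cast
  rw [show (2 : ZMod 2) = 0 by decide, zero_mul]

/-- any long enough range may be used -/
lemma e11_range {n m : ℕ} (h : n < 2 ^ m) :
    ((Finset.range m).filter fun i => n.testBit i ∧ n.testBit (i + 1)).card = e11 n := by
  unfold e11
  have key : ∀ a, n < 2 ^ a →
      ((Finset.range a).filter fun i => n.testBit i ∧ n.testBit (i + 1)) =
      ((Finset.range (max m n)).filter fun i => n.testBit i ∧ n.testBit (i + 1)) ∨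
      ¬ (a ≤ max m n) := by
    intro a ha
    by_cases h2 : a ≤ max m n
    · left
      ext i
      simp only [Finset.mem_filter, Finset.mem_range]
      constructor
      · rintro ⟨h1, h3⟩
        exact ⟨lt_of_lt_of_le h1 h2, h3⟩
      · rintro ⟨h1, h3, h4⟩
        refine ⟨?_, h3, h4⟩
        by_contra hlt
        push Not at hlt
        have : n.testBit i = false :=
          Nat.testBit_lt_two_pow (lt_of_lt_of_le ha (Nat.pow_le_pow_right (by norm_num) hlt))
        rw [this] at h3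
        exact absurd h3 (by decide)
    · right; exact h2
  rcases key m h with h1 | h1
  · rcases key n (Nat.lt_two_pow_self) with h2 | h2
    · rw [h1, h2]
    · exact absurd (le_max_right _ _) h2
  · exact absurd (le_max_left _ _) h1

lemma r_zero : r 0 = 0 := by simp [r, e11]

lemma e11_even (n : ℕ) : e11 (2 * n) = e11 n := by
  have h1 : n < 2 ^ n := Nat.lt_two_pow_self
  rw [← e11_range (n := n) (m := n) h1, ← e11_range (n := 2 * n) (m := n + 1)
    (by rw [pow_succ]; omega)]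
  rw [Finset.card_filter, Finset.card_filter, Finset.sum_range_succ']
  have e1 : ∀ i, (2 * n).testBit (i + 1) = n.testBit i := by
    intro i
    rw [Nat.testBit_add_one]; congr 1; omega
  simp only [e1]
  simp

lemma e11_odd (n : ℕ) : e11 (2 * n + 1) = e11 n + n % 2 := by
  have h1 : n < 2 ^ n := Nat.lt_two_pow_self
  rw [← e11_range (n := n) (m := n) h1, ← e11_range (n := 2 * n + 1) (m := n + 1)
    (by rw [pow_succ]; omega)]
  rw [Finset.card_filter, Finset.card_filter, Finset.sum_range_succ']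
  have e1 : ∀ i, (2 * n + 1).testBit (i + 1) = n.testBit i := by
    intro i
    rw [Nat.testBit_add_one]; congr 1; omega
  simp only [e1]
  congr 1
  rw [Nat.testBit_zero, Nat.testBit_zero]
  have : (2 * n + 1) % 2 = 1 := by omega
  rw [this]
  rcases Nat.mod_two_eq_zero_or_one n with h | h <;> simp [h]

lemma r_even (n : ℕ) : r (2 * n) = r n := by
  unfold r
  rw [e11_even]

lemma r_odd (n : ℕ) : r (2 * n + 1) = r n + n := by
  unfold r
  rw [e11_odd]
  push_cast
  rw [ZMod.natCast_mod]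

/-- the block rule -/
lemma r_block : ∀ (k U w : ℕ), w < 2 ^ (k + 1) →
    r (2 ^ (k + 1) * U + w) = r U + r w + U * ((w / 2 ^ k : ℕ) : ZMod 2)
  | 0, U, w, h => by
    have : w = 0 ∨ w = 1 := by omega
    rcases this with rfl | rfl
    · rw [show 2 ^ (0 + 1) * U + 0 = 2 * U by ring, r_even, r_zero]
      simp
    · have h1 : r 1 = 0 := by
        have := r_odd 0
        rw [show 2 * 0 + 1 = 1 by norm_num, r_zero] at this
        simpa using this
      rw [show 2 ^ (0 + 1) * U + 1 = 2 * U + 1 by ring, r_odd, h1]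
      simp
  | k + 1, U, w, h => by
    have h2 : w / 2 < 2 ^ (k + 1) := by rw [pow_succ] at h; omega
    have ih := r_block k U (w / 2) h2
    have hp : 2 ^ (k + 1 + 1) = 2 * 2 ^ (k + 1) := by ring
    have hd : w / 2 ^ (k + 1) = w / 2 / 2 ^ k := by
      rw [Nat.div_div_eq_div_mul, pow_succ']
    rcases Nat.even_or_odd' w with ⟨v, hv | hv⟩
    · rw [hd]
      subst hv
      rw [show 2 * v / 2 = v by omega] at ih ⊢
      rw [show 2 ^ (k + 1 + 1) * U + 2 * v = 2 * (2 ^ (k + 1) * U + v) by ring, r_even, r_even, ih]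
    · rw [hd]
      subst hv
      rw [show (2 * v + 1) / 2 = v by omega] at ih ⊢
      rw [show 2 ^ (k + 1 + 1) * U + (2 * v + 1) = 2 * (2 ^ (k + 1) * U + v) + 1 by ring, r_odd,
        r_odd, ih]
      have : ((2 ^ (k + 1) * U + v : ℕ) : ZMod 2) = v := by
        rw [show 2 ^ (k + 1) * U + v = 2 * (2 ^ k * U) + v by ring, Nat.cast_add, nn, zero_add]
      rw [this]
      ring

/-- the complement rule -/
lemma r_compl : ∀ (k j : ℕ), j < 2 ^ k → r (2 ^ (k + 1) - 1 - j) = (k : ZMod 2) + r j + j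
  | 0, j, h => by
    have : j = 0 := by simpa using h
    subst this
    have h1 : r 1 = 0 := by
      have := r_odd 0
      rw [show 2 * 0 + 1 = 1 by norm_num, r_zero] at this
      simpa using this
    rw [show 2 ^ (0 + 1) - 1 - 0 = 1 by norm_num, h1, r_zero]
    simp
  | k + 1, j, h => by
    have hp : 2 ^ (k + 1) = 2 * 2 ^ k := by ring
    have hp2 : 2 ^ (k + 1 + 1) = 2 * 2 ^ (k + 1) := by ring
    have h2 : j / 2 < 2 ^ k := by omega
    have ih := r_compl k (j / 2) h2
    have hpos : 0 < 2 ^ k := by positivity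
    rcases Nat.even_or_odd' j with ⟨v, hv | hv⟩
    · subst hv
      rw [show 2 * v / 2 = v by omega] at ih
      rw [show 2 ^ (k + 1 + 1) - 1 - 2 * v = 2 * (2 ^ (k + 1) - 1 - v) + 1 by omega, r_odd, ih,
        r_even, nn]
      have : ((2 ^ (k + 1) - 1 - v : ℕ) : ZMod 2) = 1 + v := by
        have e : 2 * (2 ^ k) = (2 ^ (k + 1) - 1 - v) + 1 + v := by omega
        have e2 := congrArg (Nat.cast : ℕ → ZMod 2) e
        rw [nn] at e2
        push_cast at e2 ⊢
        linear_combination -e2 - aa 1 - aa (v : ZMod 2)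
      rw [this]
      push_cast
      linear_combination aa (v : ZMod 2)
    · subst hv
      rw [show (2 * v + 1) / 2 = v by omega] at ih
      rw [show 2 ^ (k + 1 + 1) - 1 - (2 * v + 1) = 2 * (2 ^ (k + 1) - 1 - v) by omega, r_even, ih,
        r_odd]
      push_cast
      have : (2 : ZMod 2) = 0 := by decide
      linear_combination -(v : ZMod 2) * this - aa 1

/-- a monochromatic progression with `L` terms -/
def Mono (n d L : ℕ) : Prop := ∃ c : ZMod 2, ∀ l < L, r (n + l * d) = c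

lemma Mono.mono {n d L L' : ℕ} (h : Mono n d L) (hL : L' ≤ L) : Mono n d L' := by
  obtain ⟨c, hc⟩ := h
  exact ⟨c, fun l hl => hc l (by omega)⟩

lemma Mono.tail {n d L : ℕ} (l0 : ℕ) (h : Mono n d (l0 + L)) : Mono (n + l0 * d) d L := by
  obtain ⟨c, hc⟩ := h
  refine ⟨c, fun l hl => ?_⟩
  have := hc (l0 + l) (by omega)
  rw [show n + (l0 + l) * d = n + l0 * d + l * d by ring] at this
  exact this

/-- halving the difference -/
lemma half {n d L : ℕ} (h : Mono n (2 * d) L) : ∃ m, Mono m d L := by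
  obtain ⟨c, hc⟩ := h
  rcases Nat.even_or_odd' n with ⟨m, hm | hm⟩
  · refine ⟨m, c, fun l hl => ?_⟩
    have := hc l hl
    rw [hm, show 2 * m + l * (2 * d) = 2 * (m + l * d) by ring, r_even] at this
    exact this
  · obtain ⟨K, hK⟩ : ∃ K, K = m + L * d := ⟨_, rfl⟩
    have hlt : K < 2 ^ K := Nat.lt_two_pow_self
    refine ⟨2 ^ (K + 1) - 1 - (m + (L - 1) * d), (K : ZMod 2) + c, fun l hl => ?_⟩
    have e1 := hc (L - 1 - l) (by omega)
    rw [hm, show 2 * m + 1 + (L - 1 - l) * (2 * d) = 2 * (m + (L - 1 - l) * d) + 1 by ring,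
      r_odd] at e1
    have hLd : L * d = (L - 1 - l) * d + l * d + d := by
      rw [← Nat.add_mul, ← Nat.succ_mul]
      congr 1
      omega
    have hLd2 : (L - 1) * d = (L - 1 - l) * d + l * d := by
      rw [← Nat.add_mul]
      congr 1
      omega
    have hp : 2 ^ (K + 1) = 2 * 2 ^ K := by ring
    have e2 := r_compl K (m + (L - 1 - l) * d) (by omega)
    rw [show 2 ^ (K + 1) - 1 - (m + (L - 1) * d) + l * d =
      2 ^ (K + 1) - 1 - (m + (L - 1 - l) * d) by omega, e2, ← e1]
    ring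

/-- translating by a large power of two -/
lemma Mono.far {n d L : ℕ} (h : Mono n d L) (B : ℕ) : ∃ m, B ≤ m ∧ Mono m d L := by
  obtain ⟨c, hc⟩ := h
  obtain ⟨K, hK⟩ : ∃ K, K = n + L * d + B := ⟨_, rfl⟩
  have hlt : K < 2 ^ K := Nat.lt_two_pow_self
  have hp : 2 ^ (K + 1) = 2 * 2 ^ K := by ring
  have h1 : r 1 = 0 := by
    have := r_odd 0
    rw [show 2 * 0 + 1 = 1 by norm_num, r_zero] at this
    simpa using this
  refine ⟨2 ^ (K + 1) * 1 + n, by omega, c, fun l hl => ?_⟩
  have hle : l * d ≤ L * d := Nat.mul_le_mul_right _ (by omega)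
  rw [add_assoc, r_block K 1 (n + l * d) (by omega), hc l hl, h1,
    Nat.div_eq_of_lt (by omega : n + l * d < 2 ^ K)]
  simp

/-- the shifted sum -/
def phi (d u : ℕ) : ZMod 2 := r u + r (u + 2 * d)

lemma shift {n d L b V : ℕ} {c : ZMod 2} (hb : 1 ≤ b) (h : ∀ l < L, r (n + l * d) = c)
    (hV : V + 2 ^ (b + 1) ≤ L) :
    ∀ l < V, phi d ((n + l * d) / 2 ^ b) = 0 := by
  intro l hl
  obtain ⟨k, rfl⟩ : ∃ k, b = k + 1 := ⟨b - 1, by omega⟩
  have hpos : 0 < 2 ^ k := by positivity
  have h1 := h l (by omega)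
  have h2 := h (l + 2 ^ (k + 1 + 1)) (by omega)
  have hlt : (n + l * d) % 2 ^ (k + 1) < 2 ^ (k + 1) := Nat.mod_lt _ (by positivity)
  have e1 : n + l * d = 2 ^ (k + 1) * ((n + l * d) / 2 ^ (k + 1)) + (n + l * d) % 2 ^ (k + 1) :=
    (Nat.div_add_mod _ _).symm
  have e2 : n + (l + 2 ^ (k + 1 + 1)) * d =
      2 ^ (k + 1) * ((n + l * d) / 2 ^ (k + 1) + 2 * d) + (n + l * d) % 2 ^ (k + 1) := by
    calc n + (l + 2 ^ (k + 1 + 1)) * d = n + l * d + 2 ^ (k + 1) * (2 * d) := by ring
      _ = (2 ^ (k + 1) * ((n + l * d) / 2 ^ (k + 1)) + (n + l * d) % 2 ^ (k + 1)) +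
        2 ^ (k + 1) * (2 * d) := by rw [← e1]
      _ = _ := by ring
  rw [e1, r_block _ _ _ hlt] at h1
  rw [e2, r_block _ _ _ hlt, Nat.cast_add, nn, add_zero] at h2
  unfold phi
  linear_combination h1 + h2 - aa (r ((n + l * d) % 2 ^ (k + 1))) -
    aa ((((n + l * d) / 2 ^ (k + 1) : ℕ) : ZMod 2) *
      ((((n + l * d) % 2 ^ (k + 1)) / 2 ^ k : ℕ) : ZMod 2)) + aa c

/-! ### The tables -/

/-- a bounded recursion -/
def rp : ℕ → ℕ → ℕ
  | 0, _ => 0
  | k + 1, n => n % 2 * (n / 2 % 2) + rp k (n / 2)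

lemma r_rp : ∀ k n, n < 2 ^ k → r n = (rp k n : ℕ)
  | 0, n, h => by
    have : n = 0 := by simpa using h
    subst this
    simp [r_zero, rp]
  | k + 1, n, h => by
    have h2 : n / 2 < 2 ^ k := by rw [pow_succ] at h; omega
    have ih := r_rp k (n / 2) h2
    rcases Nat.even_or_odd' n with ⟨v, hv | hv⟩
    · subst hv
      rw [show 2 * v / 2 = v by omega] at ih
      rw [r_even, ih, rp, show 2 * v % 2 = 0 by omega, show 2 * v / 2 = v by omega]
      simp
    · subst hv
      rw [show (2 * v + 1) / 2 = v by omega] at ih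
      rw [r_odd, ih, rp, show (2 * v + 1) % 2 = 1 by omega, show (2 * v + 1) / 2 = v by omega]
      push_cast
      rw [← ZMod.natCast_mod v 2]
      ring

/-- a bit as an element of `ZMod 2` -/
def bz (b : Bool) : ZMod 2 := if b then 1 else 0

lemma bz_beq (m : ℕ) : bz (m % 2 == 1) = (m : ZMod 2) := by
  rw [← ZMod.natCast_mod m 2]
  rcases Nat.mod_two_eq_zero_or_one m with h | h <;> rw [h] <;> decide

lemma bz_inj {a b : Bool} (h : bz a = bz b) : a = b := by
  revert h; revert a b; decide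

set_option maxRecDepth 100000 in
lemma TA_tab : ∀ cb < 8, ∀ x < 1024, Nat.testBit TA (cb * 1024 + x) =
    ((cb % 2 + (if x < 512 then rp 9 x + (cb / 2 % 2) * (x / 256) else
      cb / 4 + rp 9 (x - 512) + (cb / 2 % 2 + 1) * ((x - 512) / 256))) % 2 == 1) := by
  decide +kernel

set_option maxRecDepth 100000 in
lemma TB_eq : TB = (2 ^ 8192 - 1) ^^^ TA := by decide +kernel

set_option maxRecDepth 100000 in
lemma rep_bit : ∀ cb < 8, Nat.testBit rep (cb * 1024) = true := by decide +kernel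

lemma TB_bit {j : ℕ} (hj : j < 8192) : Nat.testBit TB j = !Nat.testBit TA j := by
  rw [TB_eq, Nat.testBit_xor, Nat.testBit_two_pow_sub_one]
  simp [hj]

/-- the value in a window -/
lemma window (u o : ℕ) (ho : u % 512 + o < 1024) (κ : ℕ) (hκ : κ < 2) :
    bz (Nat.testBit TA ((κ + 2 * (u / 512 % 2) + 4 * (r (u / 512) + r (u / 512 + 1)).val) * 1024 +
      (u % 512 + o))) = κ + r (u / 512) + r (u + o) := by
  have e := Nat.div_add_mod u 512
  obtain ⟨h, hh⟩ : ∃ h, h = u / 512 := ⟨_, rfl⟩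
  obtain ⟨v, hv⟩ : ∃ v, v = u % 512 := ⟨_, rfl⟩
  rw [← hh, ← hv] at e ⊢
  rw [← hv] at ho
  have hv2 : v < 512 := by omega
  obtain ⟨f, hf⟩ : ∃ f, f = (r h + r (h + 1)).val := ⟨_, rfl⟩
  have hf2 : f < 2 := by rw [hf]; exact ZMod.val_lt _
  have hfz : (f : ZMod 2) = r h + r (h + 1) := by rw [hf, ZMod.natCast_val, ZMod.cast_id']; rfl
  rw [← hf, TA_tab _ (by omega) _ ho, bz_beq]
  have c1 : (κ + 2 * (h % 2) + 4 * f) % 2 = κ := by omega
  have c2 : (κ + 2 * (h % 2) + 4 * f) / 2 % 2 = h % 2 := by omega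
  have c3 : (κ + 2 * (h % 2) + 4 * f) / 4 = f := by omega
  rw [c1, c2, c3, ← e]
  split_ifs with hlt
  · have hb := r_block 8 h (v + o) hlt
    have hr := r_rp 9 (v + o) hlt
    rw [show 512 * h + v + o = 2 ^ (8 + 1) * h + (v + o) by ring, hb, hr]
    push_cast
    rw [ZMod.natCast_mod]
    linear_combination -aa (r h)
  · have hlt2 : v + o - 512 < 2 ^ (8 + 1) := by omega
    have hb := r_block 8 (h + 1) (v + o - 512) hlt2
    have hr := r_rp 9 (v + o - 512) hlt2
    rw [show 512 * h + v + o = 2 ^ (8 + 1) * (h + 1) + (v + o - 512) by omega, hb, hr]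
    push_cast
    rw [ZMod.natCast_mod, hfz]
    ring

end Pool.Agent.V11172.Rs
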