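import Mathlib
import Pool.Agent.V11172.RsCore

/-!
# Monochromatic progressions in the Rudin–Shapiro word: small differences
-/

namespace Pool.Agent.V11172.Rs

/-- the upper half of a block of length `2 ^ (k + 1)` -/
def up (k : ℕ) : ℕ := (2 ^ 2 ^ k - 1) <<< 2 ^ k

/-- the bits of the first `2 ^ k` letters -/
def Rt : ℕ → ℕ
  | 0 => 0
  | 1 => 0
  | k + 2 => Rt (k + 1) ||| ((Rt (k + 1) ^^^ up k) <<< 2 ^ (k + 1))

/-- a window of length `2 ^ (k + 2)` -/
def Wt (k : ℕ) (e f : Bool) : ℕ :=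
  (Rt (k + 1) ^^^ (bif e then up k else 0)) |||
    ((Rt (k + 1) ^^^ ((bif f then 2 ^ 2 ^ (k + 1) - 1 else 0) ^^^ (bif e then 0 else up k))) <<<
      2 ^ (k + 1))

/-- intersection of shifts -/
def run (d : ℕ) : List ℕ → ℕ → ℕ
  | [], S => S
  | s :: t, S => run d t (S &&& (S >>> (s * d)))

/-- the check for one difference -/
def okd (k : ℕ) (sh : List ℕ) (d : ℕ) : Bool :=
  [false, true].all fun e => [false, true].all fun f =>
    Nat.beq (run d sh (Wt k e f) % 2 ^ 2 ^ (k + 1)) 0 &&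
    Nat.beq (run d sh ((2 ^ 2 ^ (k + 2) - 1) ^^^ Wt k e f) % 2 ^ 2 ^ (k + 1)) 0

/-- check for a range of odd differences, with exceptions -/
def okr (k : ℕ) (sh : List ℕ) (lo m : ℕ) (ex : List ℕ) : Bool :=
  (List.range m).all fun i => ex.contains (lo + 2 * i) || okd k sh (lo + 2 * i)

set_option maxRecDepth 100000

theorem ok_a : okr 8 [1, 2, 4, 8] 1 11 [] = true := by decide +kernel
theorem ok_b : okr 9 [1, 2, 4, 7] 23 4 [] = true := by decide +kernel
theorem ok_c : okr 10 [1, 2, 4, 8, 4] 31 2 [] = true := by decide +kernel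
theorem ok_d : okr 10 [1, 2, 4, 8, 5] 35 1 [] = true := by decide +kernel
theorem ok_e : okr 10 [1, 2, 4, 8, 6] 37 1 [] = true := by decide +kernel
theorem ok_f : okr 10 [1, 2, 4, 8, 7] 39 12 [] = true := by decide +kernel
theorem ok_g : okr 11 [1, 2, 4, 8, 16, 2] 63 1 [] = true := by decide +kernel
theorem ok_h : okr 11 [1, 2, 4, 8, 16, 4] 65 1 [] = true := by decide +kernel
theorem ok_i : okr 12 [1, 2, 4, 8, 16] 67 94 [127, 129] = true := by decide +kernel
theorem ok_j : okr 13 [1, 2, 4, 8, 16, 32, 4] 127 2 [] = true := by decide +kernel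
theorem ok_k : okr 15 [1, 2, 4, 8, 16, 32, 64, 2] 255 1 [] = true := by decide +kernel
theorem ok_l : okr 15 [1, 2, 4, 8, 16, 32, 64, 4] 257 1 [] = true := by decide +kernel
theorem ok_m : okr 15 [1, 2, 4, 8, 16] 259 639 [511, 513, 765, 771, 1023, 1025, 1533] = true := by
  decide +kernel
theorem ok_n : okr 17 [1, 2, 4, 8, 16, 32, 64] 765 4 [] = true := by decide +kernel
theorem ok_o : okr 17 [1, 2, 4, 8, 16, 32, 64] 1533 1 [] = true := by decide +kernel

end Pool.Agent.V11172.Rs
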