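import Mathlib
import Pool.Agent.V11172.RsSmall

/-!
# Monochromatic progressions in the Rudin–Shapiro word: soundness of the direct check
-/

namespace Pool.Agent.V11172.Rs

/-- the letters as Booleans -/
def rb (x : ℕ) : Bool := e11 x % 2 == 1

lemma bz_rb (x : ℕ) : bz (rb x) = r x := bz_beq _

lemma bz_xor (a b : Bool) : bz (a ^^ b) = bz a + bz b := by revert a b; decide

lemma rb_of {x : ℕ} {b : Bool} (h : r x = bz b) : rb x = b := bz_inj (by rw [bz_rb, h])

lemma r_one : r 1 = 0 := by
  have := r_odd 0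
  rw [show 2 * 0 + 1 = 1 by norm_num, r_zero] at this
  simpa using this

lemma up_bit (k y : ℕ) : Nat.testBit (up k) y = (decide (2 ^ k ≤ y) && decide (y < 2 ^ (k + 1))) := by
  unfold up
  rw [Nat.testBit_shiftLeft, Nat.testBit_two_pow_sub_one]
  have hp : 2 ^ (k + 1) = 2 * 2 ^ k := by ring
  by_cases h : 2 ^ k ≤ y
  · simp only [ge_iff_le, h, decide_true, Bool.true_and]
    congr 1
    apply propext
    omega
  · simp [h]

lemma high_bit {k y : ℕ} (hy : y < 2 ^ (k + 1)) :
    ((y / 2 ^ k : ℕ) : ZMod 2) = bz (decide (2 ^ k ≤ y)) := by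
  have hp : 2 ^ (k + 1) = 2 * 2 ^ k := by ring
  have hpos : 0 < 2 ^ k := by positivity
  by_cases h : 2 ^ k ≤ y
  · have : y / 2 ^ k = 1 := by
      rw [Nat.div_eq_iff hpos]
      omega
    rw [this]
    simp [bz, h]
  · rw [Nat.div_eq_of_lt (by omega)]
    simp [bz, h]

lemma Rt_bit : ∀ k x, Nat.testBit (Rt k) x = (decide (x < 2 ^ k) && rb x)
  | 0, x => by
    rw [Rt, Nat.zero_testBit]
    by_cases h : x < 2 ^ 0
    · have : x = 0 := by simpa using h
      subst this
      have : rb 0 = false := rb_of (by rw [r_zero]; rfl)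
      rw [this, Bool.and_false]
    · rw [decide_eq_false h, Bool.false_and]
  | 1, x => by
    rw [Rt, Nat.zero_testBit]
    by_cases h : x < 2 ^ 1
    · have : x = 0 ∨ x = 1 := by omega
      rcases this with rfl | rfl
      · have : rb 0 = false := rb_of (by rw [r_zero]; rfl)
        rw [this, Bool.and_false]
      · have : rb 1 = false := rb_of (by rw [r_one]; rfl)
        rw [this, Bool.and_false]
    · rw [decide_eq_false h, Bool.false_and]
  | k + 2, x => by
    have ih := Rt_bit (k + 1)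
    have hp : 2 ^ (k + 2) = 2 * 2 ^ (k + 1) := by ring
    have hp1 : 2 ^ (k + 1) = 2 * 2 ^ k := by ring
    rw [Rt, Nat.testBit_or, Nat.testBit_shiftLeft, Nat.testBit_xor, ih, ih, up_bit]
    rcases Nat.lt_or_ge x (2 ^ (k + 1)) with h | h
    · have h2 : x < 2 ^ (k + 2) := by omega
      simp [h, h2]
    · obtain ⟨y, rfl⟩ : ∃ y, x = 2 ^ (k + 1) * 1 + y := ⟨x - 2 ^ (k + 1), by omega⟩
      have e1 : 2 ^ (k + 1) * 1 + y - 2 ^ (k + 1) = y := by omega
      rw [e1]
      have h3 : ¬ (2 ^ (k + 1) * 1 + y < 2 ^ (k + 1)) := by omega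
      rw [decide_eq_false h3, Bool.false_and, Bool.false_or]
      have h4 : 2 ^ (k + 1) * 1 + y ≥ 2 ^ (k + 1) := by omega
      rw [decide_eq_true h4, Bool.true_and]
      rcases Nat.lt_or_ge y (2 ^ (k + 1)) with h5 | h5
      · have h6 : 2 ^ (k + 1) * 1 + y < 2 ^ (k + 2) := by omega
        rw [decide_eq_true h5, decide_eq_true h6, Bool.true_and, Bool.true_and, Bool.and_true]
        symm
        apply rb_of
        rw [r_block k 1 y h5, r_one, bz_xor, bz_rb, high_bit h5]
        push_cast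
        ring
      · have h6 : ¬ (2 ^ (k + 1) * 1 + y < 2 ^ (k + 2)) := by omega
        have h7 : ¬ (y < 2 ^ (k + 1)) := by omega
        rw [decide_eq_false h6, decide_eq_false h7]
        simp

lemma Wt_bit {k y : ℕ} (h : ℕ) (hy : y < 2 ^ (k + 2)) :
    bz (Nat.testBit (Wt k (h % 2 == 1) (rb h ^^ rb (h + 1))) y) =
      r h + r (2 ^ (k + 1) * h + y) := by
  have hp : 2 ^ (k + 2) = 2 * 2 ^ (k + 1) := by ring
  have hp1 : 2 ^ (k + 1) = 2 * 2 ^ k := by ring
  have he : ((h : ℕ) : ZMod 2) = bz (h % 2 == 1) := (bz_beq h).symm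
  unfold Wt
  rw [Nat.testBit_or, Nat.testBit_shiftLeft, Nat.testBit_xor, Nat.testBit_xor, Rt_bit, Rt_bit]
  rcases Nat.lt_or_ge y (2 ^ (k + 1)) with h1 | h1
  · have h2 : ¬ (y ≥ 2 ^ (k + 1)) := by omega
    rw [decide_eq_false h2, decide_eq_true h1, Bool.false_and, Bool.or_false, Bool.true_and,
      r_block k h y h1, high_bit h1, bz_xor, bz_rb, he]
    have : bz (Nat.testBit (bif (h % 2 == 1) then up k else 0) y) =
        bz (h % 2 == 1) * bz (decide (2 ^ k ≤ y)) := by
      cases hb : (h % 2 == 1) with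
      | false => simp [bz]
      | true =>
        rw [cond_true, up_bit, decide_eq_true h1, Bool.and_true]
        simp [bz]
    rw [this]
    linear_combination -aa (r h)
  · obtain ⟨z, rfl⟩ : ∃ z, y = 2 ^ (k + 1) + z := ⟨y - 2 ^ (k + 1), by omega⟩
    have hz : z < 2 ^ (k + 1) := by omega
    have e1 : 2 ^ (k + 1) + z - 2 ^ (k + 1) = z := by omega
    have h2 : ¬ (2 ^ (k + 1) + z < 2 ^ (k + 1)) := by omega
    have h3 : 2 ^ (k + 1) + z ≥ 2 ^ (k + 1) := by omega
    have h4 : Nat.testBit (bif (h % 2 == 1) then up k else 0) (2 ^ (k + 1) + z) = false := by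
      cases hb : (h % 2 == 1) with
      | false => simp
      | true =>
        rw [cond_true, up_bit, decide_eq_false h2, Bool.and_false]
    rw [e1, decide_eq_false h2, decide_eq_true h3, h4, Bool.false_and, Bool.true_and,
      Bool.xor_false, Bool.false_or, Nat.testBit_xor, decide_eq_true hz, Bool.true_and,
      show 2 ^ (k + 1) * h + (2 ^ (k + 1) + z) = 2 ^ (k + 1) * (h + 1) + z by ring,
      r_block k (h + 1) z hz, high_bit hz, bz_xor, bz_xor, bz_rb]
    have h5 : bz (Nat.testBit (bif (rb h ^^ rb (h + 1)) then 2 ^ 2 ^ (k + 1) - 1 else 0) z) =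
        r h + r (h + 1) := by
      rw [← bz_rb h, ← bz_rb (h + 1), ← bz_xor]
      cases hb : (rb h ^^ rb (h + 1)) with
      | false => simp
      | true =>
        rw [cond_true, Nat.testBit_two_pow_sub_one, decide_eq_true hz]
    have h6 : bz (Nat.testBit (bif (h % 2 == 1) then 0 else up k) z) =
        (1 + bz (h % 2 == 1)) * bz (decide (2 ^ k ≤ z)) := by
      cases hb : (h % 2 == 1) with
      | false =>
        rw [cond_false, up_bit, decide_eq_true hz, Bool.and_true]
        simp [bz]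
      | true =>
        rw [cond_true, Nat.zero_testBit]
        have : (1 : ZMod 2) + bz true = 0 := by decide
        rw [this, zero_mul]
        rfl
    rw [h5, h6, Nat.cast_add, he]
    push_cast
    ring

lemma run_bit {d : ℕ} (w : ℕ → Bool) : ∀ (sh : List ℕ) (S m : ℕ),
    (∀ x, (∀ l < m, w (x + l * d) = true) → Nat.testBit S x = true) →
    ∀ x, (∀ l < m + sh.sum, w (x + l * d) = true) → Nat.testBit (run d sh S) x = true
  | [], S, m, hS, x, hx => by
    rw [run]
    exact hS x (fun l hl => hx l (by simpa using hl))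
  | s :: t, S, m, hS, x, hx => by
    rw [run]
    refine run_bit w t (S &&& (S >>> (s * d))) (m + s) ?_ x ?_
    · intro y hy
      rw [Nat.testBit_and, Nat.testBit_shiftRight, hS y (fun l hl => hy l (by omega)),
        Bool.true_and, add_comm (s * d)]
      apply hS
      intro l hl
      have := hy (s + l) (by omega)
      rw [show y + s * d + l * d = y + (s + l) * d by ring]
      exact this
    · intro l hl
      exact hx l (by rw [List.sum_cons]; omega)

lemma okd_sound {k d : ℕ} {sh : List ℕ} (h : okd k sh d = true)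
    (hk : sh.sum * d < 2 ^ (k + 1)) (n : ℕ) : ¬ Mono n d (1 + sh.sum) := by
  rintro ⟨c, hm⟩
  obtain ⟨q, hq⟩ : ∃ q, q = n / 2 ^ (k + 1) := ⟨_, rfl⟩
  obtain ⟨x, hx⟩ : ∃ x, x = n % 2 ^ (k + 1) := ⟨_, rfl⟩
  have hxlt : x < 2 ^ (k + 1) := by rw [hx]; exact Nat.mod_lt _ (by positivity)
  have hn : n = 2 ^ (k + 1) * q + x := by rw [hq, hx]; exact (Nat.div_add_mod _ _).symm
  have hp : 2 ^ (k + 2) = 2 * 2 ^ (k + 1) := by ring
  have hlt : ∀ l < 1 + sh.sum, x + l * d < 2 ^ (k + 2) := by
    intro l hl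
    have : l * d ≤ sh.sum * d := Nat.mul_le_mul_right _ (by omega)
    omega
  have hbit : ∀ l < 1 + sh.sum,
      bz (Nat.testBit (Wt k (q % 2 == 1) (rb q ^^ rb (q + 1))) (x + l * d)) = r q + c := by
    intro l hl
    rw [Wt_bit q (hlt l hl), ← hm l hl, hn]
    rw [add_assoc]
  unfold okd at h
  rw [List.all_eq_true] at h
  have h1 := h (q % 2 == 1) (by cases (q % 2 == 1) <;> simp)
  rw [List.all_eq_true] at h1
  have h2 := h1 (rb q ^^ rb (q + 1)) (by cases (rb q ^^ rb (q + 1)) <;> simp)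
  rw [Bool.and_eq_true] at h2
  obtain ⟨h3, h4⟩ := h2
  have h3' := Nat.eq_of_beq_eq_true h3
  have h4' := Nat.eq_of_beq_eq_true h4
  have nz : ∀ S, Nat.testBit S x = true → S % 2 ^ 2 ^ (k + 1) ≠ 0 := by
    intro S hS h0
    have : Nat.testBit (S % 2 ^ 2 ^ (k + 1)) x = true := by
      rw [Nat.testBit_mod_two_pow, hS, decide_eq_true hxlt]
      rfl
    rw [h0, Nat.zero_testBit] at this
    exact absurd this (by decide)
  rcases zc (r q + c) with h0 | h0
  · apply nz _ _ h4'
    refine run_bit (fun y => Nat.testBit ((2 ^ 2 ^ (k + 2) - 1) ^^^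
      Wt k (q % 2 == 1) (rb q ^^ rb (q + 1))) y) sh _ 1 ?_ x ?_
    · intro y hy
      have := hy 0 (by norm_num)
      simpa using this
    · intro l hl
      have := hbit l hl
      rw [h0] at this
      have h5 : Nat.testBit (Wt k (q % 2 == 1) (rb q ^^ rb (q + 1))) (x + l * d) = false :=
        bz_inj (by rw [this]; rfl)
      rw [Nat.testBit_xor, h5, Nat.testBit_two_pow_sub_one, decide_eq_true (hlt l hl)]
      rfl
  · apply nz _ _ h3'
    refine run_bit (fun y => Nat.testBit (Wt k (q % 2 == 1) (rb q ^^ rb (q + 1))) y) sh _ 1 ?_ x ?_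
    · intro y hy
      have := hy 0 (by norm_num)
      simpa using this
    · intro l hl
      have := hbit l hl
      rw [h0] at this
      exact bz_inj (by rw [this]; rfl)

lemma okr_sound {k lo m : ℕ} {sh ex : List ℕ} (h : okr k sh lo m ex = true) {d : ℕ}
    (hd : d % 2 = lo % 2) (hlo : lo ≤ d) (hhi : d < lo + 2 * m) (hex : d ∉ ex)
    (hk : sh.sum * d < 2 ^ (k + 1)) (n : ℕ) : ¬ Mono n d (1 + sh.sum) := by
  unfold okr at h
  rw [List.all_eq_true] at h
  have h1 := h ((d - lo) / 2) (List.mem_range.2 (by omega))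
  rw [show lo + 2 * ((d - lo) / 2) = d by omega, Bool.or_eq_true, List.contains_iff_mem] at h1
  rcases h1 with h1 | h1
  · exact absurd h1 hex
  · exact okd_sound h1 hk n

end Pool.Agent.V11172.Rs
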