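import Mathlib
import Pool.Agent.V11172.RsDir

/-!
# Monochromatic progressions in the Rudin–Shapiro word: `d = 2 ^ k - 1` and `d = 2 ^ k + 1`
-/

namespace Pool.Agent.V11172.Rs

lemma one_ne : (1 : ZMod 2) ≠ 0 := by decide

/-- `r (g - x) + r x` is not constant for long -/
lemma low {g a : ℕ} {γ : ZMod 2} (hx : ∀ x, a ≤ x → x < a + 18 → x ≤ g ∧ r (g - x) + r x = γ) :
    False := by
  have hga := (hx (a + 17) (by omega) (by omega)).1
  rcases Nat.even_or_odd' g with ⟨y, hy | hy⟩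
  · -- even
    obtain ⟨m, hm1, hm2, hm3⟩ : ∃ m, a ≤ 2 * m ∧ 2 * m ≤ a + 3 ∧ (y - m) % 2 = 1 := by
      by_cases h : (y - (a + 1) / 2) % 2 = 1
      · exact ⟨(a + 1) / 2, by omega, by omega, h⟩
      · exact ⟨(a + 1) / 2 + 1, by omega, by omega, by omega⟩
    obtain ⟨c, hc⟩ : ∃ c, y = m + 2 * c + 3 := ⟨(y - m - 3) / 2, by omega⟩
    have h0 := (hx (2 * m) (by omega) (by omega)).2
    have h1 := (hx (2 * m + 1) (by omega) (by omega)).2
    have h2 := (hx (2 * (m + 2)) (by omega) (by omega)).2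
    have h3 := (hx (2 * (m + 2) + 1) (by omega) (by omega)).2
    rw [show g - 2 * m = 2 * (2 * (c + 1) + 1) by omega, r_even, r_odd, r_even] at h0
    rw [show g - (2 * m + 1) = 2 * (2 * (c + 1)) + 1 by omega, r_odd, r_even, r_odd, nn] at h1
    rw [show g - 2 * (m + 2) = 2 * (2 * c + 1) by omega, r_even, r_odd, r_even] at h2
    rw [show g - (2 * (m + 2) + 1) = 2 * (2 * c) + 1 by omega, r_odd, r_even, r_odd, nn] at h3
    push_cast at h0 h1 h2 h3
    apply one_ne
    have e2 : (2 : ZMod 2) = 0 := by decide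
    linear_combination h0 - h1 - h2 + h3 - e2
  · -- odd
    obtain ⟨z, hz1, hz2⟩ : ∃ z, a ≤ 8 * z + 2 ∧ 8 * z + 2 ≤ a + 7 := ⟨(a + 5) / 8, by omega, by omega⟩
    have h0 := (hx (2 * (4 * z + 1)) (by omega) (by omega)).2
    have h1 := (hx (2 * (4 * z + 1) + 1) (by omega) (by omega)).2
    have e2 : (2 : ZMod 2) = 0 := by decide
    obtain ⟨w, hw⟩ : ∃ w, y = 4 * z + w + 6 := ⟨y - 4 * z - 6, by omega⟩
    rw [show g - 2 * (4 * z + 1) = 2 * (w + 5) + 1 by omega, r_odd, r_even] at h0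
    rw [show g - (2 * (4 * z + 1) + 1) = 2 * (w + 5) by omega, r_even, r_odd] at h1
    have hw2 : (w : ZMod 2) = 0 := by
      push_cast at h0 h1
      linear_combination h0 - h1 + (2 * z - 2 : ZMod 2) * e2
    have hw3 : w % 2 = 0 := by
      have : ((w : ℕ) : ZMod 2) = ((0 : ℕ) : ZMod 2) := by rw [hw2]; simp
      rw [ZMod.natCast_eq_natCast_iff'] at this
      simpa using this
    obtain ⟨v, hv⟩ : ∃ v, w = 2 * v := ⟨w / 2, by omega⟩
    have h3 := (hx (2 * (2 * (2 * z) + 1) + 1) (by omega) (by omega)).2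
    have h4 := (hx (2 * (2 * (2 * z + 1))) (by omega) (by omega)).2
    have h5 := (hx (2 * (2 * (2 * (z + 1)) + 1) + 1) (by omega) (by omega)).2
    have h6 := (hx (2 * (2 * (2 * (z + 1) + 1))) (by omega) (by omega)).2
    rw [show g - (2 * (2 * (2 * z) + 1) + 1) = 2 * (2 * (v + 2) + 1) by omega, r_even, r_odd,
      r_odd, r_odd, r_even] at h3
    rw [show g - 2 * (2 * (2 * z + 1)) = 2 * (2 * (v + 2)) + 1 by omega, r_odd, r_even,
      r_even, r_even, r_odd] at h4
    rw [show g - (2 * (2 * (2 * (z + 1)) + 1) + 1) = 2 * (2 * v + 1) by omega, r_even, r_odd,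
      r_odd, r_odd, r_even] at h5
    rw [show g - 2 * (2 * (2 * (z + 1) + 1)) = 2 * (2 * v) + 1 by omega, r_odd, r_even,
      r_even, r_even, r_odd] at h6
    push_cast at h3 h4 h5 h6
    apply one_ne
    linear_combination h3 - h4 - h5 + h6 + 4 * e2

/-- `r (g + x) + r x + x` is not constant for long -/
lemma low2 {g a : ℕ} {γ : ZMod 2} (hx : ∀ x, a ≤ x → x < a + 18 → r (g + x) + r x + x = γ) :
    False := by
  have e2 : (2 : ZMod 2) = 0 := by decide
  rcases Nat.even_or_odd' g with ⟨y, hy | hy⟩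
  · obtain ⟨z, hz1, hz2⟩ : ∃ z, a ≤ 8 * z + 2 ∧ 8 * z + 2 ≤ a + 7 := ⟨(a + 5) / 8, by omega, by omega⟩
    have h0 := hx (2 * (4 * z + 1)) (by omega) (by omega)
    have h1 := hx (2 * (4 * z + 1) + 1) (by omega) (by omega)
    rw [show g + 2 * (4 * z + 1) = 2 * (y + 4 * z + 1) by omega, r_even, r_even] at h0
    rw [show g + (2 * (4 * z + 1) + 1) = 2 * (y + 4 * z + 1) + 1 by omega, r_odd, r_odd] at h1
    have hw2 : (y : ZMod 2) = 1 := by
      push_cast at h0 h1
      linear_combination h1 - h0 - (4 * z + 1 + (y : ZMod 2) + 4 * z + 1 + 1) * e2 +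
        (y + 4 * z + 1 : ZMod 2) * e2
    have hw3 : y % 2 = 1 := by
      have : ((y : ℕ) : ZMod 2) = ((1 : ℕ) : ZMod 2) := by rw [hw2]; simp
      rw [ZMod.natCast_eq_natCast_iff'] at this
      simpa using this
    obtain ⟨v, hv⟩ : ∃ v, y = 2 * v + 1 := ⟨y / 2, by omega⟩
    have h3 := hx (2 * (2 * (2 * z) + 1) + 1) (by omega) (by omega)
    have h4 := hx (2 * (2 * (2 * z + 1))) (by omega) (by omega)
    have h5 := hx (2 * (2 * (2 * (z + 1)) + 1) + 1) (by omega) (by omega)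
    have h6 := hx (2 * (2 * (2 * (z + 1) + 1))) (by omega) (by omega)
    rw [show g + (2 * (2 * (2 * z) + 1) + 1) = 2 * (2 * (v + 2 * z + 1)) + 1 by omega, r_odd,
      r_even, r_odd, r_odd, r_even] at h3
    rw [show g + 2 * (2 * (2 * z + 1)) = 2 * (2 * (v + 2 * z + 1) + 1) by omega, r_even, r_odd,
      r_even, r_even, r_odd] at h4
    rw [show g + (2 * (2 * (2 * (z + 1)) + 1) + 1) = 2 * (2 * (v + 2 * z + 3)) + 1 by omega, r_odd,
      r_even, r_odd, r_odd, r_even] at h5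
    rw [show g + 2 * (2 * (2 * (z + 1) + 1)) = 2 * (2 * (v + 2 * z + 3) + 1) by omega, r_even,
      r_odd, r_even, r_even, r_odd] at h6
    push_cast at h3 h4 h5 h6
    apply one_ne
    linear_combination h3 - h4 - h5 + h6 + 4 * e2
  · obtain ⟨m, hm1, hm2, hm3⟩ : ∃ m, a ≤ 2 * m ∧ 2 * m ≤ a + 3 ∧ (y + m) % 2 = 0 := by
      by_cases h : (y + (a + 1) / 2) % 2 = 0
      · exact ⟨(a + 1) / 2, by omega, by omega, h⟩
      · exact ⟨(a + 1) / 2 + 1, by omega, by omega, by omega⟩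
    obtain ⟨c, hc⟩ : ∃ c, y + m = 2 * c := ⟨(y + m) / 2, by omega⟩
    have h0 := hx (2 * m) (by omega) (by omega)
    have h1 := hx (2 * m + 1) (by omega) (by omega)
    have h2 := hx (2 * (m + 2)) (by omega) (by omega)
    have h3 := hx (2 * (m + 2) + 1) (by omega) (by omega)
    rw [show g + 2 * m = 2 * (2 * c) + 1 by omega, r_odd, r_even, r_even] at h0
    rw [show g + (2 * m + 1) = 2 * (2 * c + 1) by omega, r_even, r_odd, r_odd] at h1
    rw [show g + 2 * (m + 2) = 2 * (2 * (c + 1)) + 1 by omega, r_odd, r_even, r_even] at h2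
    rw [show g + (2 * (m + 2) + 1) = 2 * (2 * (c + 1) + 1) by omega, r_even, r_odd, r_odd] at h3
    push_cast at h0 h1 h2 h3
    apply one_ne
    linear_combination h0 - h1 - h2 + h3

lemma up_odd {g : ℕ} {γ : ZMod 2} (hg : g % 2 = 1)
    (hx : ∀ x, 16 ≤ x → x < 24 → r (g + x) + r x = γ) : False := by
  obtain ⟨y, hy⟩ : ∃ y, g = 2 * y + 1 := ⟨g / 2, by omega⟩
  have e2 : (2 : ZMod 2) = 0 := by decide
  obtain ⟨m, hm1, hm2, hm3⟩ : ∃ m, 8 ≤ m ∧ m ≤ 9 ∧ (y + m) % 2 = 0 := by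
    by_cases h : (y + 8) % 2 = 0
    · exact ⟨8, by omega, by omega, h⟩
    · exact ⟨9, by omega, by omega, by omega⟩
  obtain ⟨c, hc⟩ : ∃ c, y + m = 2 * c := ⟨(y + m) / 2, by omega⟩
  have h0 := hx (2 * m) (by omega) (by omega)
  have h1 := hx (2 * m + 1) (by omega) (by omega)
  have h2 := hx (2 * (m + 2)) (by omega) (by omega)
  have h3 := hx (2 * (m + 2) + 1) (by omega) (by omega)
  rw [show g + 2 * m = 2 * (2 * c) + 1 by omega, r_odd, r_even, r_even] at h0
  rw [show g + (2 * m + 1) = 2 * (2 * c + 1) by omega, r_even, r_odd, r_odd] at h1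
  rw [show g + 2 * (m + 2) = 2 * (2 * (c + 1)) + 1 by omega, r_odd, r_even, r_even] at h2
  rw [show g + (2 * (m + 2) + 1) = 2 * (2 * (c + 1) + 1) by omega, r_even, r_odd, r_odd] at h3
  push_cast at h0 h1 h2 h3
  apply one_ne
  linear_combination h0 - h1 - h2 + h3

lemma up_step {o y a : ℕ} {γ : ZMod 2} (ho : o % 2 = 1)
    (h1 : r (2 ^ (a + 1) * o + (2 ^ (a + 1) * y + 2 ^ a)) + r (2 ^ (a + 1) * y + 2 ^ a) = γ)
    (h2 : r (2 ^ (a + 1) * o + (2 ^ (a + 1) * y + (2 ^ a - 1))) +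
      r (2 ^ (a + 1) * y + (2 ^ a - 1)) = γ) : False := by
  have hp : 2 ^ (a + 1) = 2 * 2 ^ a := by ring
  have hpos : 0 < 2 ^ a := by positivity
  have d1 : 2 ^ a / 2 ^ a = 1 := Nat.div_self hpos
  have d2 : (2 ^ a - 1) / 2 ^ a = 0 := Nat.div_eq_of_lt (by omega)
  rw [← add_assoc, ← Nat.mul_add, r_block a (o + y) (2 ^ a) (by omega),
    r_block a y (2 ^ a) (by omega), d1] at h1
  rw [← add_assoc, ← Nat.mul_add, r_block a (o + y) (2 ^ a - 1) (by omega),
    r_block a y (2 ^ a - 1) (by omega), d2] at h2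
  obtain ⟨q, hq⟩ : ∃ q, o = 2 * q + 1 := ⟨o / 2, by omega⟩
  have e2 : (2 : ZMod 2) = 0 := by decide
  rw [hq] at h1 h2
  push_cast at h1 h2
  apply one_ne
  linear_combination h1 - h2 - aa (r (2 ^ a)) + aa (r (2 ^ a - 1)) - (q + y : ZMod 2) * e2

/-- a long run in the good half forces divisibility -/
lemma upper {g K : ℕ} {γ : ZMod 2} (hK : 7 ≤ K)
    (hx : ∀ x, 16 ≤ x → x < 2 ^ K - 16 → r (g + x) + r x = γ) : 2 ^ (K + 1) ∣ g := by
  have hK7 : 128 ≤ 2 ^ K := by
    calc 128 = 2 ^ 7 := by norm_num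
      _ ≤ 2 ^ K := Nat.pow_le_pow_right (by norm_num) hK
  have key : ∀ a, a ≤ K + 1 → 2 ^ a ∣ g := by
    intro a
    induction a with
    | zero => intro _; exact one_dvd _
    | succ a ih =>
      intro ha
      obtain ⟨o, ho⟩ := ih (by omega)
      rcases Nat.mod_two_eq_zero_or_one o with h | h
      · refine ⟨o / 2, ?_⟩
        rw [ho, pow_succ, mul_assoc]
        congr 1
        omega
      · exfalso
        rcases Nat.eq_zero_or_pos a with h0 | h0
        · subst h0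
          exact up_odd (g := g) (by rw [ho]; simpa using h)
            (fun x h1 h2 => hx x h1 (by omega))
        · obtain ⟨b, rfl⟩ : ∃ b, a = b + 1 := ⟨a - 1, by omega⟩
          -- the place of the change
          have hb : b + 1 ≤ K := by omega
          rcases Nat.eq_or_lt_of_le hb with hbK | hbK
          · -- `a = K`
            have e1 : 2 ^ K = 2 * 2 ^ b := by rw [← hbK]; ring
            have h1 := hx (2 ^ b) (by omega) (by omega)
            have h2 := hx (2 ^ b - 1) (by omega) (by omega)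
            apply up_step (o := o) (y := 0) (a := b) (γ := γ) h
            · rw [mul_zero, zero_add, ← ho]; exact h1
            · rw [mul_zero, zero_add, ← ho]; exact h2
          · obtain ⟨s, hs⟩ : ∃ s, K = b + 2 + s := ⟨K - b - 2, by omega⟩
            have e1 : 2 ^ K = 2 * (2 ^ (b + 1) * 2 ^ s) := by rw [hs]; ring
            have e3 : 2 * (2 ^ b * 2 ^ s) = 2 ^ (b + 1) * 2 ^ s := by ring
            have e4 : 2 ^ b ≤ 2 ^ b * 2 ^ s := Nat.le_mul_of_pos_right _ (by positivity)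
            have e5 : 0 < 2 ^ b := by positivity
            have h1 := hx (2 ^ (b + 1) * 2 ^ s + 2 ^ b) (by omega) (by omega)
            have h2 := hx (2 ^ (b + 1) * 2 ^ s + (2 ^ b - 1)) (by omega) (by omega)
            apply up_step (o := o) (y := 2 ^ s) (a := b) (γ := γ) h
            · rw [← ho]; exact h1
            · rw [← ho]; exact h2
  exact key (K + 1) le_rfl

end Pool.Agent.V11172.Rs
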