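import Mathlib
import Pool.Agent.V11172.RsSpecial

/-!
# Monochromatic progressions in the Rudin–Shapiro word: `d = 2 ^ k - 1` and `d = 2 ^ k + 1`, II
-/

namespace Pool.Agent.V11172.Rs

lemma even_cast {a : ℕ} (h : a % 2 = 0) : (a : ZMod 2) = 0 := by
  obtain ⟨b, rfl⟩ : ∃ b, a = 2 * b := ⟨a / 2, by omega⟩
  exact nn b

lemma odd_cast {a : ℕ} (h : a % 2 = 1) : (a : ZMod 2) = 1 := by
  obtain ⟨b, rfl⟩ : ∃ b, a = 2 * b + 1 := ⟨a / 2, by omega⟩
  rw [Nat.cast_add, nn]; simp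

lemma rtop {s : ℕ} (h4 : s % 4 = 0) (hs : 0 < s) : r (s - 1) + r (s - 2) = 1 := by
  obtain ⟨p, rfl⟩ : ∃ p, s = 4 * (p + 1) := ⟨s / 4 - 1, by omega⟩
  rw [show 4 * (p + 1) - 1 = 2 * (2 * p + 1) + 1 by omega, r_odd,
    show 4 * (p + 1) - 2 = 2 * (2 * p + 1) by omega, r_even, odd_cast (by omega)]
  linear_combination aa (r (2 * p + 1))

lemma rbot {s : ℕ} (h4 : s % 4 = 0) : r (s + 1) = r s := by
  obtain ⟨p, rfl⟩ : ∃ p, s = 2 * (2 * p) := ⟨s / 4, by omega⟩
  rw [r_odd, r_even (2 * p), even_cast (by omega), add_zero]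

lemma r_two : r 2 = 0 := by
  have := r_even 1
  rw [show 2 * 1 = 2 by norm_num] at this
  rw [this, r_one]

lemma mup {K g j : ℕ} (hj : j < 2 ^ K) :
    r (2 ^ (K + 1) * (g + j) + (2 ^ (K + 1) - 1 - j)) = r (g + j) + r j + K + g := by
  have hp : 2 ^ (K + 1) = 2 * 2 ^ K := by ring
  have h1 : (2 ^ (K + 1) - 1 - j) / 2 ^ K = 1 := by
    rw [Nat.div_eq_iff (by positivity)]
    omega
  rw [r_block K _ _ (by omega), r_compl K j hj, h1]
  push_cast
  linear_combination aa (j : ZMod 2)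

lemma mlow {K g x : ℕ} (hx : x < 2 ^ K) : r (2 ^ (K + 1) * g + x) = r g + r x := by
  have hp : 2 ^ (K + 1) = 2 * 2 ^ K := by ring
  rw [r_block K _ _ (by omega), Nat.div_eq_of_lt hx]
  simp

lemma mhead {K g : ℕ} (hK : 2 ≤ K) (hg : g % 4 = 0)
    (h : r (g + 2 ^ K) + r (2 ^ K - 1) = r (g + (2 ^ K + 1)) + r (2 ^ K - 2)) : False := by
  have h4 : 2 ^ K % 4 = 0 := by
    rw [show K = 2 + (K - 2) by omega, pow_add]
    omega
  have h1 := rtop h4 (by positivity)
  have h2 := rbot (s := g + 2 ^ K) (by omega)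
  rw [← add_assoc, h2] at h
  apply one_ne
  linear_combination h - h1 + aa (r (2 ^ K - 2))

theorem minus_bound {K n L : ℕ} (hK : 7 ≤ K)
    (hL : (K % 2 = 0 ∧ L = 2 ^ K + 4) ∨ (K % 2 = 1 ∧ L = 2 ^ K + 2)) :
    ¬ Mono n (2 ^ (K + 1) - 1) L := by
  intro hm0
  obtain ⟨P, hP⟩ : ∃ P, P = 2 ^ K := ⟨_, rfl⟩
  have hp : 2 ^ (K + 1) = 2 * P := by rw [hP]; ring
  have hP128 : 128 ≤ P := by
    rw [hP]
    calc 128 = 2 ^ 7 := by norm_num
      _ ≤ 2 ^ K := Nat.pow_le_pow_right (by norm_num) hK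
  have hP4 : P % 4 = 0 := by
    rw [hP, show K = 2 + (K - 2) by omega, pow_add]
    omega
  obtain ⟨m, hmB, hm⟩ := hm0.far (2 ^ (K + 1) * (2 * 2 ^ (K + 1)))
  clear hm0 n
  obtain ⟨c, hc⟩ := hm
  obtain ⟨h, hh⟩ : ∃ h, h = m / 2 ^ (K + 1) := ⟨_, rfl⟩
  obtain ⟨ρ, hρ⟩ : ∃ ρ, ρ = m % 2 ^ (K + 1) := ⟨_, rfl⟩
  have hρlt : ρ < 2 ^ (K + 1) := by rw [hρ]; exact Nat.mod_lt _ (by positivity)
  have hmn : m = 2 ^ (K + 1) * h + ρ := by rw [hh, hρ]; exact (Nat.div_add_mod _ _).symm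
  have hbig : 2 * 2 ^ (K + 1) ≤ h := by
    rw [hh, Nat.le_div_iff_mul_le (by positivity), mul_comm]
    exact hmB
  -- the basic identity
  have base : ∀ a l b, l ≤ ρ → a = h + l → b = ρ - l →
      m + l * (2 ^ (K + 1) - 1) = 2 ^ (K + 1) * a + b := by
    intro a l b hl ha hb
    rw [ha, hb, hmn, Nat.mul_sub, mul_one, Nat.mul_add, mul_comm l]
    have : l ≤ 2 ^ (K + 1) * l := Nat.le_mul_of_pos_left _ (by positivity)
    omega
  have headc : ∀ g, g % 4 = 0 → r (2 ^ (K + 1) * (g + P) + (P - 1)) = c →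
      r (2 ^ (K + 1) * (g + (P + 1)) + (P - 2)) = c → False := by
    intro g hg h1 h2
    rw [mlow (by rw [← hP]; omega)] at h1 h2
    rw [hP] at h1 h2
    exact mhead (by omega) hg (h1.trans h2.symm)
  have hLge : P + 2 ≤ L := by omega
  rcases Nat.lt_or_ge ρ P with hρP | hρP
  · -- start in the lower half
    obtain ⟨g, hg⟩ : ∃ g, g = h + ρ := ⟨_, rfl⟩
    have T1 : ∀ x ≤ ρ, r (g - x) + r x = c := by
      intro x hx
      have h1 := hc (ρ - x) (by omega)
      rw [base (g - x) (ρ - x) x (by omega) (by omega) (by omega),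
        mlow (by rw [← hP]; omega)] at h1
      exact h1
    have T2 : ∀ j < 2 ^ (K + 1), ρ + 1 + j < L →
        r (2 ^ (K + 1) * (g + j) + (2 ^ (K + 1) - 1 - j)) = c := by
      intro j hj hjL
      have h1 := hc (ρ + 1 + j) hjL
      have h2 : m + (ρ + 1 + j) * (2 ^ (K + 1) - 1) =
          2 ^ (K + 1) * (g + j) + (2 ^ (K + 1) - 1 - j) := by
        obtain ⟨x, hx⟩ : ∃ x, 2 ^ (K + 1) = x + 1 + j := ⟨2 ^ (K + 1) - 1 - j, by omega⟩
        rw [hmn, hg, hx, show x + 1 + j - 1 = x + j by omega, show x + j - j = x by omega]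
        ring
      rw [h2] at h1
      exact h1
    have hρ16 : ρ ≤ 16 := by
      by_contra hlt
      exact low (g := g) (a := 0) (γ := c) (fun x _ hx => ⟨by omega, T1 x (by omega)⟩)
    have hdvd : 2 ^ (K + 1) ∣ g := by
      apply upper (γ := c + K + g) hK
      intro x h1 h2
      rw [← hP] at h2
      have h3 := T2 x (by omega) (by omega)
      rw [mup (by rw [← hP]; omega)] at h3
      rw [← h3]
      linear_combination -aa (K : ZMod 2) - aa (g : ZMod 2)
    have hg4 : g % 4 = 0 := by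
      obtain ⟨q, hq⟩ := hdvd
      rw [hq, hp]
      obtain ⟨w, hw⟩ : ∃ w, P = 4 * w := ⟨P / 4, by omega⟩
      rw [hw, show 2 * (4 * w) * q = 4 * (2 * w * q) by ring]
      exact Nat.mul_mod_right _ _
    rcases hL with ⟨hKe, hLe⟩ | ⟨hKo, hLo⟩
    · have hρ1 : ρ ≤ 1 := by
        by_contra hlt
        have h1 := T1 1 (by omega)
        have h2 := T1 2 (by omega)
        have h3 := rtop hg4 (by omega)
        rw [r_one] at h1
        rw [r_two] at h2
        apply one_ne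
        linear_combination h1 - h2 - h3 + aa (r (g - 2))
      have h1 := T2 P (by omega) (by omega)
      have h2 := T2 (P + 1) (by omega) (by omega)
      rw [show 2 ^ (K + 1) - 1 - P = P - 1 by omega] at h1
      rw [show 2 ^ (K + 1) - 1 - (P + 1) = P - 2 by omega] at h2
      exact headc g hg4 h1 h2
    · have h1 := T1 0 (by omega)
      have h2 := T2 0 (by omega) (by omega)
      rw [mup (by positivity), odd_cast hKo, even_cast (a := g) (by omega)] at h2
      rw [Nat.sub_zero] at h1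
      rw [add_zero] at h2
      apply one_ne
      linear_combination h2 - h1
  · -- start in the upper half
    obtain ⟨j0, hj0⟩ : ∃ j0, j0 = 2 ^ (K + 1) - 1 - ρ := ⟨_, rfl⟩
    obtain ⟨g, hg⟩ : ∃ g, g = h - j0 := ⟨_, rfl⟩
    have T3 : ∀ j, j0 ≤ j → j < 2 ^ (K + 1) → j - j0 < L →
        r (2 ^ (K + 1) * (g + j) + (2 ^ (K + 1) - 1 - j)) = c := by
      intro j hj hj2 hjL
      have h1 := hc (j - j0) hjL
      rw [base (g + j) (j - j0) (2 ^ (K + 1) - 1 - j) (by omega) (by omega) (by omega)] at h1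
      exact h1
    have hj15 : j0 ≤ 15 := by
      by_contra hlt
      apply low (g := g + 2 ^ (K + 1) - 1) (a := P - 18) (γ := c)
      intro x hx1 hx2
      refine ⟨by omega, ?_⟩
      have h1 := T3 (2 ^ (K + 1) - 1 - x) (by omega) (by omega) (by omega)
      rw [show 2 ^ (K + 1) - 1 - (2 ^ (K + 1) - 1 - x) = x by omega,
        mlow (by rw [← hP]; omega)] at h1
      rw [show g + 2 ^ (K + 1) - 1 - x = g + (2 ^ (K + 1) - 1 - x) by omega]
      exact h1
    have hdvd : 2 ^ (K + 1) ∣ g := by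
      apply upper (γ := c + K + g) hK
      intro x h1 h2
      rw [← hP] at h2
      have h3 := T3 x (by omega) (by omega) (by omega)
      rw [mup (by rw [← hP]; omega)] at h3
      rw [← h3]
      linear_combination -aa (K : ZMod 2) - aa (g : ZMod 2)
    have hg4 : g % 4 = 0 := by
      obtain ⟨q, hq⟩ := hdvd
      rw [hq, hp]
      obtain ⟨w, hw⟩ : ∃ w, P = 4 * w := ⟨P / 4, by omega⟩
      rw [hw, show 2 * (4 * w) * q = 4 * (2 * w * q) by ring]
      exact Nat.mul_mod_right _ _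
    have h1 := T3 P (by omega) (by omega) (by omega)
    have h2 := T3 (P + 1) (by omega) (by omega) (by omega)
    rw [show 2 ^ (K + 1) - 1 - P = P - 1 by omega] at h1
    rw [show 2 ^ (K + 1) - 1 - (P + 1) = P - 2 by omega] at h2
    exact headc g hg4 h1 h2

theorem plus_bound {K n : ℕ} (hK : 7 ≤ K) : ¬ Mono n (2 ^ (K + 1) + 1) (2 ^ K + 4) := by
  intro hm0
  obtain ⟨P, hP⟩ : ∃ P, P = 2 ^ K := ⟨_, rfl⟩
  have hp : 2 ^ (K + 1) = 2 * P := by rw [hP]; ring
  have hP128 : 128 ≤ P := by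
    rw [hP]
    calc 128 = 2 ^ 7 := by norm_num
      _ ≤ 2 ^ K := Nat.pow_le_pow_right (by norm_num) hK
  have hP4 : P % 4 = 0 := by
    rw [hP, show K = 2 + (K - 2) by omega, pow_add]
    omega
  obtain ⟨m, hmB, hm⟩ := hm0.far (2 ^ (K + 1) * (2 * 2 ^ (K + 1)))
  clear hm0 n
  obtain ⟨c, hc⟩ := hm
  rw [← hP] at hc
  obtain ⟨h, hh⟩ : ∃ h, h = m / 2 ^ (K + 1) := ⟨_, rfl⟩
  obtain ⟨ρ, hρ⟩ : ∃ ρ, ρ = m % 2 ^ (K + 1) := ⟨_, rfl⟩
  have hρlt : ρ < 2 ^ (K + 1) := by rw [hρ]; exact Nat.mod_lt _ (by positivity)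
  have hmn : m = 2 ^ (K + 1) * h + ρ := by rw [hh, hρ]; exact (Nat.div_add_mod _ _).symm
  have hbig : 2 * 2 ^ (K + 1) ≤ h := by
    rw [hh, Nat.le_div_iff_mul_le (by positivity), mul_comm]
    exact hmB
  have base : ∀ a l b, a = h + l → b = ρ + l →
      m + l * (2 ^ (K + 1) + 1) = 2 ^ (K + 1) * a + b := by
    intro a l b ha hb
    rw [ha, hb, hmn]
    ring
  have half1 : ∀ x, P ≤ x → x < 2 * P → x / 2 ^ K = 1 := by
    intro x h1 h2
    rw [← hP, Nat.div_eq_iff (by omega)]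
    omega
  have headc : ∀ g, g % 4 = 0 → r (2 ^ (K + 1) * (g + P) + P) = c →
      r (2 ^ (K + 1) * (g + (P + 1)) + (P + 1)) = c → False := by
    intro g hg h1 h2
    rw [r_block K _ _ (by omega), half1 _ (by omega) (by omega)] at h1 h2
    rw [← add_assoc, rbot (s := g + P) (by omega), rbot hP4,
      odd_cast (a := g + P + 1) (by omega)] at h2
    rw [even_cast (a := g + P) (by omega)] at h1
    apply one_ne
    push_cast at h1 h2
    linear_combination h2 - h1
  rcases Nat.lt_or_ge ρ P with hρP | hρP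
  · obtain ⟨g, hg⟩ : ∃ g, g = h - ρ := ⟨_, rfl⟩
    have T : ∀ x, ρ ≤ x → x < 2 ^ (K + 1) → x - ρ < P + 4 →
        r (2 ^ (K + 1) * (g + x) + x) = c := by
      intro x h1 h2 h3
      have h4 := hc (x - ρ) h3
      rw [base (g + x) (x - ρ) x (by omega) (by omega)] at h4
      exact h4
    have hρ13 : ρ ≤ 13 := by
      by_contra hlt
      apply low2 (g := g) (a := P) (γ := c + g)
      intro x h1 h2
      have h3 := T x (by omega) (by omega) (by omega)
      rw [r_block K _ _ (by omega), half1 _ h1 (by omega)] at h3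
      push_cast at h3
      linear_combination h3 - aa (g : ZMod 2)
    have hdvd : 2 ^ (K + 1) ∣ g := by
      apply upper (γ := c) hK
      intro x h1 h2
      rw [← hP] at h2
      have h3 := T x (by omega) (by omega) (by omega)
      rw [mlow (by rw [← hP]; omega)] at h3
      exact h3
    have hg4 : g % 4 = 0 := by
      obtain ⟨q, hq⟩ := hdvd
      rw [hq, hp]
      obtain ⟨w, hw⟩ : ∃ w, P = 4 * w := ⟨P / 4, by omega⟩
      rw [hw, show 2 * (4 * w) * q = 4 * (2 * w * q) by ring]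
      exact Nat.mul_mod_right _ _
    exact headc g hg4 (T P (by omega) (by omega) (by omega))
      (T (P + 1) (by omega) (by omega) (by omega))
  · obtain ⟨S, hS⟩ : ∃ S, S = 2 ^ (K + 1) - ρ := ⟨_, rfl⟩
    have hS17 : S ≤ 17 := by
      by_contra hlt
      apply low2 (g := h - ρ) (a := ρ) (γ := c + (h - ρ : ℕ))
      intro x h1 h2
      have h3 := hc (x - ρ) (by omega)
      rw [base (h - ρ + x) (x - ρ) x (by omega) (by omega), r_block K _ _ (by omega),
        half1 _ (by omega) (by omega)] at h3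
      push_cast at h3 ⊢
      linear_combination h3 - aa ((h - ρ : ℕ) : ZMod 2)
    obtain ⟨g, hg⟩ : ∃ g, g = h + S + 1 := ⟨_, rfl⟩
    have T : ∀ z, z + S < P + 4 → r (2 ^ (K + 1) * (g + z) + z) = c := by
      intro z hz
      have h4 := hc (S + z) (by omega)
      have e : m + (S + z) * (2 ^ (K + 1) + 1) = 2 ^ (K + 1) * (g + z) + z := by
        have e1 : ρ = 2 ^ (K + 1) - S := by omega
        have e2 : 2 ^ (K + 1) = ρ + S := by omega
        have e3 : 2 ^ (K + 1) * (g + z) = 2 ^ (K + 1) * h + 2 ^ (K + 1) * (S + z) +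
          2 ^ (K + 1) := by rw [hg]; ring
        have e4 : (S + z) * (2 ^ (K + 1) + 1) = 2 ^ (K + 1) * (S + z) + (S + z) := by ring
        omega
      rw [e] at h4
      exact h4
    have hdvd : 2 ^ (K + 1) ∣ g := by
      apply upper (γ := c) hK
      intro x h1 h2
      rw [← hP] at h2
      have h3 := T x (by omega)
      rw [mlow (by rw [← hP]; omega)] at h3
      exact h3
    have hg8 : g % 8 = 0 := by
      obtain ⟨q, hq⟩ := hdvd
      rw [hq, hp]
      obtain ⟨w, hw⟩ : ∃ w, P = 4 * w := ⟨P / 4, by omega⟩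
      rw [hw, show 2 * (4 * w) * q = 8 * (w * q) by ring]
      exact Nat.mul_mod_right _ _
    have hS1 : S = 1 := by
      by_contra hlt
      have h1 := hc (S - 1) (by omega)
      have h2 := hc (S - 2) (by omega)
      rw [base (g - 2) (S - 1) (2 ^ (K + 1) - 1) (by omega) (by omega),
        r_block K _ _ (by omega), half1 _ (by omega) (by omega),
        even_cast (a := g - 2) (by omega)] at h1
      rw [base (g - 3) (S - 2) (2 ^ (K + 1) - 2) (by omega) (by omega),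
        r_block K _ _ (by omega), half1 _ (by omega) (by omega),
        odd_cast (a := g - 3) (by omega)] at h2
      have h3 := rtop (s := 2 ^ (K + 1)) (by omega) (by positivity)
      obtain ⟨q, hq⟩ : ∃ q, g = 8 * (q + 1) := ⟨g / 8 - 1, by omega⟩
      have h4 : r (g - 2) = r q + q + 1 := by
        rw [hq, show 8 * (q + 1) - 2 = 2 * (2 * (2 * q + 1) + 1) by omega, r_even, r_odd, r_odd,
          odd_cast (a := 2 * q + 1) (by omega)]
      have h5 : r (g - 3) = r q + q := by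
        rw [hq, show 8 * (q + 1) - 3 = 2 * (2 * (2 * q + 1)) + 1 by omega, r_odd, r_even, r_odd,
          even_cast (a := 2 * (2 * q + 1)) (by omega), add_zero]
      rw [h4] at h1
      rw [h5] at h2
      apply one_ne
      push_cast at h1 h2
      linear_combination h1 - h2 - h3 + aa (r (2 ^ (K + 1) - 2))
    exact headc g (by omega) (T P (by omega)) (T (P + 1) (by omega))

/-! ### The long progressions -/

lemma r_pow (K : ℕ) : r (2 ^ K) = 0 := by
  induction K with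
  | zero => simpa using r_one
  | succ K ih => rw [pow_succ', r_even, ih]

lemma r_ones (K : ℕ) : r (2 ^ (K + 1) - 1) = K := by
  have := r_compl K 0 (by positivity)
  rw [Nat.sub_zero, r_zero] at this
  rw [this]
  simp

lemma long_core (K : ℕ) (hK : 2 ≤ K) (j : ℕ) (hj : j ≤ 2 ^ K) :
    r (2 ^ (K + 1) * (2 ^ (K + 1) + j) + (2 ^ (K + 1) - 1 - j)) = K := by
  have hp : 2 ^ (K + 1) = 2 * 2 ^ K := by ring
  have hpos : 0 < 2 ^ K := by positivity
  rcases Nat.eq_or_lt_of_le hj with h | h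
  · subst h
    rw [show 2 ^ (K + 1) - 1 - 2 ^ K = 2 ^ K - 1 by omega, mlow (by omega)]
    have h1 := r_block K 1 (2 ^ K) (by omega)
    rw [mul_one, r_one, r_pow, Nat.div_self hpos] at h1
    obtain ⟨k, rfl⟩ : ∃ k, K = k + 1 := ⟨K - 1, by omega⟩
    rw [h1, r_ones]
    push_cast
    ring
  · rw [mup h]
    have h1 := r_block K 1 j (by omega)
    rw [mul_one, r_one, Nat.div_eq_of_lt h] at h1
    rw [h1, even_cast (a := 2 ^ (K + 1)) (by omega)]
    push_cast
    linear_combination aa (r j)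

/-- odd `K`: a progression of length `2 ^ K + 1` -/
lemma long_odd (K : ℕ) (hK : 2 ≤ K) : Mono (2 ^ (K + 1) * 2 ^ (K + 1) + (2 ^ (K + 1) - 1))
    (2 ^ (K + 1) - 1) (2 ^ K + 1) := by
  refine ⟨K, fun l hl => ?_⟩
  have hp : 2 ^ (K + 1) = 2 * 2 ^ K := by ring
  have hpos : 0 < 2 ^ K := by positivity
  have hpos4 : 4 ≤ 2 ^ K := by
    calc 4 = 2 ^ 2 := by norm_num
      _ ≤ 2 ^ K := Nat.pow_le_pow_right (by norm_num) hK
  rw [← long_core K hK l (by omega)]
  congr 1
  obtain ⟨x, hx⟩ : ∃ x, 2 ^ (K + 1) = x + 1 + l := ⟨2 ^ (K + 1) - 1 - l, by omega⟩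
  rw [hx, show x + 1 + l - 1 = x + l by omega, show x + l - l = x by omega]
  ring

/-- even `K`: a progression of length `2 ^ K + 3` -/
lemma long_even (K : ℕ) (hK : 2 ≤ K) (hKe : K % 2 = 0) :
    Mono (2 ^ (K + 1) * (2 ^ (K + 1) - 1) + 1) (2 ^ (K + 1) - 1) (2 ^ K + 3) := by
  refine ⟨0, fun l hl => ?_⟩
  have hp : 2 ^ (K + 1) = 2 * 2 ^ K := by ring
  have hpos : 0 < 2 ^ K := by positivity
  have hpos4 : 4 ≤ 2 ^ K := by
    calc 4 = 2 ^ 2 := by norm_num
      _ ≤ 2 ^ K := Nat.pow_le_pow_right (by norm_num) hK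
  have hKz : (K : ZMod 2) = 0 := even_cast hKe
  rcases (show l = 0 ∨ l = 1 ∨ ∃ j, l = j + 2 from by
    rcases l with _ | _ | j
    · left; rfl
    · right; left; rfl
    · right; right; exact ⟨j, rfl⟩) with rfl | rfl | ⟨j, rfl⟩
  · rw [zero_mul, add_zero, mlow (by omega), r_one, r_ones, hKz, add_zero]
  · have e : 2 ^ (K + 1) * (2 ^ (K + 1) - 1) + 1 + 1 * (2 ^ (K + 1) - 1) =
        2 ^ (K + 1) * 2 ^ (K + 1) + 0 := by
      obtain ⟨x, hx⟩ : ∃ x, 2 ^ (K + 1) = x + 1 := ⟨2 ^ (K + 1) - 1, by omega⟩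
      rw [hx, Nat.add_sub_cancel]
      ring
    rw [e, mlow hpos, r_pow, r_zero, add_zero]
  · rw [← hKz, ← long_core K hK j (by omega)]
    congr 1
    obtain ⟨x, hx⟩ : ∃ x, 2 ^ (K + 1) = x + 1 + j := ⟨2 ^ (K + 1) - 1 - j, by omega⟩
    rw [hx, show x + 1 + j - 1 = x + j by omega, show x + j - j = x by omega]
    ring

end Pool.Agent.V11172.Rs
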