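import Mathlib
import Pool.Agent.V11172.RsDfs

/-!
# The kernel computations for the Rudin–Shapiro progressions
-/

namespace Pool.Agent.V11172.Rs

set_option maxRecDepth 100000

theorem chk5 : check T0 (List.range 6) [0] 5 512 26 5 1 6 1 = true := by decide +kernel
theorem chk6 : check T0 (List.range 7) [0] 6 512 31 6 1 7 1 = true := by decide +kernel
theorem chk7 : check T0 (List.range 8) [0] 7 512 25 7 1 8 1 = true := by decide +kernel
theorem chk8 : check T0 (List.range 9) [0] 8 512 25 8 1 9 1 = true := by decide +kernel
theorem chk9 : check T0 (List.range 10) [0] 9 512 42 9 1 10 1 = true := by decide +kernel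

theorem chk6' : check T1 (List.range 7) [0] 6 512 20 6 1 7 1 = true := by decide +kernel
theorem chk9' : check T1 (List.range 10) [0] 9 512 21 9 1 10 1 = true := by decide +kernel
theorem chk5' : check T1 (List.range 6) [0] 5 512 6 17 3 6 1 = true := by decide +kernel

theorem chk8p : check [2, 258] (cls 6 8) [0, 2048, 4096, 6144] 8 1024 9 8 1 9 1 = true := by
  decide +kernel
theorem chk7p : check [2, 258] (cls 7 8) [0, 2048, 4096, 6144] 7 1024 14 7 1 8 1 = true := by
  decide +kernel
theorem chk8m : check [254, 510] (cls 0 8) [0, 2048, 4096, 6144] 8 1024 9 8 1 9 1 = true := by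
  decide +kernel
theorem chk7m : check [254, 510] (cls 1 8) [0, 2048, 4096, 6144] 7 1024 14 7 1 8 1 = true := by
  decide +kernel
theorem chk5s : check T1 (cls 3 16) [0, 2048, 4096, 6144] 5 1024 17 5 1 17 3 = true := by
  decide +kernel

end Pool.Agent.V11172.Rs
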