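import Mathlib
import Pool.Agent.V11172.TmCore

/-!
# Monochromatic progressions in the Thue–Morse word: all odd differences
-/

namespace Pool.Agent.V11172.Tm

/-- a monochromatic progression with `L` terms -/
def Mono (n d L : ℕ) : Prop := ∃ c : ZMod 2, ∀ l < L, t (n + l * d) = c

lemma Mono.mono {n d L L' : ℕ} (h : Mono n d L) (hL : L' ≤ L) : Mono n d L' := by
  obtain ⟨c, hc⟩ := h
  exact ⟨c, fun l hl => hc l (by omega)⟩

lemma bits_enc (x y z : ZMod 2) : ∃ k < 8, k % 2 = x.val ∧ k / 2 % 2 = y.val ∧ k / 4 = z.val := by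
  refine ⟨x.val + 2 * y.val + 4 * z.val, ?_, ?_, ?_, ?_⟩ <;>
  · have := ZMod.val_lt x
    have := ZMod.val_lt y
    have := ZMod.val_lt z
    omega

lemma from_check {fuel p q r s : ℕ} (hc : check fuel p q r s = true) (u d : ℕ) (hd : d % 2 = 1)
    (h0 : phi d u = 0) :
    dfs (ph (u % 64) ((u + d) % 64) (t (u / 64) + t ((u + d) / 64)).val
      (t (u / 64) + t (u / 64 + 1)).val (t ((u + d) / 64) + t ((u + d) / 64 + 1)).val)
      fuel [0] p q r s = true := by
  obtain ⟨k, hk, k1, k2, k3⟩ := bits_enc (t (u / 64) + t ((u + d) / 64))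
    (t (u / 64) + t (u / 64 + 1)) (t ((u + d) / 64) + t ((u + d) / 64 + 1))
  unfold check at hc
  rw [List.all_eq_true] at hc
  have h1 := hc (u % 64) (List.mem_range.2 (Nat.mod_lt _ (by norm_num)))
  rw [List.all_eq_true] at h1
  have h2 := h1 ((u + d) % 64) (List.mem_range.2 (Nat.mod_lt _ (by norm_num)))
  rw [Bool.or_eq_true] at h2
  rcases h2 with h2 | h2
  · rw [beq_iff_eq] at h2
    omega
  rw [List.all_eq_true] at h2
  have h3 := h2 k (List.mem_range.2 hk)
  rw [k1, k2, k3, Bool.or_eq_true] at h3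
  rcases h3 with h3 | h3
  · rw [ph_eq u d 0 (by norm_num), add_zero, h0] at h3
    exact absurd h3 (by decide)
  · exact h3

lemma from_checkd {d fuel p q r s : ℕ} (hc : checkd d fuel p q r s = true) (u : ℕ)
    (h0 : phi d u = 0) :
    dfs (ph (u % 64) ((u + d) % 64) (t (u / 64) + t ((u + d) / 64)).val
      (t (u / 64) + t (u / 64 + 1)).val (t ((u + d) / 64) + t ((u + d) / 64 + 1)).val)
      fuel [0] p q r s = true := by
  obtain ⟨k, hk, k1, k2, k3⟩ := bits_enc (t (u / 64) + t ((u + d) / 64))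
    (t (u / 64) + t (u / 64 + 1)) (t ((u + d) / 64) + t ((u + d) / 64 + 1))
  unfold checkd at hc
  rw [List.all_eq_true] at hc
  have h2 := hc (u % 64) (List.mem_range.2 (Nat.mod_lt _ (by norm_num)))
  rw [List.all_eq_true] at h2
  have h3 := h2 k (List.mem_range.2 hk)
  rw [k1, k2, k3, Nat.mod_add_mod, Bool.or_eq_true] at h3
  rcases h3 with h3 | h3
  · rw [ph_eq u d 0 (by norm_num), add_zero, h0] at h3
    exact absurd h3 (by decide)
  · exact h3

lemma off_eq (B d n l : ℕ) (hB : 0 < B) : (n + l * d) / B = n / B + off B d (n % B) l := by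
  unfold off
  have e : n + l * d = n % B + l * d + B * (n / B) := by
    have := Nat.mod_add_div n B
    omega
  conv_lhs => rw [e]
  rw [Nat.add_mul_div_left _ _ hB, add_comm]

/-- no long progression, when the search says so -/
lemma no_run {n d L b fuel p q r s : ℕ} (hd1 : 2 ^ b < d) (hd2 : d < 2 * 2 ^ b)
    (hI : Inv (2 ^ b) d p q r s) (hfuel : fuel ≤ 31) (hL : fuel + 1 + 2 ^ b ≤ L)
    (hc : ∀ u, phi d u = 0 → dfs (ph (u % 64) ((u + d) % 64) (t (u / 64) + t ((u + d) / 64)).val
      (t (u / 64) + t (u / 64 + 1)).val (t ((u + d) / 64) + t ((u + d) / 64 + 1)).val)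
      fuel [0] p q r s = true) : ¬ Mono n d L := by
  rintro ⟨c, hm⟩
  have hB : 0 < 2 ^ b := by positivity
  have hs := shift (V := fuel + 1) hm hL
  have h0 := hs 0 (by omega)
  rw [zero_mul, add_zero] at h0
  obtain ⟨l, hl, hl2⟩ := run_bound (u := n / 2 ^ b) (r0 := n % 2 ^ b) hB hd1 hd2
    (Nat.mod_lt _ hB) hI hfuel (hc _ h0)
  have := hs l (by omega)
  rw [off_eq _ _ _ _ hB] at this
  exact hl2 this

lemma class1 {n d b : ℕ} (hd : d % 2 = 1) (hd1 : 2 ^ b + 3 ≤ d) (hd2 : 5 * d < 6 * 2 ^ b) :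
    ¬ Mono n d (d + 5) :=
  no_run (b := b) (fuel := 6) (p := 1) (q := 1) (r := 6) (s := 5) (by omega) (by omega)
    ⟨by norm_num, by norm_num, by omega, by omega⟩ (by norm_num) (by omega)
    (fun u hu => from_check check1 u d hd hu)

lemma class0 {n d b : ℕ} (hd : d % 2 = 1) (hd1 : 2 ^ b + 15 ≤ d) (hd2 : 5 * d < 9 * 2 ^ b) :
    ¬ Mono n d (d + 5) :=
  no_run (b := b) (fuel := 19) (p := 1) (q := 1) (r := 9) (s := 5) (by omega) (by omega)
    ⟨by norm_num, by norm_num, by omega, by omega⟩ (by norm_num) (by omega)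
    (fun u hu => from_check check0 u d hd hu)

lemma case21 (n : ℕ) : ¬ Mono n 21 26 :=
  no_run (b := 4) (fuel := 9) (by norm_num) (by norm_num)
    ⟨by norm_num, by norm_num, by norm_num, by norm_num⟩ (by norm_num) (by norm_num)
    (fun u hu => from_checkd check21 u hu)

lemma case23 (n : ℕ) : ¬ Mono n 23 28 :=
  no_run (b := 4) (fuel := 11) (by norm_num) (by norm_num)
    ⟨by norm_num, by norm_num, by norm_num, by norm_num⟩ (by norm_num) (by norm_num)
    (fun u hu => from_checkd check23 u hu)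

lemma case25 (n : ℕ) : ¬ Mono n 25 30 :=
  no_run (b := 4) (fuel := 13) (by norm_num) (by norm_num)
    ⟨by norm_num, by norm_num, by norm_num, by norm_num⟩ (by norm_num) (by norm_num)
    (fun u hu => from_checkd check25 u hu)

lemma case27 (n : ℕ) : ¬ Mono n 27 32 :=
  no_run (b := 4) (fuel := 15) (by norm_num) (by norm_num)
    ⟨by norm_num, by norm_num, by norm_num, by norm_num⟩ (by norm_num) (by norm_num)
    (fun u hu => from_checkd check27 u hu)

lemma case39 (n : ℕ) : ¬ Mono n 39 44 :=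
  no_run (b := 5) (fuel := 11) (by norm_num) (by norm_num)
    ⟨by norm_num, by norm_num, by norm_num, by norm_num⟩ (by norm_num) (by norm_num)
    (fun u hu => from_checkd check39 u hu)

lemma case41 (n : ℕ) : ¬ Mono n 41 46 :=
  no_run (b := 5) (fuel := 13) (by norm_num) (by norm_num)
    ⟨by norm_num, by norm_num, by norm_num, by norm_num⟩ (by norm_num) (by norm_num)
    (fun u hu => from_checkd check41 u hu)

lemma case43 (n : ℕ) : ¬ Mono n 43 48 :=
  no_run (b := 5) (fuel := 15) (by norm_num) (by norm_num)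
    ⟨by norm_num, by norm_num, by norm_num, by norm_num⟩ (by norm_num) (by norm_num)
    (fun u hu => from_checkd check43 u hu)

lemma case45 (n : ℕ) : ¬ Mono n 45 50 :=
  no_run (b := 5) (fuel := 17) (by norm_num) (by norm_num)
    ⟨by norm_num, by norm_num, by norm_num, by norm_num⟩ (by norm_num) (by norm_num)
    (fun u hu => from_checkd check45 u hu)

lemma case77 (n : ℕ) : ¬ Mono n 77 82 :=
  no_run (b := 6) (fuel := 17) (by norm_num) (by norm_num)
    ⟨by norm_num, by norm_num, by norm_num, by norm_num⟩ (by norm_num) (by norm_num)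
    (fun u hu => from_checkd check77 u hu)

/-! ### Slopes close to 2 -/

lemma pattern (u d : ℕ) (hd : d % 2 = 1) (h0 : phi d u = 0) (h2 : phi d (u + 2) = 0)
    (h4 : phi d (u + 4) = 0) (h6 : phi d (u + 6) = 0) (h7 : phi d (u + 7) = 0)
    (h9 : phi d (u + 9) = 0) (h11 : phi d (u + 11) = 0) (h13 : phi d (u + 13) = 0) : False := by
  obtain ⟨k, hk, k1, k2, k3⟩ := bits_enc (t (u / 64) + t ((u + d) / 64))
    (t (u / 64) + t (u / 64 + 1)) (t ((u + d) / 64) + t ((u + d) / 64 + 1))
  have hc := checkpat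
  unfold checkp at hc
  rw [List.all_eq_true] at hc
  have h1 := hc (u % 64) (List.mem_range.2 (Nat.mod_lt _ (by norm_num)))
  rw [List.all_eq_true] at h1
  have h2' := h1 ((u + d) % 64) (List.mem_range.2 (Nat.mod_lt _ (by norm_num)))
  rw [Bool.or_eq_true] at h2'
  rcases h2' with h2' | h2'
  · rw [beq_iff_eq] at h2'
    omega
  rw [List.all_eq_true] at h2'
  have h3 := h2' k (List.mem_range.2 hk)
  rw [k1, k2, k3, List.any_eq_true] at h3
  obtain ⟨o, ho, ho2⟩ := h3
  simp only [List.mem_cons, List.not_mem_nil, or_false] at ho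
  rw [ph_eq u d o (by omega)] at ho2
  rcases ho with rfl | rfl | rfl | rfl | rfl | rfl | rfl | rfl <;>
  simp_all

lemma class2 {n d b : ℕ} (hd : d % 2 = 1) (hd1 : 9 * 2 ^ b < 5 * d) (hd2 : d + 3 ≤ 2 * 2 ^ b) :
    ¬ Mono n d (d + 5) := by
  rintro ⟨c, hm⟩
  obtain ⟨B, hB⟩ : ∃ B, B = 2 ^ b := ⟨_, rfl⟩
  obtain ⟨δ, hδ⟩ : ∃ δ, d + δ = 2 * B := ⟨2 * B - d, by omega⟩
  have hBpos : 0 < B := by rw [hB]; positivity
  rw [← hB] at hd1 hd2
  have hδ3 : 3 ≤ δ := by omega
  have hδ5 : 5 * δ < B := by omega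
  -- the index
  obtain ⟨u, hu⟩ : ∃ u, u = (n + 3 * d) / B := ⟨_, rfl⟩
  obtain ⟨r, hr⟩ : ∃ r, r = (n + 3 * d) % B := ⟨_, rfl⟩
  have hrB : r < B := by rw [hr]; exact Nat.mod_lt _ hBpos
  have hN : n + 3 * d = B * u + r := by rw [hu, hr]; exact (Nat.div_add_mod _ _).symm
  obtain ⟨j, hj⟩ : ∃ j, j = r / δ := ⟨_, rfl⟩
  obtain ⟨ρ, hρ⟩ : ∃ ρ, ρ = r % δ := ⟨_, rfl⟩
  have hρδ : ρ < δ := by rw [hρ]; exact Nat.mod_lt _ (by omega)
  have hr2 : r = δ * j + ρ := by rw [hj, hρ]; exact (Nat.div_add_mod _ _).symm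
  have hj3 : 3 * j < B := by
    have : 3 * j ≤ δ * j := Nat.mul_le_mul_right _ hδ3
    omega
  have hNj : n + (3 + j) * d = B * (u + 2 * j) + ρ := by
    have e1 : n + (3 + j) * d = (n + 3 * d) + j * d := by ring
    have e2 : j * d + δ * j = 2 * B * j := by rw [← hδ]; ring
    have e3 : B * (u + 2 * j) = B * u + 2 * B * j := by ring
    rw [e1, hN, e3, hr2]
    omega
  have hs := shift (V := 5 + (d - B)) (b := b) hm (by omega)
  rw [← hB] at hs
  have hd' : d = 2 * B - δ := by omega
  -- the eight visited values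
  have key : ∀ i q ρ', i < 5 + (d - B) → n + i * d = B * q + ρ' → ρ' < B → phi d q = 0 := by
    intro i q ρ' hi h1 h2
    have := hs i hi
    rw [h1, Nat.mul_add_div hBpos, Nat.div_eq_of_lt h2, add_zero] at this
    exact this
  have hj5 : 3 + j + 4 < 5 + (d - B) := by omega
  obtain ⟨w, hw⟩ : ∃ w, u + 2 * j = w + 6 := by
    -- the value is at least 6
    have h6 : 6 ≤ u + 2 * j := by
      by_contra hlt
      push Not at hlt
      have h7 : B * (u + 2 * j) ≤ B * 5 := Nat.mul_le_mul_left _ (by omega)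
      have h8 : 3 * d ≤ (3 + j) * d := Nat.mul_le_mul_right _ (by omega)
      omega
    exact ⟨u + 2 * j - 6, by omega⟩
  rw [hw] at hNj
  have m1 : (j + 4) * d = (3 + j) * d + d := by ring
  have m2 : (j + 5) * d = (3 + j) * d + 2 * d := by ring
  have m3 : (j + 6) * d = (3 + j) * d + 3 * d := by ring
  have m4 : (j + 7) * d = (3 + j) * d + 4 * d := by ring
  have m5 : (3 + j) * d = (j + 2) * d + d := by ring
  have m6 : (3 + j) * d = (j + 1) * d + 2 * d := by ring
  have m7 : (3 + j) * d = j * d + 3 * d := by ring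
  have n0 : B * (w + 6) = B * w + 6 * B := by ring
  have n2 : B * (w + 2) = B * w + 2 * B := by ring
  have n4 : B * (w + 4) = B * w + 4 * B := by ring
  have n7 : B * (w + 7) = B * w + 7 * B := by ring
  have n9 : B * (w + 9) = B * w + 9 * B := by ring
  have n11 : B * (w + 11) = B * w + 11 * B := by ring
  have n13 : B * (w + 13) = B * w + 13 * B := by ring
  apply pattern w d hd
  · exact key j w (ρ + 3 * δ) (by omega) (by omega) (by omega)
  · exact key (j + 1) (w + 2) (ρ + 2 * δ) (by omega) (by omega) (by omega)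
  · exact key (j + 2) (w + 4) (ρ + δ) (by omega) (by omega) (by omega)
  · exact key (3 + j) (w + 6) ρ (by omega) (by omega) (by omega)
  · exact key (j + 4) (w + 7) (ρ + B - δ) (by omega) (by omega) (by omega)
  · exact key (j + 5) (w + 9) (ρ + B - 2 * δ) (by omega) (by omega) (by omega)
  · exact key (j + 6) (w + 11) (ρ + B - 3 * δ) (by omega) (by omega) (by omega)
  · exact key (j + 7) (w + 13) (ρ + B - 4 * δ) (by omega) (by omega) (by omega)

/-! ### Direct checks -/

lemma from_direct {d L : ℕ} (hL : 1 ≤ L) (hd : (L - 1) * d < 256) (hc : direct d L = true) (n : ℕ) :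
    ¬ Mono n d L := by
  rintro ⟨c, hm⟩
  unfold direct at hc
  rw [List.all_eq_true] at hc
  have h1 := hc (n % 256) (List.mem_range.2 (Nat.mod_lt _ (by norm_num)))
  rw [List.all_eq_true] at h1
  have h2 := h1 (t (n / 256) + t (n / 256 + 1)).val (List.mem_range.2 (ZMod.val_lt _))
  rw [List.any_eq_true] at h2
  obtain ⟨l, hl, hl2⟩ := h2
  rw [List.mem_range] at hl
  have hn := Nat.div_add_mod n 256
  have hn2 : n % 256 < 256 := Nat.mod_lt _ (by norm_num)
  have m0 := hm 0 (by omega)
  have ml := hm l hl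
  rw [zero_mul, add_zero] at m0
  have hld : l * d < 256 := lt_of_le_of_lt (Nat.mul_le_mul_right _ (by omega)) hd
  have ht : ∀ U w, w < 256 → t (256 * U + w) = t U + t w := fun U w hw => t_block 8 U w hw
  rw [← hn, ht _ _ hn2] at m0
  rw [bne_iff_ne] at hl2
  apply hl2
  have key : (((if n % 256 + l * d < 256 then tc (n % 256 + l * d)
      else tc (n % 256 + l * d - 256) + (t (n / 256) + t (n / 256 + 1)).val) : ℕ) : ZMod 2) =
      ((tc (n % 256) : ℕ) : ZMod 2) := by
    rw [tc_eq _ hn2]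
    split_ifs with hlt
    · rw [tc_eq _ hlt]
      rw [show n + l * d = 256 * (n / 256) + (n % 256 + l * d) by omega, ht _ _ hlt] at ml
      linear_combination ml - m0
    · push_cast
      rw [tc_eq _ (by omega), ZMod.natCast_val, ZMod.cast_id']
      rw [show n + l * d = 256 * (n / 256 + 1) + (n % 256 + l * d - 256) by omega,
        ht _ _ (by omega)] at ml
      simp only [id]
      linear_combination ml - m0 + aa (t (n / 256)) 
  rw [ZMod.natCast_eq_natCast_iff'] at key
  have htc : tc (n % 256) % 2 = tc (n % 256) := by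
    unfold tc
    omega
  rw [key, htc]

end Pool.Agent.V11172.Tm
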