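import Mathlib
import Pool.Agent.V11172.RsCore
import Pool.Agent.V11172.RsChk
import Pool.Agent.V11172.TmMain

/-!
# Monochromatic progressions in the Rudin–Shapiro word: soundness of the search
-/

namespace Pool.Agent.V11172.Rs

open Pool.Agent.V11172.Tm (upd Inv Good off hist upd_sound good_hist hist_ne off_eq)

lemma nxt_bit {X P j i : ℕ} (hX : Nat.testBit X i = true) (hi : i + P < 8192)
    (h : Nat.testBit TA (i + P) = Nat.testBit TA j) : Nat.testBit (nxt X P j) i = true := by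
  unfold nxt
  rw [Nat.testBit_and, hX, Bool.true_and, Nat.testBit_shiftRight, add_comm P i]
  cases hb : Nat.testBit TA j with
  | false =>
    rw [cond_false, TB_bit hi, h, hb]
    rfl
  | true =>
    rw [cond_true, h, hb]

lemma beq_zero_false {X i : ℕ} (hX : Nat.testBit X i = true) : Nat.beq X 0 = false := by
  have : X ≠ 0 := by
    rintro rfl
    simp at hX
  cases hb : Nat.beq X 0 with
  | false => rfl
  | true => exact absurd (Nat.eq_of_beq_eq_true hb) this

lemma off_step {B d r0 c : ℕ} (hB : 0 < B) (hd1 : c * B < d) (hd2 : d < (c + 1) * B) (l : ℕ) :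
    off B d r0 (l + 1) = off B d r0 l + c ∨ off B d r0 (l + 1) = off B d r0 l + (c + 1) := by
  unfold off
  have e1 : r0 + (l + 1) * d = r0 + l * d + d := by ring
  rw [e1]
  obtain ⟨x, hx⟩ : ∃ x, x = r0 + l * d := ⟨_, rfl⟩
  rw [← hx]
  have a1 := Nat.div_mul_le_self x B
  have a2 := Nat.lt_div_mul_add (a := x) hB
  obtain ⟨a, ha⟩ : ∃ a, a = x / B := ⟨_, rfl⟩
  rw [← ha] at a1 a2 ⊢
  have b1 : a + c ≤ (x + d) / B := by
    rw [Nat.le_div_iff_mul_le hB]
    have : (a + c) * B = a * B + c * B := by ring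
    omega
  have b2 : (x + d) / B < a + c + 2 := by
    rw [Nat.div_lt_iff_lt_mul hB]
    have : (a + c + 2) * B = a * B + B + (c + 1) * B := by ring
    omega
  omega

lemma off_le {B d r0 c : ℕ} (hr0 : r0 < B) (hd2 : d < (c + 1) * B) (l : ℕ) :
    off B d r0 l ≤ (c + 1) * l := by
  unfold off
  apply Nat.le_of_lt_succ
  rw [Nat.div_lt_iff_lt_mul (by omega)]
  have : l * d ≤ l * ((c + 1) * B) := Nat.mul_le_mul_left _ hd2.le
  have e : ((c + 1) * l).succ * B = l * ((c + 1) * B) + B := by rw [Nat.succ_eq_add_one]; ring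
  omega

lemma dfs_sound {B d r0 c j i0 lim K : ℕ} (hB : 0 < B) (hc : 0 < c) (hd1 : c * B < d)
    (hd2 : d < (c + 1) * B)
    (hφ : ∀ l ≤ K, off B d r0 l < lim → i0 + off B d r0 l < 8192 ∧
      Nat.testBit TA (i0 + off B d r0 l) = Nat.testBit TA (j + off B d r0 l)) :
    ∀ (k l X p q r s : ℕ), l + k ≤ K → Nat.testBit X i0 = true → Inv B d p q r s →
      dfs c j lim k X (hist B d r0 l) p q r s = false
  | 0, l, X, p, q, r, s, _, _, _ => by
    obtain ⟨T, hT⟩ := hist_ne B d r0 l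
    rw [hT, dfs]
  | k + 1, l, X, p, q, r, s, hk, hX, hI => by
    have hdpos : 0 < d := by
      have : 0 ≤ c * B := Nat.zero_le _
      omega
    have hg := good_hist (r0 := r0) hB hdpos l 1 le_rfl
    have ih := fun X p q r s hX hI => dfs_sound hB hc hd1 hd2 hφ k (l + 1) X p q r s
      (by omega) hX hI
    obtain ⟨T, hT⟩ := hist_ne B d r0 l
    have hh : hist B d r0 (l + 1) = off B d r0 (l + 1) :: hist B d r0 l := rfl
    rw [hh] at ih
    rw [hT] at hg ih ⊢
    have hnext := hφ (l + 1) (by omega)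
    have hstep := off_step (r0 := r0) hB hd1 hd2 l
    have hupd := upd_sound (off B d r0 l :: T) 1 p q r s le_rfl hg hI
    have hI' := hupd
    obtain ⟨i1, i2, i3, i4⟩ := hupd
    obtain ⟨Q, hQ⟩ : ∃ Q, Q = upd (off B d r0 (l + 1)) (off B d r0 l :: T) 1 p q r s := ⟨_, rfl⟩
    rw [← hQ] at i1 i2 i3 i4 hI'
    obtain ⟨p', q', r', s'⟩ := Q
    simp only at i1 i2 i3 i4 hI'
    have hlt : p' * s' < r' * q' := by
      have h1 : (p' * s') * (B * d) < (r' * q') * (B * d) := by
        calc (p' * s') * (B * d) = (p' * B) * (d * s') := by ring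
          _ < (q' * d) * (r' * B) := by
            apply Nat.mul_lt_mul'' i3 i4
          _ = (r' * q') * (B * d) := by ring
      exact lt_of_mul_lt_mul_right h1 (Nat.zero_le _)
    have hblt : Nat.blt (p' * s') (r' * q') = true := by
      rw [Nat.blt_eq]
      exact hlt
    -- the value of the good branch
    obtain ⟨P, hP⟩ : ∃ P, P = off B d r0 (l + 1) := ⟨_, rfl⟩
    rw [← hP] at hQ hnext ih hstep
    have hbr : ((Nat.blt P lim && Nat.beq (nxt X P (j + P)) 0) ||
      (match upd P (off B d r0 l :: T) 1 p q r s with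
      | (p', q', r', s') => !(Nat.blt (p' * s') (r' * q')) || (Nat.blt P lim &&
        dfs c j lim k (nxt X P (j + P)) (P :: off B d r0 l :: T) p' q' r' s'))) = false := by
      rw [← hQ]
      simp only [hblt, Bool.not_true, Bool.false_or]
      cases hb : Nat.blt P lim with
      | false => simp
      | true =>
        rw [Nat.blt_eq] at hb
        obtain ⟨g1, g2⟩ := hnext hb
        have hY := nxt_bit hX g1 g2
        rw [ih _ p' q' r' s' hY hI', beq_zero_false hY]
        rfl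
    rw [dfs]
    rcases hstep with h | h
    · rw [h] at hbr
      rw [hbr, Bool.false_and]
    · rw [h] at hbr
      rw [hbr, Bool.and_false]

lemma mask_bit {T : List ℕ} {v τ cb : ℕ} (hτ : τ ∈ T) (hcb : cb < 8) :
    Nat.testBit (mask T v) (cb * 1024 + (v + τ) % 512) = true := by
  have key : ∀ (T : List ℕ) (acc : ℕ), (Nat.testBit acc (cb * 1024 + (v + τ) % 512) = true ∨
      τ ∈ T) → Nat.testBit (T.foldl (fun acc τ => acc ||| (rep <<< ((v + τ) % 512))) acc)
        (cb * 1024 + (v + τ) % 512) = true := by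
    intro T
    induction T with
    | nil =>
      intro acc h
      rcases h with h | h
      · exact h
      · simp at h
    | cons a T ih =>
      intro acc h
      rw [List.foldl_cons]
      apply ih
      rcases h with h | h
      · left
        rw [Nat.testBit_or, h, Bool.true_or]
      · rcases List.mem_cons.1 h with h | h
        · left
          subst h
          rw [Nat.testBit_or, Nat.testBit_shiftLeft, Nat.add_sub_cancel, rep_bit cb hcb]
          simp
        · right; exact h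
  exact key T 0 (Or.inr hτ)

/-- the conclusion of a successful search -/
lemma run_false {n d b L l0 c lim fuel p q r0 s bb : ℕ} {T vs bs : List ℕ}
    (hc : check T vs bs c lim fuel p q r0 s = true) (hb1 : 1 ≤ b) (hm : Mono n d L)
    (hc0 : 0 < c) (hd1 : c * 2 ^ b < d) (hd2 : d < (c + 1) * 2 ^ b) (hI : Inv (2 ^ b) d p q r0 s)
    (hL : l0 + fuel + 1 + 2 ^ (b + 1) ≤ L) (hT : (2 * d) % 512 ∈ T)
    (hv : (n + l0 * d) / 2 ^ b % 512 ∈ vs) (hvl : (n + l0 * d) / 2 ^ b % 512 < lim) (hbb : bb ∈ bs)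
    (hfuel : (c + 1) * fuel ≤ 512)
    (htab : ∀ x < lim, Nat.testBit TA (bb + x) = Nat.testBit TA
      ((0 + 2 * ((n + l0 * d) / 2 ^ b / 512 % 2) + 4 * (r ((n + l0 * d) / 2 ^ b / 512) +
        r ((n + l0 * d) / 2 ^ b / 512 + 1)).val) * 1024 + x)) : False := by
  have hB : 0 < 2 ^ b := by positivity
  obtain ⟨col, hcol⟩ := hm
  have hs := shift (V := l0 + fuel + 1) hb1 hcol hL
  obtain ⟨u, hu⟩ : ∃ u, u = (n + l0 * d) / 2 ^ b := ⟨_, rfl⟩
  rw [← hu] at hv hvl htab
  obtain ⟨ρ, hρ⟩ : ∃ ρ, ρ = (n + l0 * d) % 2 ^ b := ⟨_, rfl⟩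
  have hρlt : ρ < 2 ^ b := by rw [hρ]; exact Nat.mod_lt _ hB
  have hphi : ∀ l ≤ fuel, phi d (u + off (2 ^ b) d ρ l) = 0 := by
    intro l hl
    have h1 := hs (l0 + l) (by omega)
    rw [show n + (l0 + l) * d = n + l0 * d + l * d by ring, off_eq _ _ _ _ hB, ← hu, ← hρ] at h1
    exact h1
  -- the case
  obtain ⟨κ, hκ⟩ : ∃ κ, κ = (r (u / 512) + r ((u + 2 * d) / 512)).val := ⟨_, rfl⟩
  have hκ2 : κ < 2 := by rw [hκ]; exact ZMod.val_lt _
  have hκz : (κ : ZMod 2) = r (u / 512) + r ((u + 2 * d) / 512) := by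
    rw [hκ, ZMod.natCast_val, ZMod.cast_id']; rfl
  obtain ⟨cb, hcb⟩ : ∃ cb, cb = κ + 2 * ((u + 2 * d) / 512 % 2) +
      4 * (r ((u + 2 * d) / 512) + r ((u + 2 * d) / 512 + 1)).val := ⟨_, rfl⟩
  have hcb8 : cb < 8 := by
    have : (r ((u + 2 * d) / 512) + r ((u + 2 * d) / 512 + 1)).val < 2 := ZMod.val_lt _
    omega
  have hbits : ∀ l ≤ fuel, off (2 ^ b) d ρ l < lim - u % 512 →
      cb * 1024 + (u + 2 * d) % 512 + off (2 ^ b) d ρ l < 8192 ∧
      Nat.testBit TA (cb * 1024 + (u + 2 * d) % 512 + off (2 ^ b) d ρ l) =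
        Nat.testBit TA (bb + u % 512 + off (2 ^ b) d ρ l) := by
    intro l hl hlt
    have h1 : off (2 ^ b) d ρ l ≤ (c + 1) * l := off_le hρlt hd2 l
    have h2 : (c + 1) * l ≤ (c + 1) * fuel := Nat.mul_le_mul_left _ hl
    have h3 : (u + 2 * d) % 512 < 512 := Nat.mod_lt _ (by norm_num)
    refine ⟨by omega, ?_⟩
    rw [add_assoc bb, htab _ (by omega), add_assoc]
    apply bz_inj
    have w1 := window u (off (2 ^ b) d ρ l) (by omega) 0 (by norm_num)
    have w2 := window (u + 2 * d) (off (2 ^ b) d ρ l) (by omega) κ hκ2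
    rw [← hcb] at w2
    rw [w1, w2, hκz]
    have h4 := hphi l hl
    unfold phi at h4
    rw [show u + 2 * d + off (2 ^ b) d ρ l = u + off (2 ^ b) d ρ l + 2 * d by ring]
    push_cast
    linear_combination h4 + aa (r ((u + 2 * d) / 512)) - aa (r (u + off (2 ^ b) d ρ l))
  -- the initial mask
  have hoff0 : off (2 ^ b) d ρ 0 = 0 := by
    unfold off
    rw [zero_mul, add_zero, Nat.div_eq_of_lt hρlt]
  have hv512 : u % 512 < 512 := Nat.mod_lt _ (by norm_num)
  unfold check at hc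
  rw [List.all_eq_true] at hc
  have h1 := hc _ hv
  rw [List.all_eq_true] at h1
  have h2 := h1 _ hbb
  have hcase : Nat.testBit (mask T (u % 512)) (cb * 1024 + (u + 2 * d) % 512) = true := by
    rw [Nat.add_mod u (2 * d)]
    exact mask_bit hT hcb8
  have h0 := hbits 0 (Nat.zero_le _) (by rw [hoff0]; omega)
  rw [hoff0, add_zero, add_zero] at h0
  have hX := nxt_bit (P := 0) (j := bb + u % 512) hcase (by omega) (by rw [add_zero]; exact h0.2)
  have h3 := dfs_sound (r0 := ρ) (K := fuel) hB hc0 hd1 hd2 hbits fuel 0 _ p q r0 s (by omega)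
    hX hI
  have hh : hist (2 ^ b) d ρ 0 = [0] := by
    unfold hist
    rw [hoff0]
  rw [hh, h2] at h3
  exact absurd h3 (by decide)

/-! ### Hitting lemmas -/

lemma hit_block {n d b c K : ℕ} (hK : 0 < K) (hc : 0 < c) (hd1 : c * 2 ^ b < d)
    (hd2 : d < (c + 1) * 2 ^ b) :
    ∃ l ≤ K / c + 1, ∃ h v, (n + l * d) / 2 ^ b = K * h + v ∧ v ≤ c := by
  have hB : 0 < 2 ^ b := by positivity
  obtain ⟨B, hBe⟩ : ∃ B, B = 2 ^ b := ⟨_, rfl⟩
  rw [← hBe] at hB hd1 hd2 ⊢
  obtain ⟨T, hT⟩ : ∃ T, T = K * (n / B / K + 1) := ⟨_, rfl⟩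
  have hT1 : n / B < T := by
    have := Nat.lt_mul_div_succ (n / B) hK
    rw [hT]
    exact this
  have hT2 : T ≤ n / B + K := by
    have := Nat.div_mul_le_self (n / B) K
    rw [hT, Nat.mul_add, mul_one, mul_comm]
    omega
  have step : ∀ l, (n + (l + 1) * d) / B ≤ (n + l * d) / B + (c + 1) := by
    intro l
    rw [show n + (l + 1) * d = n + l * d + d by ring]
    obtain ⟨x, hx⟩ : ∃ x, x = n + l * d := ⟨_, rfl⟩
    rw [← hx]
    have a2 := Nat.lt_div_mul_add (a := x) hB
    apply Nat.le_of_lt_succ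
    rw [Nat.div_lt_iff_lt_mul hB]
    have : (x / B + (c + 1)).succ * B = x / B * B + B + (c + 1) * B := by
      rw [Nat.succ_eq_add_one]; ring
    omega
  have low : ∀ l, n / B + c * l ≤ (n + l * d) / B := by
    intro l
    rw [Nat.le_div_iff_mul_le hB]
    have a1 := Nat.div_mul_le_self n B
    have a3 : l * (c * B) ≤ l * d := Nat.mul_le_mul_left _ hd1.le
    have : (n / B + c * l) * B = n / B * B + l * (c * B) := by ring
    omega
  have key : ∀ l, (∃ l' ≤ l, T ≤ (n + l' * d) / B ∧ (n + l' * d) / B ≤ T + c) ∨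
      (n + l * d) / B < T := by
    intro l
    induction l with
    | zero => right; rw [zero_mul, add_zero]; exact hT1
    | succ l ih =>
      rcases ih with ⟨l', h1, h2, h3⟩ | h
      · exact Or.inl ⟨l', by omega, h2, h3⟩
      · by_cases h4 : (n + (l + 1) * d) / B < T
        · exact Or.inr h4
        · left
          refine ⟨l + 1, le_rfl, by omega, ?_⟩
          have := step l
          omega
  rcases key (K / c + 1) with ⟨l', h1, h2, h3⟩ | h
  · refine ⟨l', h1, n / B / K + 1, (n + l' * d) / B - T, ?_, by omega⟩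
    rw [← hT]
    omega
  · exfalso
    have h4 := low (K / c + 1)
    have h5 := Nat.lt_mul_div_succ K hc
    omega

lemma hit_up {n M W e vs : ℕ} (hvs : vs < M) (hW : 0 < W) (he : 0 < e) (heW : e ≤ W) :
    ∃ j ≤ M * W / e + 1, ((n + j * (M * W + e)) / W) % M = vs := by
  have hMW : 0 < M * W := Nat.mul_pos (by omega) hW
  obtain ⟨A, hA⟩ : ∃ A, A = n / (M * W) := ⟨_, rfl⟩
  obtain ⟨n0, hn0⟩ : ∃ n0, n0 = n % (M * W) := ⟨_, rfl⟩
  have hn0lt : n0 < M * W := by rw [hn0]; exact Nat.mod_lt _ hMW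
  have hn : n = M * W * A + n0 := by rw [hA, hn0]; exact (Nat.div_add_mod _ _).symm
  have hvW : vs * W + W ≤ M * W := by
    calc vs * W + W = (vs + 1) * W := by ring
      _ ≤ M * W := Nat.mul_le_mul_right _ (by omega)
  obtain ⟨T, δ, hT, hT1, hT2⟩ : ∃ T δ, T = vs * W + M * W * δ ∧ n0 ≤ T ∧ T ≤ n0 + M * W := by
    by_cases h : n0 ≤ vs * W
    · exact ⟨vs * W, 0, by ring, h, by omega⟩
    · exact ⟨vs * W + M * W, 1, by ring, by omega, by omega⟩
  obtain ⟨j, hj⟩ : ∃ j, j = (T - n0 + (e - 1)) / e := ⟨_, rfl⟩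
  have j1 : T - n0 + (e - 1) < j * e + e := by rw [hj]; exact Nat.lt_div_mul_add he
  have j2 : j * e ≤ T - n0 + (e - 1) := by rw [hj]; exact Nat.div_mul_le_self _ _
  refine ⟨j, ?_, ?_⟩
  · rw [hj]
    apply Nat.le_of_lt_succ
    rw [Nat.div_lt_iff_lt_mul he]
    have h1 := Nat.lt_div_mul_add (a := M * W) he
    have : (M * W / e + 1).succ * e = M * W / e * e + e + e := by rw [Nat.succ_eq_add_one]; ring
    omega
  · have e1 : n + j * (M * W + e) = W * (M * (A + j + δ) + vs) + (n0 + j * e - T) := by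
      have e2 : W * (M * (A + j + δ) + vs) = M * W * A + j * (M * W) + (vs * W + M * W * δ) := by
        ring
      have e3 : j * (M * W + e) = j * (M * W) + j * e := by ring
      rw [e2, e3, ← hT]
      omega
    rw [e1, Nat.mul_add_div hW, Nat.div_eq_of_lt (by omega), add_zero, Nat.mul_add_mod,
      Nat.mod_eq_of_lt hvs]

lemma hit_dn {n M W e vs : ℕ} (hvs : vs < M) (hW : 0 < W) (he : 0 < e) (heW : e ≤ W) :
    ∃ j ≤ M * W / e + 1, ((n + j * (M * W - e)) / W) % M = vs := by
  have hMW : 0 < M * W := Nat.mul_pos (by omega) hW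
  obtain ⟨A, hA⟩ : ∃ A, A = n / (M * W) := ⟨_, rfl⟩
  obtain ⟨n0, hn0⟩ : ∃ n0, n0 = n % (M * W) := ⟨_, rfl⟩
  have hn0lt : n0 < M * W := by rw [hn0]; exact Nat.mod_lt _ hMW
  have hn : n = M * W * A + n0 := by rw [hA, hn0]; exact (Nat.div_add_mod _ _).symm
  have hvW : vs * W + W ≤ M * W := by
    calc vs * W + W = (vs + 1) * W := by ring
      _ ≤ M * W := Nat.mul_le_mul_right _ (by omega)
  by_cases h0 : vs * W ≤ n0 ∧ n0 < vs * W + W
  · refine ⟨0, Nat.zero_le _, ?_⟩
    have e1 : n + 0 * (M * W - e) = W * (M * A + vs) + (n0 - vs * W) := by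
      have : W * (M * A + vs) = M * W * A + vs * W := by ring
      rw [this]
      omega
    rw [e1, Nat.mul_add_div hW, Nat.div_eq_of_lt (by omega), add_zero, Nat.mul_add_mod,
      Nat.mod_eq_of_lt hvs]
  · obtain ⟨Y, δ, hY, hδ, hY1, hY2⟩ : ∃ Y δ, Y = n0 + M * W * δ ∧ δ ≤ 1 ∧ vs * W + W ≤ Y ∧
        Y < vs * W + W + M * W := by
      by_cases h : vs * W + W ≤ n0
      · exact ⟨n0, 0, by ring, by norm_num, h, by omega⟩
      · exact ⟨n0 + M * W, 1, by ring, le_rfl, by omega, by omega⟩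
    obtain ⟨i, hi⟩ : ∃ i, i = (Y - (vs * W + W)) / e := ⟨_, rfl⟩
    have i1 : Y - (vs * W + W) < i * e + e := by rw [hi]; exact Nat.lt_div_mul_add he
    have i2 : i * e ≤ Y - (vs * W + W) := by rw [hi]; exact Nat.div_mul_le_self _ _
    refine ⟨i + 1, ?_, ?_⟩
    · have : i ≤ M * W / e := by
        rw [hi]
        exact Nat.div_le_div_right (by omega)
      omega
    · have e1 : n + (i + 1) * (M * W - e) =
          W * (M * (A + (i + 1) - δ) + vs) + (Y - (i + 1) * e - vs * W) := by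
        have e2 : (i + 1) * (M * W - e) = (i + 1) * (M * W) - (i + 1) * e := Nat.mul_sub _ _ _
        have e3 : (i + 1) * e = i * e + e := by ring
        have e4 : W * (M * (A + (i + 1) - δ) + vs) + M * W * δ =
            M * W * A + (i + 1) * (M * W) + vs * W := by
          obtain ⟨x, hx⟩ : ∃ x, A + (i + 1) = x + δ := ⟨A + (i + 1) - δ, by omega⟩
          rw [hx, Nat.add_sub_cancel]
          have : M * W * A + (i + 1) * (M * W) = M * W * (A + (i + 1)) := by ring
          rw [this, hx]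
          ring
        have e5 : (i + 1) * e ≤ (i + 1) * (M * W) := Nat.mul_le_mul_left _ (by omega)
        rw [e2]
        omega
      rw [e1, Nat.mul_add_div hW, Nat.div_eq_of_lt, add_zero, Nat.mul_add_mod,
        Nat.mod_eq_of_lt hvs]
      have e3 : (i + 1) * e = i * e + e := by ring
      omega

end Pool.Agent.V11172.Rs
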