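import Mathlib
import Pool.Agent.V11172.RsMain

/-!
# Monochromatic progressions in the Rudin–Shapiro word: all large generic differences
-/

namespace Pool.Agent.V11172.Rs

open Pool.Agent.V11172.Tm (Inv)

set_option maxRecDepth 100000 in
lemma TA_low : ∀ x < 512, Nat.testBit TA (4096 + x) = Nat.testBit TA x := by decide +kernel

lemma block_case {n d b L c fuel p q r0 s : ℕ} {T : List ℕ}
    (hc : check T (List.range (c + 1)) [0] c 512 fuel p q r0 s = true) (hb1 : 1 ≤ b)
    (hm : Mono n d L) (hc0 : 0 < c) (hc9 : c ≤ 9) (hd1 : c * 2 ^ b < d)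
    (hd2 : d < (c + 1) * 2 ^ b) (hI : Inv (2 ^ b) d p q r0 s)
    (hL : 1024 / c + 1 + fuel + 1 + 2 ^ (b + 1) ≤ L) (hT : (2 * d) % 512 ∈ T)
    (hfuel : (c + 1) * fuel ≤ 512) : False := by
  obtain ⟨l, hl, h, v, hu, hv⟩ := hit_block (n := n) (K := 1024) (by norm_num) hc0 hd1 hd2
  have h1 : (n + l * d) / 2 ^ b % 512 = v := by rw [hu]; omega
  have h2 : (n + l * d) / 2 ^ b / 512 = 2 * h := by rw [hu]; omega
  refine run_false (l0 := l) (bb := 0) hc hb1 hm hc0 hd1 hd2 hI (by omega) hT ?_ ?_
    (List.mem_singleton.2 rfl) hfuel ?_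
  · rw [h1]
    exact List.mem_range.2 (by omega)
  · rw [h1]; omega
  · intro x hx
    rw [h2]
    have hf : (r (2 * h) + r (2 * h + 1)).val < 2 := ZMod.val_lt _
    obtain ⟨f, hf'⟩ : ∃ f, f = (r (2 * h) + r (2 * h + 1)).val := ⟨_, rfl⟩
    rw [← hf'] at hf ⊢
    rw [Nat.mul_mod_right]
    have : f = 0 ∨ f = 1 := by omega
    rcases this with rfl | rfl
    · norm_num
    · rw [show (0 + 2 * 0 + 4 * 1) * 1024 + x = 4096 + x by ring, TA_low x hx, zero_add]

lemma class_case {n d b L l0 c fuel p q r0 s a m : ℕ} {T : List ℕ}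
    (hc : check T (cls a m) [0, 2048, 4096, 6144] c 1024 fuel p q r0 s = true) (hb1 : 1 ≤ b)
    (hm : Mono n d L) (hc0 : 0 < c) (hd1 : c * 2 ^ b < d)
    (hd2 : d < (c + 1) * 2 ^ b) (hI : Inv (2 ^ b) d p q r0 s)
    (hL : l0 + fuel + 1 + 2 ^ (b + 1) ≤ L) (hT : (2 * d) % 512 ∈ T) (hm5 : m ∣ 512)
    (hv : (n + l0 * d) / 2 ^ b % m = a) (hfuel : (c + 1) * fuel ≤ 512) : False := by
  obtain ⟨u, hu⟩ : ∃ u, u = (n + l0 * d) / 2 ^ b := ⟨_, rfl⟩
  have hf : (r (u / 512) + r (u / 512 + 1)).val < 2 := ZMod.val_lt _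
  have h512 : u % 512 < 512 := Nat.mod_lt _ (by norm_num)
  refine run_false (l0 := l0)
    (bb := (0 + 2 * (u / 512 % 2) + 4 * (r (u / 512) + r (u / 512 + 1)).val) * 1024)
    hc hb1 hm hc0 hd1 hd2 hI hL hT ?_ ?_ ?_ hfuel ?_
  · rw [← hu]
    unfold cls
    rw [List.mem_filter, List.mem_range, beq_iff_eq, Nat.mod_mod_of_dvd _ hm5]
    exact ⟨h512, by rw [hu]; exact hv⟩
  · rw [← hu]; omega
  · obtain ⟨f, hf'⟩ : ∃ f, f = (r (u / 512) + r (u / 512 + 1)).val := ⟨_, rfl⟩
    rw [← hf'] at hf ⊢
    have h2 : u / 512 % 2 < 2 := Nat.mod_lt _ (by norm_num)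
    obtain ⟨e, he⟩ : ∃ e, e = u / 512 % 2 := ⟨_, rfl⟩
    rw [← he] at h2 ⊢
    have : (e = 0 ∨ e = 1) ∧ (f = 0 ∨ f = 1) := by omega
    rcases this with ⟨rfl | rfl, rfl | rfl⟩ <;> simp
  · intro x _
    rw [← hu]

lemma three_pow (k : ℕ) : 2 ^ k % 3 ≠ 0 := by
  intro h
  have h1 : 3 ∣ 2 ^ k := Nat.dvd_of_mod_eq_zero h
  have h2 := Nat.Prime.dvd_of_dvd_pow Nat.prime_three h1
  revert h2; decide

theorem generic {n d : ℕ} (hd : d % 2 = 1) (h4 : 1536 ≤ d) (h1 : ∀ k, d ≠ 2 ^ k - 1)
    (h2 : ∀ k, d ≠ 2 ^ k + 1) : ¬ Mono n d (d / 2) := by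
  intro hm
  obtain ⟨b, hb⟩ : ∃ b, b = Nat.log 2 (d / 5) := ⟨_, rfl⟩
  have hb1 : 2 ^ b ≤ d / 5 := by rw [hb]; exact Nat.pow_log_le_self 2 (by omega)
  have hb2 : d / 5 < 2 ^ (b + 1) := by rw [hb]; exact Nat.lt_pow_succ_log_self (by norm_num) _
  have hb8 : 8 ≤ b := by
    by_contra hlt
    have : 2 ^ (b + 1) ≤ 2 ^ 8 := Nat.pow_le_pow_right (by norm_num) (by omega)
    omega
  have hbb : 1 ≤ b := by omega
  obtain ⟨w, hw⟩ : ∃ w, 2 ^ b = 256 * w := by
    refine ⟨2 ^ (b - 8), ?_⟩
    calc 2 ^ b = 2 ^ (8 + (b - 8)) := by congr 1; omega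
      _ = 256 * 2 ^ (b - 8) := by rw [pow_add]; norm_num
  have hw0 : 0 < w := by
    rcases Nat.eq_zero_or_pos w with h | h
    · rw [h] at hw
      have : 0 < 2 ^ b := by positivity
      omega
    · exact h
  have hp1 : 2 ^ (b + 1) = 2 * 2 ^ b := by ring
  have hp3 : 2 ^ (b + 3) = 8 * 2 ^ b := by ring
  have hp4 : 2 ^ (b + 4) = 16 * 2 ^ b := by ring
  have h3a := h1 (b + 3)
  have h3b := h2 (b + 3)
  have h3c := three_pow (b + 4)
  rw [hp3] at h3a h3b
  rw [hp4] at h3c
  obtain ⟨W, hW⟩ : ∃ W, W = 2 ^ b := ⟨_, rfl⟩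
  have hWpos : 0 < W := by rw [hW]; positivity
  rw [hp1] at hb2
  have hd5 : 5 * W < d := by omega
  have hd10 : d < 10 * W := by omega
  by_cases h128 : d % 128 = 1 ∨ d % 128 = 127
  · -- special residues
    have hT1 : (2 * d) % 512 ∈ T1 := by
      have : (2 * d) % 512 = 2 ∨ (2 * d) % 512 = 254 ∨ (2 * d) % 512 = 258 ∨
        (2 * d) % 512 = 510 := by omega
      unfold T1
      rcases this with h | h | h | h <;> rw [h] <;> simp
    rcases Nat.lt_or_ge d (6 * W) with c6 | c6
    · rcases Nat.lt_or_ge (17 * W) (3 * d) with c17 | c17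
      · exact block_case chk5' hbb hm (by norm_num) (by norm_num) (by omega) (by omega)
          ⟨by norm_num, by norm_num, by omega, by omega⟩ (by omega) hT1 (by norm_num)
      · have c17' : 3 * d < 17 * W := by omega
        rcases Nat.lt_or_ge (3 * d) (16 * W) with c16 | c16
        · obtain ⟨e, he⟩ : ∃ e, 3 * d + e = 16 * W := ⟨16 * W - 3 * d, by omega⟩
          have he3 : 125 ≤ e := by omega
          obtain ⟨j, hj, hj2⟩ := hit_dn (n := n) (M := 16) (W := W) (e := e) (vs := 3)
            (by norm_num) hWpos (by omega) (by omega)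
          have hje : 16 * W / e ≤ 16 * W / 125 := Nat.div_le_div_left he3 (by norm_num)
          refine class_case (l0 := 3 * j) chk5s hbb hm (by norm_num) (by omega) (by omega)
            ⟨by norm_num, by norm_num, by omega, by omega⟩ (by omega) hT1 ⟨32, by norm_num⟩ ?_
            (by norm_num)
          rw [← hW, show 3 * j * d = j * (3 * d) by ring, show 3 * d = 16 * W - e by omega]
          exact hj2
        · obtain ⟨e, he⟩ : ∃ e, 3 * d = 16 * W + e := ⟨3 * d - 16 * W, by omega⟩
          have he3 : 125 ≤ e := by omega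
          obtain ⟨j, hj, hj2⟩ := hit_up (n := n) (M := 16) (W := W) (e := e) (vs := 3)
            (by norm_num) hWpos (by omega) (by omega)
          have hje : 16 * W / e ≤ 16 * W / 125 := Nat.div_le_div_left he3 (by norm_num)
          refine class_case (l0 := 3 * j) chk5s hbb hm (by norm_num) (by omega) (by omega)
            ⟨by norm_num, by norm_num, by omega, by omega⟩ (by omega) hT1 ⟨32, by norm_num⟩ ?_
            (by norm_num)
          rw [← hW, show 3 * j * d = j * (3 * d) by ring, he]
          exact hj2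
    rcases Nat.lt_or_ge d (7 * W) with c7 | c7
    · exact block_case chk6' hbb hm (by norm_num) (by norm_num) (by omega) (by omega)
        ⟨by norm_num, by norm_num, by omega, by omega⟩ (by omega) hT1 (by norm_num)
    rcases Nat.lt_or_ge d (8 * W) with c8 | c8
    · obtain ⟨e, he⟩ : ∃ e, d + e = 8 * W := ⟨8 * W - d, by omega⟩
      have he3 : 127 ≤ e := by omega
      have hje : 8 * W / e ≤ 8 * W / 127 := Nat.div_le_div_left he3 (by norm_num)
      rcases h128 with h128 | h128
      · obtain ⟨j, hj, hj2⟩ := hit_dn (n := n) (M := 8) (W := W) (e := e) (vs := 7)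
          (by norm_num) hWpos (by omega) (by omega)
        have hTp : (2 * d) % 512 ∈ [2, 258] := by
          have : (2 * d) % 512 = 2 ∨ (2 * d) % 512 = 258 := by omega
          rcases this with h | h <;> rw [h] <;> simp
        refine class_case (l0 := j) chk7p hbb hm (by norm_num) (by omega) (by omega)
          ⟨by norm_num, by norm_num, by omega, by omega⟩ (by omega) hTp ⟨64, by norm_num⟩ ?_
          (by norm_num)
        rw [← hW]
        rw [show 8 * W - e = d by omega] at hj2
        exact hj2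
      · obtain ⟨j, hj, hj2⟩ := hit_dn (n := n) (M := 8) (W := W) (e := e) (vs := 1)
          (by norm_num) hWpos (by omega) (by omega)
        have hTp : (2 * d) % 512 ∈ [254, 510] := by
          have : (2 * d) % 512 = 254 ∨ (2 * d) % 512 = 510 := by omega
          rcases this with h | h <;> rw [h] <;> simp
        refine class_case (l0 := j) chk7m hbb hm (by norm_num) (by omega) (by omega)
          ⟨by norm_num, by norm_num, by omega, by omega⟩ (by omega) hTp ⟨64, by norm_num⟩ ?_
          (by norm_num)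
        rw [← hW]
        rw [show 8 * W - e = d by omega] at hj2
        exact hj2
    rcases Nat.lt_or_ge d (9 * W) with c9 | c9
    · obtain ⟨e, he⟩ : ∃ e, d = 8 * W + e := ⟨d - 8 * W, by omega⟩
      have he3 : 127 ≤ e := by omega
      have hje : 8 * W / e ≤ 8 * W / 127 := Nat.div_le_div_left he3 (by norm_num)
      rcases h128 with h128 | h128
      · obtain ⟨j, hj, hj2⟩ := hit_up (n := n) (M := 8) (W := W) (e := e) (vs := 6)
          (by norm_num) hWpos (by omega) (by omega)
        have hTp : (2 * d) % 512 ∈ [2, 258] := by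
          have : (2 * d) % 512 = 2 ∨ (2 * d) % 512 = 258 := by omega
          rcases this with h | h <;> rw [h] <;> simp
        refine class_case (l0 := j) chk8p hbb hm (by norm_num) (by omega) (by omega)
          ⟨by norm_num, by norm_num, by omega, by omega⟩ (by omega) hTp ⟨64, by norm_num⟩ ?_
          (by norm_num)
        rw [← hW]
        rw [← he] at hj2
        exact hj2
      · obtain ⟨j, hj, hj2⟩ := hit_up (n := n) (M := 8) (W := W) (e := e) (vs := 0)
          (by norm_num) hWpos (by omega) (by omega)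
        have hTp : (2 * d) % 512 ∈ [254, 510] := by
          have : (2 * d) % 512 = 254 ∨ (2 * d) % 512 = 510 := by omega
          rcases this with h | h <;> rw [h] <;> simp
        refine class_case (l0 := j) chk8m hbb hm (by norm_num) (by omega) (by omega)
          ⟨by norm_num, by norm_num, by omega, by omega⟩ (by omega) hTp ⟨64, by norm_num⟩ ?_
          (by norm_num)
        rw [← hW]
        rw [← he] at hj2
        exact hj2
    · exact block_case chk9' hbb hm (by norm_num) (by norm_num) (by omega) (by omega)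
        ⟨by norm_num, by norm_num, by omega, by omega⟩ (by omega) hT1 (by norm_num)
  · -- generic residues
    have hT0 : (2 * d) % 512 ∈ T0 := by
      unfold T0
      rw [List.mem_filter, List.mem_range]
      refine ⟨Nat.mod_lt _ (by norm_num), ?_⟩
      simp only [Bool.and_eq_true, beq_iff_eq, bne_iff_ne, ne_eq]
      omega
    rcases Nat.lt_or_ge d (6 * W) with c6 | c6
    · exact block_case chk5 hbb hm (by norm_num) (by norm_num) (by omega) (by omega)
        ⟨by norm_num, by norm_num, by omega, by omega⟩ (by omega) hT0 (by norm_num)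
    rcases Nat.lt_or_ge d (7 * W) with c7 | c7
    · exact block_case chk6 hbb hm (by norm_num) (by norm_num) (by omega) (by omega)
        ⟨by norm_num, by norm_num, by omega, by omega⟩ (by omega) hT0 (by norm_num)
    rcases Nat.lt_or_ge d (8 * W) with c8 | c8
    · exact block_case chk7 hbb hm (by norm_num) (by norm_num) (by omega) (by omega)
        ⟨by norm_num, by norm_num, by omega, by omega⟩ (by omega) hT0 (by norm_num)
    rcases Nat.lt_or_ge d (9 * W) with c9 | c9
    · exact block_case chk8 hbb hm (by norm_num) (by norm_num) (by omega) (by omega)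
        ⟨by norm_num, by norm_num, by omega, by omega⟩ (by omega) hT0 (by norm_num)
    · exact block_case chk9 hbb hm (by norm_num) (by norm_num) (by omega) (by omega)
        ⟨by norm_num, by norm_num, by omega, by omega⟩ (by omega) hT0 (by norm_num)

end Pool.Agent.V11172.Rs
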