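import Mathlib
import Pool.Agent.V11172.RsFam
import Pool.Agent.V11172.RsGen

/-!
# Monochromatic progressions in the Rudin–Shapiro word: assembly
-/

namespace Pool.Agent.V11172.Rs

lemma odd_small {n d : ℕ} (hd : d % 2 = 1) (h : d ≤ 21) : ¬ Mono n d 16 := by
  have := okr_sound ok_a (d := d) (by omega) (by omega) (by omega) (by simp)
    (by simp only [List.sum_cons, List.sum_nil]; omega) n
  simpa using this

lemma mid_b {n d : ℕ} (hd : d % 2 = 1) (h1 : 23 ≤ d) (h2 : d ≤ 29) : ¬ Mono n d 15 := by
  have := okr_sound ok_b (d := d) (by omega) (by omega) (by omega) (by simp)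
    (by simp only [List.sum_cons, List.sum_nil]; omega) n
  simpa using this

lemma mid_c {n d : ℕ} (hd : d % 2 = 1) (h1 : 31 ≤ d) (h2 : d ≤ 33) : ¬ Mono n d 20 := by
  have := okr_sound ok_c (d := d) (by omega) (by omega) (by omega) (by simp)
    (by simp only [List.sum_cons, List.sum_nil]; omega) n
  simpa using this

lemma mid_d {n : ℕ} : ¬ Mono n 35 21 := by
  have := okr_sound ok_d (d := 35) (by omega) (by omega) (by omega) (by simp)
    (by simp only [List.sum_cons, List.sum_nil]; omega) n
  simpa using this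

lemma mid_e {n : ℕ} : ¬ Mono n 37 22 := by
  have := okr_sound ok_e (d := 37) (by omega) (by omega) (by omega) (by simp)
    (by simp only [List.sum_cons, List.sum_nil]; omega) n
  simpa using this

lemma mid_f {n d : ℕ} (hd : d % 2 = 1) (h1 : 39 ≤ d) (h2 : d ≤ 61) : ¬ Mono n d 23 := by
  have := okr_sound ok_f (d := d) (by omega) (by omega) (by omega) (by simp)
    (by simp only [List.sum_cons, List.sum_nil]; omega) n
  simpa using this

lemma mid_g {n : ℕ} : ¬ Mono n 63 34 := by
  have := okr_sound ok_g (d := 63) (by omega) (by omega) (by omega) (by simp)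
    (by simp only [List.sum_cons, List.sum_nil]; omega) n
  simpa using this

lemma mid_h {n : ℕ} : ¬ Mono n 65 36 := by
  have := okr_sound ok_h (d := 65) (by omega) (by omega) (by omega) (by simp)
    (by simp only [List.sum_cons, List.sum_nil]; omega) n
  simpa using this

lemma mid_i {n d : ℕ} (hd : d % 2 = 1) (h1 : 67 ≤ d) (h2 : d ≤ 253) (h3 : d ≠ 127)
    (h4 : d ≠ 129) : ¬ Mono n d 32 := by
  have := okr_sound ok_i (d := d) (by omega) (by omega) (by omega) (by simp [h3, h4])
    (by simp only [List.sum_cons, List.sum_nil]; omega) n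
  simpa using this

lemma mid_j {n d : ℕ} (hd : d % 2 = 1) (h1 : 127 ≤ d) (h2 : d ≤ 129) : ¬ Mono n d 68 := by
  have := okr_sound ok_j (d := d) (by omega) (by omega) (by omega) (by simp)
    (by simp only [List.sum_cons, List.sum_nil]; omega) n
  simpa using this

lemma mid_m {n d : ℕ} (hd : d % 2 = 1) (h1 : 259 ≤ d) (h2 : d ≤ 1535)
    (h3 : d ∉ [511, 513, 765, 771, 1023, 1025, 1533]) : ¬ Mono n d 32 := by
  have := okr_sound ok_m (d := d) (by omega) (by omega) (by omega) h3
    (by simp only [List.sum_cons, List.sum_nil]; omega) n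
  simpa using this

lemma mid_n {n d : ℕ} (hd : d % 2 = 1) (h1 : 765 ≤ d) (h2 : d ≤ 771) : ¬ Mono n d 128 := by
  have := okr_sound ok_n (d := d) (by omega) (by omega) (by omega) (by simp)
    (by simp only [List.sum_cons, List.sum_nil]; omega) n
  simpa using this

lemma mid_o {n : ℕ} : ¬ Mono n 1533 128 := by
  have := okr_sound ok_o (d := 1533) (by omega) (by omega) (by omega) (by simp)
    (by simp only [List.sum_cons, List.sum_nil]; omega) n
  simpa using this

/-- all odd differences from 67 on, with the exception of `2 ^ k - 1` and `2 ^ k + 1` -/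
theorem generic_all {n d : ℕ} (hd : d % 2 = 1) (h67 : 67 ≤ d) (h1 : ∀ k, d ≠ 2 ^ k - 1)
    (h2 : ∀ k, d ≠ 2 ^ k + 1) : ¬ Mono n d (d / 2) := by
  rcases Nat.lt_or_ge d 1536 with h | h
  · have a7 := h1 7
    have a8 := h1 8
    have a9 := h1 9
    have a10 := h1 10
    have b7 := h2 7
    have b8 := h2 8
    have b9 := h2 9
    have b10 := h2 10
    norm_num at a7 a8 a9 a10 b7 b8 b9 b10
    rcases Nat.lt_or_ge 253 d with h3 | h3
    · by_cases h4 : d ∈ [511, 513, 765, 771, 1023, 1025, 1533]
      · simp only [List.mem_cons, List.not_mem_nil, or_false] at h4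
        rcases h4 with h4 | h4 | h4 | h4 | h4 | h4 | h4
        · exact absurd h4 a9
        · exact absurd h4 b9
        · intro hm
          exact mid_n hd (by omega) (by omega) (hm.mono (by omega))
        · intro hm
          exact mid_n hd (by omega) (by omega) (hm.mono (by omega))
        · exact absurd h4 a10
        · exact absurd h4 b10
        · subst h4
          intro hm
          exact mid_o (hm.mono (by norm_num))
      · intro hm
        exact mid_m hd (by omega) (by omega) h4 (hm.mono (by omega))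
    · intro hm
      exact mid_i hd h67 h3 a7 b7 (hm.mono (by omega))
  · exact generic hd h h1 h2

theorem minusC {K n L : ℕ} (hK : 4 ≤ K)
    (hL : (K % 2 = 0 ∧ L = 2 ^ K + 4) ∨ (K % 2 = 1 ∧ L = 2 ^ K + 2)) :
    ¬ Mono n (2 ^ (K + 1) - 1) L := by
  rcases Nat.lt_or_ge K 7 with h | h
  · interval_cases K
    · have : L = 20 := by omega
      subst this
      exact mid_c (by norm_num) (by norm_num) (by norm_num)
    · have : L = 34 := by omega
      subst this
      exact mid_g
    · have : L = 68 := by omega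
      subst this
      exact mid_j (by norm_num) (by norm_num) (by norm_num)
  · exact minus_bound h hL

theorem plusC {K n : ℕ} (hK : 4 ≤ K) : ¬ Mono n (2 ^ (K + 1) + 1) (2 ^ K + 4) := by
  rcases Nat.lt_or_ge K 7 with h | h
  · interval_cases K
    · exact mid_c (by norm_num) (by norm_num) (by norm_num)
    · exact mid_h
    · exact mid_j (by norm_num) (by norm_num) (by norm_num)
  · exact plus_bound h

/-- Odd `d ≥ 23`, not of the form `2 ^ k - 1`. -/
theorem oddA {n d : ℕ} (hd : d % 2 = 1) (h23 : 23 ≤ d) (h1 : ∀ k, d ≠ 2 ^ k - 1) :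
    ¬ Mono n d ((d + 7) / 2) := by
  intro hm
  have a5 := h1 5
  have a6 := h1 6
  norm_num at a5 a6
  rcases Nat.lt_or_ge d 31 with h | h
  · exact mid_b hd h23 (by omega) (hm.mono (by omega))
  rcases Nat.lt_or_ge d 35 with h | h
  · exact mid_c hd (by omega) (by omega) (hm.mono (by omega))
  rcases Nat.lt_or_ge d 37 with h | h
  · have : d = 35 := by omega
    subst this
    exact mid_d hm
  rcases Nat.lt_or_ge d 39 with h | h
  · have : d = 37 := by omega
    subst this
    exact mid_e hm
  rcases Nat.lt_or_ge d 63 with h | h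
  · exact mid_f hd (by omega) (by omega) (hm.mono (by omega))
  rcases Nat.lt_or_ge d 67 with h | h
  · have : d = 65 := by omega
    subst this
    exact mid_h hm
  by_cases hp : ∃ k, d = 2 ^ k + 1
  · obtain ⟨k, hk⟩ := hp
    have hk7 : 5 < k := by
      by_contra hlt
      have : 2 ^ k ≤ 2 ^ 5 := Nat.pow_le_pow_right (by norm_num) (by omega)
      omega
    obtain ⟨K, rfl⟩ : ∃ K, k = K + 1 := ⟨k - 1, by omega⟩
    subst hk
    apply plusC (K := K) (n := n) (by omega)
    apply hm.mono
    rw [pow_succ]
    omega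
  · push Not at hp
    exact generic_all hd h h1 hp (hm.mono (by omega))

/-- A bound for all differences. -/
theorem allA : ∀ (d : ℕ), 1 ≤ d → ∀ n, ¬ Mono n d (max 16 ((d + 9) / 2)) := by
  intro d
  induction d using Nat.strong_induction_on with
  | _ d ih =>
    intro hd n hm
    rcases Nat.even_or_odd' d with ⟨e, he | he⟩
    · subst he
      obtain ⟨m, hm2⟩ := half hm
      exact ih e (by omega) (by omega) m (hm2.mono (by omega))
    · have hd2 : d % 2 = 1 := by omega
      rcases Nat.lt_or_ge d 23 with h | h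
      · exact odd_small hd2 (by omega) (hm.mono (by omega))
      · by_cases hk : ∃ k, d = 2 ^ k - 1
        · obtain ⟨k, hk⟩ := hk
          have hk5 : 4 < k := by
            by_contra hlt
            have : 2 ^ k ≤ 2 ^ 4 := Nat.pow_le_pow_right (by norm_num) (by omega)
            omega
          obtain ⟨K, rfl⟩ : ∃ K, k = K + 1 := ⟨k - 1, by omega⟩
          subst hk
          have hp : 2 ^ (K + 1) = 2 * 2 ^ K := by ring
          rcases Nat.mod_two_eq_zero_or_one K with h0 | h0
          · exact minusC (K := K) (n := n) (L := 2 ^ K + 4) (by omega) (Or.inl ⟨h0, rfl⟩)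
              (hm.mono (by omega))
          · exact minusC (K := K) (n := n) (L := 2 ^ K + 2) (by omega) (Or.inr ⟨h0, rfl⟩)
              (hm.mono (by omega))
        · push Not at hk
          exact oddA hd2 h hk (hm.mono (by omega))

/-- Differences below `2 ^ k - 1`. -/
theorem allB {k d : ℕ} (hk : 5 ≤ k) (hd : 1 ≤ d) (hdk : d + 2 ≤ 2 ^ k) (n : ℕ) :
    ¬ Mono n d (2 ^ (k - 1) + 1) := by
  intro hm
  obtain ⟨s, rfl⟩ : ∃ s, k = s + 1 := ⟨k - 1, by omega⟩
  rw [Nat.add_sub_cancel] at hm
  have hp : 2 ^ (s + 1) = 2 * 2 ^ s := by ring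
  have hs16 : 16 ≤ 2 ^ s := by
    calc 16 = 2 ^ 4 := by norm_num
      _ ≤ 2 ^ s := Nat.pow_le_pow_right (by norm_num) (by omega)
  rcases Nat.even_or_odd' d with ⟨e, he | he⟩
  · subst he
    obtain ⟨m, hm2⟩ := half hm
    exact allA e (by omega) m (hm2.mono (by omega))
  · have hd2 : d % 2 = 1 := by omega
    rcases Nat.lt_or_ge d 31 with h | h
    · rcases Nat.lt_or_ge d 23 with h' | h'
      · exact odd_small hd2 (by omega) (hm.mono (by omega))
      · exact mid_b hd2 h' (by omega) (hm.mono (by omega))
    -- now `s ≥ 5`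
    have hs5 : 5 ≤ s := by
      by_contra hlt
      have : 2 ^ s ≤ 2 ^ 4 := Nat.pow_le_pow_right (by norm_num) (by omega)
      omega
    have hs32 : 32 ≤ 2 ^ s := by
      calc 32 = 2 ^ 5 := by norm_num
        _ ≤ 2 ^ s := Nat.pow_le_pow_right (by norm_num) hs5
    rcases Nat.lt_or_ge d 63 with h' | h'
    · rcases Nat.lt_or_ge d 35 with h2 | h2
      · exact mid_c hd2 h (by omega) (hm.mono (by omega))
      rcases Nat.lt_or_ge d 39 with h3 | h3
      · have : d = 35 ∨ d = 37 := by omega
        rcases this with rfl | rfl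
        · exact mid_d (hm.mono (by omega))
        · exact mid_e (hm.mono (by omega))
      · exact mid_f hd2 h3 (by omega) (hm.mono (by omega))
    have hs6 : 6 ≤ s := by
      by_contra hlt
      have : 2 ^ s ≤ 2 ^ 5 := Nat.pow_le_pow_right (by norm_num) (by omega)
      omega
    have hs64 : 64 ≤ 2 ^ s := by
      calc 64 = 2 ^ 6 := by norm_num
        _ ≤ 2 ^ s := Nat.pow_le_pow_right (by norm_num) hs6
    rcases Nat.lt_or_ge d 67 with h2 | h2
    · have : d = 63 ∨ d = 65 := by omega
      rcases this with rfl | rfl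
      · exact mid_g (hm.mono (by omega))
      · exact mid_h (hm.mono (by omega))
    by_cases hmi : ∃ k, d = 2 ^ k - 1
    · obtain ⟨q, hq⟩ := hmi
      have hq5 : 4 < q := by
        by_contra hlt
        have : 2 ^ q ≤ 2 ^ 4 := Nat.pow_le_pow_right (by norm_num) (by omega)
        omega
      obtain ⟨K, rfl⟩ : ∃ K, q = K + 1 := ⟨q - 1, by omega⟩
      have hKs : K + 1 ≤ s := by
        by_contra hlt
        have : 2 ^ (s + 1) ≤ 2 ^ (K + 1) := Nat.pow_le_pow_right (by norm_num) (by omega)
        omega
      have hle : 2 ^ (K + 1) ≤ 2 ^ s := Nat.pow_le_pow_right (by norm_num) hKs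
      subst hq
      have hp : 2 ^ (K + 1) = 2 * 2 ^ K := by ring
      rcases Nat.mod_two_eq_zero_or_one K with h0 | h0
      · exact minusC (K := K) (n := n) (L := 2 ^ K + 4) (by omega) (Or.inl ⟨h0, rfl⟩)
          (hm.mono (by omega))
      · exact minusC (K := K) (n := n) (L := 2 ^ K + 2) (by omega) (Or.inr ⟨h0, rfl⟩)
          (hm.mono (by omega))
    · push Not at hmi
      by_cases hpl : ∃ k, d = 2 ^ k + 1
      · obtain ⟨q, hq⟩ := hpl
        have hq5 : 4 < q := by
          by_contra hlt
          have : 2 ^ q ≤ 2 ^ 4 := Nat.pow_le_pow_right (by norm_num) (by omega)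
          omega
        obtain ⟨K, rfl⟩ : ∃ K, q = K + 1 := ⟨q - 1, by omega⟩
        have hKs : K + 1 ≤ s := by
          by_contra hlt
          have : 2 ^ (s + 1) ≤ 2 ^ (K + 1) := Nat.pow_le_pow_right (by norm_num) (by omega)
          omega
        have hle : 2 ^ (K + 1) ≤ 2 ^ s := Nat.pow_le_pow_right (by norm_num) hKs
        subst hq
        have hp : 2 ^ (K + 1) = 2 * 2 ^ K := by ring
        exact plusC (K := K) (n := n) (by omega) (hm.mono (by omega))
      · push Not at hpl
        exact generic_all hd2 h2 hmi hpl (hm.mono (by omega))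

end Pool.Agent.V11172.Rs
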