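import Mathlib
import Pool.Agent.V11172.TmMain

/-!
# Monochromatic progressions in the Thue–Morse word: the differences `2 ^ k ± 1`
-/

namespace Pool.Agent.V11172.Tm

/-! ### `d = 2 ^ b + 1` -/

lemma plus_one {n b : ℕ} (hb : 3 ≤ b) : ¬ Mono n (2 ^ b + 1) (2 ^ b + 6) := by
  rintro ⟨c, hm⟩
  obtain ⟨d, hd⟩ : ∃ d, d = 2 ^ b + 1 := ⟨_, rfl⟩
  rw [← hd] at hm
  obtain ⟨M, hM⟩ : ∃ M, M = 2 ^ (2 * b) := ⟨_, rfl⟩
  have hb8 : 8 ≤ 2 ^ b := by
    calc 8 = 2 ^ 3 := by norm_num
      _ ≤ 2 ^ b := Nat.pow_le_pow_right (by norm_num) hb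
  have hMb : M = 2 ^ b * 2 ^ b := by rw [hM, two_mul, pow_add]
  have hM6 : 6 * d < M := by
    rw [hMb, hd]
    have : 8 * 2 ^ b ≤ 2 ^ b * 2 ^ b := Nat.mul_le_mul_right _ hb8
    omega
  have hM4 : M % 4 = 0 := by
    rw [hMb, show b = (b - 2) + 2 by omega, pow_add]
    have : 2 ^ (b - 2) * 2 ^ 2 * (2 ^ (b - 2) * 2 ^ 2) = 4 * (4 * (2 ^ (b - 2) * 2 ^ (b - 2))) := by
      ring
    rw [this]
    exact Nat.mul_mod_right _ _
  have hMpos : 0 < M := by rw [hM]; positivity
  have hd4 : d % 4 = 1 := by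
    have : 2 ^ b = 4 * 2 ^ (b - 2) := by
      rw [show b = (b - 2) + 2 by omega, pow_add]
      simp
      ring
    omega
  have hsd : (2 ^ b - 1) * d + 1 = M := by
    rw [hMb, hd]
    obtain ⟨x, hx⟩ : ∃ x, 2 ^ b = x + 1 := ⟨2 ^ b - 1, by omega⟩
    rw [hx]
    simp
    ring
  -- the relation
  have rel : ∀ l ≤ 6, (n + l * d) % M ≠ 0 →
      t ((n + l * d) / M) + t ((n + l * d) / M + 1) =
        t ((n + l * d) % M) + t ((n + l * d) % M - 1) := by
    intro l hl h0
    have h1 := hm l (by omega)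
    have h2 := hm (l + (2 ^ b - 1)) (by omega)
    have hlt : (n + l * d) % M < M := Nat.mod_lt _ hMpos
    have e1 : n + l * d = M * ((n + l * d) / M) + (n + l * d) % M := (Nat.div_add_mod _ _).symm
    have e2 : n + (l + (2 ^ b - 1)) * d =
        M * ((n + l * d) / M + 1) + ((n + l * d) % M - 1) := by
      have e3 : (l + (2 ^ b - 1)) * d = l * d + (2 ^ b - 1) * d := by ring
      have e4 : M * ((n + l * d) / M + 1) = M * ((n + l * d) / M) + M := by ring
      omega
    rw [e2, hM, t_block _ _ _ (by rw [← hM]; omega), ← hM] at h2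
    rw [e1, hM, t_block _ _ _ (by rw [← hM]; exact hlt), ← hM] at h1
    have a1 := aa (t ((n + l * d) / M))
    have a2 := aa (t ((n + l * d) % M - 1))
    linear_combination h1 - h2 + aa (t ((n + l * d) / M + 1)) - aa (t ((n + l * d) % M))
  -- the right hand side depends on the residue mod 4
  have rodd : ∀ a, a % 2 = 1 → t a + t (a - 1) = 1 := by
    intro a ha
    obtain ⟨x, rfl⟩ : ∃ x, a = 2 * x + 1 := ⟨a / 2, by omega⟩
    rw [Nat.add_sub_cancel, t_odd, t_even]
    linear_combination aa (t x)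
  have rtwo : ∀ a, a % 4 = 2 → t a + t (a - 1) = 0 := by
    intro a ha
    obtain ⟨x, rfl⟩ : ∃ x, a = 2 * (2 * x + 1) := ⟨a / 4, by omega⟩
    rw [show 2 * (2 * x + 1) - 1 = 2 * (2 * x) + 1 by omega, t_odd, t_even, t_even, t_odd]
    linear_combination aa (t x) + aa 1
  -- two neighbours, one of which is 2 mod 4, lie in different blocks
  have nb : ∀ l l', l ≤ 6 → l' ≤ 6 → (n + l * d) % 4 = 2 → (n + l' * d) % 2 = 1 →
      (n + l * d) / M ≠ (n + l' * d) / M := by
    intro l l' hl hl' h1 h2 heq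
    have g1 : (n + l * d) % M % 4 = 2 := by
      rw [Nat.mod_mod_of_dvd _ (Nat.dvd_of_mod_eq_zero hM4)]; exact h1
    have g2 : (n + l' * d) % M % 2 = 1 := by
      rw [Nat.mod_mod_of_dvd _ (by omega)]; exact h2
    have r1 := rel l hl (by omega)
    have r2 := rel l' hl' (by omega)
    rw [rtwo _ g1, heq] at r1
    rw [rodd _ g2, r1] at r2
    exact absurd r2 (by decide)
  -- at most one change
  have mono : ∀ l l', l ≤ l' → (n + l * d) / M ≤ (n + l' * d) / M := by
    intro l l' h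
    apply Nat.div_le_div_right
    have := Nat.mul_le_mul_right d h
    omega
  have top : (n + 6 * d) / M ≤ (n + 0 * d) / M + 1 := by
    calc (n + 6 * d) / M ≤ (n + 0 * d + M) / M := Nat.div_le_div_right (by omega)
      _ = (n + 0 * d) / M + 1 := Nat.add_div_right _ hMpos
  obtain ⟨l0, hl0, hl02⟩ : ∃ l0, l0 ≤ 3 ∧ (n + l0 * d) % 4 = 2 := by
    have : n % 4 < 4 := Nat.mod_lt _ (by norm_num)
    rcases (show n % 4 = 0 ∨ n % 4 = 1 ∨ n % 4 = 2 ∨ n % 4 = 3 by omega) with h | h | h | h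
    · exact ⟨2, by norm_num, by omega⟩
    · exact ⟨1, by norm_num, by omega⟩
    · exact ⟨0, by norm_num, by omega⟩
    · exact ⟨3, by norm_num, by omega⟩
  rcases Nat.eq_zero_or_pos l0 with h0 | h0
  · subst h0
    have p1 := nb 0 1 (by norm_num) (by norm_num) hl02 (by omega)
    have p2 := nb 4 3 (by norm_num) (by norm_num) (by omega) (by omega)
    have q1 := mono 0 1 (by norm_num)
    have q2 := mono 1 3 (by norm_num)
    have q3 := mono 3 4 (by norm_num)
    have q4 := mono 4 6 (by norm_num)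
    omega
  · obtain ⟨l1, rfl⟩ : ∃ l1, l0 = l1 + 1 := ⟨l0 - 1, by omega⟩
    have e1 : (l1 + 1) * d = l1 * d + d := by ring
    have e2 : (l1 + 1 + 1) * d = l1 * d + d + d := by ring
    have p1 := nb (l1 + 1) l1 (by omega) (by omega) hl02 (by omega)
    have p2 := nb (l1 + 1) (l1 + 1 + 1) (by omega) (by omega) hl02 (by omega)
    have q1 := mono 0 l1 (by omega)
    have q2 := mono l1 (l1 + 1) (by omega)
    have q3 := mono (l1 + 1) (l1 + 1 + 1) (by omega)
    have q4 := mono (l1 + 1 + 1) 6 (by omega)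
    omega

/-! ### `d = 2 ^ k - 1` -/

lemma t_compl : ∀ (k j : ℕ), j < 2 ^ k → t (2 ^ k - 1 - j) = (k : ZMod 2) + t j
  | 0, j, h => by
    have : j = 0 := by simpa using h
    subst this
    simp [t_zero]
  | k + 1, j, h => by
    have h2 : j / 2 < 2 ^ k := by rw [pow_succ] at h; omega
    have ih := t_compl k (j / 2) h2
    have hp : 2 ^ (k + 1) = 2 * 2 ^ k := by ring
    rcases Nat.even_or_odd' j with ⟨v, hv | hv⟩
    · subst hv
      rw [show 2 * v / 2 = v by omega] at ih
      rw [show 2 ^ (k + 1) - 1 - 2 * v = 2 * (2 ^ k - 1 - v) + 1 by omega, t_odd, ih, t_even]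
      push_cast
      ring
    · subst hv
      rw [show (2 * v + 1) / 2 = v by omega] at ih
      rw [show 2 ^ (k + 1) - 1 - (2 * v + 1) = 2 * (2 ^ k - 1 - v) by omega, t_even, ih, t_odd]
      push_cast
      linear_combination -aa 1

/-- first part of the progression -/
lemma minus_first (k h r l : ℕ) (hl : l ≤ r) (hr : r < 2 ^ k) :
    t (2 ^ k * h + r + l * (2 ^ k - 1)) = t (h + l) + t (r - l) := by
  have hp : 0 < 2 ^ k := by positivity
  have e : 2 ^ k * h + r + l * (2 ^ k - 1) = 2 ^ k * (h + l) + (r - l) := by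
    rw [Nat.mul_sub, mul_one, mul_add, mul_comm l]
    have : l ≤ 2 ^ k * l := Nat.le_mul_of_pos_left _ hp
    omega
  rw [e, t_block _ _ _ (by omega)]

/-- second part -/
lemma minus_second (k h r j : ℕ) (hr : r < 2 ^ k) (hj : j < 2 ^ k) :
    t (2 ^ k * h + r + (r + 1 + j) * (2 ^ k - 1)) = t (h + r + j) + k + t j := by
  have hp : 0 < 2 ^ k := by positivity
  have e : 2 ^ k * h + r + (r + 1 + j) * (2 ^ k - 1) = 2 ^ k * (h + r + j) + (2 ^ k - 1 - j) := by
    obtain ⟨x, hx⟩ : ∃ x, 2 ^ k = x + 1 + j := ⟨2 ^ k - 1 - j, by omega⟩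
    rw [hx, show x + 1 + j - 1 = x + j by omega, show x + j - j = x by omega]
    ring
  rw [e, t_block _ _ _ (by omega), t_compl _ _ hj]
  ring

/-- third part -/
lemma minus_third (k h r j : ℕ) (hr : r < 2 ^ k) (hj : j < 2 ^ k) :
    t (2 ^ k * h + r + (r + 2 ^ k + 1 + j) * (2 ^ k - 1)) = t (h + r + 2 ^ k - 1 + j) + k + t j := by
  have hp : 0 < 2 ^ k := by positivity
  have e : 2 ^ k * h + r + (r + 2 ^ k + 1 + j) * (2 ^ k - 1) =
      2 ^ k * (h + r + 2 ^ k - 1 + j) + (2 ^ k - 1 - j) := by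
    obtain ⟨x, hx⟩ : ∃ x, 2 ^ k = x + 1 + j := ⟨2 ^ k - 1 - j, by omega⟩
    rw [hx, show x + 1 + j - 1 = x + j by omega, show x + j - j = x by omega,
      show h + r + (x + 1 + j) - 1 + j = h + r + x + j + j by omega]
    ring
  rw [e, t_block _ _ _ (by omega), t_compl _ _ hj]
  ring

lemma minus_odd {n k : ℕ} (hk : k % 2 = 1) : ¬ Mono n (2 ^ k - 1) (2 ^ k + 1) := by
  rintro ⟨c, hm⟩
  obtain ⟨h, hh⟩ : ∃ h, h = n / 2 ^ k := ⟨_, rfl⟩
  obtain ⟨r, hr⟩ : ∃ r, r = n % 2 ^ k := ⟨_, rfl⟩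
  have hr2 : r < 2 ^ k := by rw [hr]; exact Nat.mod_lt _ (by positivity)
  have hn : n = 2 ^ k * h + r := by rw [hh, hr]; exact (Nat.div_add_mod _ _).symm
  rw [hn] at hm
  have h1 := hm r (by omega)
  have h2 := hm (r + 1 + 0) (by omega)
  rw [minus_first k h r r le_rfl hr2, Nat.sub_self, t_zero] at h1
  rw [minus_second k h r 0 hr2 (by positivity), t_zero] at h2
  have hk2 : (k : ZMod 2) = 1 := by
    have : ((k : ℕ) : ZMod 2) = ((1 : ℕ) : ZMod 2) := by
      rw [ZMod.natCast_eq_natCast_iff']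
      omega
    simpa using this
  rw [hk2] at h2
  simp only [add_zero] at h1 h2
  rw [h1] at h2
  rcases zc c with h3 | h3 <;> rw [h3] at h2 <;> exact absurd h2 (by decide)

lemma minus_even {n k : ℕ} (hk : k % 2 = 0) (hk2 : 2 ≤ k) :
    ¬ Mono n (2 ^ k - 1) (2 ^ k + 5) := by
  rintro ⟨c, hm⟩
  obtain ⟨h, hh⟩ : ∃ h, h = n / 2 ^ k := ⟨_, rfl⟩
  obtain ⟨r, hr⟩ : ∃ r, r = n % 2 ^ k := ⟨_, rfl⟩
  have hr2 : r < 2 ^ k := by rw [hr]; exact Nat.mod_lt _ (by positivity)
  have hn : n = 2 ^ k * h + r := by rw [hh, hr]; exact (Nat.div_add_mod _ _).symm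
  rw [hn] at hm
  have hk4 : 4 ≤ 2 ^ k := by
    calc 4 = 2 ^ 2 := by norm_num
      _ ≤ 2 ^ k := Nat.pow_le_pow_right (by norm_num) hk2
  have hk4' : 2 ^ k % 4 = 0 := by
    rw [show k = (k - 2) + 2 by omega, pow_add]
    omega
  have hkz : (k : ZMod 2) = 0 := by
    have : ((k : ℕ) : ZMod 2) = ((0 : ℕ) : ZMod 2) := by
      rw [ZMod.natCast_eq_natCast_iff']
      omega
    simpa using this
  have t1 : t 1 = 1 := by
    have := t_odd 0
    simpa [t_zero] using this
  have t2 : t 2 = 1 := by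
    have := t_even 1
    rw [show 2 * 1 = 2 by norm_num] at this
    rw [this, t1]
  obtain ⟨g, hg⟩ : ∃ g, g = h + r := ⟨_, rfl⟩
  rcases Nat.mod_two_eq_zero_or_one g with hge | hgo
  · -- `g` even
    have hr1 : r ≤ 1 := by
      by_contra hlt
      push Not at hlt
      have h1 := hm (r - 1) (by omega)
      have h2 := hm (r - 2) (by omega)
      rw [minus_first k h r (r - 1) (by omega) hr2, show r - (r - 1) = 1 by omega, t1,
        show h + (r - 1) = 2 * (g / 2 - 1) + 1 by omega, t_odd] at h1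
      rw [minus_first k h r (r - 2) (by omega) hr2, show r - (r - 2) = 2 by omega, t2,
        show h + (r - 2) = 2 * (g / 2 - 1) by omega, t_even] at h2
      have : (1 : ZMod 2) = 0 := by linear_combination h1 - h2
      exact absurd this (by decide)
    have h1 := hm (r + 2 ^ k + 1 + 1) (by omega)
    have h2 := hm (r + 2 ^ k + 1 + 2) (by omega)
    rw [minus_third k h r 1 hr2 (by omega), t1, hkz,
      show h + r + 2 ^ k - 1 + 1 = 2 * ((g + 2 ^ k) / 2) by omega, t_even] at h1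
    rw [minus_third k h r 2 hr2 (by omega), t2, hkz,
      show h + r + 2 ^ k - 1 + 2 = 2 * ((g + 2 ^ k) / 2) + 1 by omega, t_odd] at h2
    have : (1 : ZMod 2) = 0 := by linear_combination h2 - h1
    exact absurd this (by decide)
  · have h1 := hm (r + 1 + 1) (by omega)
    have h2 := hm (r + 1 + 2) (by omega)
    rw [minus_second k h r 1 hr2 (by omega), t1, hkz,
      show h + r + 1 = 2 * ((g + 1) / 2) by omega, t_even] at h1
    rw [minus_second k h r 2 hr2 (by omega), t2, hkz,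
      show h + r + 2 = 2 * ((g + 1) / 2) + 1 by omega, t_odd] at h2
    have : (1 : ZMod 2) = 0 := by linear_combination h2 - h1
    exact absurd this (by decide)

/-- the long progression for even `k` -/
lemma minus_long (k : ℕ) (hk : k % 2 = 0) (hk2 : 2 ≤ k) :
    ∀ l < 2 ^ k + 4, t (2 ^ k * (3 * 2 ^ k - 1) + 1 + l * (2 ^ k - 1)) = 0 := by
  have hk4 : 4 ≤ 2 ^ k := by
    calc 4 = 2 ^ 2 := by norm_num
      _ ≤ 2 ^ k := Nat.pow_le_pow_right (by norm_num) hk2
  have hkz : (k : ZMod 2) = 0 := by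
    have : ((k : ℕ) : ZMod 2) = ((0 : ℕ) : ZMod 2) := by
      rw [ZMod.natCast_eq_natCast_iff']
      omega
    simpa using this
  have t1 : t 1 = 1 := by
    have := t_odd 0
    simpa [t_zero] using this
  have t2 : t 2 = 1 := by
    have := t_even 1
    rw [show 2 * 1 = 2 by norm_num] at this
    rw [this, t1]
  have t3 : t 3 = 0 := by
    have := t_odd 1
    rw [show 2 * 1 + 1 = 3 by norm_num] at this
    rw [this, t1]; decide
  have t4 : t 4 = 1 := by
    have := t_even 2
    rw [show 2 * 2 = 4 by norm_num] at this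
    rw [this, t2]
  intro l hl
  rcases Nat.lt_or_ge l 2 with h | h
  · rw [minus_first k (3 * 2 ^ k - 1) 1 l (by omega) (by omega)]
    rcases (show l = 0 ∨ l = 1 by omega) with rfl | rfl
    · have hc := t_block k 2 (2 ^ k - 1) (by omega)
      have hc2 := t_compl k 0 (by omega)
      rw [Nat.sub_zero] at hc2
      rw [show 3 * 2 ^ k - 1 + 0 = 2 ^ k * 2 + (2 ^ k - 1) by omega, hc, hc2, t2, hkz, t_zero, t1]
      decide
    · have hc := t_block k 3 0 (by omega)
      rw [show 3 * 2 ^ k - 1 + 1 = 2 ^ k * 3 + 0 by omega, hc, t3, t_zero]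
      decide
  rcases Nat.lt_or_ge l (2 + 2 ^ k) with h' | h'
  · obtain ⟨j, rfl⟩ : ∃ j, l = 1 + 1 + j := ⟨l - 2, by omega⟩
    have hc := t_block k 3 j (by omega)
    rw [minus_second k (3 * 2 ^ k - 1) 1 j (by omega) (by omega),
      show 3 * 2 ^ k - 1 + 1 + j = 2 ^ k * 3 + j by omega, hc, t3, hkz]
    linear_combination aa (t j)
  · obtain ⟨j, rfl⟩ : ∃ j, l = 1 + 2 ^ k + 1 + j := ⟨l - (2 ^ k + 2), by omega⟩
    rw [minus_third k (3 * 2 ^ k - 1) 1 j (by omega) (by omega), hkz]
    rcases (show j = 0 ∨ j = 1 by omega) with rfl | rfl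
    · have hc := t_block k 3 (2 ^ k - 1) (by omega)
      have hc2 := t_compl k 0 (by omega)
      rw [Nat.sub_zero] at hc2
      rw [show 3 * 2 ^ k - 1 + 1 + 2 ^ k - 1 + 0 = 2 ^ k * 3 + (2 ^ k - 1) by omega, hc, hc2, t3,
        hkz, t_zero]
      decide
    · have hc := t_block k 4 0 (by omega)
      rw [show 3 * 2 ^ k - 1 + 1 + 2 ^ k - 1 + 1 = 2 ^ k * 4 + 0 by omega, hc, t4, t_zero, t1]
      decide

/-! ### Assembly -/

lemma odd_case {n d : ℕ} (hd : d % 2 = 1) (hd1 : ∀ k, 2 ≤ k → k % 2 = 0 → d ≠ 2 ^ k - 1) :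
    ¬ Mono n d (d + 5) := by
  -- the size of `d`
  rcases Nat.eq_or_lt_of_le (show 1 ≤ d by omega) with h1 | h1
  · -- `d = 1`
    subst h1
    intro hm
    exact minus_odd (k := 1) (by norm_num) (n := n) (by norm_num; exact hm.mono (by norm_num))
  obtain ⟨b, hb⟩ : ∃ b, b = Nat.log 2 d := ⟨_, rfl⟩
  have hb1 : 2 ^ b ≤ d := by rw [hb]; exact Nat.pow_log_le_self 2 (by omega)
  have hb2 : d < 2 * 2 ^ b := by
    rw [← pow_succ', hb]
    exact Nat.lt_pow_succ_log_self (by norm_num) d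
  have hb0 : 1 ≤ b := by
    rw [hb]
    exact Nat.log_pos (by norm_num) (by omega)
  have hbe : 2 ^ b % 2 = 0 := by
    rw [show b = (b - 1) + 1 by omega, pow_succ]
    omega
  have hb3 : 2 ^ b + 1 ≤ d := by omega
  -- `d = 2 ^ (b + 1) - 1`
  rcases Nat.eq_or_lt_of_le (show d + 1 ≤ 2 * 2 ^ b by omega) with h2 | h2
  · have hd2 : d = 2 ^ (b + 1) - 1 := by rw [pow_succ']; omega
    rcases Nat.mod_two_eq_zero_or_one (b + 1) with h3 | h3
    · exact absurd hd2 (hd1 (b + 1) (by omega) h3)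
    · intro hm
      have := minus_odd h3 (n := n)
      rw [← hd2] at this
      apply this
      apply hm.mono
      rw [pow_succ']
      omega
  have h2' : d + 3 ≤ 2 * 2 ^ b := by omega
  -- `d = 2 ^ b + 1`
  rcases Nat.eq_or_lt_of_le hb3 with h3 | h3
  · have hb2' : 2 ≤ b := by
      by_contra hlt
      have : b = 1 := by omega
      subst this
      omega
    rcases Nat.eq_or_lt_of_le hb2' with h4 | h4
    · subst h4
      have : d = 5 := by omega
      subst this
      exact from_direct (by norm_num) (by norm_num) direct5 n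
    · intro hm
      have := plus_one (n := n) (b := b) h4
      rw [h3] at this
      apply this
      apply hm.mono
      omega
  have h3' : 2 ^ b + 3 ≤ d := by omega
  rcases Nat.lt_or_ge (5 * d) (6 * 2 ^ b) with h4 | h4
  · exact class1 hd h3' h4
  rcases Nat.lt_or_ge (9 * 2 ^ b) (5 * d) with h5 | h5
  · exact class2 hd h5 h2'
  rcases Nat.lt_or_ge d (2 ^ b + 15) with h6 | h6
  · -- finitely many
    have hb7 : b < 7 := by
      by_contra hlt
      have : 2 ^ 7 ≤ 2 ^ b := Nat.pow_le_pow_right (by norm_num) (by omega)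
      omega
    interval_cases b
    · omega
    · omega
    · have : d = 11 ∨ d = 13 := by omega
      rcases this with rfl | rfl
      · exact from_direct (by norm_num) (by norm_num) direct11 n
      · exact from_direct (by norm_num) (by norm_num) direct13 n
    · have : d = 21 ∨ d = 23 ∨ d = 25 ∨ d = 27 := by omega
      rcases this with rfl | rfl | rfl | rfl
      · exact case21 n
      · exact case23 n
      · exact case25 n
      · exact case27 n
    · have : d = 39 ∨ d = 41 ∨ d = 43 ∨ d = 45 := by omega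
      rcases this with rfl | rfl | rfl | rfl
      · exact case39 n
      · exact case41 n
      · exact case43 n
      · exact case45 n
    · have : d = 77 := by omega
      subst this
      exact case77 n
  · exact class0 hd h6 (by omega)

end Pool.Agent.V11172.Tm
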