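import Mathlib

namespace Pool.Agent.V11172.DLHist

open PowerSeries

/-- Species trees: rooted binary trees, every internal node has exactly two children (listed in
some order; the series `H` below does not depend on the order). -/
inductive SpeciesTree : Type
  | leaf : SpeciesTree
  | node (l r : SpeciesTree) : SpeciesTree

/-- The size of a species tree: its number of leaves. -/
def SpeciesTree.size : SpeciesTree → ℕ
  | .leaf => 1
  | .node l r => l.size + r.size

/-- A species tree is balanced if at every internal node the leaf counts of its two subtrees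
differ by at most one. -/
def SpeciesTree.Balanced : SpeciesTree → Prop
  | .leaf => True
  | .node l r => l.Balanced ∧ r.Balanced ∧ l.size ≤ r.size + 1 ∧ r.size ≤ l.size + 1

/-- The caterpillar with `k` leaves (`k ≥ 1`): one leaf for `k = 1`, and for `k ≥ 2` its two
subtrees are the caterpillar with `k - 1` leaves and a leaf. (The value at `0` is irrelevant.) -/
def caterpillar : ℕ → SpeciesTree
  | 0 => .leaf
  | 1 => .leaf
  | k + 2 => .node (caterpillar (k + 1)) .leaf

/-- `B(z) = (1 - √(1 - 4 z)) / 2 = z ∑ₘ Cₘ zᵐ` with the Catalan numbers `Cₘ`. -/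
noncomputable def B : PowerSeries ℝ := X * (catalanSeries.map (Nat.castRingHom ℝ))

/-- The generating function `H_u(z)` at the root `u` of a species tree. -/
noncomputable def H : SpeciesTree → PowerSeries ℝ
  | .leaf => B
  | .node l r => B.subst (H l * H r + H l + H r)

/-- The number `h_S(n) = [zⁿ] H_root(z)`. -/
noncomputable def h (S : SpeciesTree) (n : ℕ) : ℝ := coeff n (H S)

/-! ### The functional equation -/

/-- `b` is the series `B(y)` -/
def IsB (b y : PowerSeries ℝ) : Prop := constantCoeff b = 0 ∧ b = y + b ^ 2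

lemma B_eq : B = X + B ^ 2 := by
  have h := congrArg (PowerSeries.map (Nat.castRingHom ℝ)) catalanSeries_sq_mul_X_add_one
  rw [map_add, map_mul, map_pow, PowerSeries.map_X, map_one] at h
  unfold B
  nth_rewrite 1 [← h]
  ring

lemma B_zero : constantCoeff B = 0 := by
  unfold B; simp

lemma isB_subst {y : PowerSeries ℝ} (hy : constantCoeff y = 0) : IsB (B.subst y) y := by
  have hs : HasSubst y := HasSubst.of_constantCoeff_zero' hy
  refine ⟨constantCoeff_subst_eq_zero hy B B_zero, ?_⟩
  nth_rewrite 1 [B_eq]
  rw [subst_add hs, subst_pow hs, subst_X hs]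

lemma H_zero (S : SpeciesTree) : constantCoeff (H S) = 0 := by
  induction S with
  | leaf => exact B_zero
  | node l r ihl ihr =>
    have hy : constantCoeff (H l * H r + H l + H r) = 0 := by simp [ihl, ihr]
    exact (isB_subst hy).1

lemma H_node (l r : SpeciesTree) :
    IsB (H (.node l r)) (H l * H r + H l + H r) := by
  have hy : constantCoeff (H l * H r + H l + H r) = 0 := by simp [H_zero]
  exact isB_subst hy

lemma H_leaf : IsB (H .leaf) X := ⟨B_zero, B_eq⟩

/-! ### Coefficientwise order -/

/-- all coefficients are nonnegative -/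
def Nn (F : PowerSeries ℝ) : Prop := ∀ n, 0 ≤ coeff n F

lemma Nn.add {F G : PowerSeries ℝ} (hF : Nn F) (hG : Nn G) : Nn (F + G) := fun n => by
  rw [map_add]; exact add_nonneg (hF n) (hG n)

lemma Nn.mul {F G : PowerSeries ℝ} (hF : Nn F) (hG : Nn G) : Nn (F * G) := fun n => by
  rw [coeff_mul]
  exact Finset.sum_nonneg fun p _ => mul_nonneg (hF _) (hG _)

lemma Nn.sq {F : PowerSeries ℝ} (hF : Nn F) : Nn (F ^ 2) := by
  rw [pow_two]; exact hF.mul hF

lemma Nn.smul {F : PowerSeries ℝ} (hF : Nn F) {c : ℝ} (hc : 0 ≤ c) : Nn (c • F) := fun n => by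
  rw [coeff_smul]; exact mul_nonneg hc (hF n)

lemma nn_one : Nn (1 : PowerSeries ℝ) := fun n => by
  rw [coeff_one]; split_ifs <;> norm_num

lemma nn_X : Nn (X : PowerSeries ℝ) := fun n => by
  rw [coeff_X]; split_ifs <;> norm_num

lemma nn_zero : Nn (0 : PowerSeries ℝ) := fun n => by simp

/-- the basic positivity principle -/
lemma key {c : ℝ} (hc : 0 < c) {D N T : PowerSeries ℝ} (hN : Nn N) (hT : Nn T)
    (h0 : constantCoeff T = 0) (h : c • D = N + T * D) : Nn D := by
  intro n
  induction n using Nat.strong_induction_on with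
  | _ n ih =>
    have h1 := congrArg (coeff n) h
    rw [coeff_smul, map_add, coeff_mul, smul_eq_mul] at h1
    have h2 : 0 ≤ ∑ p ∈ Finset.HasAntidiagonal.antidiagonal n, coeff p.1 T * coeff p.2 D := by
      apply Finset.sum_nonneg
      rintro ⟨i, j⟩ hp
      rw [Finset.HasAntidiagonal.mem_antidiagonal] at hp
      simp only at hp ⊢
      rcases Nat.eq_zero_or_pos i with rfl | hi
      · rw [coeff_zero_eq_constantCoeff_apply, h0, zero_mul]
      · exact mul_nonneg (hT i) (ih j (by omega))
    have h3 := hN n
    have h4 : 0 ≤ c * coeff n D := by linarith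
    exact nonneg_of_mul_nonneg_right h4 hc

lemma key1 {D N T : PowerSeries ℝ} (hN : Nn N) (hT : Nn T)
    (h0 : constantCoeff T = 0) (h : D * (1 - T) = N) : Nn D := by
  apply key one_pos hN hT h0
  rw [one_smul, ← h]; ring

lemma key2 {D N T : PowerSeries ℝ} (hN : Nn N) (hT : Nn T)
    (h0 : constantCoeff T = 0) (h : D * (2 - T) = N) : Nn D := by
  apply key two_pos hN hT h0
  rw [← h, Algebra.smul_def]
  have : algebraMap ℝ (PowerSeries ℝ) 2 = 2 := map_ofNat _ 2
  rw [this]; ring

lemma IsB.nn {b y : PowerSeries ℝ} (hb : IsB b y) (hy : Nn y) : Nn b := by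
  intro n
  induction n using Nat.strong_induction_on with
  | _ n ih =>
    have h1 := congrArg (coeff n) hb.2
    rw [map_add, pow_two, coeff_mul] at h1
    rw [h1]
    apply add_nonneg (hy n)
    apply Finset.sum_nonneg
    rintro ⟨i, j⟩ hp
    rw [Finset.HasAntidiagonal.mem_antidiagonal] at hp
    simp only at hp ⊢
    rcases Nat.eq_zero_or_pos i with rfl | hi
    · rw [coeff_zero_eq_constantCoeff_apply, hb.1, zero_mul]
    · rcases Nat.eq_zero_or_pos j with rfl | hj
      · rw [coeff_zero_eq_constantCoeff_apply b, hb.1, mul_zero]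
      · exact mul_nonneg (ih i (by omega)) (ih j (by omega))

lemma IsB.mono {b y b' y' : PowerSeries ℝ} (hb : IsB b y) (hb' : IsB b' y') (h1 : Nn b)
    (h1' : Nn b') (h : Nn (y' - y)) : Nn (b' - b) := by
  have hc : constantCoeff (b + b') = 0 := by rw [map_add, hb.1, hb'.1, add_zero]
  apply key1 h (h1.add h1') hc
  have e1 := hb.2
  have e2 := hb'.2
  linear_combination e2 - e1

lemma nn_eq {b b' : PowerSeries ℝ} (h1 : Nn (b - b')) (h2 : Nn (b' - b)) : b = b' := by
  ext n
  have a1 := h1 n
  have a2 := h2 n
  rw [map_sub] at a1 a2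
  linarith

lemma nn_H (S : SpeciesTree) : Nn (H S) := by
  induction S with
  | leaf => exact H_leaf.nn nn_X
  | node l r ihl ihr => exact (H_node l r).nn (((ihl.mul ihr).add ihl).add ihr)

/-- the argument at a node is at least the series at a child -/
lemma le_node_left (l r : SpeciesTree) : Nn (H (.node l r) - H l) := by
  have e := (H_node l r).2
  have : H (.node l r) - H l = (H l * H r + H r) + H (.node l r) ^ 2 := by
    linear_combination e
  rw [this]
  exact (((nn_H l).mul (nn_H r)).add (nn_H r)).add (nn_H _).sq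

lemma Nn.trans {F G K : PowerSeries ℝ} (h1 : Nn (G - F)) (h2 : Nn (K - G)) : Nn (K - F) := by
  have : K - F = (K - G) + (G - F) := by ring
  rw [this]; exact h2.add h1

/-- a leaf has the smallest series -/
lemma leaf_le (S : SpeciesTree) : Nn (H S - H .leaf) := by
  induction S with
  | leaf => rw [sub_self]; exact nn_zero
  | node l r ihl _ => exact Nn.trans ihl (le_node_left l r)

end Pool.Agent.V11172.DLHist
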