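import Pool.Agent.Helper308.QS4

/-!
Theta series of the squares: `S = ∑_{y>0} (-1)^y q^(y^2)`, `T = ∑_{y>0} q^(y^2)`.
-/

set_option autoImplicit false

namespace Pool.Agent.V11172.Ds

open Finset PowerSeries Pool.Agent.Helper308.QS

theorem gr_mul {k : ℕ} (hk : k ≠ 0) {e : ℤ → ℤ} (he : Gr e) (he0 : ∀ i, 0 ≤ e i) :
    Gr (fun i => k * e i) := by
  intro i
  have h1 := he i
  have h2 := he0 i
  have h3 : (1 : ℤ) ≤ k := by exact_mod_cast Nat.one_le_iff_ne_zero.2 hk
  nlinarith

theorem expand_th (k : ℕ) (hk : k ≠ 0) (c : ℤ → ℤ) {e : ℤ → ℤ} (he : Gr e) (he0 : ∀ i, 0 ≤ e i) :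
    expand k hk (th c e) = th c (fun i => k * e i) := by
  ext m
  rw [coeff_expand, coeff_th (gr_mul hk he he0) m (B := m + 1) le_rfl]
  split_ifs with hd
  · obtain ⟨t, rfl⟩ := hd
    have h3 : (1 : ℤ) ≤ k := by exact_mod_cast Nat.one_le_iff_ne_zero.2 hk
    rw [Nat.mul_div_cancel_left _ (Nat.pos_of_ne_zero hk), coeff_th he t (B := (k * t : ℕ) + 1) ?_]
    · refine sum_congr rfl fun i _ => ?_
      by_cases h : e i = t
      · rw [if_pos h, if_pos]; rw [h]; push_cast; rfl
      · rw [if_neg h, if_neg]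
        intro h'
        apply h
        push_cast at h'
        exact mul_left_cancel₀ (by exact_mod_cast hk) h'
    · push_cast
      have : (0 : ℤ) ≤ t := by positivity
      nlinarith
  · rw [sum_eq_zero]
    intro i _
    rw [if_neg]
    intro h
    apply hd
    have : (k : ℤ) ∣ m := ⟨e i, h.symm⟩
    exact_mod_cast this

/-- `∑_{y>0} (-1)^y q^(y^2)` -/
noncomputable def S : ℤ⟦X⟧ := th (fun i => if 0 < i then sg i else 0) eS
/-- `∑_{y>0} q^(y^2)` -/
noncomputable def T : ℤ⟦X⟧ := th (fun i => if 0 < i then 1 else 0) eS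
/-- `φ(q)` -/
noncomputable def Phip : ℤ⟦X⟧ := th (fun _ => 1) eS

theorem split_half (c : ℤ → ℤ) (hc : ∀ i, c (-i) = c i) (h0 : c 0 = 1) :
    th c eS = 1 + 2 * th (fun i => if 0 < i then c i else 0) eS := by
  ext m
  rw [map_add, two_mul, map_add, coeff_th gS m (B := m + 1) le_rfl,
    coeff_th gS m (B := m + 1) le_rfl]
  have h1 : ∑ i ∈ Icc (-((m : ℤ) + 1)) (m + 1), (if eS i = m then (if 0 < i then c i else 0) else 0) =
      ∑ i ∈ Icc (-((m : ℤ) + 1)) (m + 1), (if eS i = m then (if i < 0 then c i else 0) else 0) := by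
    refine sum_nbij' (fun i => -i) (fun i => -i) ?_ ?_ ?_ ?_ ?_
    · intro i hi; rw [mem_Icc] at hi ⊢; omega
    · intro i hi; rw [mem_Icc] at hi ⊢; omega
    · intro i _; simp
    · intro i _; simp
    · intro i _
      have e1 : eS (-i) = eS i := by unfold eS; ring
      simp only [e1, hc, Left.neg_neg_iff]
  have h2 : coeff m (1 : ℤ⟦X⟧) =
      ∑ i ∈ Icc (-((m : ℤ) + 1)) (m + 1), (if eS i = m then (if i = 0 then c i else 0) else 0) := by
    rw [coeff_one]
    rw [sum_eq_single 0]
    · rw [if_pos rfl, h0]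
      have e : eS 0 = 0 := by unfold eS; ring
      rw [e]
      by_cases h : m = 0
      · simp [h]
      · rw [if_neg h, if_neg]
        intro h'
        apply h
        exact_mod_cast h'.symm
    · intro i _ hi
      simp [hi]
    · intro h
      exfalso; apply h; rw [mem_Icc]; omega
  nth_rw 2 [h1]
  rw [h2, ← sum_add_distrib, ← sum_add_distrib]
  refine sum_congr rfl fun i _ => ?_
  rcases lt_trichotomy i 0 with h | h | h
  · split_ifs <;> first | omega | simp
  · split_ifs <;> first | omega | simp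
  · split_ifs <;> first | omega | simp

theorem sg_zero : sg 0 = 1 := by decide

theorem Phi_eq : Phi = 1 + 2 * S := split_half sg sg_neg sg_zero

theorem Phip_eq : Phip = 1 + 2 * T := split_half (fun _ => 1) (fun _ => rfl) rfl

theorem th_add (c d e : ℤ → ℤ) : th (fun i => c i + d i) e = th c e + th d e := by
  ext m
  rw [map_add, th, th, th, coeff_mk, coeff_mk, coeff_mk, ← sum_add_distrib]
  refine sum_congr rfl fun i _ => ?_
  split_ifs <;> simp

/-- `T + S = 2 T(q^4)` -/
theorem T_add_S : T + S = 2 * expand 4 four_ne_zero T := by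
  rw [two_mul, T, S, ← th_add, expand_th 4 four_ne_zero _ gS eS_nonneg, ← th_add]
  have g4 := gr_mul four_ne_zero gS eS_nonneg
  ext m
  rw [coeff_th gS m (B := 2 * (m + 1)) (by omega), coeff_th g4 m (B := m + 1) le_rfl]
  symm
  rw [← sum_filter, ← sum_filter]
  refine sum_bij_ne_zero (fun i _ _ => 2 * i) ?_ ?_ ?_ ?_
  · intro i hi _
    rw [mem_filter, mem_Icc] at hi ⊢
    refine ⟨by omega, ?_⟩
    have := hi.2
    unfold eS at this ⊢
    push_cast at this
    linarith
  · intro i _ _ j _ _ h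
    simpa using h
  · intro i hi hne
    rw [mem_filter, mem_Icc] at hi
    have h0 : 0 < i := by
      by_contra h
      rw [if_neg h, if_neg h] at hne
      simp at hne
    rw [if_pos h0, if_pos h0] at hne
    have hev : Even i := by
      by_contra h
      unfold sg at hne
      rw [if_neg h] at hne
      simp at hne
    obtain ⟨j, rfl⟩ := hev
    refine ⟨j, ?_, ?_, by ring⟩
    · rw [mem_filter, mem_Icc]
      refine ⟨by omega, ?_⟩
      have := hi.2
      unfold eS at this ⊢
      push_cast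
      linarith
    · have : 0 < j := by omega
      rw [if_pos this]; norm_num
  · intro i _ _
    by_cases h : 0 < i
    · have h' : 0 < 2 * i := by omega
      have : sg (2 * i) = 1 := by unfold sg; rw [if_pos (even_two_mul _)]
      rw [if_pos h, if_pos h', if_pos h', this]
    · have h' : ¬ 0 < 2 * i := by omega
      rw [if_neg h, if_neg h', if_neg h']

/-- `φ(q) φ(-q) = φ(-q^2)^2` -/
theorem phi_mul : Phip * Phi = (expand 2 two_ne_zero Phi) ^ 2 := by
  rw [sq, Phip, Phi, expand_th 2 two_ne_zero _ gS eS_nonneg]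
  have g2 := gr_mul two_ne_zero gS eS_nonneg
  have n2 : ∀ i, 0 ≤ ((2 : ℕ) : ℤ) * eS i := fun i => by
    have := eS_nonneg i
    push_cast
    linarith
  ext m
  set B : ℤ := m + 1 with hB
  rw [coeff_th_mul gS gS eS_nonneg eS_nonneg m (B := B) le_rfl,
    coeff_th_mul g2 g2 n2 n2 m (B := B) le_rfl]
  rw [← sum_filter, ← sum_filter]
  set L := (Icc (-B) B ×ˢ Icc (-B) B).filter (fun p : ℤ × ℤ => eS p.1 + eS p.2 = m) with hL
  set R := (Icc (-B) B ×ˢ Icc (-B) B).filter
    (fun p : ℤ × ℤ => ((2 : ℕ) : ℤ) * eS p.1 + ((2 : ℕ) : ℤ) * eS p.2 = m) with hR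
  have memL : ∀ p : ℤ × ℤ, p ∈ L ↔ p.1 ^ 2 + p.2 ^ 2 = m := by
    intro p
    rw [hL, mem_filter, mem_product]
    refine ⟨fun h => h.2, fun h => ⟨⟨gS.mem (n := m) ?_ le_rfl, gS.mem (n := m) ?_ le_rfl⟩, h⟩⟩
    · unfold eS; nlinarith
    · unfold eS; nlinarith
  have memR : ∀ p : ℤ × ℤ, p ∈ R ↔ 2 * p.1 ^ 2 + 2 * p.2 ^ 2 = m := by
    intro p
    rw [hR, mem_filter, mem_product]
    unfold eS
    push_cast
    refine ⟨fun h => h.2, fun h => ⟨⟨gS.mem (n := m) ?_ le_rfl, gS.mem (n := m) ?_ le_rfl⟩, h⟩⟩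
    · unfold eS; nlinarith
    · unfold eS; nlinarith
  clear_value L R
  have s1 : ∑ p ∈ L, (1 : ℤ) * sg p.2 = ∑ p ∈ L.filter (fun p => (p.1 + p.2) % 2 = 0), sg p.2 +
      ∑ p ∈ L.filter (fun p => (p.1 + p.2) % 2 = 1), sg p.2 := by
    rw [sum_filter, sum_filter, ← sum_add_distrib]
    refine sum_congr rfl fun p _ => ?_
    rcases Int.emod_two_eq_zero_or_one (p.1 + p.2) with h | h <;> simp [h]
  have s2 : ∑ p ∈ L.filter (fun p => (p.1 + p.2) % 2 = 1), sg p.2 = 0 := by
    have : ∑ p ∈ L.filter (fun p => (p.1 + p.2) % 2 = 1), sg p.2 =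
        ∑ p ∈ L.filter (fun p => (p.1 + p.2) % 2 = 1), - sg p.2 := by
      refine sum_nbij' (fun p => (p.2, p.1)) (fun p => (p.2, p.1)) ?_ ?_ ?_ ?_ ?_
      · intro p hp
        rw [mem_filter, memL] at hp ⊢
        simp only
        exact ⟨by linarith [hp.1], by omega⟩
      · intro p hp
        rw [mem_filter, memL] at hp ⊢
        simp only
        exact ⟨by linarith [hp.1], by omega⟩
      · intro p _; simp
      · intro p _; simp
      · intro p hp
        rw [mem_filter] at hp
        have h := hp.2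
        simp only
        unfold sg
        by_cases h1 : Even p.1 <;> by_cases h2 : Even p.2
        · exfalso
          rw [Int.even_iff] at h1 h2
          omega
        · simp [h1, h2]
        · simp [h1, h2]
        · exfalso
          rw [Int.even_iff] at h1 h2
          omega
    rw [sum_neg_distrib] at this
    linarith
  have s3 : ∑ p ∈ L.filter (fun p => (p.1 + p.2) % 2 = 0), sg p.2 = ∑ p ∈ R, sg p.1 * sg p.2 := by
    refine sum_nbij' (fun p => ((p.1 + p.2) / 2, (p.1 - p.2) / 2)) (fun p => (p.1 + p.2, p.1 - p.2))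
      ?_ ?_ ?_ ?_ ?_
    · intro p hp
      rw [mem_filter, memL] at hp
      rw [memR]
      obtain ⟨h1, h2⟩ := hp
      obtain ⟨t, ht⟩ : ∃ t, p.1 + p.2 = 2 * t := ⟨(p.1 + p.2) / 2, by omega⟩
      have e1 : (p.1 + p.2) / 2 = t := by omega
      have e2 : (p.1 - p.2) / 2 = t - p.2 := by omega
      simp only [e1, e2]
      have e3 : p.1 = 2 * t - p.2 := by linarith
      rw [e3] at h1
      linarith
    · intro p hp
      rw [memR] at hp
      rw [mem_filter, memL]
      simp only
      constructor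
      · linarith
      · omega
    · intro p hp
      rw [mem_filter] at hp
      ext <;> simp only <;> omega
    · intro p _
      ext <;> simp only <;> omega
    · intro p hp
      rw [mem_filter] at hp
      have h2 := hp.2
      obtain ⟨t, ht⟩ : ∃ t, p.1 + p.2 = 2 * t := ⟨(p.1 + p.2) / 2, by omega⟩
      have e1 : (p.1 + p.2) / 2 = t := by omega
      have e2 : (p.1 - p.2) / 2 = t - p.2 := by omega
      simp only [e1, e2]
      rw [← sg_add, show t + (t - p.2) = 2 * t + - p.2 by ring, sg_add, sg_neg]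
      have : sg (2 * t) = 1 := by unfold sg; rw [if_pos (even_two_mul _)]
      rw [this, one_mul]
  rw [s1, s2, s3, add_zero]

end Pool.Agent.V11172.Ds
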