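import Pool.Agent.V11172.DsA

/-!
The series `f_1`, its derivative modulo 4, and the vanishing of coefficients of `f_1` times theta
series for `5 ∥ 24 n + 1`.
-/

set_option autoImplicit false

namespace Pool.Agent.V11172.Ds

open Finset PowerSeries Pool.Agent.Helper308.QS

theorem E1_th : E1 = th sg eA := by
  ext m
  rw [coeff_th gA m (B := m + 1) le_rfl]
  have key : ∀ i : ℤ, eA i = (pentagonal (-i) : ℤ) := by
    intro i
    have h1 := two_mul_natCast_pentagonal_neg i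
    have h2 := eA_two i
    linarith
  by_cases hex : ∃ k : ℤ, pentagonal k = m
  · obtain ⟨k, hk⟩ := hex
    rw [E1, ← hk, coeff_pentagonalSeries_pentagonal, sum_eq_single (-k)]
    · rw [if_pos, sg_eq, Int.negOnePow_neg]
      · rfl
      · rw [key, neg_neg]
    · intro i _ hi
      rw [if_neg]
      intro h
      apply hi
      rw [key] at h
      have := pentagonal_injective (by exact_mod_cast h : pentagonal (-i) = pentagonal k)
      omega
    · intro h
      exfalso; apply h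
      refine gA.mem (n := pentagonal k) ?_ le_rfl
      rw [key, neg_neg]
  · rw [E1, coeff_pentagonalSeries_eq_zero, sum_eq_zero]
    · intro i _
      rw [if_neg]
      intro h
      apply hex
      refine ⟨-i, ?_⟩
      rw [key] at h
      exact_mod_cast h
    · rintro ⟨k, hk⟩
      exact hex ⟨k, hk⟩

theorem const_E2 : constantCoeff (Ek 2 two_ne_zero) = 1 := by
  rw [Ek, ← coeff_zero_eq_constantCoeff_apply, coeff_expand]
  simp only [dvd_zero, if_true, Nat.zero_div]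
  rw [coeff_zero_eq_constantCoeff_apply]
  exact const_E1

theorem E1_ne : E1 ≠ 0 := by
  intro h
  have := const_E1
  rw [h] at this
  simp at this

theorem E2_ne : Ek 2 two_ne_zero ≠ 0 := by
  intro h
  have := const_E2
  rw [h] at this
  simp at this

theorem E1_Phi_sq : E1 * Phi ^ 2 = A1 := by
  have h1 := gauss
  have h2 := E_five
  have h3 : Ek 2 two_ne_zero ^ 2 * (E1 * Phi ^ 2) = Ek 2 two_ne_zero ^ 2 * A1 := by
    rw [← h2]
    calc Ek 2 two_ne_zero ^ 2 * (E1 * Phi ^ 2) = E1 * (Ek 2 two_ne_zero * Phi) ^ 2 := by ring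
      _ = E1 ^ 5 := by rw [← h1]; ring
  exact mul_left_cancel₀ (pow_ne_zero 2 E2_ne) h3

theorem exists_of_dvd (k : ℤ) (F : ℤ⟦X⟧) (h : ∀ m, k ∣ coeff m F) : ∃ G, F = C k * G := by
  refine ⟨PowerSeries.mk fun m => (coeff m F) / k, ?_⟩
  ext m
  rw [coeff_C_mul, coeff_mk]
  exact (Int.mul_ediv_cancel' (h m)).symm

theorem theta_E1_aux : ∃ R : ℤ⟦X⟧, A1 - E1 - 4 * theta E1 = 16 * R := by
  have h : ∀ m, (16 : ℤ) ∣ coeff m (A1 - E1 - 4 * theta E1) := by
    intro m
    have e1 : (4 : ℤ⟦X⟧) = C 4 := (map_ofNat (C (R := ℤ)) 4).symm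
    rw [map_sub, map_sub, e1, coeff_C_mul, theta, coeff_mk, A1, E1_th,
      coeff_th gA m (B := m + 1) le_rfl, coeff_th gA m (B := m + 1) le_rfl, mul_sum, mul_sum,
      ← sum_sub_distrib, ← sum_sub_distrib]
    refine dvd_sum fun i _ => ?_
    by_cases hi : eA i = m
    · rw [if_pos hi, if_pos hi, ← hi]
      have h2 := eA_two i
      rcases Int.even_or_odd i with ⟨j, rfl⟩ | ⟨j, rfl⟩
      · have hs : sg (j + j) = 1 := by unfold sg; rw [if_pos ⟨j, rfl⟩]
        rw [hs]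
        have hev : (2 : ℤ) ∣ j * (1 - 3 * j) := by
          rcases Int.even_or_odd j with h | h
          · exact (h.two_dvd).mul_right _
          · obtain ⟨t, rfl⟩ := h
            exact Dvd.dvd.mul_left ⟨-3 * t - 1, by ring⟩ _
        obtain ⟨t, ht⟩ := hev
        refine ⟨t, ?_⟩
        linear_combination (-2) * h2 + 8 * ht
      · have hs : sg (2 * j + 1) = -1 := by
          unfold sg; rw [if_neg]; rw [Int.not_even_iff_odd]; exact odd_two_mul_add_one _
        rw [hs]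
        have hev : (2 : ℤ) ∣ (3 * j + 2) * (j + 1) := by
          rcases Int.even_or_odd j with h | h
          · obtain ⟨t, rfl⟩ := h
            exact Dvd.dvd.mul_right ⟨3 * t + 1, by ring⟩ _
          · obtain ⟨t, rfl⟩ := h
            exact Dvd.dvd.mul_left ⟨t + 1, by ring⟩ _
        obtain ⟨t, ht⟩ := hev
        refine ⟨t, ?_⟩
        linear_combination 2 * h2 + 8 * ht
    · rw [if_neg hi, if_neg hi]; simp
  obtain ⟨G, hG⟩ := exists_of_dvd 16 _ h
  exact ⟨G, by rw [hG]; rw [map_ofNat]⟩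

/-- `θ f_1 ≡ f_1 (S + S^2)` modulo 4 -/
theorem theta_E1 : ∃ R : ℤ⟦X⟧, theta E1 = E1 * (S + S ^ 2) - 4 * R := by
  obtain ⟨R, hR⟩ := theta_E1_aux
  refine ⟨R, ?_⟩
  rw [← E1_Phi_sq, Phi_eq] at hR
  have h4 : (4 : ℤ⟦X⟧) ≠ 0 := by
    intro h
    have := congrArg constantCoeff h
    rw [map_ofNat, map_zero] at this
    norm_num at this
  apply mul_left_cancel₀ h4
  linear_combination -hR

/-- `S^2 ≡ S(q^2)` modulo 2 -/
theorem S_sq : ∃ G : ℤ⟦X⟧, S ^ 2 = expand 2 two_ne_zero S + 2 * G := by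
  have h : ∀ m, (2 : ℤ) ∣ coeff m (S ^ 2 - expand 2 two_ne_zero S) := by
    intro m
    haveI : Fact (Nat.Prime 2) := ⟨Nat.prime_two⟩
    have h1 := pow_eq_expand 2 (red 2 S)
    have h2 := congrArg (coeff m) h1
    rw [← map_pow, coeff_red, coeff_expand, coeff_red] at h2
    have h3 : ((2 : ℕ) : ℤ) ∣ coeff m (S ^ 2 - expand 2 two_ne_zero S) := by
      rw [← ZMod.intCast_zmod_eq_zero_iff_dvd, map_sub, Int.cast_sub, h2, coeff_expand]
      split_ifs <;> simp
    exact_mod_cast h3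
  obtain ⟨G, hG⟩ := exists_of_dvd 2 _ h
  refine ⟨G, ?_⟩
  rw [map_ofNat] at hG
  linear_combination hG

theorem theta_th (c : ℤ → ℤ) {e : ℤ → ℤ} (he : Gr e) :
    theta (th c e) = th (fun i => e i * c i) e := by
  ext m
  rw [theta, coeff_mk, coeff_th he m (B := m + 1) le_rfl, coeff_th he m (B := m + 1) le_rfl, mul_sum]
  refine sum_congr rfl fun i _ => ?_
  by_cases h : e i = m
  · rw [if_pos h, if_pos h, h]
  · rw [if_neg h, if_neg h, mul_zero]

/-- the norm form has no value `24 n + 1` for the form `x^2 + 48 j^2` -/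
theorem no_rep {n : ℕ} (h5 : n % 5 = 1) (h25 : n % 25 ≠ 1) (i j : ℤ) : eA i + 2 * j ^ 2 ≠ n := by
  intro h
  have h2 := eA_two i
  have h3 : (6 * i + 1) ^ 2 + 48 * j ^ 2 = 24 * n + 1 := by linear_combination 24 * h - 12 * h2
  obtain ⟨s, hs⟩ : ∃ s : ℤ, 24 * (n : ℤ) + 1 = 5 * s := ⟨(24 * n + 1) / 5, by omega⟩
  obtain ⟨x, hx⟩ : ∃ x : ℤ, x = 6 * i + 1 := ⟨_, rfl⟩
  rw [← hx, hs] at h3
  have hx5 : x % 5 = 0 ∧ j % 5 = 0 := by
    have h4 : (x ^ 2 + 48 * j ^ 2) % 5 = 0 := by rw [h3]; omega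
    have a1 : x % 5 = 0 ∨ x % 5 = 1 ∨ x % 5 = 2 ∨ x % 5 = 3 ∨ x % 5 = 4 := by omega
    have a2 : j % 5 = 0 ∨ j % 5 = 1 ∨ j % 5 = 2 ∨ j % 5 = 3 ∨ j % 5 = 4 := by omega
    rcases a1 with a | a | a | a | a <;> rcases a2 with b | b | b | b | b <;>
      simp [pow_two, Int.add_emod, Int.mul_emod, a, b] at h4 ⊢
  obtain ⟨u, hu⟩ : ∃ u, x = 5 * u := ⟨x / 5, by omega⟩
  obtain ⟨v, hv⟩ : ∃ v, j = 5 * v := ⟨j / 5, by omega⟩
  rw [hu, hv, ← hs] at h3
  have h6 : 25 * (u ^ 2 + 48 * v ^ 2) = 24 * n + 1 := by linear_combination h3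
  generalize u ^ 2 + 48 * v ^ 2 = w at h6
  omega

section vanish

variable {n : ℕ} (h5 : n % 5 = 1) (h25 : n % 25 ≠ 1)
include h5 h25

theorem c_A (c : ℤ → ℤ) : coeff n (th c eA) = 0 := by
  rw [coeff_th gA n (B := n + 1) le_rfl]
  refine sum_eq_zero fun i _ => ?_
  rw [if_neg]
  have := no_rep h5 h25 i 0
  simpa using this

theorem c_two (c : ℤ → ℤ) : coeff n (E1 * th c (fun i => ((2 : ℕ) : ℤ) * eS i)) = 0 := by
  have n2 : ∀ i, 0 ≤ ((2 : ℕ) : ℤ) * eS i := fun i => by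
    have := eS_nonneg i
    push_cast
    linarith
  rw [E1_th, coeff_th_mul gA (gr_mul two_ne_zero gS eS_nonneg) eA_nonneg n2 n (B := n + 1) le_rfl]
  refine sum_eq_zero fun p _ => ?_
  rw [if_neg]
  exact no_rep h5 h25 p.1 p.2

theorem c_one : coeff n E1 = 0 := by
  rw [E1_th]; exact c_A h5 h25 sg

theorem c_A1 : coeff n A1 = 0 := c_A h5 h25 _

theorem c_S2 : coeff n (E1 * expand 2 two_ne_zero S) = 0 := by
  rw [S, expand_th 2 two_ne_zero _ gS eS_nonneg]
  exact c_two h5 h25 _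

theorem c_thS2 : coeff n (E1 * expand 2 two_ne_zero (theta S)) = 0 := by
  rw [S, theta_th _ gS, expand_th 2 two_ne_zero _ gS eS_nonneg]
  exact c_two h5 h25 _

/-- the involution -/
def inv5 (p : ℤ × ℤ) : ℤ × ℤ :=
  if (6 * p.1 + 1 - p.2) % 5 = 0 then
    (4 * ((6 * p.1 + 1 - p.2) / 5) - 5 * p.1 - 1, -((6 * p.1 + 1 - p.2) / 5))
  else (4 * ((6 * p.1 + 1 + p.2) / 5) - 5 * p.1 - 1, (6 * p.1 + 1 + p.2) / 5)

theorem c_Phip : coeff n (E1 * Phip) = 0 := by
  rw [E1_th, Phip, coeff_th_mul gA gS eA_nonneg eS_nonneg n (B := n + 1) le_rfl, ← sum_filter]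
  set L := (Icc (-((n : ℤ) + 1)) (n + 1) ×ˢ Icc (-((n : ℤ) + 1)) (n + 1)).filter
    (fun p : ℤ × ℤ => eA p.1 + eS p.2 = n) with hL
  have memL : ∀ p : ℤ × ℤ, p ∈ L ↔ (6 * p.1 + 1) ^ 2 + 24 * p.2 ^ 2 = 24 * n + 1 := by
    intro p
    have h2 := eA_two p.1
    have e : (eA p.1 + eS p.2 = n) ↔ (6 * p.1 + 1) ^ 2 + 24 * p.2 ^ 2 = 24 * n + 1 := by
      unfold eS
      constructor
      · intro h; linear_combination 24 * h - 12 * h2
      · intro h
        have : 24 * (eA p.1 + p.2 ^ 2) = 24 * (n : ℤ) := by linear_combination h + 12 * h2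
        linarith
    rw [← e, hL, mem_filter, mem_product]
    refine ⟨fun h => h.2, fun h => ⟨⟨gA.mem (n := n) ?_ le_rfl, gS.mem (n := n) ?_ le_rfl⟩, h⟩⟩
    · have := eS_nonneg p.2; linarith
    · have := eA_nonneg p.1; linarith
  clear_value L
  -- the two cases
  have key : ∀ p ∈ L, ∃ i t : ℤ,
      (p = (i, 6 * i + 1 - 5 * t) ∧ inv5 p = (4 * t - 5 * i - 1, -t) ∧
        inv5 (inv5 p) = p ∧ inv5 p ∈ L) ∨
      (p = (i, 5 * t - 6 * i - 1) ∧ inv5 p = (4 * t - 5 * i - 1, t) ∧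
        inv5 (inv5 p) = p ∧ inv5 p ∈ L) := by
    rintro ⟨i, y⟩ hp
    rw [memL] at hp
    simp only at hp
    by_cases h1 : (6 * i + 1 - y) % 5 = 0
    · obtain ⟨t, ht⟩ : ∃ t, 6 * i + 1 - y = 5 * t := ⟨(6 * i + 1 - y) / 5, by omega⟩
      obtain rfl : y = 6 * i + 1 - 5 * t := by linarith
      refine ⟨i, t, Or.inl ?_⟩
      have e1 : inv5 (i, 6 * i + 1 - 5 * t) = (4 * t - 5 * i - 1, -t) := by
        unfold inv5
        simp only
        rw [if_pos h1]
        have : (6 * i + 1 - (6 * i + 1 - 5 * t)) / 5 = t := by omega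
        rw [this]
      refine ⟨rfl, e1, ?_, ?_⟩
      · rw [e1]
        unfold inv5
        simp only
        rw [if_pos (by omega)]
        have : (6 * (4 * t - 5 * i - 1) + 1 - -t) / 5 = 5 * t - 6 * i - 1 := by omega
        rw [this]
        ext <;> simp only <;> ring
      · rw [e1, memL]
        simp only
        linear_combination hp
    · have h2 : (6 * i + 1 + y) % 5 = 0 := by
        obtain ⟨x, hx⟩ : ∃ x : ℤ, x = 6 * i + 1 := ⟨_, rfl⟩
        rw [← hx] at hp h1 ⊢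
        obtain ⟨s, hs⟩ : ∃ s : ℤ, 24 * (n : ℤ) + 1 = 5 * s := ⟨(24 * n + 1) / 5, by omega⟩
        rw [hs] at hp
        have h4 : (x ^ 2 + 24 * y ^ 2) % 5 = 0 := by rw [hp]; omega
        have a1 : x % 5 = 0 ∨ x % 5 = 1 ∨ x % 5 = 2 ∨ x % 5 = 3 ∨ x % 5 = 4 := by omega
        have a2 : y % 5 = 0 ∨ y % 5 = 1 ∨ y % 5 = 2 ∨ y % 5 = 3 ∨ y % 5 = 4 := by omega
        rcases a1 with a | a | a | a | a <;> rcases a2 with b | b | b | b | b <;>
          first
          | omega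
          | (exfalso; simp [pow_two, Int.add_emod, Int.mul_emod, a, b] at h4)
      obtain ⟨t, ht⟩ : ∃ t, 6 * i + 1 + y = 5 * t := ⟨(6 * i + 1 + y) / 5, by omega⟩
      obtain rfl : y = 5 * t - 6 * i - 1 := by linarith
      refine ⟨i, t, Or.inr ?_⟩
      have e1 : inv5 (i, 5 * t - 6 * i - 1) = (4 * t - 5 * i - 1, t) := by
        unfold inv5
        simp only
        rw [if_neg h1]
        have : (6 * i + 1 + (5 * t - 6 * i - 1)) / 5 = t := by omega
        rw [this]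
      have h3 : ¬ (6 * (4 * t - 5 * i - 1) + 1 - t) % 5 = 0 := by
        intro h3
        obtain ⟨s, rfl⟩ : ∃ s, t = 5 * s := ⟨t / 5, by omega⟩
        have h6 : 25 * ((6 * i + 1) ^ 2 + 24 * (25 * s ^ 2 - 2 * s * (6 * i + 1))) = 24 * n + 1 := by
          linear_combination hp
        generalize (6 * i + 1) ^ 2 + 24 * (25 * s ^ 2 - 2 * s * (6 * i + 1)) = w at h6
        omega
      refine ⟨rfl, e1, ?_, ?_⟩
      · rw [e1]
        unfold inv5
        simp only
        rw [if_neg h3]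
        have : (6 * (4 * t - 5 * i - 1) + 1 + t) / 5 = 5 * t - 6 * i - 1 := by omega
        rw [this]
        ext <;> simp only <;> ring
      · rw [e1, memL]
        simp only
        linear_combination hp
  have fin : ∑ p ∈ L, sg p.1 * 1 = ∑ p ∈ L, -(sg p.1 * 1) := by
    refine sum_nbij' inv5 inv5 ?_ ?_ ?_ ?_ ?_
    · intro p hp
      obtain ⟨i, t, h | h⟩ := key p hp
      · exact h.2.2.2
      · exact h.2.2.2
    · intro p hp
      obtain ⟨i, t, h | h⟩ := key p hp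
      · exact h.2.2.2
      · exact h.2.2.2
    · intro p hp
      obtain ⟨i, t, h | h⟩ := key p hp
      · exact h.2.2.1
      · exact h.2.2.1
    · intro p hp
      obtain ⟨i, t, h | h⟩ := key p hp
      · exact h.2.2.1
      · exact h.2.2.1
    · intro p hp
      have hs : ∀ i t : ℤ, sg i * 1 = -(sg (4 * t - 5 * i - 1) * 1) := by
        intro i t
        unfold sg
        by_cases h1 : Even i <;> by_cases h2 : Even (4 * t - 5 * i - 1)
        · exfalso
          rw [Int.even_iff] at h1 h2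
          omega
        · simp [h1, h2]
        · simp [h1, h2]
        · exfalso
          rw [Int.even_iff] at h1 h2
          omega
      obtain ⟨i, t, h | h⟩ := key p hp
      · rw [h.2.1, h.1]
        exact hs i t
      · rw [h.2.1, h.1]
        exact hs i t
  rw [sum_neg_distrib] at fin
  linarith

end vanish

end Pool.Agent.V11172.Ds
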