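import Pool.Agent.V11172.DsB

/-!
The congruence modulo 16 for the coefficients of `D`, where
`D Q(q^2) = θQ Q(q^2) - 2 Q θ(Q(q^2))`, `Q = f_2 / f_1`.
-/

set_option autoImplicit false

namespace Pool.Agent.V11172.Ds

open Finset PowerSeries Pool.Agent.Helper308.QS

theorem theta_mul (F G : ℤ⟦X⟧) : theta (F * G) = theta F * G + F * theta G := by
  rw [theta_eq, theta_eq, theta_eq, Derivation.leibniz]
  simp only [smul_eq_mul]
  ring

theorem theta_add (F G : ℤ⟦X⟧) : theta (F + G) = theta F + theta G := by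
  rw [theta_eq, theta_eq, theta_eq, map_add]
  ring

theorem theta_Phi : theta Phi = 2 * theta S := by
  rw [Phi_eq]
  ext m
  have e2 : (2 : ℤ⟦X⟧) = C 2 := (map_ofNat (C (R := ℤ)) 2).symm
  rw [e2, theta, coeff_mk, map_add, coeff_C_mul, coeff_C_mul, theta, coeff_mk, coeff_one]
  split_ifs with h
  · rw [h]; simp
  · ring

theorem theta_expand (F : ℤ⟦X⟧) :
    theta (expand 2 two_ne_zero F) = 2 * expand 2 two_ne_zero (theta F) := by
  ext m
  have e2 : (2 : ℤ⟦X⟧) = C 2 := (map_ofNat (C (R := ℤ)) 2).symm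
  rw [e2, coeff_C_mul, theta, coeff_mk, coeff_expand, coeff_expand, theta, coeff_mk]
  split_ifs with h
  · obtain ⟨t, rfl⟩ := h
    rw [Nat.mul_div_cancel_left _ (by norm_num)]
    push_cast
    ring
  · simp

theorem unit_of_const {F : ℤ⟦X⟧} (h : constantCoeff F = 1) : ∃ g, F * g = 1 := by
  have : IsUnit F := by
    rw [isUnit_iff_constantCoeff, h]; exact isUnit_one
  exact this.exists_right_inv

/-- the decomposition of `D` -/
theorem decomp (D b : ℤ⟦X⟧) (hb : b * E1 = Ek 2 two_ne_zero)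
    (hD : D * expand 2 two_ne_zero b = theta b * expand 2 two_ne_zero b -
      2 * b * theta (expand 2 two_ne_zero b)) :
    ∃ W W' : ℤ⟦X⟧, b = E1 - C 2 * (E1 * S) + C 4 * (E1 * S ^ 2) -
        C 8 * (E1 * S * expand 2 two_ne_zero S) + C 16 * W' ∧
      D = theta b - (C 4 * (E1 * expand 4 four_ne_zero T) - C 4 * (E1 * S ^ 2) -
        C 8 * (E1 * S * expand 2 two_ne_zero S) - C 8 * (E1 * expand 2 two_ne_zero (theta S)) +
        C 16 * W) := by
  have hPhi := Phi_eq
  have h1 : b * Phi = E1 := by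
    apply mul_right_cancel₀ E1_ne
    calc b * Phi * E1 = (b * E1) * Phi := by ring
      _ = E1 * E1 := by rw [hb, ← gauss]; ring
  obtain ⟨R, hR⟩ := theta_E1
  obtain ⟨G, hG⟩ := S_sq
  have h3 : theta b * Phi + b * (2 * theta S) = theta E1 := by
    rw [← h1, theta_mul, theta_Phi]
  have k1 := congrArg (expand 2 two_ne_zero) h1
  have k3 := congrArg (expand 2 two_ne_zero) h3
  have kR := congrArg (expand 2 two_ne_zero) hR
  have kPhi := congrArg (expand 2 two_ne_zero) hPhi
  have h8 := phi_mul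
  have hT := T_add_S
  rw [Phip_eq] at h8
  simp only [map_add, map_mul, map_sub, map_ofNat, map_one, map_pow] at k1 k3 kR kPhi
  have hE2 : expand 2 two_ne_zero E1 = Ek 2 two_ne_zero := rfl
  rw [hE2] at k1 kR
  rw [theta_expand] at hD
  rw [kR] at k3
  rw [kPhi] at k1 k3 h8
  rw [hPhi] at h1 h8
  -- names
  have hb2 : constantCoeff (expand 2 two_ne_zero b) = 1 := by
    have e := congrArg constantCoeff k1
    rw [const_E2] at e
    have e0 : constantCoeff (expand 2 two_ne_zero S) = 0 := by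
      rw [← coeff_zero_eq_constantCoeff_apply, coeff_expand]
      simp only [dvd_zero, if_true, Nat.zero_div]
      rw [S, coeff_th gS 0 (B := 1) (by norm_num)]
      refine sum_eq_zero fun i _ => ?_
      split_ifs with a1 a2
      · exfalso
        unfold eS at a1
        have : 0 < i ^ 2 := by positivity
        rw [a1] at this
        simp at this
      · rfl
      · rfl
    rw [map_mul, map_add, map_mul, e0, map_one] at e
    simpa using e
  obtain ⟨g, hg⟩ := unit_of_const hb2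
  obtain ⟨g', hg'⟩ := unit_of_const const_E2
  generalize hS2 : expand 2 two_ne_zero S = S2 at *
  generalize hb2' : expand 2 two_ne_zero b = b2 at *
  generalize htS : expand 2 two_ne_zero (theta S) = tS2 at *
  generalize htb : expand 2 two_ne_zero (theta b) = tb2 at *
  generalize hT4 : expand 4 four_ne_zero T = T4 at *
  generalize hR2 : expand 2 two_ne_zero R = R2 at *
  generalize hf2 : Ek 2 two_ne_zero = f2 at *
  generalize hE : E1 = a at *
  generalize hSS : S = s at *
  generalize hTT : T = t at *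
  generalize hth : theta b = tb at *
  -- k1 : b2 * (1 + 2 S2) = f2
  -- V
  set V := b * tb2 * g with hV
  have d1 : D = tb - 4 * V := by
    calc D = D * b2 * g := by rw [mul_assoc, hg, mul_one]
      _ = (tb * b2 - 2 * b * (2 * tb2)) * g := by rw [hD]
      _ = tb * (b2 * g) - 4 * V := by rw [hV]; ring
      _ = tb - 4 * V := by rw [hg, mul_one]
  have d2 : V * f2 = f2 * (b * (S2 + S2 ^ 2 - 2 * tS2)) + 4 * (b * (b2 * S2 * tS2 - R2)) := by
    have e1 : V * f2 = b * (tb2 * (1 + 2 * S2)) * (b2 * g) := by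
      rw [hV, ← k1]; ring
    have e2 : tb2 * (1 + 2 * S2) = f2 * (S2 + S2 ^ 2) - 4 * R2 - b2 * (2 * tS2) := by
      linear_combination k3
    rw [e1, hg, mul_one, e2]
    linear_combination (-(2 * b * tS2)) * k1
  have d3 : V = b * (S2 + S2 ^ 2 - 2 * tS2) + 4 * (b * (b2 * S2 * tS2 - R2) * g') := by
    calc V = V * f2 * g' := by rw [mul_assoc, hg', mul_one]
      _ = (f2 * g') * (b * (S2 + S2 ^ 2 - 2 * tS2)) + 4 * (b * (b2 * S2 * tS2 - R2) * g') := by
          rw [d2]; ring
      _ = _ := by rw [hg']; ring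
  -- b modulo 16 and modulo 4
  have d4 : b = a * (1 - 2 * s + 4 * s ^ 2 - 8 * s ^ 3) + 16 * (b * s ^ 4) := by
    linear_combination (1 - 2 * s + 4 * s ^ 2 - 8 * s ^ 3) * h1
  have d5 : b = a * (1 - 2 * s) + 4 * (b * s ^ 2) := by
    linear_combination (1 - 2 * s) * h1
  -- the product identity
  have d6 : T4 + 2 * s * T4 - s ^ 2 = S2 + S2 ^ 2 := by
    have h4 : (4 : ℤ⟦X⟧) ≠ 0 := by
      intro h
      have := congrArg constantCoeff h
      rw [map_ofNat, map_zero] at this
      norm_num at this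
    apply mul_left_cancel₀ h4
    have ht : t = 2 * T4 - s := by linear_combination hT
    rw [ht] at h8
    linear_combination h8
  have e4 : (C 4 : ℤ⟦X⟧) = 4 := map_ofNat _ 4
  have e2 : (C 2 : ℤ⟦X⟧) = 2 := map_ofNat _ 2
  have e8 : (C 8 : ℤ⟦X⟧) = 8 := map_ofNat _ 8
  have e16 : (C 16 : ℤ⟦X⟧) = 16 := map_ofNat _ 16
  rw [e4, e2, e8, e16]
  refine ⟨b * (b2 * S2 * tS2 - R2) * g' + b * s ^ 2 * (S2 + S2 ^ 2 - 2 * tS2) + a * s * tS2 -
      a * s ^ 2 * T4 + a * s * (S2 + G), b * s ^ 4 - a * s * G, ?_, ?_⟩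
  · linear_combination d4 - (8 * a * s) * hG
  · rw [d1]
    have d7 : b * (S2 + S2 ^ 2 - 2 * tS2) = a * (1 - 2 * s) * (S2 + S2 ^ 2 - 2 * tS2) +
        4 * (b * s ^ 2 * (S2 + S2 ^ 2 - 2 * tS2)) := by
      linear_combination (S2 + S2 ^ 2 - 2 * tS2) * d5
    rw [d3, d7]
    linear_combination (4 * a * (1 - 2 * s)) * d6 - (8 * a * s) * hG

/-- the coefficients of `D` modulo 16 -/
theorem main_cong (D b : ℤ⟦X⟧) (hb : b * E1 = Ek 2 two_ne_zero)
    (hD : D * expand 2 two_ne_zero b = theta b * expand 2 two_ne_zero b -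
      2 * b * theta (expand 2 two_ne_zero b)) {n : ℕ} (h5 : n % 5 = 1) (h25 : n % 25 ≠ 1) :
    ∃ z w u : ℤ, coeff n D = -12 * (n + 1) * z - 8 * (n - 1) * w + 16 * u := by
  obtain ⟨W, W', h1, h2⟩ := decomp D b hb hD
  -- linear relations
  have r1 := c_one h5 h25
  have r2 := c_Phip h5 h25
  have r3 := c_A1 h5 h25
  have r4 := c_thS2 h5 h25
  have e2 : (2 : ℤ⟦X⟧) = C 2 := (map_ofNat (C (R := ℤ)) 2).symm
  have r5 : coeff n (E1 * T) = 0 := by
    rw [Phip_eq, show E1 * (1 + 2 * T) = E1 + 2 * (E1 * T) by ring, e2, map_add, coeff_C_mul, r1] at r2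
    linarith
  have r6 : coeff n (E1 * S) = 2 * coeff n (E1 * expand 4 four_ne_zero T) := by
    have h := congrArg (fun F => coeff n (E1 * F)) T_add_S
    rw [mul_add, show E1 * (2 * expand 4 four_ne_zero T) = 2 * (E1 * expand 4 four_ne_zero T) by ring,
      e2, map_add, coeff_C_mul, r5] at h
    linarith
  have r7 : coeff n (E1 * S ^ 2) = - coeff n (E1 * S) := by
    have e4 : (4 : ℤ⟦X⟧) = C 4 := (map_ofNat (C (R := ℤ)) 4).symm
    rw [← E1_Phi_sq, Phi_eq, show E1 * (1 + 2 * S) ^ 2 = E1 + 4 * (E1 * S) + 4 * (E1 * S ^ 2) by ring,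
      e4, map_add, map_add, coeff_C_mul, coeff_C_mul, r1] at r3
    linarith
  have h3 := congrArg (coeff n) h1
  have h4 := congrArg (coeff n) h2
  simp only [map_add, map_sub, coeff_C_mul] at h3 h4
  rw [theta, coeff_mk, h3, r1, r7, r6, r4] at h4
  refine ⟨coeff n (E1 * expand 4 four_ne_zero T), coeff n (E1 * S * expand 2 two_ne_zero S),
    n * coeff n W' - coeff n W, ?_⟩
  rw [h4]
  ring

end Pool.Agent.V11172.Ds
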