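import Pool.Agent.V11172.DsC

/-!
The generating function of `DSOME`.
-/

set_option autoImplicit false

namespace Pool.Agent.V11172.Ds

open Finset PowerSeries Pool.Agent.Helper308.QS

/-- the sum of the odd parts minus the sum of the even parts, over all the partitions of `n` into
distinct parts -/
def DSOME (n : ℕ) : ℤ :=
  ∑ p ∈ Nat.Partition.distincts n, (p.parts.map (fun a : ℕ => if Odd a then (a : ℤ) else -(a : ℤ))).sum

/-- the weight of a part -/
def wt (a : ℕ) : ℤ := if Odd a then (a : ℤ) else -(a : ℤ)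

/-- the product of `1 + X^j` -/
noncomputable def Pr (s : Finset ℕ) : ℤ⟦X⟧ := ∏ j ∈ s, (1 + X ^ j)

/-- the weighted sum over the subsets -/
noncomputable def Ws (s : Finset ℕ) : ℤ⟦X⟧ :=
  ∑ t ∈ s.powerset, C (∑ j ∈ t, wt j) * X ^ (∑ j ∈ t, j)

theorem Pr_sum (s : Finset ℕ) : Pr s = ∑ t ∈ s.powerset, X ^ (∑ j ∈ t, j) := by
  rw [Pr, Finset.prod_one_add]
  exact sum_congr rfl fun t _ => Finset.prod_pow_eq_pow_sum _ _ _

theorem Pr_insert {j : ℕ} {s : Finset ℕ} (hj : j ∉ s) : Pr (insert j s) = (1 + X ^ j) * Pr s := by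
  rw [Pr, prod_insert hj, Pr]

theorem Ws_insert {j : ℕ} {s : Finset ℕ} (hj : j ∉ s) :
    Ws (insert j s) = (1 + X ^ j) * Ws s + C (wt j) * X ^ j * Pr s := by
  rw [Ws, sum_powerset_insert hj, Pr_sum, Ws, mul_sum, mul_sum, ← sum_add_distrib,
    ← sum_add_distrib]
  refine sum_congr rfl fun t ht => ?_
  have : j ∉ t := fun h => hj (mem_powerset.1 ht h)
  rw [sum_insert this, sum_insert this, map_add, pow_add]
  ring

theorem theta_one_add (j : ℕ) : theta (1 + X ^ j : ℤ⟦X⟧) = C (j : ℤ) * X ^ j := by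
  ext m
  rw [theta, coeff_mk, map_add, coeff_C_mul, coeff_one, coeff_X_pow]
  by_cases h0 : m = 0
  · subst h0
    by_cases h : 0 = j
    · subst h; simp
    · simp [h]
  · by_cases h : m = j
    · subst h; simp [h0]
    · simp [h, h0]

theorem Ws_identity (s : Finset ℕ) : Ws s * Pr (s.filter Even) =
    theta (Pr s) * Pr (s.filter Even) - 2 * Pr s * theta (Pr (s.filter Even)) := by
  induction s using Finset.induction_on with
  | empty =>
    have h1 : theta (1 : ℤ⟦X⟧) = 0 := by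
      ext m
      rw [theta, coeff_mk, coeff_one]
      split_ifs with h
      · rw [h]; simp
      · simp
    simp [Ws, Pr, h1]
  | insert j s hj ih =>
    rw [Ws_insert hj, Pr_insert hj, filter_insert]
    by_cases hE : Even j
    · have hj' : j ∉ s.filter Even := fun h => hj (mem_filter.1 h).1
      have hw : wt j = - (j : ℤ) := by
        unfold wt; rw [if_neg (Nat.not_odd_iff_even.2 hE)]
      rw [if_pos hE, Pr_insert hj', theta_mul, theta_mul, theta_one_add, hw, map_neg]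
      linear_combination (1 + X ^ j) ^ 2 * ih
    · have hw : wt j = (j : ℤ) := by
        unfold wt; rw [if_pos (Nat.not_even_iff_odd.1 hE)]
      rw [if_neg hE, theta_mul, theta_one_add, hw]
      linear_combination (1 + X ^ j) * ih

theorem sum_toFinset {M : Multiset ℕ} (h : M.Nodup) (f : ℕ → ℤ) :
    ∑ j ∈ M.toFinset, f j = (M.map f).sum := by
  rw [Finset.sum, Multiset.toFinset_val, h.dedup]

theorem sum_toFinset' {M : Multiset ℕ} (h : M.Nodup) : ∑ j ∈ M.toFinset, j = M.sum := by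
  rw [Finset.sum, Multiset.toFinset_val, h.dedup, Multiset.map_id']

theorem coeff_Ws {n N : ℕ} (h : n ≤ N) : coeff n (Ws (Icc 1 N)) = DSOME n := by
  rw [Ws, map_sum]
  have e : ∀ t ∈ (Icc 1 N).powerset, coeff n (C (∑ j ∈ t, wt j) * (X : ℤ⟦X⟧) ^ (∑ j ∈ t, j)) =
      if ∑ j ∈ t, j = n then ∑ j ∈ t, wt j else 0 := by
    intro t _
    rw [coeff_C_mul, coeff_X_pow]
    by_cases h : ∑ j ∈ t, j = n
    · rw [if_pos h, if_pos h.symm, mul_one]
    · rw [if_neg h, if_neg (fun h' => h h'.symm), mul_zero]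
  rw [sum_congr rfl e, ← sum_filter, DSOME]
  symm
  refine sum_bij (fun p _ => p.parts.toFinset) ?_ ?_ ?_ ?_
  · intro p hp
    have hnd : p.parts.Nodup := by
      simpa [Nat.Partition.distincts] using hp
    rw [mem_filter, mem_powerset]
    refine ⟨?_, ?_⟩
    · intro j hj
      rw [Multiset.mem_toFinset] at hj
      rw [mem_Icc]
      exact ⟨p.parts_pos hj, (Nat.Partition.le_of_mem_parts hj).trans h⟩
    · rw [sum_toFinset' hnd, p.parts_sum]
  · intro p hp q hq hpq
    have h1 : p.parts.Nodup := by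
      simpa [Nat.Partition.distincts] using hp
    have h2 : q.parts.Nodup := by
      simpa [Nat.Partition.distincts] using hq
    apply Nat.Partition.ext
    have := congrArg Finset.val hpq
    rwa [Multiset.toFinset_val, Multiset.toFinset_val, h1.dedup, h2.dedup] at this
  · intro t ht
    rw [mem_filter, mem_powerset] at ht
    refine ⟨⟨t.val, ?_, ?_⟩, ?_, ?_⟩
    · intro i hi
      have := ht.1 (show i ∈ t from hi)
      rw [mem_Icc] at this
      exact this.1
    · rw [← ht.2, Finset.sum, Multiset.map_id']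
    · simpa [Nat.Partition.distincts] using t.nodup
    · simp
  · intro p hp
    have h1 : p.parts.Nodup := by
      simpa [Nat.Partition.distincts] using hp
    rw [sum_toFinset h1]
    rfl

/-- the generating series of `DSOME` -/
noncomputable def Dser : ℤ⟦X⟧ := PowerSeries.mk DSOME

theorem pr_theta {N : ℕ} {a b : ℤ⟦X⟧} (h : pr N a = pr N b) : pr N (theta a) = pr N (theta b) := by
  rw [pr_eq'] at h ⊢
  intro m hm
  rw [theta, theta, coeff_mk, coeff_mk, h m hm]

theorem Pr_PP (N : ℕ) : Pr (Icc 1 N) * ((Pool.Agent.Y246.Z700.PP N : Polynomial ℤ) : ℤ⟦X⟧) =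
    expand 2 two_ne_zero ((Pool.Agent.Y246.Z700.PP N : Polynomial ℤ) : ℤ⟦X⟧) := by
  have h1 : ((Pool.Agent.Y246.Z700.PP N : Polynomial ℤ) : ℤ⟦X⟧) =
      ∏ j ∈ range N, (1 - (X : ℤ⟦X⟧) ^ (j + 1)) := by
    unfold Pool.Agent.Y246.Z700.PP
    rw [← Polynomial.coeToPowerSeries.ringHom_apply, map_prod]
    refine Finset.prod_congr rfl fun j _ => ?_
    rw [map_sub, map_one, map_pow]
    simp
  have h2 : Pr (Icc 1 N) = ∏ j ∈ range N, (1 + (X : ℤ⟦X⟧) ^ (j + 1)) := by
    rw [Pr, Finset.range_eq_Ico, Finset.prod_Ico_add' (fun j => (1 + (X : ℤ⟦X⟧) ^ j)) 0 N 1]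
    rfl
  rw [h1, h2, ← prod_mul_distrib, map_prod]
  refine prod_congr rfl fun j _ => ?_
  rw [map_sub, map_one, map_pow, expand_X]
  ring

theorem Pr_even (N : ℕ) : Pr ((Icc 1 (2 * N)).filter Even) = expand 2 two_ne_zero (Pr (Icc 1 N)) := by
  rw [Pr, Pr, map_prod]
  symm
  refine prod_bij (fun j _ => 2 * j) ?_ ?_ ?_ ?_
  · intro j hj
    rw [mem_Icc] at hj
    rw [mem_filter, mem_Icc]
    exact ⟨by omega, even_two_mul j⟩
  · intro a _ b _ h
    simpa using h
  · intro j hj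
    rw [mem_filter, mem_Icc] at hj
    obtain ⟨h1, t, rfl⟩ := hj
    exact ⟨t, by rw [mem_Icc]; omega, by ring⟩
  · intro j _
    rw [map_add, map_one, map_pow, expand_X, ← pow_mul]

theorem exists_b : ∃ b : ℤ⟦X⟧, b * E1 = Ek 2 two_ne_zero ∧
    Dser * expand 2 two_ne_zero b = theta b * expand 2 two_ne_zero b -
      2 * b * theta (expand 2 two_ne_zero b) := by
  obtain ⟨g, hg⟩ := unit_of_const const_E1
  refine ⟨Ek 2 two_ne_zero * g, by rw [mul_assoc, mul_comm g, hg, mul_one], ?_⟩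
  set b := Ek 2 two_ne_zero * g with hb
  have hb1 : b * E1 = Ek 2 two_ne_zero := by rw [hb, mul_assoc, mul_comm g, hg, mul_one]
  have key : ∀ N, pr N (Pr (Icc 1 N)) = pr N b := by
    intro N
    have h1 : pr N E1 = pr N ((Pool.Agent.Y246.Z700.PP N : Polynomial ℤ) : ℤ⟦X⟧) :=
      pr_eq.2 (E1_dvd N)
    have h2 := congrArg (pr N) (Pr_PP N)
    have h3 := pr_expand 2 two_ne_zero h1
    rw [map_mul, ← h1, ← h3] at h2
    have h4 : pr N (expand 2 two_ne_zero E1) = pr N b * pr N E1 := by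
      rw [← map_mul, hb1]; rfl
    rw [h4] at h2
    have hg2 : pr N E1 * pr N g = 1 := by rw [← map_mul, hg, map_one]
    calc pr N (Pr (Icc 1 N)) = pr N (Pr (Icc 1 N)) * (pr N E1 * pr N g) := by rw [hg2, mul_one]
      _ = (pr N (Pr (Icc 1 N)) * pr N E1) * pr N g := by ring
      _ = (pr N b * pr N E1) * pr N g := by rw [h2]
      _ = pr N b * (pr N E1 * pr N g) := by ring
      _ = pr N b := by rw [hg2, mul_one]
  clear_value b
  refine ext_pr fun N => ?_
  have k1 : pr N (Pr (Icc 1 (2 * N))) = pr N b := pr_mono (by omega) (key (2 * N))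
  have k2 : pr N (Pr ((Icc 1 (2 * N)).filter Even)) = pr N (expand 2 two_ne_zero b) := by
    rw [Pr_even]
    exact pr_expand 2 two_ne_zero (key N)
  have k3 : pr N (Ws (Icc 1 (2 * N))) = pr N Dser := by
    rw [pr_eq']
    intro m hm
    rw [coeff_Ws (by omega), Dser, coeff_mk]
  have k4 := congrArg (pr N) (Ws_identity (Icc 1 (2 * N)))
  rw [map_sub, map_mul, map_mul, map_mul, map_mul, k3, k2, pr_theta k1, pr_theta k2, k1] at k4
  rw [map_sub, map_mul, map_mul, map_mul, map_mul]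
  exact k4

/-- the main theorem -/
theorem DSOME_cong {n : ℕ} (h5 : n % 5 = 1) (h25 : n % 25 ≠ 1) :
    ∃ z w u : ℤ, DSOME n = -12 * (n + 1) * z - 8 * (n - 1) * w + 16 * u := by
  obtain ⟨b, h1, h2⟩ := exists_b
  have := main_cong Dser b h1 h2 h5 h25
  rwa [Dser, coeff_mk] at this

theorem DSOME_8 {n : ℕ} (h5 : n % 5 = 1) (h25 : n % 25 ≠ 1) (h2 : n % 2 = 1) : (8 : ℤ) ∣ DSOME n := by
  obtain ⟨z, w, u, h⟩ := DSOME_cong h5 h25
  obtain ⟨m, rfl⟩ : ∃ m, n = 2 * m + 1 := ⟨n / 2, by omega⟩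
  rw [h]
  push_cast
  exact ⟨-3 * (m + 1) * z - 2 * m * w + 2 * u, by ring⟩

theorem DSOME_16 {n : ℕ} (h5 : n % 5 = 1) (h25 : n % 25 ≠ 1) (h4 : n % 4 = 3) :
    (16 : ℤ) ∣ DSOME n := by
  obtain ⟨z, w, u, h⟩ := DSOME_cong h5 h25
  obtain ⟨m, rfl⟩ : ∃ m, n = 4 * m + 3 := ⟨n / 4, by omega⟩
  rw [h]
  push_cast
  exact ⟨-3 * (m + 1) * z - (2 * m + 1) * w + u, by ring⟩

end Pool.Agent.V11172.Ds
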