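import Pool.Agent.V11172.PdA

/-!
Product forms of the theta series `φ(q)`, `ψ(q)`, `A(q) = f(q, q^2)`, `Ω(q) = f(q, q^5)`.
-/

set_option autoImplicit false

namespace Pool.Agent.V11172.Pd

open Finset PowerSeries Pool.Agent.Y246.Z700 Pool.Agent.Helper308.QS Pool.Agent.V11172.Ds

/-- `∏_{i<n} (1 + X^(k i + a))` -/
noncomputable def pp (k a n : ℕ) : ℤ⟦X⟧ := ∏ i ∈ range n, (1 + X ^ (k * i + a))

/-- `∏_{i<n} (1 - X^(k i + a))` -/
noncomputable def pm (k a n : ℕ) : ℤ⟦X⟧ := ∏ i ∈ range n, (1 - X ^ (k * i + a))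

theorem pp_mul_pm (k a n : ℕ) : pp k a n * pm k a n = pm (2 * k) (2 * a) n := by
  rw [pp, pm, pm, ← prod_mul_distrib]
  refine prod_congr rfl fun i _ => ?_
  rw [show 2 * k * i + 2 * a = (k * i + a) + (k * i + a) by ring, pow_add]
  ring

theorem pm_block (k a c n : ℕ) : pm k a (c * n) = ∏ r ∈ range c, pm (k * c) (k * r + a) n := by
  induction n with
  | zero => simp [pm]
  | succ n ih =>
    rw [mul_add, mul_one, pm, Finset.prod_range_add]
    have h1 : (∏ i ∈ range (c * n), (1 - (X : ℤ⟦X⟧) ^ (k * i + a))) = pm k a (c * n) := rfl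
    have h2 : ∀ r ∈ range c, pm (k * c) (k * r + a) (n + 1) =
        pm (k * c) (k * r + a) n * (1 - X ^ (k * (c * n + r) + a)) := by
      intro r _
      rw [pm, prod_range_succ, pm]
      congr 3
      ring
    rw [h1, ih, prod_congr rfl h2, prod_mul_distrib]

theorem coe_PP (n : ℕ) : ((PP n : Polynomial ℤ) : ℤ⟦X⟧) = ∏ j ∈ range n, (1 - (X : ℤ⟦X⟧) ^ (j + 1)) := by
  unfold PP
  rw [← Polynomial.coeToPowerSeries.ringHom_apply, map_prod]
  refine Finset.prod_congr rfl fun j _ => ?_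
  rw [map_sub, map_one, map_pow]
  simp

theorem pm_expand (k : ℕ) (hk : k ≠ 0) (n : ℕ) : pm k k n = expand k hk ((PP n : Polynomial ℤ) : ℤ⟦X⟧) := by
  rw [coe_PP, map_prod, pm]
  refine Finset.prod_congr rfl fun j _ => ?_
  rw [map_sub, map_one, map_pow, expand_X, ← pow_mul]
  congr 2

theorem pr_pm (k : ℕ) (hk : k ≠ 0) {N n : ℕ} (h : N ≤ n) : pr N (pm k k n) = pr N (Ek k hk) := by
  rw [pm_expand k hk]
  exact pr_expand k hk (pr_mono h (pr_eq.2 (E1_dvd n))).symm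

theorem jtp_series (k a : ℕ) (hk : k ≠ 0) (ha : a ≤ k)
    (e : ℤ → ℤ) (he : ∀ j, 2 * e j = k * j * (j - 1) + 2 * a * j) (he0 : ∀ j, 0 ≤ e j) (hG : Gr e)
    {N n : ℕ} (h : N < n) :
    pr N (th (fun _ => 1) e) = pr N (pp k (k - a) n * pp k a n * pm k k (2 * n)) := by
  have h1 := coe_dvd (jtp_dvd k a n hk ha e he he0)
  rw [Polynomial.coe_pow, Polynomial.coe_X, Polynomial.coe_sub] at h1
  have h2 : N + 1 ≤ k * n := by
    calc N + 1 ≤ n := h
      _ ≤ k * n := Nat.le_mul_of_pos_left _ (Nat.pos_of_ne_zero hk)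
  have h3 := pr_eq.2 ((pow_dvd_pow _ h2).trans h1)
  have c1 : (((∏ i ∈ range n, (1 + (Polynomial.X : Polynomial ℤ) ^ (k * (i + 1) - a))) *
      (∏ i ∈ range n, (1 + (Polynomial.X : Polynomial ℤ) ^ (k * i + a))) *
      Polynomial.expand ℤ k (PP (2 * n)) : Polynomial ℤ) : ℤ⟦X⟧) =
      pp k (k - a) n * pp k a n * pm k k (2 * n) := by
    rw [Polynomial.coe_mul, Polynomial.coe_mul, coe_expand k hk, ← pm_expand k hk]
    congr 1
    congr 1
    · rw [← Polynomial.coeToPowerSeries.ringHom_apply, map_prod, pp]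
      refine Finset.prod_congr rfl fun j _ => ?_
      have : k * (j + 1) - a = k * j + (k - a) := by
        rw [mul_add, mul_one, Nat.add_sub_assoc ha]
      rw [this, map_add, map_one, map_pow]
      simp
    · rw [← Polynomial.coeToPowerSeries.ringHom_apply, map_prod, pp]
      refine Finset.prod_congr rfl fun j _ => ?_
      rw [map_add, map_one, map_pow]
      simp
  rw [c1] at h3
  rw [h3, pr_eq']
  intro m hm
  rw [coeff_th hG m (B := n) (by omega), Polynomial.coeff_coe, Polynomial.finsetSum_coeff]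
  refine (Finset.sum_nbij' (fun b : ℕ => (b : ℤ) - n) (fun i => (i + n).toNat) ?_ ?_ ?_ ?_ ?_).symm
  · intro b hb
    rw [mem_range] at hb
    rw [mem_Icc]
    omega
  · intro i hi
    rw [mem_Icc] at hi
    rw [mem_range]
    omega
  · intro b _
    omega
  · intro i hi
    rw [mem_Icc] at hi
    omega
  · intro b _
    rw [Polynomial.coeff_X_pow]
    have h0 := he0 ((b : ℤ) - n)
    by_cases hh : e ((b : ℤ) - n) = m
    · rw [if_pos hh, if_pos]
      rw [hh]; simp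
    · rw [if_neg hh, if_neg]
      intro h'
      apply hh
      omega

/-- `ψ(q)` -/
noncomputable def psi : ℤ⟦X⟧ := th (fun _ => 1) (fun j => 2 * j ^ 2 - j)
/-- `f(q, q^2)` -/
noncomputable def AA : ℤ⟦X⟧ := th (fun _ => 1) eA
/-- the exponent of `f(q, q^5)` -/
def eO (j : ℤ) : ℤ := 3 * j ^ 2 - 2 * j
/-- `f(q, q^5)` -/
noncomputable def Om : ℤ⟦X⟧ := th (fun _ => 1) eO

/-- the exponent of `ψ` -/
def ePs (j : ℤ) : ℤ := 2 * j ^ 2 - j

theorem psi_def : psi = th (fun _ => 1) ePs := rfl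

theorem ePs_nonneg (i : ℤ) : 0 ≤ ePs i := by
  unfold ePs
  rcases le_or_gt i 0 with h | h
  · nlinarith
  · nlinarith

theorem eO_nonneg (i : ℤ) : 0 ≤ eO i := by
  unfold eO
  rcases le_or_gt i 0 with h | h
  · nlinarith
  · nlinarith

theorem gPs : Gr ePs := by
  intro i
  unfold ePs
  rw [abs_le]
  constructor <;> nlinarith [sq_nonneg (i + 1), sq_nonneg (i - 1)]

theorem gO : Gr eO := by
  intro i
  unfold eO
  rw [abs_le]
  constructor <;> nlinarith [sq_nonneg (i + 1), sq_nonneg (i - 1)]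


theorem Ek_one : Ek 1 one_ne_zero = E1 := by
  ext m
  rw [Ek, coeff_expand]
  simp

theorem pr_pm1 {N n : ℕ} (h : N ≤ n) : pr N (pm 1 1 n) = pr N E1 := by
  rw [pr_pm 1 one_ne_zero h, Ek_one]

/-- `ψ(q) f_1 = f_2^2` -/
theorem psi_eta : psi * E1 = Ek 2 two_ne_zero ^ 2 := by
  refine ext_pr fun N => ?_
  have h := jtp_series 4 1 (by norm_num) (by norm_num) ePs
    (fun j => by unfold ePs; push_cast; ring) ePs_nonneg gPs (N := N) (n := N + 1) (by omega)
  have b1 : ∀ n, pm 1 1 (4 * n) = pm 4 1 n * pm 4 2 n * pm 4 3 n * pm 4 4 n := fun n => by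
    simpa [Finset.prod_range_succ] using pm_block 1 1 4 n
  have b2 : ∀ n, pm 2 2 (4 * n) = pm 8 2 n * pm 8 4 n * pm 8 6 n * pm 8 8 n := fun n => by
    simpa [Finset.prod_range_succ] using pm_block 2 2 4 n
  have b3 : ∀ n, pm 2 2 (2 * n) = pm 4 2 n * pm 4 4 n := fun n => by
    simpa [Finset.prod_range_succ] using pm_block 2 2 2 n
  have b4 : ∀ n, pm 4 4 (2 * n) = pm 8 4 n * pm 8 8 n := fun n => by
    simpa [Finset.prod_range_succ] using pm_block 4 4 2 n
  have b5 : ∀ n, pp 4 1 n * pm 4 1 n = pm 8 2 n := fun n => by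
    simpa using pp_mul_pm 4 1 n
  have b6 : ∀ n, pp 4 3 n * pm 4 3 n = pm 8 6 n := fun n => by
    simpa using pp_mul_pm 4 3 n
  have key : ∀ n, pp 4 3 n * pp 4 1 n * pm 4 4 (2 * n) * pm 1 1 (4 * n) =
      pm 2 2 (4 * n) * pm 2 2 (2 * n) := fun n => by
    rw [b1, b2, b3, b4, ← b5, ← b6]; ring
  have k := congrArg (pr N) (key (N + 1))
  rw [show (4 : ℕ) - 1 = 3 by norm_num] at h
  rw [map_mul, ← h, map_mul, pr_pm1 (by omega), pr_pm 2 two_ne_zero (by omega),
    pr_pm 2 two_ne_zero (by omega)] at k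
  rw [psi_def, map_mul, k, map_pow, sq]

/-- `φ(q) f_1^2 f_4^2 = f_2^5` -/
theorem phip_eta : Phip * (E1 ^ 2 * Ek 4 four_ne_zero ^ 2) = Ek 2 two_ne_zero ^ 5 := by
  refine ext_pr fun N => ?_
  have h := jtp_series 2 1 (by norm_num) (by norm_num) eS
    (fun j => by unfold eS; push_cast; ring) eS_nonneg gS (N := N) (n := N + 1) (by omega)
  have b1 : ∀ n, pm 1 1 (2 * n) = pm 2 1 n * pm 2 2 n := fun n => by
    simpa [Finset.prod_range_succ] using pm_block 1 1 2 n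
  have b2 : ∀ n, pm 2 2 (2 * n) = pm 4 2 n * pm 4 4 n := fun n => by
    simpa [Finset.prod_range_succ] using pm_block 2 2 2 n
  have b5 : ∀ n, pp 2 1 n * pm 2 1 n = pm 4 2 n := fun n => by
    simpa using pp_mul_pm 2 1 n
  have key : ∀ n, pp 2 1 n * pp 2 1 n * pm 2 2 (2 * n) * (pm 1 1 (2 * n) ^ 2 * pm 4 4 n ^ 2) =
      pm 2 2 (2 * n) ^ 3 * pm 2 2 n ^ 2 := fun n => by
    rw [b1, b2, ← b5]; ring
  have k := congrArg (pr N) (key (N + 1))
  rw [show (2 : ℕ) - 1 = 1 by norm_num] at h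
  rw [map_mul, ← h, map_mul, map_mul, map_pow, map_pow, map_pow, map_pow, pr_pm1 (by omega),
    pr_pm 2 two_ne_zero (by omega), pr_pm 4 four_ne_zero (by omega),
    pr_pm 2 two_ne_zero (by omega)] at k
  rw [Phip, map_mul, map_mul, map_pow, map_pow, k, map_pow]
  ring

/-- `f(q, q^2) f_1 f_6 = f_2 f_3^2` -/
theorem AA_eta : AA * (E1 * Ek 6 (by norm_num)) = Ek 2 two_ne_zero * Ek 3 three_ne_zero ^ 2 := by
  refine ext_pr fun N => ?_
  have h := jtp_series 3 2 (by norm_num) (by norm_num) eA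
    (fun j => by rw [eA_two]; push_cast; ring) eA_nonneg gA (N := N) (n := N + 1) (by omega)
  have b1 : ∀ n, pm 1 1 (3 * n) = pm 3 1 n * pm 3 2 n * pm 3 3 n := fun n => by
    simpa [Finset.prod_range_succ] using pm_block 1 1 3 n
  have b2 : ∀ n, pm 2 2 (3 * n) = pm 6 2 n * pm 6 4 n * pm 6 6 n := fun n => by
    simpa [Finset.prod_range_succ] using pm_block 2 2 3 n
  have b5 : ∀ n, pp 3 1 n * pm 3 1 n = pm 6 2 n := fun n => by
    simpa using pp_mul_pm 3 1 n
  have b6 : ∀ n, pp 3 2 n * pm 3 2 n = pm 6 4 n := fun n => by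
    simpa using pp_mul_pm 3 2 n
  have key : ∀ n, pp 3 1 n * pp 3 2 n * pm 3 3 (2 * n) * (pm 1 1 (3 * n) * pm 6 6 n) =
      pm 2 2 (3 * n) * (pm 3 3 n * pm 3 3 (2 * n)) := fun n => by
    rw [b1, b2, ← b5, ← b6]; ring
  have k := congrArg (pr N) (key (N + 1))
  rw [show (3 : ℕ) - 2 = 1 by norm_num] at h
  rw [map_mul, ← h, map_mul, map_mul, map_mul, pr_pm1 (by omega), pr_pm 6 (by norm_num) (by omega),
    pr_pm 2 two_ne_zero (by omega), pr_pm 3 three_ne_zero (by omega),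
    pr_pm 3 three_ne_zero (by omega)] at k
  rw [AA, map_mul, map_mul, k, map_mul, map_pow, sq]

/-- `f(q, q^5) f_1 f_4 f_6 = f_2^2 f_3 f_12` -/
theorem Om_eta : Om * (E1 * Ek 4 four_ne_zero * Ek 6 (by norm_num)) = Ek 2 two_ne_zero ^ 2 * Ek 3 three_ne_zero * Ek 12 (by norm_num) := by
  refine ext_pr fun N => ?_
  have h := jtp_series 6 1 (by norm_num) (by norm_num) eO
    (fun j => by unfold eO; push_cast; ring) eO_nonneg gO (N := N) (n := N + 1) (by omega)
  have b1 : ∀ n, pm 1 1 (6 * n) = pm 6 1 n * pm 6 2 n * pm 6 3 n * pm 6 4 n * pm 6 5 n * pm 6 6 n :=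
    fun n => by simpa [Finset.prod_range_succ] using pm_block 1 1 6 n
  have b2 : ∀ n, pm 2 2 (6 * n) =
      pm 12 2 n * pm 12 4 n * pm 12 6 n * pm 12 8 n * pm 12 10 n * pm 12 12 n := fun n => by
    simpa [Finset.prod_range_succ] using pm_block 2 2 6 n
  have b3 : ∀ n, pm 2 2 (3 * n) = pm 6 2 n * pm 6 4 n * pm 6 6 n := fun n => by
    simpa [Finset.prod_range_succ] using pm_block 2 2 3 n
  have b4 : ∀ n, pm 3 3 (2 * n) = pm 6 3 n * pm 6 6 n := fun n => by
    simpa [Finset.prod_range_succ] using pm_block 3 3 2 n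
  have b7 : ∀ n, pm 4 4 (3 * n) = pm 12 4 n * pm 12 8 n * pm 12 12 n := fun n => by
    simpa [Finset.prod_range_succ] using pm_block 4 4 3 n
  have b8 : ∀ n, pm 6 6 (2 * n) = pm 12 6 n * pm 12 12 n := fun n => by
    simpa [Finset.prod_range_succ] using pm_block 6 6 2 n
  have b5 : ∀ n, pp 6 1 n * pm 6 1 n = pm 12 2 n := fun n => by
    simpa using pp_mul_pm 6 1 n
  have b6 : ∀ n, pp 6 5 n * pm 6 5 n = pm 12 10 n := fun n => by
    simpa using pp_mul_pm 6 5 n
  have key : ∀ n, pp 6 5 n * pp 6 1 n * pm 6 6 (2 * n) * (pm 1 1 (6 * n) * pm 4 4 (3 * n) *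
      pm 6 6 n) = pm 2 2 (6 * n) * pm 2 2 (3 * n) * pm 3 3 (2 * n) * pm 12 12 n := fun n => by
    rw [b1, b2, b3, b4, b7, b8, ← b5, ← b6]; ring
  have k := congrArg (pr N) (key (N + 1))
  rw [show (6 : ℕ) - 1 = 5 by norm_num] at h
  rw [map_mul, ← h, map_mul, map_mul, map_mul, map_mul, map_mul, pr_pm1 (by omega),
    pr_pm 4 four_ne_zero (by omega), pr_pm 6 (by norm_num) (by omega),
    pr_pm 2 two_ne_zero (by omega), pr_pm 2 two_ne_zero (by omega),
    pr_pm 3 three_ne_zero (by omega), pr_pm 12 (by norm_num) (by omega)] at k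
  rw [Om, map_mul, map_mul, map_mul, k, map_mul, map_mul, map_pow, sq]

end Pool.Agent.V11172.Pd
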