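import Pool.Agent.V11172.PdB

/-!
Lattice sums: dissections of `φ`, `ψ`, and the two binary identities
`2ψ(q) 2ψ(q^2) = 2ψ(q^3) φ(q^3) + 2 A Ω` and
`A Ω = A(q^3) A(q^6) + q 2ψ(q^9) A(q^6) + q^2 A(q^3) 2ψ(q^18)`.
-/

set_option autoImplicit false

namespace Pool.Agent.V11172.Pd

open Finset PowerSeries Pool.Agent.Helper308.QS Pool.Agent.V11172.Ds

theorem th_bij {c c' : ℤ → ℤ} {E E' : ℤ → ℤ} (hE : Gr E) (hE' : Gr E') (g h : ℤ → ℤ)
    (h1 : ∀ p, h (g p) = p) (h2 : ∀ q, c q ≠ 0 → g (h q) = q)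
    (h3 : ∀ p, E' p = E (g p)) (h4 : ∀ p, c' p = c (g p)) : th c' E' = th c E := by
  ext n
  rw [coeff_th hE' n (B := n + 1) le_rfl, coeff_th hE n (B := n + 1) le_rfl]
  refine sum_bij_ne_zero (fun p _ _ => g p) ?_ ?_ ?_ ?_
  · intro p _ hp
    have : E' p = n := by
      by_contra hh; rw [if_neg hh] at hp; exact hp rfl
    rw [h3] at this
    exact hE.mem this.le le_rfl
  · intro p _ _ q _ _ hh
    rw [← h1 p, ← h1 q, hh]
  · intro q _ hq
    have e1 : E q = n := by
      by_contra hh; rw [if_neg hh] at hq; exact hq rfl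
    rw [if_pos e1] at hq
    have e2 := h2 q hq
    have e3 : E' (h q) = n := by rw [h3, e2, e1]
    refine ⟨h q, hE'.mem e3.le le_rfl, ?_, e2⟩
    rw [if_pos e3, h4, e2]
    exact hq
  · intro p _ _
    simp only [h3, h4]

theorem X_mul_th (s : ℕ) (c : ℤ → ℤ) {E : ℤ → ℤ} (hE : Gr E) (hE0 : ∀ i, 0 ≤ E i) :
    X ^ s * th c E = th c (fun i => E i + s) := by
  have hE' : Gr (fun i => E i + s) := fun i => by
    have := hE i
    have h2 : (0 : ℤ) ≤ s := by positivity
    simp only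
    linarith
  ext n
  rw [coeff_X_pow_mul', coeff_th hE' n (B := n + 1) le_rfl]
  split_ifs with h
  · rw [coeff_th hE (n - s) (B := n + 1) (by omega)]
    refine sum_congr rfl fun i _ => ?_
    by_cases hh : E i = ((n - s : ℕ) : ℤ)
    · rw [if_pos hh, if_pos]; omega
    · rw [if_neg hh, if_neg]; omega
  · rw [sum_eq_zero]
    intro i _
    rw [if_neg]
    have := hE0 i
    omega

/-- lattice series -/
noncomputable def th2 (c : ℤ × ℤ → ℤ) (E : ℤ × ℤ → ℤ) : ℤ⟦X⟧ :=
  PowerSeries.mk fun n => ∑ p ∈ Icc (-((n : ℤ) + 1)) (n + 1) ×ˢ Icc (-((n : ℤ) + 1)) (n + 1),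
    if E p = n then c p else 0

/-- growth condition -/
def Gr2 (E : ℤ × ℤ → ℤ) : Prop := ∀ p, |p.1| ≤ E p + 1 ∧ |p.2| ≤ E p + 1

theorem Gr2.mem {E : ℤ × ℤ → ℤ} (h : Gr2 E) {p : ℤ × ℤ} {n : ℤ} (hp : E p = n) :
    p ∈ Icc (-(n + 1)) (n + 1) ×ˢ Icc (-(n + 1)) (n + 1) := by
  rw [mem_product, mem_Icc, mem_Icc, ← abs_le, ← abs_le, ← hp]
  exact h p

theorem th_mul (c d : ℤ → ℤ) {e f : ℤ → ℤ} (he : Gr e) (hf : Gr f) (he0 : ∀ i, 0 ≤ e i)
    (hf0 : ∀ i, 0 ≤ f i) :
    th c e * th d f = th2 (fun p => c p.1 * d p.2) (fun p => e p.1 + f p.2) := by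
  ext n
  rw [coeff_th_mul he hf he0 hf0 n (B := n + 1) le_rfl, th2, coeff_mk]

theorem gr2_add {e f : ℤ → ℤ} (he : Gr e) (hf : Gr f) (he0 : ∀ i, 0 ≤ e i)
    (hf0 : ∀ i, 0 ≤ f i) : Gr2 (fun p => e p.1 + f p.2) := fun p => by
  have h1 := he p.1
  have h2 := hf p.2
  have h3 := he0 p.1
  have h4 := hf0 p.2
  simp only
  constructor <;> linarith

theorem th2_add (c d : ℤ × ℤ → ℤ) (E : ℤ × ℤ → ℤ) :
    th2 (fun i => c i + d i) E = th2 c E + th2 d E := by
  ext m
  rw [map_add, th2, th2, th2, coeff_mk, coeff_mk, coeff_mk, ← sum_add_distrib]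
  refine sum_congr rfl fun i _ => ?_
  split_ifs <;> simp

theorem th2_bij {c c' : ℤ × ℤ → ℤ} {E E' : ℤ × ℤ → ℤ} (hE : Gr2 E) (hE' : Gr2 E')
    (g h : ℤ × ℤ → ℤ × ℤ) (h1 : ∀ p, h (g p) = p) (h2 : ∀ q, c q ≠ 0 → g (h q) = q)
    (h3 : ∀ p, E' p = E (g p)) (h4 : ∀ p, c' p = c (g p)) : th2 c' E' = th2 c E := by
  ext n
  rw [th2, th2, coeff_mk, coeff_mk]
  refine sum_bij_ne_zero (fun p _ _ => g p) ?_ ?_ ?_ ?_
  · intro p _ hp
    have : E' p = n := by
      by_contra hh; rw [if_neg hh] at hp; exact hp rfl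
    rw [h3] at this
    exact hE.mem this
  · intro p _ _ q _ _ hh
    rw [← h1 p, ← h1 q, hh]
  · intro q _ hq
    have e1 : E q = n := by
      by_contra hh; rw [if_neg hh] at hq; exact hq rfl
    rw [if_pos e1] at hq
    have e2 := h2 q hq
    have e3 : E' (h q) = n := by rw [h3, e2, e1]
    refine ⟨h q, hE'.mem e3, ?_, e2⟩
    rw [if_pos e3, h4, e2]
    exact hq
  · intro p _ _
    simp only [h3, h4]

/-- `2 ψ(q)` -/
noncomputable def Ps2 : ℤ⟦X⟧ := th (fun _ => 1) eT

theorem split3 (E : ℤ → ℤ) : th (fun _ => 1) E = th (fun i => if i % 3 = 0 then (1 : ℤ) else 0) E +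
    (th (fun i => if i % 3 = 1 then (1 : ℤ) else 0) E + th (fun i => if i % 3 = 2 then (1 : ℤ) else 0) E) := by
  rw [← th_add, ← th_add]
  congr 1
  funext i
  rcases (by omega : i % 3 = 0 ∨ i % 3 = 1 ∨ i % 3 = 2) with h | h | h <;> simp [h]

theorem split2 (E : ℤ → ℤ) : th (fun _ => 1) E = th (fun i => if i % 2 = 0 then (1 : ℤ) else 0) E +
    th (fun i => if i % 2 = 1 then (1 : ℤ) else 0) E := by
  rw [← th_add]
  congr 1
  funext i
  rcases (by omega : i % 2 = 0 ∨ i % 2 = 1) with h | h <;> simp [h]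

theorem Ps2_eq : Ps2 = 2 * psi := by
  rw [Ps2, split2 eT, psi_def, two_mul]
  congr 1
  · refine (th_bij gT gPs (fun t => -2 * t) (fun j => -(j / 2)) ?_ ?_ ?_ ?_).symm
    · intro p; (try simp only); omega
    · intro q hq
      have : q % 2 = 0 := by by_contra hh; rw [if_neg hh] at hq; exact hq rfl
      (try simp only); omega
    · intro p
      have := eT_two (-2 * p)
      unfold ePs
      linarith
    · intro p; (try simp only); rw [if_pos]; omega
  · refine (th_bij gT gPs (fun t => 2 * t - 1) (fun j => (j + 1) / 2) ?_ ?_ ?_ ?_).symm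
    · intro p; (try simp only); omega
    · intro q hq
      have : q % 2 = 1 := by by_contra hh; rw [if_neg hh] at hq; exact hq rfl
      (try simp only); omega
    · intro p
      have := eT_two (2 * p - 1)
      unfold ePs
      linarith
    · intro p; (try simp only); rw [if_pos]; omega

theorem g9S : Gr (fun i => ((9 : ℕ) : ℤ) * eS i) := gr_mul (by norm_num) gS eS_nonneg
theorem g3O : Gr (fun i => ((3 : ℕ) : ℤ) * eO i) := gr_mul (by norm_num) gO eO_nonneg
theorem g3A : Gr (fun i => ((3 : ℕ) : ℤ) * eA i) := gr_mul (by norm_num) gA eA_nonneg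
theorem g6A : Gr (fun i => ((6 : ℕ) : ℤ) * eA i) := gr_mul (by norm_num) gA eA_nonneg
theorem g9T : Gr (fun i => ((9 : ℕ) : ℤ) * eT i) := gr_mul (by norm_num) gT eT_nonneg
theorem g18T : Gr (fun i => ((18 : ℕ) : ℤ) * eT i) := gr_mul (by norm_num) gT eT_nonneg
theorem g2T : Gr (fun i => ((2 : ℕ) : ℤ) * eT i) := gr_mul (by norm_num) gT eT_nonneg
theorem g3T : Gr (fun i => ((3 : ℕ) : ℤ) * eT i) := gr_mul (by norm_num) gT eT_nonneg
theorem g3S : Gr (fun i => ((3 : ℕ) : ℤ) * eS i) := gr_mul (by norm_num) gS eS_nonneg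

theorem nn_mul (k : ℕ) {e : ℤ → ℤ} (he0 : ∀ i, 0 ≤ e i) (i : ℤ) : 0 ≤ (k : ℤ) * e i :=
  mul_nonneg (by positivity) (he0 i)

/-- `φ(q) = φ(q^9) + 2 q Ω(q^3)` -/
theorem phip_dis : Phip = expand 9 (by norm_num) Phip + 2 * X * expand 3 three_ne_zero Om := by
  rw [Phip, Om, expand_th 9 (by norm_num) _ gS eS_nonneg, expand_th 3 three_ne_zero _ gO eO_nonneg,
    split3 eS]
  have hX : 2 * X * th (fun _ => (1 : ℤ)) (fun i => ((3 : ℕ) : ℤ) * eO i) =
      X ^ 1 * th (fun _ => (1 : ℤ)) (fun i => ((3 : ℕ) : ℤ) * eO i) +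
      X ^ 1 * th (fun _ => (1 : ℤ)) (fun i => ((3 : ℕ) : ℤ) * eO i) := by ring
  rw [hX, X_mul_th 1 _ g3O (nn_mul 3 eO_nonneg)]
  have hg : Gr (fun i => ((3 : ℕ) : ℤ) * eO i + ((1 : ℕ) : ℤ)) := fun i => by
    have := g3O i
    simp only at this ⊢
    push_cast at this ⊢
    linarith
  congr 1
  · refine (th_bij gS g9S (fun t => 3 * t) (fun j => j / 3) ?_ ?_ ?_ ?_).symm
    · intro p; (try simp only); omega
    · intro q hq
      have : q % 3 = 0 := by by_contra hh; rw [if_neg hh] at hq; exact hq rfl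
      (try simp only); omega
    · intro p
      unfold eS
      push_cast; ring
    · intro p; (try simp only); rw [if_pos]; omega
  · congr 1
    · refine (th_bij gS hg (fun t => 1 - 3 * t) (fun j => (1 - j) / 3) ?_ ?_ ?_ ?_).symm
      · intro p; (try simp only); omega
      · intro q hq
        have : q % 3 = 1 := by by_contra hh; rw [if_neg hh] at hq; exact hq rfl
        (try simp only); omega
      · intro p
        unfold eS eO
        push_cast; ring
      · intro p; (try simp only); rw [if_pos]; omega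
    · refine (th_bij gS hg (fun t => 3 * t - 1) (fun j => (j + 1) / 3) ?_ ?_ ?_ ?_).symm
      · intro p; (try simp only); omega
      · intro q hq
        have : q % 3 = 2 := by by_contra hh; rw [if_neg hh] at hq; exact hq rfl
        (try simp only); omega
      · intro p
        unfold eS eO
        push_cast; ring
      · intro p; (try simp only); rw [if_pos]; omega

theorem Ps2_dis : Ps2 = 2 * expand 3 three_ne_zero AA + X * expand 9 (by norm_num) Ps2 := by
  rw [Ps2, AA, expand_th 9 (by norm_num) _ gT eT_nonneg, expand_th 3 three_ne_zero _ gA eA_nonneg,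
    split3 eT]
  have hX : X * th (fun _ => (1 : ℤ)) (fun i => ((9 : ℕ) : ℤ) * eT i) =
      X ^ 1 * th (fun _ => (1 : ℤ)) (fun i => ((9 : ℕ) : ℤ) * eT i) := by ring
  rw [hX, X_mul_th 1 _ g9T (nn_mul 9 eT_nonneg)]
  have hg : Gr (fun i => ((9 : ℕ) : ℤ) * eT i + ((1 : ℕ) : ℤ)) := fun i => by
    have := g9T i
    simp only at this ⊢
    push_cast at this ⊢
    linarith
  have k0 : th (fun _ => (1 : ℤ)) (fun i => ((3 : ℕ) : ℤ) * eA i) =
      th (fun i => if i % 3 = 0 then (1 : ℤ) else 0) eT := by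
    refine th_bij gT g3A (fun t => 3 * t) (fun j => j / 3) ?_ ?_ ?_ ?_
    · intro p; (try simp only); omega
    · intro q hq
      have : q % 3 = 0 := by by_contra hh; rw [if_neg hh] at hq; exact hq rfl
      (try simp only); omega
    · intro p
      have h1 := eT_two (3 * p)
      have h2 := eA_two p
      push_cast; linarith
    · intro p; (try simp only); rw [if_pos]; omega
  have k2 : th (fun _ => (1 : ℤ)) (fun i => ((3 : ℕ) : ℤ) * eA i) =
      th (fun i => if i % 3 = 2 then (1 : ℤ) else 0) eT := by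
    refine th_bij gT g3A (fun t => -1 - 3 * t) (fun j => -((j + 1) / 3)) ?_ ?_ ?_ ?_
    · intro p; (try simp only); omega
    · intro q hq
      have : q % 3 = 2 := by by_contra hh; rw [if_neg hh] at hq; exact hq rfl
      (try simp only); omega
    · intro p
      have h1 := eT_two (-1 - 3 * p)
      have h2 := eA_two p
      push_cast; linarith
    · intro p; (try simp only); rw [if_pos]; omega
  have k1 : th (fun _ => (1 : ℤ)) (fun i => ((9 : ℕ) : ℤ) * eT i + ((1 : ℕ) : ℤ)) =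
      th (fun i => if i % 3 = 1 then (1 : ℤ) else 0) eT := by
    refine th_bij gT hg (fun t => 3 * t + 1) (fun j => (j - 1) / 3) ?_ ?_ ?_ ?_
    · intro p; (try simp only); omega
    · intro q hq
      have : q % 3 = 1 := by by_contra hh; rw [if_neg hh] at hq; exact hq rfl
      (try simp only); omega
    · intro p
      have h1 := eT_two (3 * p + 1)
      have h2 := eT_two p
      push_cast; linarith
    · intro p; (try simp only); rw [if_pos]; omega
  rw [← k1, ← k2, ← k0]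
  ring

theorem split3' (s : ℤ × ℤ → ℤ) (E : ℤ × ℤ → ℤ) : th2 (fun _ => 1) E =
    th2 (fun i => if s i % 3 = 0 then (1 : ℤ) else 0) E +
    (th2 (fun i => if s i % 3 = 1 then (1 : ℤ) else 0) E + th2 (fun i => if s i % 3 = 2 then (1 : ℤ) else 0) E) := by
  rw [← th2_add, ← th2_add]
  congr 1
  funext i
  rcases (by omega : s i % 3 = 0 ∨ s i % 3 = 1 ∨ s i % 3 = 2) with h | h | h <;> simp [h]

theorem th_mul1 {e f : ℤ → ℤ} (he : Gr e) (hf : Gr f) (he0 : ∀ i, 0 ≤ e i)
    (hf0 : ∀ i, 0 ≤ f i) :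
    th (fun _ => (1 : ℤ)) e * th (fun _ => (1 : ℤ)) f = th2 (fun _ => 1) (fun p => e p.1 + f p.2) := by
  rw [th_mul _ _ he hf he0 hf0]
  rfl

/-- `2ψ(q) 2ψ(q^2) = 2ψ(q^3) φ(q^3) + 2 A Ω` -/
theorem X1 : Ps2 * expand 2 two_ne_zero Ps2 =
    expand 3 three_ne_zero Ps2 * expand 3 three_ne_zero Phip + 2 * (AA * Om) := by
  rw [Ps2, Phip, AA, Om, expand_th 2 two_ne_zero _ gT eT_nonneg,
    expand_th 3 three_ne_zero _ gT eT_nonneg, expand_th 3 three_ne_zero _ gS eS_nonneg,
    th_mul1 gT g2T eT_nonneg (nn_mul 2 eT_nonneg), th_mul1 g3T g3S (nn_mul 3 eT_nonneg)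
      (nn_mul 3 eS_nonneg), th_mul1 gA gO eA_nonneg eO_nonneg, split3' (fun p => p.1 + p.2)]
  have G := gr2_add gT g2T eT_nonneg (nn_mul 2 eT_nonneg)
  have k2 : th2 (fun _ => (1 : ℤ)) (fun p => ((3 : ℕ) : ℤ) * eT p.1 + ((3 : ℕ) : ℤ) * eS p.2) =
      th2 (fun i : ℤ × ℤ => if (i.1 + i.2) % 3 = 2 then (1 : ℤ) else 0)
        (fun p => eT p.1 + ((2 : ℕ) : ℤ) * eT p.2) := by
    refine th2_bij G (gr2_add g3T g3S (nn_mul 3 eT_nonneg) (nn_mul 3 eS_nonneg))
      (fun p => (2 * p.2 + p.1, p.2 - p.1 - 1))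
      (fun q => (q.1 - 2 * ((q.1 + q.2 + 1) / 3), (q.1 + q.2 + 1) / 3)) ?_ ?_ ?_ ?_
    · intro p; ext <;> simp only <;> omega
    · intro q hq
      have : (q.1 + q.2) % 3 = 2 := by by_contra hh; rw [if_neg hh] at hq; exact hq rfl
      ext <;> simp only <;> omega
    · intro p
      have h1 := eT_two (2 * p.2 + p.1)
      have h2 := eT_two (p.2 - p.1 - 1)
      have h3 := eT_two p.1
      unfold eS
      push_cast
      linarith
    · intro p; (try simp only); rw [if_pos]; omega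
  have k1 : th2 (fun _ => (1 : ℤ)) (fun p => eA p.1 + eO p.2) =
      th2 (fun i : ℤ × ℤ => if (i.1 + i.2) % 3 = 1 then (1 : ℤ) else 0)
        (fun p => eT p.1 + ((2 : ℕ) : ℤ) * eT p.2) := by
    refine th2_bij G (gr2_add gA gO eA_nonneg eO_nonneg)
      (fun p => (p.1 + 2 * p.2 - 1, p.2 - p.1 - 1))
      (fun q => ((q.1 + q.2 + 2) / 3 - 1 - q.2, (q.1 + q.2 + 2) / 3)) ?_ ?_ ?_ ?_
    · intro p; ext <;> simp only <;> omega
    · intro q hq
      have : (q.1 + q.2) % 3 = 1 := by by_contra hh; rw [if_neg hh] at hq; exact hq rfl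
      ext <;> simp only <;> omega
    · intro p
      have h1 := eT_two (p.1 + 2 * p.2 - 1)
      have h2 := eT_two (p.2 - p.1 - 1)
      have h3 := eA_two p.1
      unfold eO
      push_cast
      linarith
    · intro p; (try simp only); rw [if_pos]; omega
  have k0 : th2 (fun _ => (1 : ℤ)) (fun p => eA p.1 + eO p.2) =
      th2 (fun i : ℤ × ℤ => if (i.1 + i.2) % 3 = 0 then (1 : ℤ) else 0)
        (fun p => eT p.1 + ((2 : ℕ) : ℤ) * eT p.2) := by
    refine th2_bij G (gr2_add gA gO eA_nonneg eO_nonneg)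
      (fun p => (-p.1 - 2 * p.2, p.1 - p.2))
      (fun q => (q.2 + -((q.1 + q.2) / 3), -((q.1 + q.2) / 3))) ?_ ?_ ?_ ?_
    · intro p; ext <;> simp only <;> omega
    · intro q hq
      have : (q.1 + q.2) % 3 = 0 := by by_contra hh; rw [if_neg hh] at hq; exact hq rfl
      ext <;> simp only <;> omega
    · intro p
      have h1 := eT_two (-p.1 - 2 * p.2)
      have h2 := eT_two (p.1 - p.2)
      have h3 := eA_two p.1
      unfold eO
      push_cast
      linarith
    · intro p; (try simp only); rw [if_pos]; omega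
  rw [← k0, ← k1, ← k2]
  ring

theorem X_mul_th2 (s : ℕ) {E : ℤ × ℤ → ℤ} (hE : Gr2 E) (hE0 : ∀ p, 0 ≤ E p) :
    X ^ s * th2 (fun _ => (1 : ℤ)) E = th2 (fun _ => 1) (fun i => E i + s) := by
  ext n
  rw [coeff_X_pow_mul', th2, th2, coeff_mk, coeff_mk]
  split_ifs with h
  · refine sum_bij_ne_zero (fun p _ _ => p) ?_ ?_ ?_ ?_
    · intro p _ hp
      have : E p = ((n - s : ℕ) : ℤ) := by
        by_contra hh; rw [if_neg hh] at hp; exact hp rfl
      have h2 := hE.mem this
      rw [mem_product, mem_Icc, mem_Icc] at h2 ⊢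
      omega
    · intro p _ _ q _ _ hh; exact hh
    · intro q _ hq
      have e1 : E q + s = n := by
        by_contra hh; rw [if_neg hh] at hq; exact hq rfl
      have e2 : E q = ((n - s : ℕ) : ℤ) := by omega
      refine ⟨q, hE.mem e2, ?_, rfl⟩
      rw [if_pos e2]; norm_num
    · intro p _ hp
      have e1 : E p = ((n - s : ℕ) : ℤ) := by
        by_contra hh; rw [if_neg hh] at hp; exact hp rfl
      rw [if_pos e1, if_pos]
      omega
  · rw [sum_eq_zero]
    intro i _
    rw [if_neg]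
    have := hE0 i
    omega

/-- `A Ω = A(q^3) A(q^6) + q 2ψ(q^9) A(q^6) + q^2 A(q^3) 2ψ(q^18)` -/
theorem OmA : AA * Om = expand 3 three_ne_zero AA * expand 6 (by norm_num) AA +
    (X * (expand 9 (by norm_num) Ps2 * expand 6 (by norm_num) AA) +
      X ^ 2 * (expand 3 three_ne_zero AA * expand 18 (by norm_num) Ps2)) := by
  have hX : X * (expand 9 (by norm_num) Ps2 * expand 6 (by norm_num) AA) =
    X ^ 1 * (expand 9 (by norm_num) Ps2 * expand 6 (by norm_num) AA) := by ring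
  rw [hX, AA, Om, Ps2, expand_th 3 three_ne_zero _ gA eA_nonneg, expand_th 6 (by norm_num) _ gA eA_nonneg,
    expand_th 9 (by norm_num) _ gT eT_nonneg, expand_th 18 (by norm_num) _ gT eT_nonneg,
    th_mul1 gA gO eA_nonneg eO_nonneg, th_mul1 g3A g6A (nn_mul 3 eA_nonneg) (nn_mul 6 eA_nonneg),
    th_mul1 g9T g6A (nn_mul 9 eT_nonneg) (nn_mul 6 eA_nonneg),
    th_mul1 g3A g18T (nn_mul 3 eA_nonneg) (nn_mul 18 eT_nonneg),
    split3' (fun p => p.2 - p.1),
    X_mul_th2 1 (gr2_add g9T g6A (nn_mul 9 eT_nonneg) (nn_mul 6 eA_nonneg))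
      (fun p => add_nonneg (nn_mul 9 eT_nonneg p.1) (nn_mul 6 eA_nonneg p.2)),
    X_mul_th2 2 (gr2_add g3A g18T (nn_mul 3 eA_nonneg) (nn_mul 18 eT_nonneg))
      (fun p => add_nonneg (nn_mul 3 eA_nonneg p.1) (nn_mul 18 eT_nonneg p.2))]
  have G := gr2_add gA gO eA_nonneg eO_nonneg
  have gs : ∀ (s : ℕ) (E : ℤ × ℤ → ℤ), Gr2 E → Gr2 (fun i => E i + s) := by
    intro s E hE p
    have := hE p
    have h2 : (0 : ℤ) ≤ s := by positivity
    simp only
    constructor <;> linarith [this.1, this.2]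
  congr 1
  · symm
    refine th2_bij G (gr2_add g3A g6A (nn_mul 3 eA_nonneg) (nn_mul 6 eA_nonneg))
      (fun p => (2 * p.2 - p.1, -p.1 - p.2))
      (fun q => (-q.2 - (q.1 - q.2) / 3, (q.1 - q.2) / 3)) ?_ ?_ ?_ ?_
    · intro p; ext <;> simp only <;> omega
    · intro q hq
      try simp only at hq
      have : (q.2 - q.1) % 3 = 0 := by by_contra hh; rw [if_neg hh] at hq; exact hq rfl
      ext <;> simp only <;> omega
    · intro p
      have h1 := eA_two (2 * p.2 - p.1)
      have h2 := eA_two p.1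
      have h3 := eA_two p.2
      unfold eO
      push_cast
      linarith
    · intro p; (try simp only); rw [if_pos]; omega
  · congr 1
    · symm
      refine th2_bij G (gs 1 _ (gr2_add g9T g6A (nn_mul 9 eT_nonneg) (nn_mul 6 eA_nonneg)))
        (fun p => (p.1 - 2 * p.2, p.1 + p.2 + 1))
        (fun q => (q.1 + 2 * ((q.2 - q.1 - 1) / 3), (q.2 - q.1 - 1) / 3)) ?_ ?_ ?_ ?_
      · intro p; ext <;> simp only <;> omega
      · intro q hq
        try simp only at hq
        have : (q.2 - q.1) % 3 = 1 := by by_contra hh; rw [if_neg hh] at hq; exact hq rfl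
        ext <;> simp only <;> omega
      · intro p
        have h1 := eA_two (p.1 - 2 * p.2)
        have h2 := eT_two p.1
        have h3 := eA_two p.2
        unfold eO
        push_cast
        linarith
      · intro p; (try simp only); rw [if_pos]; omega
    · symm
      refine th2_bij G (gs 2 _ (gr2_add g3A g18T (nn_mul 3 eA_nonneg) (nn_mul 18 eT_nonneg)))
        (fun p => (p.1 - 2 * p.2 - 1, p.1 + p.2 + 1))
        (fun q => (q.2 - (q.2 - q.1 - 2) / 3 - 1, (q.2 - q.1 - 2) / 3)) ?_ ?_ ?_ ?_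
      · intro p; ext <;> simp only <;> omega
      · intro q hq
        try simp only at hq
        have : (q.2 - q.1) % 3 = 2 := by by_contra hh; rw [if_neg hh] at hq; exact hq rfl
        ext <;> simp only <;> omega
      · intro p
        have h1 := eA_two (p.1 - 2 * p.2 - 1)
        have h2 := eA_two p.1
        have h3 := eT_two p.2
        unfold eO
        push_cast
        linarith
      · intro p; (try simp only); rw [if_pos]; omega

end Pool.Agent.V11172.Pd
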