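import Pool.Agent.V11172.PdC
import Pool.Agent.V11172.DsC

/-!
The cubic identities: `4 Ω A φ_3 = Ψ_3 (φ^2 + φ_3^2)`, `Ψ (φ^2 - φ_3^2) = 2 q φ Ψ_3 Ψ_6` and
`φ^4 = φ_3^4 + 8 q Ω^3 φ_3`, where `F_k(q) = F(q^k)`, `Ψ = 2 ψ`.
-/

set_option autoImplicit false

namespace Pool.Agent.V11172.Pd

open Finset PowerSeries Pool.Agent.Helper308.QS Pool.Agent.V11172.Ds

theorem expand_Ek (k j : ℕ) (hk : k ≠ 0) (hj : j ≠ 0) :
    expand k hk (Ek j hj) = Ek (k * j) (mul_ne_zero hk hj) := by
  ext m
  rw [Ek, Ek, coeff_expand, coeff_expand]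
  by_cases h : k ∣ m
  · obtain ⟨t, rfl⟩ := h
    rw [if_pos (dvd_mul_right k t), Nat.mul_div_cancel_left _ (Nat.pos_of_ne_zero hk), coeff_expand]
    by_cases h2 : j ∣ t
    · obtain ⟨u, rfl⟩ := h2
      rw [if_pos (dvd_mul_right j u), if_pos (by rw [← mul_assoc]; exact dvd_mul_right _ _),
        Nat.mul_div_cancel_left _ (Nat.pos_of_ne_zero hj), ← mul_assoc,
        Nat.mul_div_cancel_left _ (Nat.pos_of_ne_zero (mul_ne_zero hk hj))]
    · rw [if_neg h2, if_neg]
      intro h3
      exact h2 (Nat.dvd_of_mul_dvd_mul_left (Nat.pos_of_ne_zero hk) h3)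
  · rw [if_neg h, coeff_expand, if_neg]
    intro h3
    exact h ((dvd_mul_right k j).trans h3)

theorem expand_comp (k j : ℕ) (hk : k ≠ 0) (hj : j ≠ 0) (F : ℤ⟦X⟧) :
    expand k hk (expand j hj F) = expand (k * j) (mul_ne_zero hk hj) F := by
  ext m
  rw [coeff_expand, coeff_expand]
  by_cases h : k ∣ m
  · obtain ⟨t, rfl⟩ := h
    rw [if_pos (dvd_mul_right k t), Nat.mul_div_cancel_left _ (Nat.pos_of_ne_zero hk), coeff_expand]
    by_cases h2 : j ∣ t
    · obtain ⟨u, rfl⟩ := h2
      rw [if_pos (dvd_mul_right j u), if_pos (by rw [← mul_assoc]; exact dvd_mul_right _ _),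
        Nat.mul_div_cancel_left _ (Nat.pos_of_ne_zero hj), ← mul_assoc,
        Nat.mul_div_cancel_left _ (Nat.pos_of_ne_zero (mul_ne_zero hk hj))]
    · rw [if_neg h2, if_neg]
      intro h3
      exact h2 (Nat.dvd_of_mul_dvd_mul_left (Nat.pos_of_ne_zero hk) h3)
  · rw [if_neg h, coeff_expand, if_neg]
    intro h3
    exact h ((dvd_mul_right k j).trans h3)

theorem const_expand (k : ℕ) (hk : k ≠ 0) (F : ℤ⟦X⟧) :
    constantCoeff (expand k hk F) = constantCoeff F := by
  rw [← coeff_zero_eq_constantCoeff_apply, coeff_expand]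
  simp

theorem Ek_ne (k : ℕ) (hk : k ≠ 0) : Ek k hk ≠ 0 := by
  intro h
  have h2 := congrArg constantCoeff h
  rw [Ek, const_expand, const_E1] at h2
  simp at h2

theorem const_th (c : ℤ → ℤ) {e : ℤ → ℤ} (he : Gr e) (h0 : ∀ i, e i = 0 ↔ i = 0) :
    constantCoeff (th c e) = c 0 := by
  rw [← coeff_zero_eq_constantCoeff_apply, coeff_th he 0 (B := 1) (by norm_num),
    sum_eq_single 0]
  · rw [if_pos]; rw [(h0 0).2 rfl]; rfl
  · intro i _ hi
    rw [if_neg]
    intro h
    exact hi ((h0 i).1 h)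
  · intro h
    exfalso; apply h; rw [mem_Icc]; norm_num

theorem const_phip : constantCoeff Phip = 1 := by
  rw [Phip, const_th _ gS]
  intro i; unfold eS; constructor
  · intro h; exact pow_eq_zero_iff (two_ne_zero) |>.1 h
  · rintro rfl; norm_num

theorem const_psi : constantCoeff psi = 1 := by
  rw [psi_def, const_th _ gPs]
  intro i; unfold ePs; constructor
  · intro h
    have h2 : i * (2 * i - 1) = 0 := by linarith
    rcases mul_eq_zero.1 h2 with h3 | h3
    · exact h3
    · omega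
  · rintro rfl; norm_num

theorem psi_eta3 : expand 3 three_ne_zero psi * Ek 3 three_ne_zero = Ek 6 (by norm_num) ^ 2 := by
  have h := congrArg (expand 3 three_ne_zero) psi_eta
  rw [map_mul, map_pow, expand_Ek] at h
  exact h

theorem psi_eta6 : expand 6 (by norm_num) psi * Ek 6 (by norm_num) = Ek 12 (by norm_num) ^ 2 := by
  have h := congrArg (expand 6 (by norm_num)) psi_eta
  rw [map_mul, map_pow, expand_Ek] at h
  exact h

theorem phip_eta3 : expand 3 three_ne_zero Phip * (Ek 3 three_ne_zero ^ 2 * Ek 12 (by norm_num) ^ 2) =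
    Ek 6 (by norm_num) ^ 5 := by
  have h := congrArg (expand 3 three_ne_zero) phip_eta
  rw [map_mul, map_mul, map_pow, map_pow, map_pow, expand_Ek, expand_Ek] at h
  exact h

theorem AA_eta2 : expand 2 two_ne_zero AA * (Ek 2 two_ne_zero * Ek 12 (by norm_num)) =
    Ek 4 four_ne_zero * Ek 6 (by norm_num) ^ 2 := by
  have h := congrArg (expand 2 two_ne_zero) AA_eta
  rw [map_mul, map_mul, map_mul, map_pow, expand_Ek, expand_Ek, expand_Ek] at h
  exact h

theorem E1_ne' : E1 ≠ 0 := E1_ne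

/-- `φ ψ_3 A_2 = ψ φ_3 Ω` -/
theorem C1 : Phip * expand 3 three_ne_zero psi * expand 2 two_ne_zero AA =
    psi * expand 3 three_ne_zero Phip * Om := by
  have h1 := phip_eta
  have h2 := phip_eta3
  have h3 := psi_eta
  have h4 := psi_eta3
  have h5 := AA_eta2
  have h6 := Om_eta
  have n1 := E1_ne
  have n2 := Ek_ne 2 two_ne_zero
  have n3 := Ek_ne 3 three_ne_zero
  have n4 := Ek_ne 4 four_ne_zero
  have n6 := Ek_ne 6 (by norm_num)
  have n12 := Ek_ne 12 (by norm_num)
  generalize E1 = e1 at *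
  generalize Ek 2 two_ne_zero = e2 at *
  generalize Ek 3 three_ne_zero = e3 at *
  generalize Ek 4 four_ne_zero = e4 at *
  generalize Ek 6 (by norm_num) = e6 at *
  generalize Ek 12 (by norm_num) = e12 at *
  generalize Phip = φ at *
  generalize expand 3 three_ne_zero φ = φ3 at *
  generalize psi = ψ at *
  generalize expand 3 three_ne_zero ψ = ψ3 at *
  generalize expand 2 two_ne_zero AA = A2 at *
  generalize Om = Ω at *
  have hM : (e1 ^ 2 * e4 ^ 2) * e3 * (e2 * e12) * (e1 * (e3 ^ 2 * e12 ^ 2) * (e1 * e4 * e6)) ≠ 0 := by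
    simp only [mul_ne_zero_iff, pow_ne_zero_iff, ne_eq, not_false_eq_true, n1, n2, n3, n4, n6, n12,
      OfNat.ofNat_ne_zero, and_self]
  apply mul_right_cancel₀ hM
  calc φ * ψ3 * A2 * ((e1 ^ 2 * e4 ^ 2) * e3 * (e2 * e12) * (e1 * (e3 ^ 2 * e12 ^ 2) * (e1 * e4 * e6)))
      = (φ * (e1 ^ 2 * e4 ^ 2)) * (ψ3 * e3) * (A2 * (e2 * e12)) *
        (e1 * (e3 ^ 2 * e12 ^ 2) * (e1 * e4 * e6)) := by ring
    _ = e2 ^ 5 * e6 ^ 2 * (e4 * e6 ^ 2) * (e1 * (e3 ^ 2 * e12 ^ 2) * (e1 * e4 * e6)) := by
        rw [h1, h4, h5]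
    _ = e2 ^ 2 * e6 ^ 5 * (e2 ^ 2 * e3 * e12) * ((e1 ^ 2 * e4 ^ 2) * e3 * (e2 * e12)) := by ring
    _ = (ψ * e1) * (φ3 * (e3 ^ 2 * e12 ^ 2)) * (Ω * (e1 * e4 * e6)) *
        ((e1 ^ 2 * e4 ^ 2) * e3 * (e2 * e12)) := by rw [h2, h3, h6]
    _ = _ := by ring

/-- `φ A ψ_6 = ψ Ω^2` -/
theorem C2 : Phip * AA * expand 6 (by norm_num) psi = psi * Om ^ 2 := by
  have h1 := phip_eta
  have h3 := psi_eta
  have h4 := psi_eta6
  have h5 := AA_eta
  have h6 := Om_eta
  have n1 := E1_ne
  have n2 := Ek_ne 2 two_ne_zero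
  have n3 := Ek_ne 3 three_ne_zero
  have n4 := Ek_ne 4 four_ne_zero
  have n6 := Ek_ne 6 (by norm_num)
  have n12 := Ek_ne 12 (by norm_num)
  generalize E1 = e1 at *
  generalize Ek 2 two_ne_zero = e2 at *
  generalize Ek 3 three_ne_zero = e3 at *
  generalize Ek 4 four_ne_zero = e4 at *
  generalize Ek 6 (by norm_num) = e6 at *
  generalize Ek 12 (by norm_num) = e12 at *
  generalize Phip = φ at *
  generalize psi = ψ at *
  generalize expand 6 (by norm_num) ψ = ψ6 at *
  generalize AA = A at *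
  generalize Om = Ω at *
  have hM : (e1 ^ 2 * e4 ^ 2) * (e1 * e6) * e6 * (e1 * (e1 * e4 * e6) ^ 2) ≠ 0 := by
    simp only [mul_ne_zero_iff, pow_ne_zero_iff, ne_eq, not_false_eq_true, n1, n2, n3, n4, n6, n12,
      OfNat.ofNat_ne_zero, and_self]
  apply mul_right_cancel₀ hM
  calc φ * A * ψ6 * ((e1 ^ 2 * e4 ^ 2) * (e1 * e6) * e6 * (e1 * (e1 * e4 * e6) ^ 2))
      = (φ * (e1 ^ 2 * e4 ^ 2)) * (A * (e1 * e6)) * (ψ6 * e6) * (e1 * (e1 * e4 * e6) ^ 2) := by ring
    _ = e2 ^ 5 * (e2 * e3 ^ 2) * e12 ^ 2 * (e1 * (e1 * e4 * e6) ^ 2) := by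
        rw [h1, h4, h5]
    _ = e2 ^ 2 * (e2 ^ 2 * e3 * e12) ^ 2 * ((e1 ^ 2 * e4 ^ 2) * (e1 * e6) * e6) := by ring
    _ = (ψ * e1) * (Ω * (e1 * e4 * e6)) ^ 2 * ((e1 ^ 2 * e4 ^ 2) * (e1 * e6) * e6) := by rw [h3, h6]
    _ = _ := by ring

/-- descent -/
theorem descent (F G : ℤ⟦X⟧) (h : F = G * expand 3 three_ne_zero F) (h0 : constantCoeff F = 0) :
    F = 0 := by
  have key : ∀ n, coeff n F = 0 := by
    intro n
    induction n using Nat.strong_induction_on with
    | _ n ih =>
      rw [h, coeff_mul]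
      refine sum_eq_zero fun p hp => ?_
      rw [HasAntidiagonal.mem_antidiagonal] at hp
      rw [coeff_expand]
      split_ifs with hd
      · rcases Nat.eq_zero_or_pos p.2 with h2 | h2
        · rw [h2, Nat.zero_div, coeff_zero_eq_constantCoeff_apply, h0, mul_zero]
        · rw [ih (p.2 / 3) (by omega), mul_zero]
      · rw [mul_zero]
  ext n
  rw [key n]; simp

theorem e33 (F : ℤ⟦X⟧) : expand 3 three_ne_zero (expand 3 three_ne_zero F) =
    expand 9 (by norm_num) F := expand_comp 3 3 _ _ F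

theorem e32 (F : ℤ⟦X⟧) : expand 3 three_ne_zero (expand 2 two_ne_zero F) =
    expand 6 (by norm_num) F := expand_comp 3 2 _ _ F

theorem e36 (F : ℤ⟦X⟧) : expand 3 three_ne_zero (expand 6 (by norm_num) F) =
    expand 18 (by norm_num) F := expand_comp 3 6 _ _ F

/-- `4 Ω A φ_3 = Ψ_3 (φ^2 + φ_3^2)` -/
theorem I2 : 4 * (Om * AA) * expand 3 three_ne_zero Phip =
    expand 3 three_ne_zero Ps2 * (Phip ^ 2 + (expand 3 three_ne_zero Phip) ^ 2) := by
  set F : ℤ⟦X⟧ := 4 * (Om * AA) * expand 3 three_ne_zero Phip -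
    expand 3 three_ne_zero Ps2 * (Phip ^ 2 + (expand 3 three_ne_zero Phip) ^ 2) with hF
  set U : ℤ⟦X⟧ := 4 * (Phip * AA * expand 2 two_ne_zero AA) -
    Ps2 * (Phip ^ 2 + (expand 3 three_ne_zero Phip) ^ 2) with hU
  have c1 : Phip * expand 3 three_ne_zero Ps2 * expand 2 two_ne_zero AA =
      Ps2 * expand 3 three_ne_zero Phip * Om := by
    rw [Ps2_eq, map_mul, map_ofNat]
    linear_combination 2 * C1
  have c2 : Phip * AA * expand 6 (by norm_num) Ps2 = Ps2 * Om ^ 2 := by
    rw [Ps2_eq, map_mul, map_ofNat]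
    linear_combination 2 * C2
  have hFU : F = expand 3 three_ne_zero U := by
    have d1 := phip_dis
    have d2 := OmA
    have k1 := congrArg (expand 3 three_ne_zero) c1
    have k2 := congrArg (expand 3 three_ne_zero) c2
    rw [hF, hU]
    simp only [map_sub, map_mul, map_add, map_pow, map_ofNat, e33, e32, e36] at k1 k2 ⊢
    rw [mul_comm Om AA, d2]
    generalize hp9 : expand 9 (by norm_num) Phip = φ9 at *
    generalize expand 3 three_ne_zero Om = Ω3 at *
    generalize expand 3 three_ne_zero Phip = φ3 at *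
    rw [d1]
    linear_combination 4 * X * k1 + 4 * X ^ 2 * k2
  obtain ⟨g, hg⟩ := unit_of_const (F := expand 3 three_ne_zero psi) (by rw [const_expand, const_psi])
  have hUF : U = (psi * g) * F := by
    have h1 : expand 3 three_ne_zero psi * U = psi * F := by
      have h2 : (2 : ℤ⟦X⟧) ≠ 0 := by
        intro h
        have := congrArg constantCoeff h
        rw [map_ofNat, map_zero] at this
        norm_num at this
      apply mul_left_cancel₀ h2
      have p3 : expand 3 three_ne_zero Ps2 = 2 * expand 3 three_ne_zero psi := by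
        rw [Ps2_eq, map_mul, map_ofNat]
      rw [hU, hF]
      rw [p3] at c1 ⊢
      rw [Ps2_eq] at c1 ⊢
      linear_combination 4 * AA * c1
    calc U = (expand 3 three_ne_zero psi * g) * U := by rw [hg, one_mul]
      _ = g * (expand 3 three_ne_zero psi * U) := by ring
      _ = (psi * g) * F := by rw [h1]; ring
  have hz : F = 0 := by
    refine descent F (expand 3 three_ne_zero (psi * g)) ?_ ?_
    · rw [← map_mul, ← hUF]; exact hFU
    · rw [hF]
      simp only [map_sub, map_mul, map_add, map_pow, const_expand, const_phip, map_ofNat]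
      have a1 : constantCoeff Om = 1 := by
        rw [Om, const_th _ gO]
        intro i; unfold eO; constructor
        · intro h
          have h2 : i * (3 * i - 2) = 0 := by linarith
          rcases mul_eq_zero.1 h2 with h3 | h3
          · exact h3
          · omega
        · rintro rfl; norm_num
      have a2 : constantCoeff AA = 1 := by
        rw [AA, const_th _ gA]
        intro i
        have h1 := eA_two i
        constructor
        · intro h
          rw [h] at h1
          have h2 : i * (3 * i + 1) = 0 := by linarith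
          rcases mul_eq_zero.1 h2 with h3 | h3
          · exact h3
          · omega
        · rintro rfl
          norm_num at h1
          exact h1
      have a3 : constantCoeff Ps2 = 2 := by
        rw [Ps2_eq, map_mul, map_ofNat, const_psi]; norm_num
      rw [a1, a2, a3]; norm_num
  rw [hF] at hz
  exact sub_eq_zero.1 hz

/-- `Ψ (φ^2 - φ_3^2) = 2 q φ Ψ_3 Ψ_6` -/
theorem I3 : Ps2 * (Phip ^ 2 - (expand 3 three_ne_zero Phip) ^ 2) =
    2 * X * (Phip * (expand 3 three_ne_zero Ps2 * expand 6 (by norm_num) Ps2)) := by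
  set F : ℤ⟦X⟧ := Ps2 * (Phip ^ 2 - (expand 3 three_ne_zero Phip) ^ 2) -
    2 * X * (Phip * (expand 3 three_ne_zero Ps2 * expand 6 (by norm_num) Ps2)) with hF
  set W : ℤ⟦X⟧ := 2 * (AA * ((expand 3 three_ne_zero Phip) ^ 2 - Phip ^ 2)) +
    4 * X * (expand 3 three_ne_zero Ps2 * Om ^ 2) with hW
  have c2 : Phip * AA * expand 6 (by norm_num) Ps2 = Ps2 * Om ^ 2 := by
    rw [Ps2_eq, map_mul, map_ofNat]
    linear_combination 2 * C2
  have hFW : F = expand 3 three_ne_zero W := by
    have d1 := phip_dis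
    have d3 := Ps2_dis
    have k1 := congrArg (expand 3 three_ne_zero) X1
    have k2 := congrArg (expand 3 three_ne_zero) I2
    rw [hF, hW]
    simp only [map_sub, map_mul, map_add, map_pow, map_ofNat, e33, e32, e36, expand_X] at k1 k2 ⊢
    generalize hp9 : expand 9 (by norm_num) Phip = φ9 at *
    generalize hq9 : expand 9 (by norm_num) Ps2 = Ψ9 at *
    generalize expand 3 three_ne_zero Om = Ω3 at *
    generalize expand 3 three_ne_zero AA = A3 at *
    generalize expand 6 (by norm_num) Ps2 = Ψ6 at *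
    generalize expand 3 three_ne_zero Ps2 = Ψ3 at *
    generalize expand 3 three_ne_zero Phip = φ3 at *
    rw [d1, d3]
    linear_combination (-(2 * X * φ9 + 4 * X ^ 2 * Ω3)) * k1 + X * k2
  obtain ⟨g, hg⟩ := unit_of_const const_psi
  have hWF : W = (-(g * AA)) * F := by
    have h1 : psi * W = -(AA * F) := by
      have h2 : (2 : ℤ⟦X⟧) ≠ 0 := by
        intro h
        have := congrArg constantCoeff h
        rw [map_ofNat, map_zero] at this
        norm_num at this
      apply mul_left_cancel₀ h2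
      rw [show 2 * (psi * W) = Ps2 * W by rw [Ps2_eq]; ring, hW, hF]
      linear_combination (-(4 * X * expand 3 three_ne_zero Ps2)) * c2
    calc W = (psi * g) * W := by rw [hg, one_mul]
      _ = g * (psi * W) := by ring
      _ = (-(g * AA)) * F := by rw [h1]; ring
  have hz : F = 0 := by
    refine descent F (expand 3 three_ne_zero (-(g * AA))) ?_ ?_
    · rw [← map_mul, ← hWF]; exact hFW
    · rw [hF]
      simp only [map_sub, map_mul, map_add, map_pow, const_expand, const_phip, map_ofNat,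
        constantCoeff_X]
      norm_num
  rw [hF] at hz
  exact sub_eq_zero.1 hz

theorem psi_ne : psi ≠ 0 := by
  intro h
  have := const_psi
  rw [h] at this
  simp at this

/-- `φ^4 = φ_3^4 + 8 q Ω^3 φ_3` -/
theorem I1 : Phip ^ 4 = (expand 3 three_ne_zero Phip) ^ 4 +
    8 * X * (Om ^ 3 * expand 3 three_ne_zero Phip) := by
  have h1 := I2
  have h2 := I3
  have c2 : Phip * AA * expand 6 (by norm_num) Ps2 = Ps2 * Om ^ 2 := by
    rw [Ps2_eq, map_mul, map_ofNat]
    linear_combination 2 * C2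
  have n1 : Ps2 ≠ 0 := by
    rw [Ps2_eq]
    refine mul_ne_zero ?_ psi_ne
    intro h
    have := congrArg constantCoeff h
    rw [map_ofNat, map_zero] at this
    norm_num at this
  have n2 : expand 3 three_ne_zero Ps2 ≠ 0 := by
    intro h
    have h3 := congrArg constantCoeff h
    rw [const_expand, Ps2_eq, map_mul, map_ofNat, const_psi, map_zero] at h3
    norm_num at h3
  apply mul_left_cancel₀ (mul_ne_zero n2 n1)
  linear_combination (-(Ps2 * (Phip ^ 2 - (expand 3 three_ne_zero Phip) ^ 2))) * h1 +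
    (4 * (Om * AA) * expand 3 three_ne_zero Phip) * h2 +
    (8 * X * Om * expand 3 three_ne_zero Phip * expand 3 three_ne_zero Ps2) * c2

end Pool.Agent.V11172.Pd
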