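import Pool.Agent.V11172.PdD

/-!
The sign change `q → -q`, the product `A ψ_6 φ(-q^2) φ(q^3) = f_1(-q) f_6^3`, and the derivative of
`K = A ψ_6` modulo 4.
-/

set_option autoImplicit false

namespace Pool.Agent.V11172.Pd

open Finset PowerSeries Pool.Agent.Helper308.QS Pool.Agent.V11172.Ds

theorem sg_nat (n : ℕ) : ((-1 : ℤ)) ^ n = sg n := by
  unfold sg
  by_cases h : Even n
  · rw [if_pos ((Int.even_coe_nat n).2 h), h.neg_one_pow]
  · rw [if_neg (fun h' => h ((Int.even_coe_nat n).1 h')), (Nat.not_even_iff_odd.1 h).neg_one_pow]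

theorem rescale_th (c : ℤ → ℤ) {e : ℤ → ℤ} (he : Gr e) :
    rescale (-1 : ℤ) (th c e) = th (fun i => sg (e i) * c i) e := by
  ext n
  rw [coeff_rescale, coeff_th he n (B := n + 1) le_rfl, coeff_th he n (B := n + 1) le_rfl, mul_sum]
  refine sum_congr rfl fun i _ => ?_
  by_cases h : e i = n
  · rw [if_pos h, if_pos h, h, sg_nat]
  · rw [if_neg h, if_neg h, mul_zero]

theorem sg_sq (i : ℤ) : sg (eS i) * sg i = 1 := by
  unfold eS sg
  by_cases h : Even i
  · rw [if_pos h, if_pos]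
    · norm_num
    · rw [Int.even_pow]; exact ⟨h, two_ne_zero⟩
  · rw [if_neg h, if_neg]
    · norm_num
    · rw [Int.even_pow]; exact fun h' => h h'.1

theorem N_Phi : rescale (-1 : ℤ) Phi = Phip := by
  rw [Phi, rescale_th _ gS, Phip]
  congr 1
  funext i
  exact sg_sq i

theorem N_S : rescale (-1 : ℤ) S = T := by
  rw [S, rescale_th _ gS, T]
  congr 1
  funext i
  split_ifs
  · exact sg_sq i
  · ring

theorem N_expand2 (F : ℤ⟦X⟧) :
    rescale (-1 : ℤ) (expand 2 two_ne_zero F) = expand 2 two_ne_zero F := by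
  ext n
  rw [coeff_rescale, coeff_expand]
  split_ifs with h
  · have : Even n := even_iff_two_dvd.2 h
    rw [this.neg_one_pow, one_mul]
  · rw [mul_zero]

/-- `f_1(-q)` -/
noncomputable def N1 : ℤ⟦X⟧ := rescale (-1 : ℤ) E1

theorem const_N1 : constantCoeff N1 = 1 := by
  rw [N1, ← coeff_zero_eq_constantCoeff_apply, coeff_rescale, coeff_zero_eq_constantCoeff_apply,
    const_E1]
  norm_num

theorem N1_sq : N1 ^ 2 = Ek 2 two_ne_zero * Phip := by
  have h := congrArg (rescale (-1 : ℤ)) gauss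
  rw [map_pow, map_mul, N_Phi, Ek, N_expand2] at h
  exact h

theorem N1_eta : N1 * (E1 * Ek 4 four_ne_zero) = Ek 2 two_ne_zero ^ 3 := by
  have h1 : (N1 * (E1 * Ek 4 four_ne_zero)) ^ 2 = (Ek 2 two_ne_zero ^ 3) ^ 2 := by
    calc (N1 * (E1 * Ek 4 four_ne_zero)) ^ 2 = N1 ^ 2 * (E1 ^ 2 * Ek 4 four_ne_zero ^ 2) := by ring
      _ = Ek 2 two_ne_zero * (Phip * (E1 ^ 2 * Ek 4 four_ne_zero ^ 2)) := by rw [N1_sq]; ring
      _ = (Ek 2 two_ne_zero ^ 3) ^ 2 := by rw [phip_eta]; ring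
  rcases sq_eq_sq_iff_eq_or_eq_neg.1 h1 with h | h
  · exact h
  · exfalso
    have h2 := congrArg constantCoeff h
    rw [map_neg, map_mul, map_mul, map_pow, const_N1, const_E1, Ek, Ek, const_expand, const_expand,
      const_E1] at h2
    norm_num at h2

/-- `K = A ψ_6` -/
noncomputable def KK : ℤ⟦X⟧ := AA * expand 6 (by norm_num) psi

theorem Phi2_eta : expand 2 two_ne_zero Phi * Ek 4 four_ne_zero = Ek 2 two_ne_zero ^ 2 := by
  have h := congrArg (expand 2 two_ne_zero) gauss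
  rw [map_mul, map_pow, expand_Ek] at h
  rw [mul_comm]
  exact h.symm

theorem KE : KK * expand 2 two_ne_zero Phi * expand 3 three_ne_zero Phip =
    N1 * Ek 6 (by norm_num) ^ 3 := by
  rw [KK]
  have h1 := AA_eta
  have h2 := psi_eta6
  have h3 := Phi2_eta
  have h4 := phip_eta3
  have h5 := N1_eta
  have n1 := E1_ne
  have n2 := Ek_ne 2 two_ne_zero
  have n3 := Ek_ne 3 three_ne_zero
  have n4 := Ek_ne 4 four_ne_zero
  have n6 := Ek_ne 6 (by norm_num)
  have n12 := Ek_ne 12 (by norm_num)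
  generalize E1 = e1 at *
  generalize Ek 2 two_ne_zero = e2 at *
  generalize Ek 3 three_ne_zero = e3 at *
  generalize Ek 4 four_ne_zero = e4 at *
  generalize Ek 6 (by norm_num) = e6 at *
  generalize Ek 12 (by norm_num) = e12 at *
  generalize expand 3 three_ne_zero Phip = φ3 at *
  generalize expand 6 (by norm_num) psi = ψ6 at *
  generalize expand 2 two_ne_zero Phi = Φ2 at *
  generalize AA = A at *
  generalize N1 = N at *
  have hM : (e1 * e6) * e6 * e4 * (e3 ^ 2 * e12 ^ 2) * (e1 * e4) ≠ 0 := by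
    simp only [mul_ne_zero_iff, pow_ne_zero_iff, ne_eq, not_false_eq_true, n1, n2, n3, n4, n6, n12,
      OfNat.ofNat_ne_zero, and_self]
  apply mul_right_cancel₀ hM
  calc A * ψ6 * Φ2 * φ3 * ((e1 * e6) * e6 * e4 * (e3 ^ 2 * e12 ^ 2) * (e1 * e4))
      = (A * (e1 * e6)) * (ψ6 * e6) * (Φ2 * e4) * (φ3 * (e3 ^ 2 * e12 ^ 2)) * (e1 * e4) := by ring
    _ = (e2 * e3 ^ 2) * e12 ^ 2 * e2 ^ 2 * e6 ^ 5 * (e1 * e4) := by rw [h1, h2, h3, h4]
    _ = e2 ^ 3 * (e6 ^ 3 * ((e1 * e6) * e6 * e4 * (e3 ^ 2 * e12 ^ 2))) := by ring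
    _ = (N * (e1 * e4)) * (e6 ^ 3 * ((e1 * e6) * e6 * e4 * (e3 ^ 2 * e12 ^ 2))) := by rw [h5]
    _ = _ := by ring

theorem theta_expand' (k : ℕ) (hk : k ≠ 0) (F : ℤ⟦X⟧) :
    theta (expand k hk F) = C (k : ℤ) * expand k hk (theta F) := by
  ext m
  rw [coeff_C_mul, theta, coeff_mk, coeff_expand, coeff_expand, theta, coeff_mk]
  split_ifs with h
  · obtain ⟨t, rfl⟩ := h
    rw [Nat.mul_div_cancel_left _ (Nat.pos_of_ne_zero hk)]
    push_cast
    ring
  · simp

theorem theta_rescale (F : ℤ⟦X⟧) :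
    theta (rescale (-1 : ℤ) F) = rescale (-1 : ℤ) (theta F) := by
  ext m
  rw [theta, coeff_mk, coeff_rescale, coeff_rescale, theta, coeff_mk]
  ring

theorem theta_N1 : ∃ R : ℤ⟦X⟧, theta N1 = N1 * (T + T ^ 2) - 4 * R := by
  obtain ⟨R, hR⟩ := theta_E1
  refine ⟨rescale (-1 : ℤ) R, ?_⟩
  rw [N1, theta_rescale, hR, map_sub, map_mul, map_add, map_pow, N_S, map_mul, map_ofNat]

theorem theta_Phip : theta Phip = 2 * theta T := by
  rw [Phip_eq]
  ext m
  have e2 : (2 : ℤ⟦X⟧) = C 2 := (map_ofNat (C (R := ℤ)) 2).symm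
  rw [e2, theta, coeff_mk, map_add, coeff_C_mul, coeff_C_mul, theta, coeff_mk, coeff_one]
  split_ifs with h
  · rw [h]; simp
  · ring

/-- Frobenius modulo 2 -/
theorem T_sq : ∃ G : ℤ⟦X⟧, T ^ 2 = expand 2 two_ne_zero T + 2 * G := by
  have h : ∀ m, (2 : ℤ) ∣ coeff m (T ^ 2 - expand 2 two_ne_zero T) := by
    intro m
    have : Fact (Nat.Prime 2) := ⟨Nat.prime_two⟩
    have h1 := pow_eq_expand 2 (red 2 T)
    have h2 := congrArg (coeff m) h1
    rw [← map_pow, coeff_red, coeff_expand, coeff_red] at h2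
    have h3 : ((2 : ℕ) : ℤ) ∣ coeff m (T ^ 2 - expand 2 two_ne_zero T) := by
      rw [← ZMod.intCast_zmod_eq_zero_iff_dvd, map_sub, Int.cast_sub, h2, coeff_expand]
      split_ifs <;> simp
    exact_mod_cast h3
  obtain ⟨G, hG⟩ := exists_of_dvd 2 _ h
  refine ⟨G, ?_⟩
  rw [map_ofNat] at hG
  linear_combination hG

theorem T4_th : expand 4 four_ne_zero T = th (fun i => if 0 < i ∧ i % 2 = 0 then 1 else 0) eS := by
  rw [T, expand_th 4 four_ne_zero _ gS eS_nonneg]
  refine th_bij gS (gr_mul four_ne_zero gS eS_nonneg) (fun t => 2 * t) (fun j => j / 2) ?_ ?_ ?_ ?_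
  · intro p; (try simp only); omega
  · intro q hq
    have : 0 < q ∧ q % 2 = 0 := by by_contra hh; rw [if_neg hh] at hq; exact hq rfl
    (try simp only); omega
  · intro p
    unfold eS
    push_cast; ring
  · intro p
    (try simp only)
    by_cases h : 0 < p
    · rw [if_pos h, if_pos (by omega)]
    · rw [if_neg h, if_neg (by omega)]

theorem theta_T : ∃ G : ℤ⟦X⟧, theta T = T + expand 4 four_ne_zero T + 2 * G := by
  have h : ∀ m, (2 : ℤ) ∣ coeff m (theta T - (T + expand 4 four_ne_zero T)) := by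
    intro m
    rw [T4_th, T, theta_th _ gS, map_sub, map_add, coeff_th gS m (B := m + 1) le_rfl,
      coeff_th gS m (B := m + 1) le_rfl, coeff_th gS m (B := m + 1) le_rfl, ← sum_add_distrib,
      ← sum_sub_distrib]
    refine dvd_sum fun i _ => ?_
    by_cases hi : eS i = m
    · rw [if_pos hi, if_pos hi, if_pos hi]
      by_cases h0 : 0 < i
      · rw [if_pos h0, mul_one]
        by_cases h2 : i % 2 = 0
        · rw [if_pos ⟨h0, h2⟩]
          obtain ⟨t, rfl⟩ : ∃ t, i = 2 * t := ⟨i / 2, by omega⟩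
          exact ⟨2 * t ^ 2 - 1, by unfold eS; ring⟩
        · rw [if_neg (fun h => h2 h.2)]
          obtain ⟨t, rfl⟩ : ∃ t, i = 2 * t + 1 := ⟨i / 2, by omega⟩
          exact ⟨2 * t ^ 2 + 2 * t, by unfold eS; ring⟩
      · rw [if_neg h0, if_neg (fun h => h0 h.1)]
        simp
    · rw [if_neg hi, if_neg hi, if_neg hi]; simp
  obtain ⟨G, hG⟩ := exists_of_dvd 2 _ h
  refine ⟨G, ?_⟩
  rw [map_ofNat] at hG
  linear_combination hG

theorem const_Phi : constantCoeff Phi = 1 := by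
  rw [Phi, const_th _ gS]
  · exact sg_zero
  · intro i; unfold eS; constructor
    · intro h; exact pow_eq_zero_iff (two_ne_zero) |>.1 h
    · rintro rfl; norm_num

theorem C_nat (k : ℕ) : (C (k : ℤ) : ℤ⟦X⟧) = (k : ℤ⟦X⟧) := by
  rw [map_natCast]

theorem theta_KK : ∃ Y : ℤ⟦X⟧, theta KK = KK * (T + T ^ 2 +
    2 * (expand 3 three_ne_zero T + (expand 3 three_ne_zero T) ^ 2)) + 4 * Y := by
  obtain ⟨R', hb⟩ := theta_N1
  obtain ⟨R, hR⟩ := theta_E1
  obtain ⟨G1, hG1⟩ := T_sq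
  obtain ⟨G2, hG2⟩ := theta_T
  have ha := KE
  have hE := congrArg theta ha
  have f0 : theta (Ek 6 (by norm_num) ^ 3) =
      3 * (Ek 6 (by norm_num) ^ 2 * theta (Ek 6 (by norm_num))) := by
    rw [show Ek 6 (by norm_num) ^ 3 = Ek 6 (by norm_num) * Ek 6 (by norm_num) *
      Ek 6 (by norm_num) by ring, theta_mul, theta_mul]
    ring
  have f1 : theta (expand 2 two_ne_zero Phi) = 4 * expand 2 two_ne_zero (theta S) := by
    rw [theta_expand' 2 two_ne_zero, theta_Phi, map_mul, map_ofNat, C_nat]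
    push_cast; ring
  have f2 : theta (expand 3 three_ne_zero Phip) = 6 * expand 3 three_ne_zero (theta T) := by
    rw [theta_expand' 3 three_ne_zero, theta_Phip, map_mul, map_ofNat, C_nat]
    push_cast; ring
  have f3 : theta (Ek 6 (by norm_num)) = 6 * (Ek 6 (by norm_num) *
      (expand 6 (by norm_num) S + (expand 6 (by norm_num) S) ^ 2) -
      4 * expand 6 (by norm_num) R) := by
    rw [Ek, theta_expand' 6 (by norm_num), hR, map_sub, map_mul, map_mul, map_add, map_pow,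
      map_ofNat, C_nat]
    push_cast; ring
  rw [theta_mul, theta_mul, theta_mul, f0, f1, f2, f3, hb] at hE
  have hφ3 : expand 3 three_ne_zero Phip = 1 + 2 * expand 3 three_ne_zero T := by
    rw [Phip_eq, map_add, map_mul, map_one, map_ofNat]
  have hu1 : constantCoeff (expand 2 two_ne_zero Phi * expand 3 three_ne_zero Phip) = 1 := by
    rw [map_mul, const_expand, const_expand, const_Phi, const_phip]; norm_num
  obtain ⟨u, hu⟩ := unit_of_const hu1
  have hS6 : expand 6 (by norm_num) S = 2 * expand 6 (by norm_num) (expand 4 four_ne_zero T) -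
      expand 6 (by norm_num) T := by
    have h := congrArg (expand 6 (by norm_num)) T_add_S
    rw [map_add, map_mul, map_ofNat] at h
    linear_combination h
  have hT6 : (expand 6 (by norm_num) T) ^ 2 = expand 12 (by norm_num) T +
      2 * expand 6 (by norm_num) G1 := by
    have h := congrArg (expand 6 (by norm_num)) hG1
    rw [map_add, map_mul, map_ofNat, map_pow, expand_comp] at h
    exact h
  have hT3 : (expand 3 three_ne_zero T) ^ 2 = expand 6 (by norm_num) T +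
      2 * expand 3 three_ne_zero G1 := by
    have h := congrArg (expand 3 three_ne_zero) hG1
    rw [map_add, map_mul, map_ofNat, map_pow, expand_comp] at h
    exact h
  have htT : expand 3 three_ne_zero (theta T) = expand 3 three_ne_zero T +
      expand 12 (by norm_num) T + 2 * expand 3 three_ne_zero G2 := by
    have h := congrArg (expand 3 three_ne_zero) hG2
    rw [map_add, map_add, map_mul, map_ofNat, expand_comp] at h
    exact h
  generalize expand 3 three_ne_zero Phip = φ3 at *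
  generalize expand 2 two_ne_zero Phi = Φ2 at *
  generalize KK = K at *
  generalize N1 = N at *
  generalize Ek 6 (by norm_num) = e6 at *
  generalize expand 2 two_ne_zero (theta S) = tS2 at *
  generalize expand 3 three_ne_zero (theta T) = tT3 at *
  generalize expand 6 (by norm_num) S = S6 at *
  generalize expand 6 (by norm_num) R = R6 at *
  generalize expand 6 (by norm_num) (expand 4 four_ne_zero T) = t24 at *
  generalize expand 6 (by norm_num) T = T6 at *
  generalize expand 12 (by norm_num) T = T12 at *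
  generalize expand 6 (by norm_num) G1 = G16 at *
  generalize expand 3 three_ne_zero T = T3 at *
  generalize expand 3 three_ne_zero G1 = G13 at *
  generalize expand 3 three_ne_zero G2 = G23 at *
  generalize theta K = tK at *
  have s1 : tK * (Φ2 * φ3) = K * (Φ2 * φ3) * ((T + T ^ 2) + 18 * (S6 + S6 ^ 2) - 6 * tT3) +
      4 * (-(K * tS2 * φ3) - R' * e6 ^ 3 - 18 * N * e6 ^ 2 * R6 + 3 * K * Φ2 * tT3 * T3) := by
    linear_combination hE - ((T + T ^ 2) + 18 * (S6 + S6 ^ 2)) * ha + 6 * K * Φ2 * tT3 * hφ3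
  have s2 : tK = K * ((T + T ^ 2) + 18 * (S6 + S6 ^ 2) - 6 * tT3) +
      4 * ((-(K * tS2 * φ3) - R' * e6 ^ 3 - 18 * N * e6 ^ 2 * R6 + 3 * K * Φ2 * tT3 * T3) * u) := by
    calc tK = tK * (Φ2 * φ3) * u := by rw [mul_assoc, hu, mul_one]
      _ = K * (Φ2 * φ3 * u) * ((T + T ^ 2) + 18 * (S6 + S6 ^ 2) - 6 * tT3) +
        4 * ((-(K * tS2 * φ3) - R' * e6 ^ 3 - 18 * N * e6 ^ 2 * R6 + 3 * K * Φ2 * tT3 * T3) * u) := by
          rw [s1]; ring
      _ = _ := by rw [hu, mul_one]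
  refine ⟨(-(K * tS2 * φ3) - R' * e6 ^ 3 - 18 * N * e6 ^ 2 * R6 + 3 * K * Φ2 * tT3 * T3) * u +
    K * (9 * t24 - 5 * T6 + 18 * t24 ^ 2 - 18 * t24 * T6 + 3 * T12 + 9 * G16 - 2 * T3 - 3 * G23 -
      G13), ?_⟩
  rw [s2, hS6, htT]
  linear_combination (18 * K) * hT6 - (2 * K) * hT3

/-- the final step modulo 16 -/
theorem G_mod (G : ℤ⟦X⟧) (hG : G * Phip ^ 6 = (expand 3 three_ne_zero Phip) ^ 4 * KK) :
    ∃ W : ℤ⟦X⟧, G = KK + 4 * theta KK + 16 * W := by
  obtain ⟨Y, hY⟩ := theta_KK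
  have hφ := Phip_eq
  have hφ3 : expand 3 three_ne_zero Phip = 1 + 2 * expand 3 three_ne_zero T := by
    rw [Phip_eq, map_add, map_mul, map_one, map_ofNat]
  generalize expand 3 three_ne_zero Phip = φ3 at *
  generalize Phip = φ at *
  generalize expand 3 three_ne_zero T = T3 at *
  generalize KK = K at *
  have h1 : G * φ ^ 8 = φ ^ 2 * φ3 ^ 4 * K := by
    linear_combination φ ^ 2 * hG
  rw [hφ, hφ3] at h1
  have h8 : (1 + 2 * T) ^ 8 = 1 + 16 * (T + 7 * T ^ 2 + 28 * T ^ 3 + 70 * T ^ 4 + 112 * T ^ 5 +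
      112 * T ^ 6 + 64 * T ^ 7 + 16 * T ^ 8) := by ring
  rw [h8] at h1
  refine ⟨-(T + 7 * T ^ 2 + 28 * T ^ 3 + 70 * T ^ 4 + 112 * T ^ 5 +
      112 * T ^ 6 + 64 * T ^ 7 + 16 * T ^ 8) * G + K * ((1 + 4 * (T + T ^ 2)) *
      (T3 ^ 2 + 2 * T3 ^ 3 + T3 ^ 4) + 2 * (T + T ^ 2) * (T3 + T3 ^ 2)) - Y, ?_⟩
  rw [hY]
  linear_combination h1

end Pool.Agent.V11172.Pd
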