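import Pool.Agent.V11172.PdE

/-!
The dissections: if `P f_1(-q) = f_4` then the coefficients of `q^(9n+7)` of `P` are those of
`-12 G`, `G φ^6 = φ_3^4 K`.
-/

set_option autoImplicit false

namespace Pool.Agent.V11172.Pd

open Finset PowerSeries Pool.Agent.Helper308.QS Pool.Agent.V11172.Ds

/-- the component of the residue class `r` modulo 3 -/
noncomputable def dd (r : ℕ) (F : ℤ⟦X⟧) : ℤ⟦X⟧ := PowerSeries.mk fun n => coeff (3 * n + r) F

theorem c3_0 (n : ℕ) (F : ℤ⟦X⟧) : coeff (3 * n) (expand 3 three_ne_zero F) = coeff n F := by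
  rw [coeff_expand, if_pos (dvd_mul_right 3 n), Nat.mul_div_cancel_left _ (by norm_num)]

theorem c3_n (m : ℕ) (h : ¬ 3 ∣ m) (F : ℤ⟦X⟧) : coeff m (expand 3 three_ne_zero F) = 0 := by
  rw [coeff_expand, if_neg h]

theorem cl0 (a b c : ℤ⟦X⟧) (n : ℕ) : coeff (3 * n) (expand 3 three_ne_zero a +
    X * expand 3 three_ne_zero b + X ^ 2 * expand 3 three_ne_zero c) = coeff n a := by
  rw [map_add, map_add, c3_0]
  have h1 : coeff (3 * n) (X * expand 3 three_ne_zero b) = 0 := by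
    rw [← pow_one (X : ℤ⟦X⟧), coeff_X_pow_mul']
    split_ifs with h
    · rw [c3_n _ (by omega)]
    · rfl
  have h2 : coeff (3 * n) (X ^ 2 * expand 3 three_ne_zero c) = 0 := by
    rw [coeff_X_pow_mul']
    split_ifs with h
    · rw [c3_n _ (by omega)]
    · rfl
  rw [h1, h2, add_zero, add_zero]

theorem cl1 (a b c : ℤ⟦X⟧) (n : ℕ) : coeff (3 * n + 1) (expand 3 three_ne_zero a +
    X * expand 3 three_ne_zero b + X ^ 2 * expand 3 three_ne_zero c) = coeff n b := by
  rw [map_add, map_add, c3_n _ (by omega), coeff_succ_X_mul, c3_0]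
  have h2 : coeff (3 * n + 1) (X ^ 2 * expand 3 three_ne_zero c) = 0 := by
    rw [coeff_X_pow_mul']
    split_ifs with h
    · rw [c3_n _ (by omega)]
    · rfl
  rw [h2, zero_add, add_zero]

theorem cl2 (a b c : ℤ⟦X⟧) (n : ℕ) : coeff (3 * n + 2) (expand 3 three_ne_zero a +
    X * expand 3 three_ne_zero b + X ^ 2 * expand 3 three_ne_zero c) = coeff n c := by
  rw [map_add, map_add, c3_n _ (by omega), show 3 * n + 2 = (3 * n + 1) + 1 by ring,
    coeff_succ_X_mul, c3_n _ (by omega)]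
  have h2 : coeff (3 * n + 1 + 1) (X ^ 2 * expand 3 three_ne_zero c) = coeff n c := by
    rw [coeff_X_pow_mul', if_pos (by omega), show 3 * n + 1 + 1 - 2 = 3 * n by omega, c3_0]
  rw [h2, zero_add, zero_add]

theorem dec3 (F : ℤ⟦X⟧) : F = expand 3 three_ne_zero (dd 0 F) +
    X * expand 3 three_ne_zero (dd 1 F) + X ^ 2 * expand 3 three_ne_zero (dd 2 F) := by
  ext m
  rcases (by omega : m % 3 = 0 ∨ m % 3 = 1 ∨ m % 3 = 2) with h | h | h
  · obtain ⟨n, rfl⟩ : ∃ n, m = 3 * n := ⟨m / 3, by omega⟩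
    rw [cl0, dd, coeff_mk, add_zero]
  · obtain ⟨n, rfl⟩ : ∃ n, m = 3 * n + 1 := ⟨m / 3, by omega⟩
    rw [cl1, dd, coeff_mk]
  · obtain ⟨n, rfl⟩ : ∃ n, m = 3 * n + 2 := ⟨m / 3, by omega⟩
    rw [cl2, dd, coeff_mk]

theorem uniq1 {a b c a' b' c' : ℤ⟦X⟧} (h : expand 3 three_ne_zero a +
    X * expand 3 three_ne_zero b + X ^ 2 * expand 3 three_ne_zero c = expand 3 three_ne_zero a' +
    X * expand 3 three_ne_zero b' + X ^ 2 * expand 3 three_ne_zero c') : b = b' := by
  ext n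
  have := congrArg (coeff (3 * n + 1)) h
  rwa [cl1, cl1] at this

theorem uniq2 {a b c a' b' c' : ℤ⟦X⟧} (h : expand 3 three_ne_zero a +
    X * expand 3 three_ne_zero b + X ^ 2 * expand 3 three_ne_zero c = expand 3 three_ne_zero a' +
    X * expand 3 three_ne_zero b' + X ^ 2 * expand 3 three_ne_zero c') : c = c' := by
  ext n
  have := congrArg (coeff (3 * n + 2)) h
  rwa [cl2, cl2] at this

theorem two_ne' : (2 : ℤ⟦X⟧) ≠ 0 := by
  intro h
  have := congrArg constantCoeff h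
  rw [map_ofNat, map_zero] at this
  norm_num at this

theorem phip_ne : Phip ≠ 0 := by
  intro h
  have := const_phip
  rw [h] at this
  simp at this

theorem phip3_ne : expand 3 three_ne_zero Phip ≠ 0 := by
  intro h
  have h3 := congrArg constantCoeff h
  rw [const_expand, const_phip, map_zero] at h3
  norm_num at h3

/-- `P φ = ψ` -/
theorem P_phi {P : ℤ⟦X⟧} (hP : P * N1 = Ek 4 four_ne_zero) : P * Phip = psi := by
  have h1 := N1_sq
  have h2 := N1_eta
  have h3 := psi_eta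
  have n1 := E1_ne
  have n2 := Ek_ne 2 two_ne_zero
  have n4 := Ek_ne 4 four_ne_zero
  apply mul_right_cancel₀ (mul_ne_zero n2 n1)
  calc P * Phip * (Ek 2 two_ne_zero * E1) = P * (Ek 2 two_ne_zero * Phip) * E1 := by ring
    _ = (P * N1) * N1 * E1 := by rw [← h1]; ring
    _ = N1 * (E1 * Ek 4 four_ne_zero) := by rw [hP]; ring
    _ = Ek 2 two_ne_zero * (psi * E1) := by rw [h2, h3]; ring
    _ = _ := by ring

/-- `D = φ_3^3 + 8 q Ω^3` -/
noncomputable def DD : ℤ⟦X⟧ := (expand 3 three_ne_zero Phip) ^ 3 + 8 * X * Om ^ 3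

theorem DD_phi : DD * expand 3 three_ne_zero Phip = Phip ^ 4 := by
  rw [DD, I1]; ring

/-- `φ κ = D(q^3)` -/
theorem kappa : Phip * ((expand 9 (by norm_num) Phip) ^ 2 - 2 * X * (expand 9 (by norm_num) Phip *
    expand 3 three_ne_zero Om) + 4 * X ^ 2 * (expand 3 three_ne_zero Om) ^ 2) =
    expand 3 three_ne_zero DD := by
  have d1 := phip_dis
  rw [DD]
  simp only [map_add, map_mul, map_pow, map_ofNat, e33, expand_X]
  generalize expand 9 (by norm_num) Phip = φ9 at *
  rw [d1]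
  ring

theorem first {P : ℤ⟦X⟧} (hP : P * Phip = psi) :
    2 * dd 1 P * Phip ^ 2 = -(expand 3 three_ne_zero Ps2 * expand 3 three_ne_zero Phip) := by
  have h1 : 2 * P * expand 3 three_ne_zero DD = Ps2 * ((expand 9 (by norm_num) Phip) ^ 2 -
      2 * X * (expand 9 (by norm_num) Phip * expand 3 three_ne_zero Om) +
      4 * X ^ 2 * (expand 3 three_ne_zero Om) ^ 2) := by
    rw [← kappa, Ps2_eq, ← hP]; ring
  have h2 : expand 3 three_ne_zero (2 * dd 0 P * DD) + X * expand 3 three_ne_zero (2 * dd 1 P * DD) +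
      X ^ 2 * expand 3 three_ne_zero (2 * dd 2 P * DD) =
      expand 3 three_ne_zero (2 * AA * (expand 3 three_ne_zero Phip) ^ 2 +
        4 * X * (expand 3 three_ne_zero Ps2 * Om ^ 2)) +
      X * expand 3 three_ne_zero (expand 3 three_ne_zero Ps2 * (expand 3 three_ne_zero Phip) ^ 2 -
        4 * AA * expand 3 three_ne_zero Phip * Om) +
      X ^ 2 * expand 3 three_ne_zero (8 * AA * Om ^ 2 -
        2 * (expand 3 three_ne_zero Ps2 * expand 3 three_ne_zero Phip * Om)) := by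
    have d3 := Ps2_dis
    have e := dec3 P
    simp only [map_sub, map_mul, map_add, map_pow, map_ofNat, e33, expand_X]
    generalize expand 9 (by norm_num) Ps2 = Ψ9 at *
    rw [d3] at h1
    linear_combination h1 - (2 * expand 3 three_ne_zero DD) * e
  have h3 := uniq1 h2
  have h4 := I2
  have h5 := DD_phi
  apply mul_right_cancel₀ (pow_ne_zero 2 phip_ne)
  linear_combination (expand 3 three_ne_zero Phip) * h3 - (2 * dd 1 P) * h5 -
    expand 3 three_ne_zero Phip * h4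

theorem second {p : ℤ⟦X⟧}
    (hp : 2 * p * Phip ^ 2 = -(expand 3 three_ne_zero Ps2 * expand 3 three_ne_zero Phip)) :
    dd 2 p * Phip ^ 6 = -12 * ((expand 3 three_ne_zero Phip) ^ 4 * KK) := by
  have h1 : 2 * p * (expand 3 three_ne_zero DD) ^ 2 =
      -(expand 3 three_ne_zero Ps2 * expand 3 three_ne_zero Phip) *
      ((expand 9 (by norm_num) Phip) ^ 2 - 2 * X * (expand 9 (by norm_num) Phip *
        expand 3 three_ne_zero Om) + 4 * X ^ 2 * (expand 3 three_ne_zero Om) ^ 2) ^ 2 := by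
    rw [← kappa, ← hp]; ring
  have h2 : expand 3 three_ne_zero (2 * dd 0 p * DD ^ 2) +
      X * expand 3 three_ne_zero (2 * dd 1 p * DD ^ 2) +
      X ^ 2 * expand 3 three_ne_zero (2 * dd 2 p * DD ^ 2) =
      expand 3 three_ne_zero (-(Ps2 * Phip) * ((expand 3 three_ne_zero Phip) ^ 4 -
        16 * X * (expand 3 three_ne_zero Phip * Om ^ 3))) +
      X * expand 3 three_ne_zero (-(Ps2 * Phip) * (-4 * ((expand 3 three_ne_zero Phip) ^ 3 * Om) +
        16 * X * Om ^ 4)) +
      X ^ 2 * expand 3 three_ne_zero (-(Ps2 * Phip) *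
        (12 * ((expand 3 three_ne_zero Phip) ^ 2 * Om ^ 2))) := by
    have e := dec3 p
    simp only [map_sub, map_mul, map_add, map_pow, map_ofNat, map_neg, e33, expand_X]
    linear_combination h1 - (2 * (expand 3 three_ne_zero DD) ^ 2) * e
  have h3 := uniq2 h2
  have h5 := DD_phi
  have h6 := C2
  have h7 := Ps2_eq
  rw [h7] at h3
  have h8 : dd 2 p * Phip ^ 8 = -12 * (psi * Phip * (expand 3 three_ne_zero Phip) ^ 4 * Om ^ 2) := by
    apply mul_left_cancel₀ two_ne'
    linear_combination (expand 3 three_ne_zero Phip) ^ 2 * h3 -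
      (2 * dd 2 p * (DD * expand 3 three_ne_zero Phip + Phip ^ 4)) * h5
  rw [KK]
  apply mul_right_cancel₀ (pow_ne_zero 2 phip_ne)
  linear_combination h8 + (12 * Phip * (expand 3 three_ne_zero Phip) ^ 4) * h6

/-- the coefficients `9 n + 7` of `P` -/
theorem coeff_97 {P : ℤ⟦X⟧} (hP : P * N1 = Ek 4 four_ne_zero) (n : ℕ) :
    ∃ w : ℤ, coeff (9 * n + 7) P = -12 * ((1 + 4 * n) * coeff n KK + 16 * w) := by
  have h1 := second (first (P_phi hP))
  obtain ⟨u, hu⟩ := unit_of_const (F := Phip ^ 6) (by rw [map_pow, const_phip]; norm_num)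
  set s := dd 2 (dd 1 P) with hs
  have h2 : s = -12 * ((expand 3 three_ne_zero Phip) ^ 4 * KK * u) := by
    calc s = s * Phip ^ 6 * u := by rw [mul_assoc, hu, mul_one]
      _ = _ := by rw [h1]; ring
  obtain ⟨W, hW⟩ := G_mod ((expand 3 three_ne_zero Phip) ^ 4 * KK * u) (by
    rw [mul_assoc, mul_comm u, hu, mul_one])
  rw [hW] at h2
  have h3 := congrArg (coeff n) h2
  have e1 : coeff n s = coeff (9 * n + 7) P := by
    rw [hs, dd, coeff_mk, dd, coeff_mk]
    congr 1
    congr 1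
    ring
  refine ⟨coeff n W, ?_⟩
  rw [← e1, h3]
  have e12 : (-12 : ℤ⟦X⟧) = C (-12) := by rw [map_neg, map_ofNat]
  have e4 : (4 : ℤ⟦X⟧) = C 4 := (map_ofNat (C (R := ℤ)) 4).symm
  have e16 : (16 : ℤ⟦X⟧) = C 16 := (map_ofNat (C (R := ℤ)) 16).symm
  rw [e12, e4, e16, coeff_C_mul, map_add, map_add, coeff_C_mul, coeff_C_mul, theta, coeff_mk]
  ring

end Pool.Agent.V11172.Pd
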