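import Pool.Agent.V11172.PdF
import Mathlib.Combinatorics.Enumerative.Partition.GenFun

/-!
Partitions with distinct even parts: the generating function, and the congruence modulo 192.
-/

set_option autoImplicit false

namespace Pool.Agent.V11172.Pd

open Finset PowerSeries Pool.Agent.Helper308.QS Pool.Agent.V11172.Ds

/-- the number of partitions of `n` in which each even part occurs at most once -/
def ped (n : ℕ) : ℕ :=
  ((Finset.univ : Finset (Nat.Partition n)).filter
    (fun p => ∀ i ∈ p.parts, Even i → p.parts.count i ≤ 1)).card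

/-- the character -/
def fped (i c : ℕ) : ℤ := if (Even i → c ≤ 1) then 1 else 0

theorem gen_ped : Nat.Partition.genFun fped = PowerSeries.mk fun n => (ped n : ℤ) := by
  simp_rw [Nat.Partition.genFun, ped, card_filter, Finsupp.prod, fped, prod_boole]
  simp

/-- the factor -/
noncomputable def vv (i : ℕ) : ℤ⟦X⟧ := if Even (i + 1) then 1 - X ^ (2 * (i + 1)) else 1

theorem prod_vv (M : ℕ) : ∏ i ∈ range (2 * M), vv i = pm 4 4 M := by
  induction M with
  | zero => simp [pm]
  | succ M ih =>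
    rw [show 2 * (M + 1) = 2 * M + 1 + 1 by ring, prod_range_succ, prod_range_succ, ih, pm, pm,
      prod_range_succ, mul_assoc]
    congr 1
    have h1 : vv (2 * M) = 1 := by
      unfold vv; rw [if_neg]; rw [Nat.not_even_iff_odd]; exact odd_two_mul_add_one M
    have h2 : vv (2 * M + 1) = 1 - X ^ (4 * M + 4) := by
      unfold vv
      rw [if_pos ⟨M + 1, by ring⟩]
      congr 2
      ring
    rw [h1, h2, one_mul]

open PowerSeries.WithPiTopology in
theorem ped_gf : (PowerSeries.mk fun n => (ped n : ℤ)) * E1 = Ek 4 four_ne_zero := by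
  rw [← gen_ped]
  have h1 := Nat.Partition.hasProd_genFun fped
  have h2 := hasProd_one_sub_X_pow ℤ
  have h3 := h1.mul h2
  have h4 : (fun i : ℕ => (1 + ∑' j : ℕ, fped (i + 1) (j + 1) • (X : ℤ⟦X⟧) ^ ((i + 1) * (j + 1))) *
      (1 - X ^ (i + 1))) = vv := by
    funext i
    unfold vv
    by_cases hi : Even (i + 1)
    · rw [if_pos hi, tsum_eq_single 0]
      · have : fped (i + 1) (0 + 1) = 1 := by unfold fped; rw [if_pos]; intro _; norm_num
        rw [this, one_smul]
        ring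
      · intro j hj
        have : fped (i + 1) (j + 1) = 0 := by
          unfold fped; rw [if_neg]; intro h; have := h hi; omega
        rw [this, zero_smul]
    · rw [if_neg hi]
      have e : ∀ j : ℕ, fped (i + 1) (j + 1) • (X : ℤ⟦X⟧) ^ ((i + 1) * (j + 1)) =
          (X : ℤ⟦X⟧) ^ ((i + 1) * (j + 1)) := by
        intro j
        have : fped (i + 1) (j + 1) = 1 := by
          unfold fped; rw [if_pos]; intro h; exact absurd h hi
        rw [this, one_smul]
      simp_rw [e]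
      have hs : Summable (fun j : ℕ => ((X : ℤ⟦X⟧) ^ (i + 1)) ^ j) :=
        summable_pow_of_constantCoeff_eq_zero (by simp)
      have e2 : (1 + ∑' j : ℕ, (X : ℤ⟦X⟧) ^ ((i + 1) * (j + 1))) =
          ∑' j : ℕ, ((X : ℤ⟦X⟧) ^ (i + 1)) ^ j := by
        rw [hs.tsum_eq_zero_add, pow_zero]
        congr 1
        refine tsum_congr fun j => ?_
        rw [← pow_mul]
      rw [e2]
      exact tsum_pow_mul_one_sub_of_constantCoeff_eq_zero (by simp)
  replace h3 : HasProd vv (Nat.Partition.genFun fped * pentagonalSeries ℤ) := by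
    rw [← h4]
    exact h3
  rw [HasProd, tendsto_iff_coeff_tendsto] at h3
  ext d
  have h5 := h3 d
  have h6 : ∀ᶠ s in (Filter.atTop : Filter (Finset ℕ)), coeff d (∏ i ∈ s, vv i) =
      coeff d (Nat.Partition.genFun fped * pentagonalSeries ℤ) := by
    simpa using h5
  have h7 := Filter.tendsto_finset_range.eventually h6
  obtain ⟨M, hM⟩ := Filter.eventually_atTop.1 h7
  have h8 := hM (2 * (M + d)) (by omega)
  rw [E1, ← h8, prod_vv]
  have h9 := pr_eq'.1 (pr_pm 4 four_ne_zero (N := d) (n := M + d) (by omega))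
  exact h9 d le_rfl

/-- `P(-q)` -/
theorem ped_signed : rescale (-1 : ℤ) (PowerSeries.mk fun n => (ped n : ℤ)) * N1 =
    Ek 4 four_ne_zero := by
  have h := congrArg (rescale (-1 : ℤ)) ped_gf
  rw [map_mul] at h
  rw [N1, h]
  have : Ek 4 four_ne_zero = expand 2 two_ne_zero (Ek 2 two_ne_zero) := by
    rw [expand_Ek]
  rw [this, N_expand2]

theorem g6P : Gr (fun i => ((6 : ℕ) : ℤ) * ePs i) := gr_mul (by norm_num) gPs ePs_nonneg

theorem coeff_KK_zero {N : ℕ} (h : ∀ x z : ℤ, x ^ 2 + 18 * z ^ 2 ≠ 24 * N + 19) :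
    coeff N KK = 0 := by
  rw [KK, AA, psi_def, expand_th 6 (by norm_num) _ gPs ePs_nonneg,
    coeff_th_mul gA g6P eA_nonneg (nn_mul 6 ePs_nonneg) N (B := N + 1) le_rfl]
  refine sum_eq_zero fun p _ => ?_
  rw [if_neg]
  intro h2
  apply h (6 * p.1 + 1) (4 * p.2 - 1)
  have h3 := eA_two p.1
  unfold ePs at h2
  push_cast at h2
  linear_combination 24 * h2 - 12 * h3

/-- the criterion -/
theorem ped_192 {N : ℕ} (h : ∀ x z : ℤ, x ^ 2 + 18 * z ^ 2 ≠ 24 * N + 19) :
    192 ∣ ped (9 * N + 7) := by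
  obtain ⟨w, hw⟩ := coeff_97 ped_signed N
  rw [coeff_KK_zero h, coeff_rescale, coeff_mk] at hw
  have h2 : (192 : ℤ) ∣ (-1) ^ (9 * N + 7) * (ped (9 * N + 7) : ℤ) := ⟨-w, by rw [hw]; ring⟩
  have h3 : (192 : ℤ) ∣ (ped (9 * N + 7) : ℤ) := by
    have e : (ped (9 * N + 7) : ℤ) = (-1) ^ (9 * N + 7) * ((-1) ^ (9 * N + 7) *
        (ped (9 * N + 7) : ℤ)) := by
      rw [← mul_assoc, ← mul_pow]; simp
    rw [e]
    exact h2.mul_left _
  exact_mod_cast h3

/-- the form `x^2 + 2 z^2` at an inert prime -/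
theorem inert {p : ℕ} [hp : Fact p.Prime] (h : legendreSym p (-2) = -1) {x z : ℤ}
    (hd : (p : ℤ) ∣ x ^ 2 + 2 * z ^ 2) : (p : ℤ) ∣ x ∧ (p : ℤ) ∣ z := by
  rw [legendreSym.eq_neg_one_iff] at h
  have h1 : ((x : ZMod p)) ^ 2 + 2 * (z : ZMod p) ^ 2 = 0 := by
    have := (ZMod.intCast_zmod_eq_zero_iff_dvd (x ^ 2 + 2 * z ^ 2) p).2 hd
    push_cast at this
    exact this
  by_cases hz : (z : ZMod p) = 0
  · have hx : (x : ZMod p) = 0 := by
      rw [hz] at h1
      have h2 : (x : ZMod p) ^ 2 = 0 := by linear_combination h1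
      exact pow_eq_zero_iff (two_ne_zero) |>.1 h2
    exact ⟨(ZMod.intCast_zmod_eq_zero_iff_dvd x p).1 hx, (ZMod.intCast_zmod_eq_zero_iff_dvd z p).1 hz⟩
  · exfalso
    apply h
    refine ⟨(x : ZMod p) / z, ?_⟩
    push_cast
    field_simp
    linear_combination -h1

theorem no_form {p : ℕ} [hp : Fact p.Prime] (h : legendreSym p (-2) = -1) {u : ℤ}
    (hu : ¬ (p : ℤ) ∣ u) : ∀ s : ℕ, 0 < s → ∀ x z : ℤ, x ^ 2 + 2 * z ^ 2 ≠ p * s ^ 2 * u := by
  intro s
  induction s using Nat.strong_induction_on with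
  | _ s ih =>
    intro hs x z hxz
    have hpp : Prime (p : ℤ) := Nat.prime_iff_prime_int.1 hp.out
    have hp0 : (p : ℤ) ≠ 0 := hpp.ne_zero
    obtain ⟨⟨a, rfl⟩, ⟨b, rfl⟩⟩ := inert h (x := x) (z := z) ⟨s ^ 2 * u, by rw [hxz]; ring⟩
    have h1 : (p : ℤ) * (a ^ 2 + 2 * b ^ 2) = s ^ 2 * u := by
      apply mul_left_cancel₀ hp0
      linear_combination hxz
    have h2 : (p : ℤ) ∣ (s : ℤ) ^ 2 * u := ⟨_, h1.symm⟩
    have h3 : (p : ℤ) ∣ (s : ℤ) := by
      rcases hpp.dvd_or_dvd h2 with h4 | h4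
      · exact hpp.dvd_of_dvd_pow h4
      · exact absurd h4 hu
    have h4 : p ∣ s := by exact_mod_cast h3
    obtain ⟨r, rfl⟩ := h4
    have hr : 0 < r := Nat.pos_of_mul_pos_left hs
    refine ih r ?_ hr a b ?_
    · calc r = 1 * r := (one_mul r).symm
        _ < p * r := Nat.mul_lt_mul_of_pos_right hp.out.one_lt hr
    · apply mul_left_cancel₀ hp0
      push_cast at h1
      linear_combination h1

end Pool.Agent.V11172.Pd
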